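import Pool.Agent.Lib.MP_a52643_an.CP.Defs

/-!
The divergence of the regularised angle form.
-/

open Complex MeasureTheory Set Filter Topology Metric
open scoped ComplexConjugate ContDiff ENNReal

noncomputable section

namespace Pool.Agent.Lib.MP_a52643_an.CP

lemma Ang_sub {f g : ℂ → ℂ} {z : ℂ} (hf : DifferentiableAt ℝ f z) (hg : DifferentiableAt ℝ g z) :
    dz (fun w => f w - g w) z = dz f z - dz g z := by
  simp only [dz, wp, fderiv_fun_sub hf hg]; simp; ring

lemma Ang_ne (a : ℂ) {ε : ℝ} (hε : 0 < ε) : ((normSq a + ε : ℝ) : ℂ) ≠ 0 := by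
  exact_mod_cast (add_pos_of_nonneg_of_pos (normSq_nonneg a) hε).ne'

/-- The regularised angle form is smooth. -/
lemma Ang_cd {w : ℂ → ℂ} (hw : ContDiffOn ℝ ∞ w UH) {ε : ℝ} (hε : 0 < ε) :
    ContDiffOn ℝ ∞
      (fun y => (conj (w y) * dzb w y - w y * conj (dz w y)) / (normSq (w y) + ε : ℝ)) UH := by
  have hN := ((cd_conj hw).mul (cd_dzb hw)).sub (hw.mul (cd_conj (cd_dz hw)))
  have hD : ContDiffOn ℝ ∞ (fun y => ((normSq (w y) + ε : ℝ) : ℂ)) UH :=
    cd_rC ((cd_normSq hw).add contDiffOn_const)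
  exact (hN.mul (hD.inv fun y _ => Ang_ne _ hε)).congr fun y _ => div_eq_mul_inv _ _

/-- The regularised angle form and its divergence. -/
theorem div_angle {w : ℂ → ℂ} (hw : ContDiffOn ℝ ∞ w UH) {ε : ℝ} (hε : 0 < ε) {z : ℂ}
    (hz : z ∈ UH) :
    eP (fun y => (conj (w y) * dzb w y - w y * conj (dz w y)) / (normSq (w y) + ε : ℝ))
      (fun y => conj ((conj (w y) * dzb w y - w y * conj (dz w y)) / (normSq (w y) + ε : ℝ))) z
      = -kd w ε z := by
  have dX := dAt (Ang_cd hw hε) hz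
  have d0 := dAt hw hz
  have d1 := dAt (cd_conj hw) hz
  have d2 := dAt (cd_dzb hw) hz
  have d3 := dAt (cd_conj (cd_dz hw)) hz
  have hc : dz (dzb w) z = dzb (dz w) z := dz_dzb ((cdAt hw hz).of_le (by norm_cast))
  have eN : dz (fun y => conj (w y) * dzb w y - w y * conj (dz w y)) z
      = conj (dzb w z) * dzb w z + conj (w z) * dz (dzb w) z
        - (dz w z * conj (dz w z) + w z * conj (dz (dzb w) z)) := by
    rw [Ang_sub (d1.fun_mul d2) (d0.fun_mul d3), dz_mul d1 d2, dz_mul d0 d3, dz_conj, dz_conj, hc]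
  have eD : dz (fun y => w y * conj (w y) + (ε : ℂ)) z
      = dz w z * conj (w z) + w z * conj (dzb w z) := by
    rw [dz_add (d0.fun_mul d1) (differentiableAt_const _), dz_mul d0 d1, dz_conj, dz_const, add_zero]
  have e : (fun y => conj (w y) * dzb w y - w y * conj (dz w y)) = fun y =>
      (conj (w y) * dzb w y - w y * conj (dz w y)) / (normSq (w y) + ε : ℝ)
        * (w y * conj (w y) + (ε : ℂ)) := by
    ext y
    rw [mul_conj, ← ofReal_add, div_mul_cancel₀ _ (Ang_ne _ hε)]
  rw [e, dz_mul dX ((d0.fun_mul d1).fun_add (differentiableAt_const _)), eD] at eN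
  have hD := Ang_ne (w z) hε
  rw [eP, dzb_conj, kd]
  generalize dz (fun y => (conj (w y) * dzb w y - w y * conj (dz w y)) / (normSq (w y) + ε : ℝ)) z
    = Y at eN ⊢
  have eC := congrArg conj eN
  simp only [map_add, map_mul, map_sub, map_div₀, conj_conj, conj_ofReal] at eC
  push_cast at eN eC hD ⊢
  simp only [← mul_conj] at eN eC hD ⊢
  generalize dz (dzb w) z = c at eN eC
  generalize dz w z = a at eN eC ⊢
  generalize dzb w z = b at eN eC ⊢
  generalize w z = v at eN eC hD ⊢
  field_simp at eN eC ⊢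
  linear_combination eN + eC

end Pool.Agent.Lib.MP_a52643_an.CP
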