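import Pool.Agent.Lib.MP_a52643_an.CP.Id

/-!
The fields that pass to the limit.
-/

open Complex MeasureTheory Set Filter Topology Metric
open scoped ComplexConjugate ContDiff ENNReal

noncomputable section

namespace Pool.Agent.Lib.MP_a52643_an.CP

variable {σ u : ℂ → ℝ} {lam : ℝ} {K K₀ : Set ℂ} {CE CM : Set ℂ → ℝ} {z : ℂ}

lemma coreA_cont_deriv {κ : ℝ → ℝ} (hκ : ContDiff ℝ ∞ κ) : ContDiff ℝ ∞ (deriv κ) :=
  (contDiff_infty_iff_deriv.1 hκ).2

lemma coreA_deriv_zero {κ : ℝ → ℝ} (hκ : ContDiff ℝ ∞ κ) {a : ℝ} (h0 : ∀ t ≤ a, κ t = 0) :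
    ∀ t ≤ a, deriv κ t = 0 := by
  have h1 : EqOn (deriv κ) (fun _ => 0) (Iio a) := fun t ht => by
    have : κ =ᶠ[𝓝 t] fun _ => 0 := by
      filter_upwards [Iio_mem_nhds ht] with s hs using h0 s (le_of_lt hs)
    rw [this.deriv_eq, deriv_const]
  have h2 := h1.closure (coreA_cont_deriv hκ).continuous continuous_const
  rw [closure_Iio] at h2
  exact fun t ht => h2 ht

lemma coreA_hd (A : ℝ) (k : ℕ) {t : ℝ} (ht : t ≠ 0) :
    HasDerivAt (fun s : ℝ => A / s ^ k) (-(k * A) / t ^ (k + 1)) t := by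
  have := ((hasDerivAt_pow k t).fun_inv (pow_ne_zero k ht)).const_mul A
  have e : -(k * A) / t ^ (k + 1) = A * (-(k * t ^ (k - 1)) / (t ^ k) ^ 2) := by
    rcases k with _ | k
    · simp
    · simp only [Nat.add_sub_cancel]
      field_simp
      ring
  simpa only [div_eq_mul_inv A, e] using this

lemma coreA_deriv_tail {κ : ℝ → ℝ} {a A : ℝ} {k : ℕ} (ha : 0 ≤ a)
    (h : ∀ t, a ≤ t → κ t = A / t ^ k) {t : ℝ} (ht : a < t) :
    deriv κ t = -(k * A) / t ^ (k + 1) := by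
  have : κ =ᶠ[𝓝 t] fun s => A / s ^ k := by
    filter_upwards [Ioi_mem_nhds ht] with s hs using h s (le_of_lt hs)
  rw [this.deriv_eq, (coreA_hd A k (ha.trans_lt ht).ne').deriv]

lemma coreA_bd {κ : ℝ → ℝ} (hκ : Continuous κ) (A : ℝ) {k n : ℕ} (hk : n ≤ k)
    (h : ∀ t, 1 < t → κ t = A / t ^ k) : ∃ Λ, ∀ t, 0 < t → |κ t| ≤ Λ / t ^ n := by
  obtain ⟨M, hM⟩ := (isCompact_Icc (a := (0 : ℝ)) (b := 1)).exists_bound_of_continuousOn
    hκ.continuousOn
  have M0 : 0 ≤ M := (norm_nonneg _).trans (hM 0 (by simp))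
  refine ⟨M + |A|, fun t ht => ?_⟩
  have hp : 0 < t ^ n := pow_pos ht n
  by_cases h1 : t ≤ 1
  · have := hM t ⟨ht.le, h1⟩
    rw [Real.norm_eq_abs] at this
    rw [le_div_iff₀ hp]
    have h2 : t ^ n ≤ 1 := pow_le_one₀ ht.le h1
    nlinarith [abs_nonneg A, abs_nonneg (κ t)]
  · have h1 : 1 < t := not_le.1 h1
    rw [h t h1, abs_div, abs_of_pos (pow_pos ht k)]
    exact div_le_div₀ (by positivity) (by linarith) hp (pow_le_pow_right₀ h1.le hk)

lemma coreA_adm_mono {κ : ℝ → ℝ} {Λ Λ' : ℝ} (h : Adm κ Λ) (hl : Λ ≤ Λ') : Adm κ Λ' :=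
  ⟨h.cd, h.zero, fun t ht => (h.b0 t ht).trans (by gcongr),
    fun t ht => (h.b1 t ht).trans (by gcongr)⟩

theorem adm_of_tail {κ : ℝ → ℝ} (hκ : ContDiff ℝ ∞ κ) (h0 : ∀ t ≤ 1 / 4, κ t = 0) (A : ℝ) {k : ℕ}
    (hk : 2 ≤ k) (h : ∀ t, 1 ≤ t → κ t = A / t ^ k) : ∃ Λ, Adm κ Λ := by
  obtain ⟨a, ha⟩ := coreA_bd hκ.continuous A hk fun t ht => h t ht.le
  obtain ⟨b, hb⟩ := coreA_bd (coreA_cont_deriv hκ).continuous (-(k * A)) (n := 3) (k := k + 1)
    (by omega) fun t ht => coreA_deriv_tail zero_le_one h ht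
  exact ⟨max a b, hκ, h0, fun t ht => (ha t ht).trans (by gcongr; exact le_max_left _ _),
    fun t ht => (hb t ht).trans (by gcongr; exact le_max_right _ _)⟩

lemma coreA_f0_zero : ∀ t ≤ 1 / 4, f0 t = 0 := fun t ht => by
  rw [f0, Real.smoothTransition.zero_of_nonpos (by linarith), zero_div]

lemma coreA_g0_zero : ∀ t ≤ 1 / 4, g0 t = 0 := fun t ht => by
  rw [g0, coreA_f0_zero t ht, zero_div]

lemma coreA_f0_tail : ∀ t, 1 / 2 ≤ t → f0 t = 1 / t ^ 2 := fun t ht => by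
  rw [f0, Real.smoothTransition.one_of_one_le (by linarith)]

lemma coreA_g0_tail : ∀ t, 1 / 2 ≤ t → g0 t = 1 / t ^ 3 := fun t ht => by
  rw [g0, coreA_f0_tail t ht, div_div, ← pow_succ]

lemma coreA_f0_eq (t : ℝ) : f0 t = g0 t * t := by
  by_cases ht : t = 0
  · rw [coreA_f0_zero t (by rw [ht]; norm_num), ht, mul_zero]
  · rw [g0, div_mul_cancel₀ _ ht]

theorem f0_cd : ContDiff ℝ ∞ f0 :=
  cd_div_pow (κ := fun t => Real.smoothTransition (4 * t - 1)) (a := 1 / 4)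
    (Real.smoothTransition.contDiff.comp ((contDiff_const.mul contDiff_id).sub contDiff_const))
    (by norm_num) (fun t ht => Real.smoothTransition.zero_of_nonpos (by linarith)) 2

theorem g0_cd : ContDiff ℝ ∞ g0 := by
  have := cd_div_pow f0_cd (a := 1 / 4) (by norm_num) coreA_f0_zero 1
  simp only [pow_one] at this
  exact this

theorem f0_mem (t : ℝ) : 0 ≤ f0 t ∧ f0 t ≤ 16 := by
  refine ⟨div_nonneg (Real.smoothTransition.nonneg _) (sq_nonneg _), ?_⟩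
  by_cases ht : t ≤ 1 / 4
  · rw [coreA_f0_zero t ht]; norm_num
  · have ht : 1 / 4 < t := not_le.1 ht
    have := Real.smoothTransition.le_one (4 * t - 1)
    rw [f0, div_le_iff₀ (by positivity)]
    nlinarith

theorem f0_ge {t : ℝ} (h : 1 / 2 ≤ t) (h' : t ≤ 2) : 1 / 4 ≤ f0 t := by
  rw [coreA_f0_tail t h]
  exact one_div_le_one_div_of_le (by positivity) (by nlinarith)

theorem adm_g0 : ∃ Λ, Adm g0 Λ ∧ Adm (fun t => deriv g0 t * t ^ 2) Λ ∧
    Adm (fun t => g0 t * deriv f0 t * t ^ 2) Λ ∧ Adm f0 Λ ∧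
    (∀ t, |2 * g0 t + deriv f0 t| ≤ Λ) ∧
    ∀ t, t ≤ 1 / 4 ∨ 1 / 2 ≤ t → 2 * g0 t + deriv f0 t = 0 := by
  have dg : ∀ t : ℝ, 1 / 2 < t → deriv g0 t = _ := fun t ht =>
    coreA_deriv_tail (by norm_num) coreA_g0_tail ht
  have df : ∀ t : ℝ, 1 / 2 < t → deriv f0 t = _ := fun t ht =>
    coreA_deriv_tail (by norm_num) coreA_f0_tail ht
  obtain ⟨a, ha⟩ := adm_of_tail g0_cd coreA_g0_zero 1 (k := 3) (by norm_num)
    fun t ht => coreA_g0_tail t (by linarith)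
  obtain ⟨b, hb⟩ := adm_of_tail (κ := fun t => deriv g0 t * t ^ 2)
    ((coreA_cont_deriv g0_cd).mul (contDiff_id.pow 2))
    (fun t ht => by rw [coreA_deriv_zero g0_cd coreA_g0_zero t ht, zero_mul]) (-3) (k := 2) le_rfl
    fun t ht => by
      have : t ≠ 0 := by positivity
      rw [dg t (by linarith)]; push_cast; field_simp
  obtain ⟨c, hc⟩ := adm_of_tail (κ := fun t => g0 t * deriv f0 t * t ^ 2)
    ((g0_cd.mul (coreA_cont_deriv f0_cd)).mul (contDiff_id.pow 2))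
    (fun t ht => by rw [coreA_g0_zero t ht, zero_mul, zero_mul]) (-2) (k := 4) (by norm_num)
    fun t ht => by
      have : t ≠ 0 := by positivity
      rw [df t (by linarith), coreA_g0_tail t (by linarith)]; push_cast; field_simp
  obtain ⟨d, hd⟩ := adm_of_tail f0_cd coreA_f0_zero 1 (k := 2) le_rfl
    fun t ht => coreA_f0_tail t (by linarith)
  have hco : Continuous fun t => 2 * g0 t + deriv f0 t :=
    (continuous_const.mul g0_cd.continuous).add (coreA_cont_deriv f0_cd).continuous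
  have hz : ∀ t : ℝ, t ≤ 1 / 4 ∨ 1 / 2 ≤ t → 2 * g0 t + deriv f0 t = 0 := by
    rintro t (ht | ht)
    · rw [coreA_g0_zero t ht, coreA_deriv_zero f0_cd coreA_f0_zero t ht]; ring
    · have h1 : EqOn (fun t => 2 * g0 t + deriv f0 t) (fun _ => 0) (Ioi (1 / 2)) := fun s hs => by
        have hs : 1 / 2 < s := hs
        have : s ≠ 0 := by positivity
        simp only
        rw [df s hs, coreA_g0_tail s hs.le]; push_cast; field_simp; ring
      have h2 := h1.closure hco continuous_const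
      rw [closure_Ioi] at h2
      exact h2 ht
  obtain ⟨e, he⟩ := (isCompact_Icc (a := (0 : ℝ)) (b := 1)).exists_bound_of_continuousOn
    hco.continuousOn
  have e0 : 0 ≤ e := (norm_nonneg _).trans (he 0 (by simp))
  refine ⟨max (max a b) (max (max c d) e), coreA_adm_mono ha (by simp), coreA_adm_mono hb (by simp),
    coreA_adm_mono hc (by simp), coreA_adm_mono hd (by simp), fun t => ?_, hz⟩
  refine le_trans ?_ ((le_max_right _ e).trans (le_max_right _ _))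
  by_cases ht : t ∈ Icc (0 : ℝ) 1
  · exact he t ht
  · rw [hz t (by
      by_contra h'
      push Not at h'
      exact ht ⟨by linarith [h'.1], by linarith [h'.2]⟩), abs_zero]
    exact e0

lemma coreA_gr_rj (hσ : Met σ) (hu : ContDiffOn ℝ ∞ u UH) (hz : z ∈ UH) :
    gr (rj σ u lam) z = (deriv f0 (ps σ u lam z) : ℝ) * gr (ps σ u lam) z :=
  gr_comp (g := f0) ((f0_cd.differentiable (by simp)) _).hasDerivAt (dAt (cd_ps hσ hu) hz)

lemma coreA_eP (hσ : Met σ) (h : Eg σ u lam) (hz : z ∈ UH) :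
    σ z * eP (Vj σ u lam) (rC (Rj σ u lam)) z
    = (deriv g0 (ps σ u lam z) : ℝ) * TT σ u lam z
      + 2 * (g0 (ps σ u lam z) : ℝ) * gr (ps σ u lam) z
      - 2 * (g0 (ps σ u lam z) : ℝ) * ZZ σ u z * conj (gr σ z) / σ z
      - (g0 (ps σ u lam z) : ℝ) * SS σ u z * gr σ z / σ z := by
  have hs := hσ.ne hz
  have hs' := (hσ.pos z hz).ne'
  have dψ := dAt (cd_ps (lam := lam) hσ h.cd) hz
  have dσ := dAt hσ.cd hz
  have dg : DifferentiableAt ℝ (fun w => g0 (ps σ u lam w)) z :=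
    ((g0_cd.differentiable (by simp)) _).comp z dψ
  have di : DifferentiableAt ℝ (fun w => (σ w)⁻¹) z := dσ.inv hs'
  have dw : DifferentiableAt ℝ (fun w => g0 (ps σ u lam w) * (σ w)⁻¹) z := dg.mul di
  have gw : gr (fun w => g0 (ps σ u lam w) * (σ w)⁻¹) z
      = (deriv g0 (ps σ u lam z) : ℝ) * gr (ps σ u lam) z / σ z
        - (g0 (ps σ u lam z) : ℝ) * gr σ z / σ z ^ 2 := by
    rw [gr_mul dg di, gr_comp (g := g0) ((g0_cd.differentiable (by simp)) _).hasDerivAt dψ,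
      gr_comp (g := fun t => t⁻¹) (hasDerivAt_inv hs') dσ]
    push_cast
    field_simp
    ring
  have eV : Vj σ u lam = fun w => rC (fun w => g0 (ps σ u lam w) * (σ w)⁻¹) w * ZZ σ u w := by
    ext w; simp only [Vj, rC, div_eq_mul_inv]
  have eR : rC (Rj σ u lam)
      = fun w => rC (fun w => g0 (ps σ u lam w) * (σ w)⁻¹) w * rC (SS σ u) w := by
    ext w; simp only [Rj, rC, div_eq_mul_inv, ofReal_mul]
  have i1 := I1 hσ h hz
  rw [eP] at i1
  have i2 : dz (ZZ σ u) z = _ := eq_sub_of_add_eq i1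
  rw [eP, eV, eR, dz_mul (d_rC dw) (dAt (cd_ZZ hσ h.cd) hz),
    dzb_mul (d_rC dw) (d_rC (dAt (cd_SS hσ h.cd) hz)), dz_rC, ← gr, gw, i2, TT]
  simp only [rC, map_sub, map_div₀, map_mul, map_pow, conj_ofReal]
  push_cast
  field_simp
  ring

theorem core_id (hσ : Met σ) (h : Eg σ u lam) (hz : z ∈ UH) :
    σ z * eP (Vj σ u lam) (rC (Rj σ u lam)) z + gr (rj σ u lam) z
      + rj σ u lam z * gr σ z / σ z + 2 * Vj σ u lam z * conj (gr σ z)
    = (deriv g0 (ps σ u lam z) : ℝ) * TT σ u lam z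
      + (2 * g0 (ps σ u lam z) + deriv f0 (ps σ u lam z) : ℝ) * gr (ps σ u lam) z
      - (g0 (ps σ u lam z) * (SS σ u z - ps σ u lam z) : ℝ) * gr σ z / σ z := by
  have hs := hσ.ne hz
  rw [coreA_eP hσ h hz, coreA_gr_rj hσ h.cd hz, rj, coreA_f0_eq, Vj]
  push_cast
  field_simp
  ring

theorem core_tan (hσ : Met σ) (h : Eg σ u lam) (hz : z ∈ UH) :
    Vj σ u lam z * conj (gr (rj σ u lam) z) + Rj σ u lam z * gr (rj σ u lam) z
      = (g0 (ps σ u lam z) * deriv f0 (ps σ u lam z) : ℝ) * TT σ u lam z / σ z := by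
  have hs := hσ.ne hz
  rw [coreA_gr_rj hσ h.cd hz, Vj, Rj, TT, map_mul, conj_ofReal]
  push_cast
  field_simp

lemma coreA_pt {Λ m M : ℝ} (hσ : Met σ) (h : Eg σ u lam) (hz : z ∈ UH) (h1 : Adm g0 Λ)
    (h2 : Adm (fun t => deriv g0 t * t ^ 2) Λ) (h3 : Adm f0 Λ) (hm : 0 < m) (hm' : m ≤ σ z)
    (hM : ‖gr σ z‖ ≤ M) :
    ‖eP (Vj σ u lam) (rC (Rj σ u lam)) z‖ ^ 2
      ≤ 2 * (36 * Λ / m) ^ 2 * 6 * en σ u lam 1 z + 2 * (24 * Λ * M / m ^ 2) ^ 2 ∧
    ‖gr (rj σ u lam) z‖ ^ 2 ≤ 64 * Λ ^ 2 * 6 * en σ u lam 1 z := by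
  have hl : 0 ≤ lam := zero_le_one.trans h.one
  have e0 := en_nonneg (u := u) (lam := lam) hσ one_pos hz
  have s0 := hσ.pos z hz
  have e1 := coreA_eP hσ h hz
  have e2 := coreA_gr_rj (lam := lam) hσ h.cd hz
  by_cases hψ : ps σ u lam z ≤ 1 / 4
  · rw [coreA_g0_zero _ hψ, coreA_deriv_zero g0_cd coreA_g0_zero _ hψ] at e1
    rw [coreA_deriv_zero f0_cd coreA_f0_zero _ hψ] at e2
    have : eP (Vj σ u lam) (rC (Rj σ u lam)) z = 0 := by
      refine (mul_eq_zero.1 (e1.trans ?_)).resolve_left (hσ.ne hz)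
      simp
    rw [this, e2]
    simp only [norm_zero, ofReal_zero, zero_mul]
    constructor <;> nlinarith [mul_nonneg (sq_nonneg (36 * Λ / m)) e0,
      sq_nonneg (24 * Λ * M / m ^ 2), mul_nonneg (sq_nonneg Λ) e0]
  have hψ : 1 / 4 < ps σ u lam z := not_le.1 hψ
  have eg := en_ge hσ hl hz hψ.le
  have hT := norm_TT (u := u) (lam := lam) hσ hz
  have hS := SS_le (σ := σ) (u := u) hl z
  have S0 := SS_nonneg (u := u) hσ hz
  have hZ := norm_ZZ (u := u) hσ hz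
  generalize ps σ u lam z = t at *
  have t0 : 0 < t := by linarith
  have Λ0 : 0 ≤ Λ := by
    have := (abs_nonneg _).trans (h1.b0 1 one_pos)
    simpa using this
  have M0 : 0 ≤ M := (norm_nonneg _).trans hM
  have b1 := h1.b0 t t0
  have b2 : |deriv g0 t| ≤ Λ / t ^ 4 := by
    have := h2.b0 t t0
    rw [abs_mul, abs_of_pos (pow_pos t0 2), ← le_div_iff₀ (pow_pos t0 2), div_div,
      ← pow_add] at this
    exact this
  have b3 := h3.b1 t t0
  set G := ‖gr (ps σ u lam) z‖ with hG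
  have G0 : 0 ≤ G := norm_nonneg _
  have i1 : 1 / t ≤ 4 := by rw [div_le_iff₀ t0]; linarith
  have k1 : (G / t ^ 2) ^ 2 ≤ 4 * (G ^ 2 / t ^ 3) := by
    have : (G / t ^ 2) ^ 2 = 1 / t * (G ^ 2 / t ^ 3) := by field_simp
    rw [this]; gcongr
  constructor
  · have n1 : σ z * ‖eP (Vj σ u lam) (rC (Rj σ u lam)) z‖
        ≤ 18 * Λ * (G / t ^ 2) + 24 * Λ * M / m := by
      have : σ z * ‖eP (Vj σ u lam) (rC (Rj σ u lam)) z‖
          = ‖σ z * eP (Vj σ u lam) (rC (Rj σ u lam)) z‖ := by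
        rw [norm_mul, norm_real, Real.norm_of_nonneg s0.le]
      rw [this, e1]
      refine (norm_sub_le _ _).trans ((add_le_add ((norm_sub_le _ _).trans
        (add_le_add (norm_add_le _ _) le_rfl)) le_rfl).trans ?_)
      simp only [norm_mul, norm_div, norm_real, Real.norm_eq_abs, norm_conj, hZ, norm_ofNat,
        abs_of_pos s0, abs_of_nonneg S0, ← hG]
      have a1 : |deriv g0 t| * ‖TT σ u lam z‖ ≤ 16 * Λ * (G / t ^ 2) := by
        calc _ ≤ Λ / t ^ 4 * (2 * (2 * t) * G) := by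
              gcongr; exact hT.trans (by gcongr)
          _ = 4 * Λ * (G / t ^ 2) * (1 / t) := by field_simp; ring
          _ ≤ 4 * Λ * (G / t ^ 2) * 4 := by gcongr
          _ = _ := by ring
      have a2 : 2 * |g0 t| * G ≤ 2 * Λ * (G / t ^ 2) := by
        calc _ ≤ 2 * (Λ / t ^ 2) * G := by gcongr
          _ = _ := by ring
      have a3 : |g0 t| * SS σ u z * ‖gr σ z‖ / σ z ≤ 8 * Λ * M / m := by
        calc _ ≤ Λ / t ^ 2 * (2 * t) * M / m := by gcongr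
          _ = 2 * Λ * M / m * (1 / t) := by field_simp
          _ ≤ 2 * Λ * M / m * 4 := by gcongr
          _ = _ := by ring
      have a4 : 2 * |g0 t| * SS σ u z * ‖gr σ z‖ / σ z
          = 2 * (|g0 t| * SS σ u z * ‖gr σ z‖ / σ z) := by ring
      have a5 : 24 * Λ * M / m = 3 * (8 * Λ * M / m) := by ring
      linarith
    have n2 : ‖eP (Vj σ u lam) (rC (Rj σ u lam)) z‖
        ≤ 18 * Λ / m * (G / t ^ 2) + 24 * Λ * M / m ^ 2 := by
      have : m * ‖eP (Vj σ u lam) (rC (Rj σ u lam)) z‖ ≤ _ :=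
        (mul_le_mul_of_nonneg_right hm' (norm_nonneg _)).trans n1
      rw [← le_div_iff₀' hm] at this
      refine this.trans (le_of_eq ?_)
      field_simp
    calc _ ≤ (18 * Λ / m * (G / t ^ 2) + 24 * Λ * M / m ^ 2) ^ 2 := by gcongr
      _ ≤ 2 * (18 * Λ / m) ^ 2 * (G / t ^ 2) ^ 2 + 2 * (24 * Λ * M / m ^ 2) ^ 2 := by
          nlinarith [sq_nonneg (18 * Λ / m * (G / t ^ 2) - 24 * Λ * M / m ^ 2)]
      _ ≤ 2 * (18 * Λ / m) ^ 2 * (4 * (6 * en σ u lam 1 z)) + 2 * (24 * Λ * M / m ^ 2) ^ 2 := by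
          gcongr; exact k1.trans (by gcongr)
      _ = _ := by ring
  · rw [e2, norm_mul, norm_real, Real.norm_eq_abs, ← hG]
    calc _ ≤ (Λ / t ^ 3 * G) ^ 2 := by gcongr
      _ = Λ ^ 2 * (1 / t) ^ 2 * (G / t ^ 2) ^ 2 := by field_simp
      _ ≤ Λ ^ 2 * 4 ^ 2 * (4 * (6 * en σ u lam 1 z)) := by
          gcongr; exact k1.trans (by gcongr)
      _ = _ := by ring

theorem core_en (hσ : Met σ) (hK : Cp K) (CE : Set ℂ → ℝ) :
    ∃ C : ℝ, ∀ (u : ℂ → ℝ) (lam : ℝ) (K₀ : Set ℂ) (CM : Set ℂ → ℝ), Sol σ K₀ CE CM u lam →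
      ∫ z in K, ‖eP (Vj σ u lam) (rC (Rj σ u lam)) z‖ ^ 2 ≤ C ∧
      ∫ z in K, ‖gr (rj σ u lam) z‖ ^ 2 ≤ C := by
  obtain ⟨Λ, h1, h2, -, h3, -⟩ := adm_g0
  obtain ⟨M, hM⟩ := hK.1.exists_bound_of_continuousOn ((cd_gr hσ.cd).continuousOn.mono hK.2)
  obtain ⟨m, hm, hm'⟩ := hK.1.exists_forall_le' (a := 0) (hσ.cd.continuousOn.mono hK.2)
    fun z hz => hσ.pos z (hK.2 hz)
  have hme := hK.1.measurableSet
  refine ⟨max (2 * (36 * Λ / m) ^ 2 * 6 * CE K + volume.real K * (2 * (24 * Λ * M / m ^ 2) ^ 2))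
    (64 * Λ ^ 2 * 6 * CE K), fun u lam K₀ CM h => ?_⟩
  have hi : IntegrableOn (en σ u lam 1) K :=
    ((co_en hσ h.eg.cd one_pos).mono hK.2).integrableOn_compact hK.1
  have hc : ∀ c : ℝ, IntegrableOn (fun _ : ℂ => c) K := fun c =>
    continuousOn_const.integrableOn_compact hK.1
  have hE := h.en K hK 1 one_pos
  have hp := fun z (hz : z ∈ K) => coreA_pt hσ h.eg (hK.2 hz) h1 h2 h3 hm (hm' z hz) (hM z hz)
  constructor
  · refine le_trans ?_ (le_max_left _ _)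
    refine (integral_mono_of_nonneg (Eventually.of_forall fun z => by positivity)
      ((hi.const_mul _).add (hc _))
      ((ae_restrict_mem hme).mono fun z hz => (hp z hz).1)).trans ?_
    simp only [Pi.add_apply]
    rw [integral_add (hi.const_mul _) (hc _), integral_const_mul, setIntegral_const, smul_eq_mul]
    gcongr
  · refine le_trans ?_ (le_max_right _ _)
    refine (integral_mono_of_nonneg (Eventually.of_forall fun z => by positivity)
      (hi.const_mul _) ((ae_restrict_mem hme).mono fun z hz => (hp z hz).2)).trans ?_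
    rw [integral_const_mul]
    gcongr

end Pool.Agent.Lib.MP_a52643_an.CP
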