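import Pool.Agent.Lib.MP_a52643_an.CP.Tt1

/-!
The tangential term tends to zero.
-/

open Complex MeasureTheory Set Filter Topology Metric
open scoped ComplexConjugate ContDiff ENNReal

noncomputable section

namespace Pool.Agent.Lib.MP_a52643_an.CP

variable {σ u : ℂ → ℝ} {lam : ℝ} {K K₀ : Set ℂ} {CE CM : Set ℂ → ℝ} {z : ℂ}

lemma tt2_pow {q : ℝ} (h0 : 0 ≤ q) (h1 : q ≤ 1) (n : ℕ) : q ^ n * (1 - q) ^ 2 * n ^ 2 ≤ 2 := by
  have a : q ≤ Real.exp (-(1 - q)) := by linarith [Real.add_one_le_exp (-(1 - q))]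
  have b : q ^ n ≤ Real.exp (-(n * (1 - q))) := by
    rw [← mul_neg, Real.exp_nat_mul]
    exact pow_le_pow_left₀ h0 a n
  have y0 : 0 ≤ n * (1 - q) := mul_nonneg n.cast_nonneg (by linarith)
  have c := Real.quadratic_le_exp_of_nonneg y0
  rw [Real.exp_neg] at b
  have e := Real.exp_pos (n * (1 - q))
  have d : q ^ n * Real.exp (n * (1 - q)) ≤ 1 := by
    rwa [← le_div_iff₀ e, one_div]
  have f : 0 ≤ q ^ n := pow_nonneg h0 n
  nlinarith [mul_le_mul_of_nonneg_left c f, mul_nonneg f y0]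

lemma tt2_n (X : ℝ) : ∃ n : ℕ, 0 < n ∧ X ≤ n ^ 2 * pn n := by
  obtain ⟨n, hn⟩ := exists_nat_ge (16 * X ^ 2 + 1)
  have h1 : (1 : ℝ) ≤ n := by nlinarith [sq_nonneg X]
  have p := pn_pos n
  refine ⟨n, by exact_mod_cast h1, ?_⟩
  have a : (n * (n + 1) * pn n : ℝ) ≤ 2 * (n ^ 2 * pn n) := by
    nlinarith [mul_nonneg (mul_nonneg (zero_le_one.trans h1) (sub_nonneg.2 h1)) p.le]
  have b := pow_le_pow_left₀ (by positivity) a 2
  have c := pn_ge n
  exact abs_le_of_sq_le_sq' (by nlinarith) (by positivity) |>.2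

lemma tt2_adm {κ : ℝ → ℝ} {Λ : ℝ} (h : Adm κ Λ) : Adm (fun t => κ t ^ 2) (32 * Λ ^ 2) := by
  have hΛ : 0 ≤ Λ := by simpa using (abs_nonneg _).trans (h.b0 1 one_pos)
  refine ⟨h.cd.pow 2, fun t ht => by simp [h.zero t ht], fun t ht => ?_, fun t ht => ?_⟩
  · rcases le_or_gt t (1 / 4) with r | r
    · simp only [h.zero t r]
      simpa using by positivity
    rw [abs_pow]
    refine (pow_le_pow_left₀ (abs_nonneg _) (h.b0 t ht) 2).trans ?_
    rw [div_pow, div_le_div_iff₀ (by positivity) (by positivity)]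
    have : 1 ≤ 32 * t ^ 2 := by nlinarith
    nlinarith [mul_le_mul_of_nonneg_left this (show 0 ≤ Λ ^ 2 * t ^ 2 by positivity)]
  · have d := ((h.cd.differentiable (by simp) t).hasDerivAt.pow 2).deriv
    rw [show deriv (fun t => κ t ^ 2) t = _ from d]
    rcases le_or_gt t (1 / 4) with r | r
    · simp only [h.zero t r]
      simpa using by positivity
    simp only [Nat.cast_ofNat, Nat.add_one_sub_one, pow_one, abs_mul, abs_two]
    refine (mul_le_mul (mul_le_mul_of_nonneg_left (h.b0 t ht) two_pos.le) (h.b1 t ht)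
      (abs_nonneg _) (by positivity)).trans ?_
    rw [← mul_div_assoc 2, div_mul_div_comm, div_le_div_iff₀ (by positivity) (by positivity)]
    have : 1 ≤ 16 * t ^ 2 := by nlinarith
    nlinarith [mul_le_mul_of_nonneg_left this (show 0 ≤ Λ ^ 2 * t ^ 3 by positivity)]

/-- The pointwise estimate. -/
lemma tt2_pt (hσ : Met σ) (hl : 0 ≤ lam) (hz : z ∈ UH) {κ : ℝ → ℝ}
    (h0 : ∀ t ≤ 1 / 4, κ t = 0) {n : ℕ} (hn : 0 < n) {β : ℝ} (hβ : 0 < β) :
    |κ (ps σ u lam z) / ps σ u lam z ^ 2 * (qq σ u lam z ^ n / pn n)| * ‖TT σ u lam z‖ ≤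
      β * (8 / (n ^ 2 * pn n)) * (κ (ps σ u lam z) ^ 2 *
        (qq σ u lam z ^ n / pn n * SS σ u z + 1)) + en σ u lam (pn n) z / β := by
  have p := pn_pos n
  have s0 := SS_nonneg (u := u) hσ hz
  obtain ⟨q0, q1⟩ := qq_mem (u := u) hσ hl hz
  have e0 := en_nonneg (u := u) (lam := lam) hσ p hz
  have n0 : (0 : ℝ) < n := by exact_mod_cast hn
  rcases le_or_gt (ps σ u lam z) (1 / 4) with r | r
  · simp only [h0 _ r]
    simpa using by positivity
  have r0 : 0 < ps σ u lam z := by linarith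
  have k1 := norm_TT (u := u) (lam := lam) hσ hz
  have k2 := tt2_pow q0 q1 n
  have k3 := pow_le_one₀ (n := n) q0 q1
  have k4 := pow_nonneg q0 n
  have k5 := SS_eq (σ := σ) (u := u) (lam := lam) r0
  rw [en, F1_one r.le, normSq_eq_norm_sq, abs_mul, abs_of_nonneg (div_nonneg k4 p.le),
    abs_div, abs_of_pos (pow_pos r0 2), ← sq_abs (κ _)]
  have k6 := abs_nonneg (κ (ps σ u lam z))
  have k7 := norm_nonneg (gr (ps σ u lam) z)
  generalize |κ (ps σ u lam z)| = k at *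
  generalize ‖gr (ps σ u lam) z‖ = G at *
  generalize ‖TT σ u lam z‖ = T at *
  generalize qq σ u lam z ^ n = Q at *
  generalize qq σ u lam z = q at *
  generalize SS σ u z = S at *
  generalize ps σ u lam z = ψ at *
  generalize pn n = P at *
  have m1 : k / ψ ^ 2 * (Q / P) * T ≤ 2 * (k * (Q / P) * (2 * (1 - q))) * (G / ψ) := by
    refine (mul_le_mul_of_nonneg_left k1 (by positivity)).trans (le_of_eq ?_)
    rw [k5]
    field_simp
  have m2 : ∀ a b : ℝ, 2 * a * b ≤ β * (S + P) * a ^ 2 + b ^ 2 / (β * (S + P)) := fun a b => by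
    have w0 : 0 < β * (S + P) := by positivity
    generalize β * (S + P) = w at *
    rw [← sub_nonneg, show w * a ^ 2 + b ^ 2 / w - 2 * a * b = (w * a - b) ^ 2 / w by
      field_simp; ring]
    positivity
  refine m1.trans ((m2 _ _).trans (add_le_add ?_ (le_of_eq (by field_simp))))
  have m3 : Q * (1 - q) ^ 2 ≤ 2 / n ^ 2 := by rwa [le_div_iff₀ (by positivity)]
  calc β * (S + P) * (k * (Q / P) * (2 * (1 - q))) ^ 2
      = β * (4 * (Q * (1 - q) ^ 2) / P) * (k ^ 2 * (Q / P * S + Q)) := by field_simp; ring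
    _ ≤ β * (4 * (2 / n ^ 2) / P) * (k ^ 2 * (Q / P * S + 1)) := by gcongr
    _ = _ := by field_simp; ring

lemma tt2_int {χ F : ℂ → ℝ} (h : Ts (rC χ)) (hF : ContinuousOn F UH) :
    Integrable fun z => χ z * F z := by
  simpa [rC] using (h.int (F := rC F) (continuous_ofReal.comp_continuousOn hF)).re

theorem tt2 (hσ : Met σ) (hK : Cp K) (CE : Set ℂ → ℝ) (Λ c : ℝ) {ε : ℝ} (hε : 0 < ε) :
    ∃ (n : ℕ) (L : ℝ), ∀ (u : ℂ → ℝ) (lam : ℝ) (K₀ : Set ℂ) (CM : Set ℂ → ℝ),
      Sol σ K₀ CE CM u lam → L ≤ lam → ∀ (κ : ℝ → ℝ) (φ : ℂ → ℂ), Adm κ Λ → CutC φ K c →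
        ‖∫ z, φ z * (κ (ps σ u lam z) / ps σ u lam z ^ 2 * (qq σ u lam z ^ n / pn n) : ℝ)
          * TT σ u lam z‖ ≤ ε := by
  obtain ⟨χ, x1, x2, x3, x4, x5⟩ := exists_cut hK.1 isOpen_UH hK.2
  have xs : tsupport (rC χ) ⊆ tsupport χ := closure_mono fun z hz h => hz (by simp [rC, h])
  have xT : Ts (rC χ) := ⟨ofRealCLM.contDiff.comp (x1.of_le (by simp)),
    x2.of_isClosed_subset (isClosed_tsupport _) xs, xs.trans x3⟩
  obtain ⟨c1, hc1⟩ := xT.cut
  obtain ⟨β, hβ, b1⟩ : ∃ β : ℝ, 0 < β ∧ |c| * |CE K| / β ≤ ε / 2 :=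
    ⟨2 * (|c| * |CE K| + 1) / ε, by positivity, by
      rw [div_le_iff₀ (by positivity)]
      field_simp
      linarith⟩
  have V0 : 0 ≤ ∫ z, χ z := integral_nonneg fun z => (x4 z).1
  obtain ⟨n, hn, b2⟩ := tt2_n (16 * |c| * β * (1 + 384 * Λ ^ 2 * ∫ z, χ z) / ε)
  obtain ⟨C, hC⟩ := phaseM hσ (K := tsupport (rC χ)) ⟨xT.cs, xT.sub⟩ CE n
  refine ⟨n, (C * (32 * Λ ^ 2) * c1) ^ 2, fun u lam K₀ CM hs hL κ φ hκ hφ => ?_⟩
  have p := pn_pos n
  have n0 : (0 : ℝ) < n := by exact_mod_cast hn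
  have hl : 0 < lam := zero_lt_one.trans_le hs.eg.one
  have hu := hs.eg.cd
  have c0 : 0 ≤ c := (norm_nonneg _).trans (hφ.b0 0)
  rw [abs_of_nonneg c0] at b1 b2
  have k2 := tt2_adm hκ
  have w := fun m => (cd_wq (lam := lam) hσ hu k2.cd k2.zero m).continuousOn
  have cS := (cd_SS hσ hu).continuousOn
  have iA : Integrable fun z =>
      χ z * (κ (ps σ u lam z) ^ 2 * (qq σ u lam z ^ n / pn n - 1) * SS σ u z) :=
    tt2_int xT (((((w n).div_const (pn n)).sub (w 0)).mul cS).congr fun z _ => by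
      simp only [Pi.mul_apply, Pi.sub_apply]; ring)
  have iB : Integrable fun z => χ z * (κ (ps σ u lam z) ^ 2 * (SS σ u z + 1)) :=
    tt2_int xT (((w 0).mul (cS.add (continuousOn_const (c := 1)))).congr fun z _ => by
      simp only [Pi.mul_apply, Pi.add_apply]; ring)
  have iχ : Integrable χ := x1.continuous.integrable_of_hasCompactSupport x2
  have iE : IntegrableOn (en σ u lam (pn n)) K :=
    ((co_en hσ hu p).mono hK.2).integrableOn_compact hK.1
  have hA : ∫ z, χ z * (κ (ps σ u lam z) ^ 2 * (qq σ u lam z ^ n / pn n - 1) * SS σ u z) ≤ 1 := by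
    have := (hC u lam K₀ CM hs _ _ _ _ k2 hc1).2
    simp only [rC, ← ofReal_mul, integral_complex_ofReal, norm_real, mul_assoc] at this
    simp only [mul_assoc] at hL ⊢
    refine (le_abs_self _).trans (this.trans ?_)
    rw [div_le_one (Real.sqrt_pos.2 hl)]
    exact Real.le_sqrt_of_sq_le hL
  have hB : ∫ z, χ z * (κ (ps σ u lam z) ^ 2 * (SS σ u z + 1)) ≤ 384 * Λ ^ 2 * ∫ z, χ z := by
    rw [← integral_const_mul]
    refine integral_mono iB (iχ.const_mul _) fun z => ?_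
    by_cases hz : z ∈ UH
    swap
    · simp [image_eq_zero_of_notMem_tsupport fun h => hz (x3 h)]
    dsimp only
    rw [mul_comm _ (χ z)]
    refine mul_le_mul_of_nonneg_left ?_ (x4 z).1
    rcases le_or_gt (ps σ u lam z) (1 / 4) with r | r
    · simp only [hκ.zero _ r]
      simpa using by positivity
    have r0 : 0 < ps σ u lam z := by linarith
    have a1 := pow_le_pow_left₀ (abs_nonneg _) (hκ.b0 _ r0) 2
    have a2 := SS_le (σ := σ) (u := u) hl.le z
    have a3 := SS_nonneg (u := u) hσ hz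
    rw [sq_abs] at a1
    generalize ps σ u lam z = ψ at *
    refine (mul_le_mul a1 (show _ ≤ 6 * ψ by linarith) (by positivity) (by positivity)).trans ?_
    rw [div_pow, div_mul_eq_mul_div, div_le_iff₀ (by positivity)]
    have : 1 ≤ 64 * ψ ^ 3 := by nlinarith [pow_le_pow_left₀ (by norm_num) r.le 3]
    nlinarith [mul_le_mul_of_nonneg_left this (show 0 ≤ Λ ^ 2 * ψ by positivity)]
  have iF := ((iA.add iB).const_mul (c * β * (8 / (n ^ 2 * pn n)))).add
    (((integrable_indicator_iff hK.1.measurableSet).2 iE).const_mul (c / β))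
  refine (norm_integral_le_of_norm_le iF (Eventually.of_forall fun z => ?_)).trans ?_
  · simp only [Pi.add_apply]
    by_cases hz : z ∈ K
    · rw [indicator_of_mem hz, show χ z = 1 from (x5 z hz).eq_of_nhds, norm_mul, norm_mul,
        norm_real, Real.norm_eq_abs, mul_assoc]
      refine (mul_le_mul (hφ.b0 z) (tt2_pt hσ hl.le (hK.2 hz) hκ.zero hn hβ) (by positivity)
        c0).trans (le_of_eq ?_)
      ring
    · rw [indicator_of_notMem hz, image_eq_zero_of_notMem_tsupport fun h => hz (hφ.sub h)]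
      simp only [zero_mul, norm_zero, mul_zero, add_zero]
      refine mul_nonneg (by positivity) ?_
      by_cases hz' : z ∈ UH
      · have a1 := SS_nonneg (u := u) hσ hz'
        have a2 := (qq_mem (u := u) hσ hl.le hz').1
        have a3 := (x4 z).1
        calc (0 : ℝ) ≤ χ z * (κ (ps σ u lam z) ^ 2 * (qq σ u lam z ^ n / pn n * SS σ u z + 1)) := by
              positivity
          _ = _ := by ring
      · simp [image_eq_zero_of_notMem_tsupport fun h => hz' (x3 h)]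
  · rw [integral_add' ((iA.add iB).const_mul _)
      (((integrable_indicator_iff hK.1.measurableSet).2 iE).const_mul _), integral_const_mul,
      integral_const_mul, integral_add' iA iB, integral_indicator hK.1.measurableSet]
    have e1 : c / β * ∫ z in K, en σ u lam (pn n) z ≤ ε / 2 := by
      refine (mul_le_mul_of_nonneg_left ((hs.en K hK _ p).trans (le_abs_self _))
        (by positivity)).trans ?_
      rwa [div_mul_eq_mul_div]
    have e2 : c * β * (8 / (n ^ 2 * pn n)) * (1 + 384 * Λ ^ 2 * ∫ z, χ z) ≤ ε / 2 := by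
      rw [div_le_iff₀ hε] at b2
      rw [← mul_div_assoc, div_mul_eq_mul_div, div_le_iff₀ (by positivity)]
      linarith
    have e3 := mul_le_mul_of_nonneg_left (add_le_add hA hB)
      (show 0 ≤ c * β * (8 / (n ^ 2 * pn n)) by positivity)
    linarith

theorem tt (hσ : Met σ) (hK : Cp K) (CE : Set ℂ → ℝ) (Λ c : ℝ) {ε : ℝ} (hε : 0 < ε) :
    ∃ L : ℝ, ∀ (u : ℂ → ℝ) (lam : ℝ) (K₀ : Set ℂ) (CM : Set ℂ → ℝ),
      Sol σ K₀ CE CM u lam → L ≤ lam → ∀ (κ : ℝ → ℝ) (φ : ℂ → ℂ), Adm κ Λ → CutC φ K c →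
        ‖∫ z, φ z * (κ (ps σ u lam z) / ps σ u lam z ^ 2 : ℝ) * TT σ u lam z‖ ≤ ε := by
  obtain ⟨n, L2, h2⟩ := tt2 hσ hK CE Λ c (half_pos hε)
  obtain ⟨L1, h1⟩ := tt1 hσ hK CE n Λ c (half_pos hε)
  refine ⟨max L1 L2, fun u lam K₀ CM hs hL κ φ hκ hφ => ?_⟩
  have a1 := h1 u lam K₀ CM hs ((le_max_left _ _).trans hL) κ φ hκ hφ
  have a2 := h2 u lam K₀ CM hs ((le_max_right _ _).trans hL) κ φ hκ hφ
  have w := fun m => (cd_wq (lam := lam) hσ hs.eg.cd (cd_div_pow hκ.cd (by norm_num) hκ.zero 2)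
    (fun t ht => by simp [hκ.zero t ht]) m).continuousOn
  have key : ∀ F : ℂ → ℝ, ContinuousOn F UH →
      Integrable fun z => φ z * (F z : ℝ) * TT σ u lam z := fun F hF => by
    simp only [mul_assoc]
    exact (Ts.of_cut hφ hK).int
      ((continuous_ofReal.comp_continuousOn hF).mul (cd_TT hσ hs.eg.cd).continuousOn)
  have i2 := key _ (((w n).div_const (pn n)).congr (g := fun z =>
    κ (ps σ u lam z) / ps σ u lam z ^ 2 * (qq σ u lam z ^ n / pn n)) fun z _ => by ring)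
  have i1 := key _ ((((w n).div_const (pn n)).sub (w 0)).congr (g := fun z =>
    κ (ps σ u lam z) / ps σ u lam z ^ 2 * (qq σ u lam z ^ n / pn n - 1)) fun z _ => by
      simp only [Pi.sub_apply]; ring)
  have e := integral_sub i2 i1
  have e' : ∀ z, φ z * (κ (ps σ u lam z) / ps σ u lam z ^ 2 * (qq σ u lam z ^ n / pn n) : ℝ)
      * TT σ u lam z - φ z * (κ (ps σ u lam z) / ps σ u lam z ^ 2 *
        (qq σ u lam z ^ n / pn n - 1) : ℝ) * TT σ u lam z =
      φ z * (κ (ps σ u lam z) / ps σ u lam z ^ 2 : ℝ) * TT σ u lam z := fun z => by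
    push_cast
    ring
  simp only [e'] at e
  rw [e]
  exact (norm_sub_le _ _).trans (by linarith)

end Pool.Agent.Lib.MP_a52643_an.CP
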