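import Pool.Agent.Lib.MP_a52643_an.CP.CoreA
import Pool.Agent.Lib.MP_a52643_an.CP.Tt2

/-!
The hypotheses of the passage to the limit.
-/

open Complex MeasureTheory Set Filter Topology Metric
open scoped ComplexConjugate ContDiff ENNReal

noncomputable section

namespace Pool.Agent.Lib.MP_a52643_an.CP

variable {σ u : ℂ → ℝ} {lam : ℝ} {K K₀ : Set ℂ} {CE CM : Set ℂ → ℝ} {z : ℂ}

lemma CoreB_cp {φ : ℂ → ℂ} (h : Ts φ) : Cp (tsupport φ) := ⟨h.cs, h.sub⟩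

lemma CoreB_congr {φ F G : ℂ → ℂ} (h : Ts φ) (e : ∀ z ∈ UH, F z = G z) (z : ℂ) :
    φ z * F z = φ z * G z := by
  by_cases hz : z ∈ UH
  · rw [e z hz]
  · rw [image_eq_zero_of_notMem_tsupport fun h' => hz (h.sub h')]; simp

lemma CoreB_g0_mul (t : ℝ) : g0 t * t = f0 t := by
  by_cases ht : t = 0
  · simp [ht, f0]
  · rw [g0]; field_simp

lemma CoreB_g0_nonneg {t : ℝ} (ht : 0 ≤ t) : 0 ≤ g0 t := div_nonneg (f0_mem t).1 ht

lemma CoreB_deriv_g0 {Λ : ℝ} (h : Adm g0 Λ) : deriv g0 0 = 0 := by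
  have e : g0 =ᶠ[𝓝 0] fun _ => 0 := by
    filter_upwards [Iio_mem_nhds (show (0 : ℝ) < 1 / 4 by norm_num)] with s hs
    exact h.zero s (le_of_lt hs)
  rw [e.deriv_eq]; simp

lemma CoreB_phase (hσ : Met σ) {u : ℕ → ℂ → ℝ} {lam : ℕ → ℝ}
    (h : ∀ j, Sol σ K₀ CE CM (u j) (lam j)) (hl : Tendsto lam atTop atTop) {κ : ℝ → ℝ} {Λ : ℝ}
    (hκ : Adm κ Λ) {φ : ℂ → ℂ} (hφ : Ts φ) :
    Tendsto (fun j => ∫ z, φ z * (κ (ps σ (u j) (lam j) z)
      * (SS σ (u j) z - ps σ (u j) (lam j) z) : ℝ)) atTop (𝓝 0) := by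
  obtain ⟨c, hc⟩ := hφ.cut
  obtain ⟨C, hC⟩ := phase0 hσ (CoreB_cp hφ) CE
  refine squeeze_zero_norm (fun j => hC (u j) (lam j) K₀ CM (h j) κ Λ φ c hκ hc) ?_
  exact tendsto_const_nhds.div_atTop (Real.tendsto_sqrt_atTop.comp hl)

lemma CoreB_tt (hσ : Met σ) {u : ℕ → ℂ → ℝ} {lam : ℕ → ℝ}
    (h : ∀ j, Sol σ K₀ CE CM (u j) (lam j)) (hl : Tendsto lam atTop atTop) {κ : ℝ → ℝ} {Λ : ℝ}
    (hκ : Adm κ Λ) {φ : ℂ → ℂ} (hφ : Ts φ) :
    Tendsto (fun j => ∫ z, φ z * (κ (ps σ (u j) (lam j) z) / ps σ (u j) (lam j) z ^ 2 : ℝ)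
      * TT σ (u j) (lam j) z) atTop (𝓝 0) := by
  obtain ⟨c, hc⟩ := hφ.cut
  refine NormedAddGroup.tendsto_nhds_zero.2 fun ε hε => ?_
  obtain ⟨L, hL⟩ := tt hσ (CoreB_cp hφ) CE Λ c (half_pos hε)
  filter_upwards [hl.eventually_ge_atTop L] with j hj
  exact (hL (u j) (lam j) K₀ CM (h j) hj κ φ hκ hc).trans_lt (half_lt_self hε)

lemma CoreB_pt (hσ : Met σ) (hl : 0 ≤ lam) (hz : z ∈ UH) {w : ℝ → ℝ} {Λ b : ℝ} (hb : 0 < b)
    (h1 : ∀ t, |w t| ≤ Λ) (h2 : ∀ t, t ≤ 1 / 4 ∨ 1 / 2 ≤ t → w t = 0) (hK : z ∈ K) :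
    ‖(w (ps σ u lam z) : ℂ) * gr (ps σ u lam) z‖ ≤ Λ * (b * en σ u lam 1 z
      + b⁻¹ * (K ∩ {z | ps σ u lam z < 1 / 2}).indicator (fun _ => (1 : ℝ)) z) := by
  have Λ0 : 0 ≤ Λ := (abs_nonneg _).trans (h1 0)
  have e0 := en_nonneg (u := u) (lam := lam) hσ one_pos hz
  by_cases hp : ps σ u lam z ≤ 1 / 4 ∨ 1 / 2 ≤ ps σ u lam z
  · rw [h2 _ hp, ofReal_zero, zero_mul, norm_zero]
    have : 0 ≤ (K ∩ {z | ps σ u lam z < 1 / 2}).indicator (fun _ => (1 : ℝ)) z :=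
      indicator_nonneg (fun _ _ => zero_le_one) z
    positivity
  · rw [not_or, not_le, not_le] at hp
    rw [indicator_of_mem (show z ∈ K ∩ {z | ps σ u lam z < 1 / 2} from ⟨hK, hp.2⟩), norm_mul,
      norm_real, Real.norm_eq_abs]
    refine mul_le_mul (h1 _) ?_ (norm_nonneg _) Λ0
    have e := en_ge hσ hl hz hp.1.le
    have p0 : 0 < ps σ u lam z := by linarith [hp.1]
    rw [div_le_iff₀ (by positivity)] at e
    have p3 : ps σ u lam z ^ 3 ≤ 1 / 8 := by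
      have := pow_le_pow_left₀ p0.le hp.2.le 3
      linarith [show ((1 : ℝ) / 2) ^ 3 = 1 / 8 by norm_num]
    set g := ‖gr (ps σ u lam) z‖
    set E := en σ u lam 1 z
    have g2 : g ^ 2 ≤ E := by nlinarith
    have : g ≤ b * g ^ 2 + b⁻¹ * 1 := by
      have hb' : b * b⁻¹ = 1 := mul_inv_cancel₀ hb.ne'
      have bi : 0 < b⁻¹ := inv_pos.2 hb
      nlinarith [mul_nonneg hb.le (sq_nonneg (g - b⁻¹)), norm_nonneg (gr (ps σ u lam) z)]
    nlinarith [mul_le_mul_of_nonneg_left g2 hb.le]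

lemma CoreB_bd (hσ : Met σ) (h : Sol σ K₀ CE CM u lam) {w : ℝ → ℝ} {Λ b c : ℝ} (hb : 0 < b)
    (h1 : ∀ t, |w t| ≤ Λ) (h2 : ∀ t, t ≤ 1 / 4 ∨ 1 / 2 ≤ t → w t = 0) (hK : Cp K) {φ : ℂ → ℂ}
    (hφ : CutC φ K c) :
    ‖∫ z, φ z * ((w (ps σ u lam z) : ℂ) * gr (ps σ u lam) z)‖
      ≤ c * Λ * (b * CE K + b⁻¹ * (CM K * ms σ u lam K₀ (1 / 2))) := by
  have Λ0 : 0 ≤ Λ := (abs_nonneg _).trans (h1 0)
  have c0 : 0 ≤ c := (norm_nonneg _).trans (hφ.b0 0)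
  have hl : 0 ≤ lam := zero_le_one.trans h.eg.one
  have hA := meas_lt (lam := lam) hσ h.eg.cd hK (1 / 2)
  have i1 : IntegrableOn (en σ u lam 1) K :=
    ((co_en hσ h.eg.cd one_pos).mono hK.2).integrableOn_compact hK.1
  have i2 : IntegrableOn ((K ∩ {z | ps σ u lam z < 1 / 2}).indicator fun _ => (1 : ℝ)) K :=
    (integrableOn_const hK.1.measure_lt_top.ne).indicator hA
  rw [← setIntegral_eq_integral_of_forall_compl_eq_zero (s := K) fun z hz => by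
    rw [image_eq_zero_of_notMem_tsupport fun h' => hz (hφ.sub h'), zero_mul]]
  refine (norm_integral_le_of_norm_le (g := fun z => c * (Λ * (b * en σ u lam 1 z
      + b⁻¹ * (K ∩ {z | ps σ u lam z < 1 / 2}).indicator (fun _ => (1 : ℝ)) z)))
      ((((i1.const_mul b).add (i2.const_mul _)).const_mul Λ).const_mul c) ?_).trans ?_
  · filter_upwards [ae_restrict_mem hK.1.measurableSet] with z hz
    rw [norm_mul]
    exact mul_le_mul (hφ.b0 z) (CoreB_pt hσ hl (hK.2 hz) hb h1 h2 hz) (norm_nonneg _) c0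
  · rw [integral_const_mul, integral_const_mul, integral_add (i1.const_mul b) (i2.const_mul _),
      integral_const_mul, integral_const_mul, setIntegral_indicator hA, ← mul_assoc]
    refine mul_le_mul_of_nonneg_left (add_le_add (mul_le_mul_of_nonneg_left
      (h.en K hK 1 one_pos) hb.le) (mul_le_mul_of_nonneg_left ?_ (inv_pos.2 hb).le))
      (mul_nonneg c0 Λ0)
    rw [← inter_assoc, inter_self, setIntegral_const, smul_eq_mul, mul_one]
    exact h.cm K hK _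

lemma CoreB_strip (hσ : Met σ) {u : ℕ → ℂ → ℝ} {lam : ℕ → ℝ}
    (h : ∀ j, Sol σ K₀ CE CM (u j) (lam j))
    (hm : Tendsto (fun j => ms σ (u j) (lam j) K₀ (1 / 2)) atTop (𝓝 0)) {w : ℝ → ℝ} {Λ : ℝ}
    (h1 : ∀ t, |w t| ≤ Λ) (h2 : ∀ t, t ≤ 1 / 4 ∨ 1 / 2 ≤ t → w t = 0) {φ : ℂ → ℂ} (hφ : Ts φ) :
    Tendsto (fun j => ∫ z, φ z * ((w (ps σ (u j) (lam j) z) : ℂ) * gr (ps σ (u j) (lam j)) z))
      atTop (𝓝 0) := by
  obtain ⟨c, hc⟩ := hφ.cut
  refine NormedAddGroup.tendsto_nhds_zero.2 fun ε hε => ?_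
  have t1 : Tendsto (fun b : ℝ => c * Λ * (b * CE (tsupport φ))) (𝓝[>] 0) (𝓝 0) := by
    have : Continuous fun b : ℝ => c * Λ * (b * CE (tsupport φ)) := by fun_prop
    simpa using (this.tendsto 0).mono_left (nhdsWithin_le_nhds (s := Ioi 0))
  obtain ⟨b, b1, b0⟩ := ((t1.eventually_lt_const (half_pos hε)).and self_mem_nhdsWithin).exists
  have t2 : Tendsto (fun j => c * Λ * (b⁻¹ * (CM (tsupport φ) * ms σ (u j) (lam j) K₀ (1 / 2))))
      atTop (𝓝 0) := by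
    simpa using ((hm.const_mul (CM (tsupport φ))).const_mul b⁻¹).const_mul (c * Λ)
  filter_upwards [t2.eventually_lt_const (half_pos hε)] with j hj
  refine (CoreB_bd hσ (h j) b0 h1 h2 (CoreB_cp hφ) hc).trans_lt ?_
  rw [mul_add]
  linarith

theorem core (hσ : Met σ) {c : ℝ} (hc : 0 < c) (hb : ∀ z ∈ UH, c ≤ σ z * z.im ^ 2) (h0 : Cp K₀)
    {u : ℕ → ℂ → ℝ} {lam : ℕ → ℝ} (h : ∀ j, Sol σ K₀ CE CM (u j) (lam j))
    (hl : Tendsto lam atTop atTop)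
    (hm : Tendsto (fun j => ms σ (u j) (lam j) K₀ (1 / 2)) atTop (𝓝 0)) :
    ∃ M, LimD σ M (fun j => Vj σ (u j) (lam j)) (fun j => Rj σ (u j) (lam j))
      fun j => rj σ (u j) (lam j) := by
  obtain ⟨Λ, a1, a2, a3, -, a5, a6⟩ := adm_g0
  have hl0 : ∀ j, 0 ≤ lam j := fun j => zero_le_one.trans (h j).eg.one
  have cps : ∀ j, ContDiffOn ℝ ∞ (ps σ (u j) (lam j)) UH := fun j => cd_ps hσ (h j).eg.cd
  have cg : ∀ j, ContDiffOn ℝ ∞ (fun z => g0 (ps σ (u j) (lam j) z) / σ z) UH := fun j =>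
    (g0_cd.comp_contDiffOn (cps j)).div hσ.cd fun z hz => (hσ.pos z hz).ne'
  have cinv : ContDiffOn ℝ ∞ (fun z => (σ z : ℂ)⁻¹) UH :=
    (cd_rC hσ.cd).inv fun z hz => hσ.ne hz
  have cw : ∀ {w : ℝ → ℝ}, Continuous w → ∀ j,
      ContinuousOn (fun z => (w (ps σ (u j) (lam j) z) : ℂ)) UH := fun hw j =>
    (continuous_ofReal.comp hw).comp_continuousOn (cps j).continuousOn
  have dg : Continuous (deriv g0) := g0_cd.continuous_deriv (by simp)
  have df : Continuous (deriv f0) := f0_cd.continuous_deriv (by simp)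
  refine ⟨32 / c + 16, fun j => (cd_rC (cg j)).mul (cd_ZZ hσ (h j).eg.cd),
    fun j => (cg j).mul (cd_SS hσ (h j).eg.cd), fun j => f0_cd.comp_contDiffOn (cps j),
    fun j z hz => ?_, fun j z hz => ?_, fun j z hz => ⟨(f0_mem _).1, ?_⟩, fun K hK => ?_,
    fun φ hφ => ?_, fun φ hφ => ?_, fun φ hφ => ?_⟩
  · rw [Vj, Rj, norm_mul, norm_ZZ hσ hz, norm_real, Real.norm_of_nonneg
      (div_nonneg (CoreB_g0_nonneg (ps_nonneg hσ (hl0 j) hz)) (hσ.pos z hz).le)]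
  · have g := CoreB_g0_nonneg (ps_nonneg (u := u j) hσ (hl0 j) hz)
    have e1 : g0 (ps σ (u j) (lam j) z) * SS σ (u j) z ≤ 32 := by
      have := mul_le_mul_of_nonneg_left (SS_le (σ := σ) (u := u j) (hl0 j) z) g
      have e := CoreB_g0_mul (ps σ (u j) (lam j) z)
      nlinarith [(f0_mem (ps σ (u j) (lam j) z)).2]
    have s0 := hσ.pos z hz
    have e2 : Rj σ (u j) (lam j) z ≤ 32 / σ z := by
      rw [Rj, div_mul_eq_mul_div]
      exact div_le_div_of_nonneg_right e1 s0.le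
    have e3 : 32 / σ z ≤ 32 / c * z.im ^ 2 := by
      rw [div_mul_eq_mul_div, div_le_div_iff₀ s0 hc]
      nlinarith [hb z hz]
    nlinarith [sq_nonneg z.im]
  · have : 0 < 32 / c := by positivity
    exact (f0_mem _).2.trans (by linarith)
  · obtain ⟨C, hC⟩ := core_en hσ hK CE
    exact ⟨C, fun j => hC (u j) (lam j) K₀ CM (h j)⟩
  · refine (CoreB_phase hσ h hl a1 hφ).congr fun j => integral_congr_ae (ae_of_all _ fun z => ?_)
    refine CoreB_congr (F := fun z => (g0 (ps σ (u j) (lam j) z)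
      * (SS σ (u j) z - ps σ (u j) (lam j) z) : ℝ))
      (G := fun z => σ z * Rj σ (u j) (lam j) z - rj σ (u j) (lam j) z) hφ (fun z hz => ?_) z
    have s0 := (hσ.pos z hz).ne'
    have : g0 (ps σ (u j) (lam j) z) * (SS σ (u j) z - ps σ (u j) (lam j) z)
        = σ z * Rj σ (u j) (lam j) z - rj σ (u j) (lam j) z := by
      rw [Rj, rj, ← CoreB_g0_mul]; field_simp
    simp only [this]; push_cast; rfl
  · have cσ : ContDiffOn ℝ ∞ (fun z => gr σ z * (σ z : ℂ)⁻¹) UH := (cd_gr hσ.cd).mul cinv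
    have t := ((CoreB_tt hσ h hl a2 hφ).add (CoreB_strip hσ h hm a5 a6 hφ)).sub
      (CoreB_phase hσ h hl a1 (hφ.mul (cd1 cσ)))
    rw [add_zero, sub_zero] at t
    refine t.congr fun j => ?_
    have e1 : ∀ z, φ z * (deriv g0 (ps σ (u j) (lam j) z) * ps σ (u j) (lam j) z ^ 2
        / ps σ (u j) (lam j) z ^ 2 : ℝ) * TT σ (u j) (lam j) z
        = φ z * ((deriv g0 (ps σ (u j) (lam j) z) : ℝ) * TT σ (u j) (lam j) z) := fun z => by
      by_cases hp : ps σ (u j) (lam j) z = 0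
      · simp [hp, CoreB_deriv_g0 a1]
      · rw [mul_div_cancel_right₀ _ (pow_ne_zero 2 hp), mul_assoc]
    have e3 : ∀ z, φ z * (gr σ z * (σ z : ℂ)⁻¹) * (g0 (ps σ (u j) (lam j) z)
        * (SS σ (u j) z - ps σ (u j) (lam j) z) : ℝ)
        = φ z * ((g0 (ps σ (u j) (lam j) z) * (SS σ (u j) z - ps σ (u j) (lam j) z) : ℝ)
          * (gr σ z * (σ z : ℂ)⁻¹)) := fun z => by ring
    have i1 := hφ.int ((cw dg j).mul (cd_TT (lam := lam j) hσ (h j).eg.cd).continuousOn)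
    have i2 := hφ.int ((cw (w := fun t => 2 * g0 t + deriv f0 t)
      ((continuous_const.mul g0_cd.continuous).add df) j).mul (cd_gr (cps j)).continuousOn)
    have i3 := hφ.int ((cd_rC ((g0_cd.comp_contDiffOn (cps j)).mul
      ((cd_SS hσ (h j).eg.cd).sub (cps j)))).continuousOn.mul cσ.continuousOn)
    simp only [e1, e3]
    refine ((congrArg₂ (· - ·) (integral_add i1 i2).symm rfl).trans
      (integral_sub (i1.add i2) i3).symm).trans (integral_congr_ae (ae_of_all _ fun z => ?_))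
    by_cases hz : z ∈ UH
    · simp only [core_id hσ (h j).eg hz, rC, Function.comp, Pi.mul_apply, Pi.add_apply]
      rw [div_eq_mul_inv]; ring
    · simp [image_eq_zero_of_notMem_tsupport fun h' => hz (hφ.sub h')]
  · refine (CoreB_tt hσ h hl a3 (hφ.mul (cd1 cinv))).congr fun j =>
      integral_congr_ae (ae_of_all _ fun z => ?_)
    by_cases hz : z ∈ UH
    · simp only [core_tan hσ (h j).eg hz]
      by_cases hp : ps σ (u j) (lam j) z = 0
      · simp [hp, g0]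
      · rw [mul_div_cancel_right₀ _ (pow_ne_zero 2 hp), div_eq_mul_inv]; ring
    · simp [image_eq_zero_of_notMem_tsupport fun h' => hz (hφ.sub h')]

theorem core_mass (hσ : Met σ) (h0 : Cp K₀) (hu : ContDiffOn ℝ ∞ u UH) :
    (ms σ u lam K₀ 2 - ms σ u lam K₀ (1 / 2)) / 4 ≤ ∫ z in K₀, rj σ u lam z := by
  have hA := meas_lt (lam := lam) hσ hu h0 2
  have hB := meas_lt (lam := lam) hσ hu h0 (1 / 2)
  have sub : K₀ ∩ {z | ps σ u lam z < 1 / 2} ⊆ K₀ ∩ {z | ps σ u lam z < 2} :=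
    fun z hz => ⟨hz.1, lt_trans hz.2 (by norm_num : (1 / 2 : ℝ) < 2)⟩
  have fin : volume (K₀ ∩ {z | ps σ u lam z < 2}) ≠ ⊤ :=
    ((measure_mono inter_subset_left).trans_lt h0.1.measure_lt_top).ne
  have i : IntegrableOn (rj σ u lam) K₀ :=
    ((f0_cd.continuous.comp_continuousOn (cd_ps hσ hu).continuousOn).mono
      h0.2).integrableOn_compact h0.1
  have s2 : (K₀ ∩ {z | ps σ u lam z < 2}) \ (K₀ ∩ {z | ps σ u lam z < 1 / 2}) ⊆ K₀ :=
    fun z hz => hz.1.1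
  rw [ms, ms, ← measureReal_sdiff sub hB fin]
  refine le_trans ?_ (setIntegral_mono_set i (ae_of_all _ fun z => (f0_mem _).1)
    s2.eventuallyLE)
  rw [div_eq_inv_mul]
  refine setIntegral_ge_of_const_le_real (hA.diff hB)
    ((measure_mono sdiff_subset).trans_lt fin.lt_top).ne (fun z hz => ?_) (i.mono_set s2)
  have := f0_ge (t := ps σ u lam z) (not_lt.1 fun h' => hz.2 ⟨hz.1.1, h'⟩) (le_of_lt hz.1.2)
  rw [rj]; linarith

end Pool.Agent.Lib.MP_a52643_an.CP
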