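import Pool.Agent.Lib.MP_a52643_an.CP.Defs

/-!
The mollifier in the square mean, and weak compactness.
-/

open Complex MeasureTheory Set Filter Topology Metric
open scoped ComplexConjugate ContDiff ENNReal

noncomputable section

namespace Pool.Agent.Lib.MP_a52643_an.CP

theorem cs_le {F G : ℂ → ℂ} (hF : MemLp F 2 volume) (hG : MemLp G 2 volume) :
    Integrable (fun z => F z * G z) ∧
      ‖∫ z, F z * G z‖ ≤ √(∫ z, ‖F z‖ ^ 2) * √(∫ z, ‖G z‖ ^ 2) := by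
  refine ⟨hF.integrable_mul hG, (norm_integral_le_integral_norm _).trans ?_⟩
  have h := integral_mul_norm_le_Lp_mul_Lq (μ := volume) (f := F) (g := G)
    Real.HolderConjugate.two_two (by simpa using hF) (by simpa using hG)
  simp only [norm_mul, Real.sqrt_eq_rpow]
  simpa only [Real.rpow_two] using h

lemma Moll2_sq {G : ℂ → ℂ} (hG : MemLp G 2 volume) : Integrable fun z => ‖G z‖ ^ 2 :=
  (memLp_two_iff_integrable_sq_norm hG.1).1 hG

lemma Moll2_nn (G : ℂ → ℂ) : 0 ≤ ∫ z, ‖G z‖ ^ 2 := integral_nonneg fun _ => sq_nonneg _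

lemma Moll2_hkint : Integrable hk := continuous_hk.integrable_of_hasCompactSupport hcs_hk

lemma Moll2_pt {P : ℂ → ℂ} (hm : AEStronglyMeasurable P volume)
    (hi : Integrable fun a => hk a * ‖P a‖ ^ 2) :
    Integrable (fun a => (hk a : ℂ) * P a) ∧
      ‖∫ a, (hk a : ℂ) * P a‖ ^ 2 ≤ ∫ a, hk a * ‖P a‖ ^ 2 := by
  have c : Continuous fun a => ((√(hk a) : ℝ) : ℂ) := by fun_prop
  have e1 : ∀ a, ‖((√(hk a) : ℝ) : ℂ)‖ ^ 2 = hk a := fun a => by
    rw [norm_real, Real.norm_eq_abs, sq_abs, Real.sq_sqrt (hk_nonneg a)]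
  have e2 : ∀ a, ‖((√(hk a) : ℝ) : ℂ) * P a‖ ^ 2 = hk a * ‖P a‖ ^ 2 := fun a => by
    rw [norm_mul, mul_pow, e1]
  have e3 : ∀ a, ((√(hk a) : ℝ) : ℂ) * (((√(hk a) : ℝ) : ℂ) * P a) = (hk a : ℂ) * P a :=
    fun a => by rw [← mul_assoc, ← ofReal_mul, Real.mul_self_sqrt (hk_nonneg a)]
  have h1 : MemLp (fun a => ((√(hk a) : ℝ) : ℂ)) 2 volume :=
    (memLp_two_iff_integrable_sq_norm c.aestronglyMeasurable).2
      (by simpa only [e1] using Moll2_hkint)
  have h2 : MemLp (fun a => ((√(hk a) : ℝ) : ℂ) * P a) 2 volume :=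
    (memLp_two_iff_integrable_sq_norm (c.aestronglyMeasurable.mul hm)).2
      (by simpa only [Pi.mul_apply, e2] using hi)
  obtain ⟨a1, a2⟩ := cs_le h1 h2
  simp only [e1, e2, e3, integral_hk, Real.sqrt_one, one_mul] at a1 a2
  refine ⟨a1, ?_⟩
  have : 0 ≤ ∫ a, hk a * ‖P a‖ ^ 2 :=
    integral_nonneg fun a => mul_nonneg (hk_nonneg a) (sq_nonneg _)
  calc _ ≤ √(∫ a, hk a * ‖P a‖ ^ 2) ^ 2 := pow_le_pow_left₀ (norm_nonneg _) a2 2
    _ = _ := Real.sq_sqrt this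

lemma Moll2_avg {P : ℂ × ℂ → ℂ} {C : ℝ} (hm : AEStronglyMeasurable P (volume.prod volume))
    (h1 : ∀ a, Integrable fun x => ‖P (x, a)‖ ^ 2)
    (h2 : ∀ a, ‖a‖ ≤ 1 → ∫ x, ‖P (x, a)‖ ^ 2 ≤ C) :
    (∀ᵐ x, Integrable fun a => (hk a : ℂ) * P (x, a)) ∧
      MemLp (fun x => ∫ a, (hk a : ℂ) * P (x, a)) 2 volume ∧
      ∫ x, ‖∫ a, (hk a : ℂ) * P (x, a)‖ ^ 2 ≤ C := by
  have mk : AEStronglyMeasurable (fun p : ℂ × ℂ => hk p.2) (volume.prod volume) :=
    (continuous_hk.comp continuous_snd).aestronglyMeasurable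
  have m2 : AEStronglyMeasurable (fun p : ℂ × ℂ => hk p.2 * ‖P p‖ ^ 2) (volume.prod volume) :=
    mk.mul (hm.norm.pow 2)
  have b : ∀ a, ∫ x, hk a * ‖P (x, a)‖ ^ 2 ≤ hk a * C := fun a => by
    rw [integral_const_mul]
    rcases lt_or_ge 1 ‖a‖ with ha | ha
    · simp [hk_zero ha]
    · exact mul_le_mul_of_nonneg_left (h2 a ha) (hk_nonneg a)
  have nn : ∀ p : ℂ × ℂ, 0 ≤ hk p.2 * ‖P p‖ ^ 2 := fun p =>
    mul_nonneg (hk_nonneg _) (sq_nonneg _)
  have hi : Integrable (fun p : ℂ × ℂ => hk p.2 * ‖P p‖ ^ 2) (volume.prod volume) := by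
    refine (integrable_prod_iff' m2).2 ⟨.of_forall fun a => (h1 a).const_mul (hk a), ?_⟩
    refine (Moll2_hkint.mul_const C).mono' m2.norm.prod_swap.integral_prod_right'
      (.of_forall fun a => ?_)
    rw [Real.norm_of_nonneg (integral_nonneg fun _ => norm_nonneg _)]
    simpa only [Real.norm_of_nonneg (nn (_, a))] using b a
  have pt : ∀ᵐ x, Integrable (fun a => (hk a : ℂ) * P (x, a)) ∧
      ‖∫ a, (hk a : ℂ) * P (x, a)‖ ^ 2 ≤ ∫ a, hk a * ‖P (x, a)‖ ^ 2 := by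
    filter_upwards [hi.prod_right_ae, hm.prodMk_left] with x x1 x2 using Moll2_pt x2 x1
  have m3 : AEStronglyMeasurable (fun x => ∫ a, (hk a : ℂ) * P (x, a)) volume :=
    ((continuous_ofReal.comp_aestronglyMeasurable mk).mul hm).integral_prod_right'
  have i3 : Integrable fun x => ‖∫ a, (hk a : ℂ) * P (x, a)‖ ^ 2 :=
    hi.integral_prod_left.mono' (m3.norm.pow 2) (pt.mono fun x hx => by
      rw [Real.norm_of_nonneg (sq_nonneg _)]; exact hx.2)
  refine ⟨pt.mono fun x hx => hx.1, (memLp_two_iff_integrable_sq_norm m3).2 i3, ?_⟩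
  calc _ ≤ ∫ x, ∫ a, hk a * ‖P (x, a)‖ ^ 2 :=
        integral_mono_ae i3 hi.integral_prod_left (pt.mono fun x hx => hx.2)
    _ = ∫ a, ∫ x, hk a * ‖P (x, a)‖ ^ 2 :=
        integral_integral_swap (f := fun x a => hk a * ‖P (x, a)‖ ^ 2) hi
    _ ≤ ∫ a, hk a * C := integral_mono hi.integral_prod_right (Moll2_hkint.mul_const C) b
    _ = C := by rw [integral_mul_const, integral_hk, one_mul]

lemma Moll2_meas {G : ℂ → ℂ} (hG : AEStronglyMeasurable G volume) (ε : ℝ) :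
    AEStronglyMeasurable (fun p : ℂ × ℂ => G (p.1 + ε • p.2)) (volume.prod volume) := by
  have : Measure.QuasiMeasurePreserving (fun p : ℂ × ℂ => p.1 + ε • p.2)
      (volume.prod volume) volume :=
    QuasiMeasurePreserving.prod_of_left (by fun_prop) (.of_forall fun y =>
      (measurePreserving_add_right volume (ε • y)).quasiMeasurePreserving)
  exact hG.comp_quasiMeasurePreserving this

lemma Moll2_tr {G : ℂ → ℂ} (hG : MemLp G 2 volume) (h : ℂ) :
    MemLp (fun x => G (x + h)) 2 volume :=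
  hG.comp_measurePreserving (measurePreserving_add_right volume h)

lemma Moll2_main {G : ℂ → ℂ} (hG : MemLp G 2 volume) (ε : ℝ) :
    (∀ᵐ x, Integrable fun a => (hk a : ℂ) * G (x + ε • a)) ∧
      MemLp (moll ε G) 2 volume ∧ ∫ z, ‖moll ε G z‖ ^ 2 ≤ ∫ z, ‖G z‖ ^ 2 :=
  Moll2_avg (Moll2_meas hG.1 ε) (fun a => Moll2_sq (Moll2_tr hG (ε • a))) fun a _ =>
    (integral_add_right_eq_self (fun x => ‖G x‖ ^ 2) (ε • a)).le

theorem moll_mem {G : ℂ → ℂ} (hG : MemLp G 2 volume) (ε : ℝ) :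
    MemLp (moll ε G) 2 volume ∧ ∫ z, ‖moll ε G z‖ ^ 2 ≤ ∫ z, ‖G z‖ ^ 2 :=
  (Moll2_main hG ε).2

lemma Moll2_nsq (f : Lp ℂ 2 (volume : Measure ℂ)) : ‖f‖ ^ 2 = ∫ x, ‖f x‖ ^ 2 := by
  rw [← real_inner_self_eq_norm_sq, L2.inner_def]
  simp only [real_inner_self_eq_norm_sq]

lemma Moll2_cont {G : ℂ → ℂ} (hG : MemLp G 2 volume) :
    Continuous fun h : ℂ => ∫ x, ‖G (x + h) - G x‖ ^ 2 := by
  let g : ℂ → C(ℂ, ℂ) := fun h => (ContinuousMap.curry ⟨fun p : ℂ × ℂ => p.2 + p.1, by fun_prop⟩) h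
  have hg : ∀ h, MeasurePreserving (g h) volume volume := fun h =>
    measurePreserving_add_right volume h
  have c := (continuous_const (y := hG.toLp G)).compMeasurePreservingLp
    (ContinuousMap.continuous _ : Continuous g) hg (by simp)
  refine (((c.sub (continuous_const (y := hG.toLp G))).norm).pow 2).congr fun h => ?_
  refine (Moll2_nsq _).trans (integral_congr_ae ?_)
  filter_upwards [Lp.coeFn_sub (Lp.compMeasurePreserving (g h) (hg h) (hG.toLp G)) (hG.toLp G),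
    Lp.coeFn_compMeasurePreserving (hG.toLp G) (hg h), hG.coeFn_toLp,
    (hg h).quasiMeasurePreserving.ae hG.coeFn_toLp] with x x1 x2 x3 x4
  rw [Pi.sub_apply, x2, x3, Function.comp_apply, x4] at x1
  exact congrArg (fun w => ‖w‖ ^ 2) x1

theorem moll_lim {G : ℂ → ℂ} (hG : MemLp G 2 volume) :
    Tendsto (fun ε => ∫ z, ‖moll ε G z - G z‖ ^ 2) (𝓝[>] (0 : ℝ)) (𝓝 0) := by
  refine Metric.tendsto_nhds.2 fun η hη => ?_
  obtain ⟨δ, hδ, h⟩ := Metric.continuousAt_iff.1 ((Moll2_cont hG).continuousAt (x := 0))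
    (η / 2) (by positivity)
  filter_upwards [Ioo_mem_nhdsGT hδ] with ε hε
  rw [dist_zero_right, Real.norm_of_nonneg (Moll2_nn _)]
  have m : AEStronglyMeasurable (fun p : ℂ × ℂ => G (p.1 + ε • p.2) - G p.1)
      (volume.prod volume) := (Moll2_meas hG.1 ε).sub hG.1.comp_fst
  obtain ⟨-, -, h3⟩ := Moll2_avg (C := η / 2) m
    (fun a => Moll2_sq ((Moll2_tr hG (ε • a)).sub hG)) fun a ha => by
      have := h (x := ε • a) (by
        rw [dist_zero_right, norm_smul, Real.norm_of_nonneg hε.1.le]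
        nlinarith [hε.1, hε.2])
      simp only [add_zero, sub_self, norm_zero, ne_eq, OfNat.ofNat_ne_zero, not_false_eq_true,
        zero_pow, integral_zero, dist_zero_right] at this
      exact (le_abs_self _).trans this.le
  refine lt_of_le_of_lt (le_of_eq_of_le (integral_congr_ae ?_) h3) (by linarith)
  filter_upwards [(Moll2_main hG ε).1] with x hx
  have i : Integrable fun a => (hk a : ℂ) * G x := Moll2_hkint.ofReal.mul_const _
  simp only [mul_sub]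
  rw [integral_sub hx i, integral_mul_const, integral_complex_ofReal, integral_hk, ofReal_one,
    one_mul, moll]

lemma Moll2_err {g : ℕ → ℂ → ℂ} {B : ℝ} (hB : LB g B) {f F : ℂ → ℂ} (hf : MemLp f 2 volume)
    (hF : MemLp F 2 volume) (j : ℕ) :
    ‖(∫ z, f z * g j z) - ∫ z, F z * g j z‖ ≤ √(∫ z, ‖f z - F z‖ ^ 2) * √B := by
  rw [← integral_sub (cs_le hf (hB j).1).1 (cs_le hF (hB j).1).1]
  simp only [← sub_mul]
  exact (cs_le (hf.sub hF) (hB j).1).2.trans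
    (mul_le_mul_of_nonneg_left (Real.sqrt_le_sqrt (hB j).2) (Real.sqrt_nonneg _))

/-- A strongly convergent factor times a weakly convergent one. -/
theorem WL.mul_lim {g f : ℕ → ℂ → ℂ} {G F : ℂ → ℂ} {B : ℝ} (h : WL g G) (hB : LB g B)
    (hf : ∀ j, MemLp (f j) 2 volume) (hF : MemLp F 2 volume)
    (hl : Tendsto (fun j => ∫ z, ‖f j z - F z‖ ^ 2) atTop (𝓝 0)) :
    Tendsto (fun j => ∫ z, f j z * g j z) atTop (𝓝 (∫ z, F z * G z)) := by
  have t : Tendsto (fun j => (∫ z, f j z * g j z) - ∫ z, F z * g j z) atTop (𝓝 0) :=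
    squeeze_zero_norm (fun j => Moll2_err hB (hf j) hF j) (by simpa using hl.sqrt.mul_const √B)
  simpa using t.add (h.lim F hF)

lemma Moll2_inner {g φ : ℂ → ℂ} (hφ : MemLp φ 2 volume) (v : Lp ℂ 2 (volume : Measure ℂ))
    (hv : v =ᵐ[volume] fun z => conj (g z)) : inner ℂ v (hφ.toLp φ) = ∫ z, φ z * g z := by
  rw [L2.inner_def]
  refine integral_congr_ae ?_
  filter_upwards [hv, hφ.coeFn_toLp] with x x1 x2
  rw [x1, x2]; simp

theorem weak_cpt {g : ℕ → ℂ → ℂ} {B : ℝ} (h : LB g B) :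
    ∃ (s : ℕ → ℕ) (G : ℂ → ℂ), StrictMono s ∧ WL (fun j => g (s j)) G := by
  have : Fact ((2 : ℝ≥0∞) ≠ ⊤) := ⟨by simp⟩
  have hc : ∀ j, MemLp (fun z => conj (g j z)) 2 volume := fun j => (h j).1.star
  let L : ℕ → WeakDual ℂ (Lp ℂ 2 (volume : Measure ℂ)) := fun j =>
    StrongDual.toWeakDual (InnerProductSpace.toDual ℂ _ ((hc j).toLp _))
  have hL : ∀ j, L j ∈ WeakDual.toStrongDual ⁻¹' closedBall 0 √B := fun j => by
    have e : ‖(hc j).toLp _‖ ^ 2 = ∫ z, ‖g j z‖ ^ 2 := by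
      rw [Moll2_nsq]
      refine integral_congr_ae ?_
      filter_upwards [(hc j).coeFn_toLp] with x hx
      rw [hx, norm_conj]
    change InnerProductSpace.toDual ℂ _ ((hc j).toLp _) ∈ closedBall 0 √B
    rw [mem_closedBall_zero_iff, LinearIsometryEquiv.norm_map]
    exact Real.le_sqrt_of_sq_le (e.trans_le (h j).2)
  obtain ⟨l, -, s, hs, hl⟩ := WeakDual.isSeqCompact_closedBall ℂ _ 0 √B hL
  obtain ⟨v, hv⟩ := (InnerProductSpace.toDual ℂ (Lp ℂ 2 (volume : Measure ℂ))).surjective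
    (WeakDual.toStrongDual l)
  refine ⟨s, fun z => conj (v z), hs, (Lp.memLp v).star, fun φ hφ => ?_⟩
  have t := ((WeakDual.eval_continuous (hφ.toLp φ)).tendsto l).comp hl
  have e1 : l (hφ.toLp φ) = ∫ z, φ z * conj (v z) := by
    rw [← Moll2_inner hφ v (.of_forall fun z => by simp)]
    exact (congrArg (fun T => T (hφ.toLp φ)) hv).symm
  rw [e1] at t
  exact t.congr fun j => Moll2_inner hφ _ (hc (s j)).coeFn_toLp

/-- For bounded sequences it is enough to test with smooth functions. -/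
theorem WL.of_test {g : ℕ → ℂ → ℂ} {G : ℂ → ℂ} {B : ℝ} (hB : LB g B) (hG : MemLp G 2 volume)
    (h : ∀ φ, ContDiff ℝ 1 φ → HasCompactSupport φ →
      Tendsto (fun j => ∫ z, φ z * g j z) atTop (𝓝 (∫ z, φ z * G z))) : WL g G := by
  refine ⟨hG, fun φ hφ => Metric.tendsto_nhds.2 fun η hη => ?_⟩
  set A := √B + √(∫ z, ‖G z‖ ^ 2) + 1 with hA
  have A0 : 0 < A := by positivity
  obtain ⟨ψ, c1, c2, c3⟩ := hφ.exist_eLpNorm_sub_le (by simp) (by simp)
    (ε := η / 2 / A) (by positivity)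
  have hψ : MemLp ψ 2 volume := c2.continuous.memLp_of_hasCompactSupport c1
  have e : √(∫ z, ‖φ z - ψ z‖ ^ 2) ≤ η / 2 / A := by
    have e1 : ∫ z, ‖φ z - ψ z‖ ^ 2 = ‖(hφ.sub hψ).toLp _‖ ^ 2 := by
      rw [Moll2_nsq]
      refine integral_congr_ae ?_
      filter_upwards [(hφ.sub hψ).coeFn_toLp] with x hx
      rw [hx, Pi.sub_apply]
    rw [e1, Real.sqrt_sq (norm_nonneg _), Lp.norm_toLp]
    exact ENNReal.toReal_le_of_le_ofReal (by positivity) c3
  have hB' : LB (fun _ => G) (∫ z, ‖G z‖ ^ 2) := fun _ => ⟨hG, le_rfl⟩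
  have a2 := Moll2_err hB' hφ hψ 0
  filter_upwards [Metric.tendsto_nhds.1 (h ψ (c2.of_le (by simp)) c1) (η / 2) (by positivity)]
    with j hj
  have a1 := Moll2_err hB hφ hψ j
  rw [← dist_eq_norm] at a1 a2
  have tr := dist_triangle4 (∫ z, φ z * g j z) (∫ z, ψ z * g j z) (∫ z, ψ z * G z)
    (∫ z, φ z * G z)
  rw [dist_comm (∫ z, ψ z * G z)] at tr
  have f : √(∫ z, ‖φ z - ψ z‖ ^ 2) * A ≤ η / 2 := (le_div_iff₀ A0).1 e
  have := Real.sqrt_nonneg (∫ z, ‖φ z - ψ z‖ ^ 2)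
  rw [hA] at f
  nlinarith

end Pool.Agent.Lib.MP_a52643_an.CP
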