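import Pool.Agent.Lib.MP_a52643_an.CP.Moll1
import Pool.Agent.Lib.MP_a52643_an.CP.Moll2

/-!
The div-curl lemma for weak limits.
-/

open Complex MeasureTheory Set Filter Topology Metric
open scoped ComplexConjugate ContDiff ENNReal

noncomputable section

namespace Pool.Agent.Lib.MP_a52643_an.CP

theorem dcLim_int {F : ℂ → ℂ} (hF : MemLp F 2 volume) : Integrable fun z => ‖F z‖ ^ 2 :=
  (memLp_two_iff_integrable_sq_norm hF.1).1 hF

theorem dcLim_sb {g : ℕ → ℂ → ℂ} {B : ℝ} (h : LB g B) (K : Set ℂ) (ε : ℝ) (j : ℕ) :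
    SB K ε B (g j) := fun a _ => by
  have i := (dcLim_int (h j).1).comp_add_right a
  refine (setIntegral_le_integral i (Eventually.of_forall fun x => by positivity)).trans ?_
  rw [integral_add_right_eq_self (fun x => ‖g j x‖ ^ 2) a]
  exact (h j).2

theorem dcLim_cut {χ : ℂ → ℂ} (hχ : ContDiff ℝ 1 χ) (hc : HasCompactSupport χ) :
    ∃ C, CutC χ (tsupport χ) C := by
  obtain ⟨C0, h0⟩ := hχ.continuous.bounded_above_of_compact_support hc
  obtain ⟨C1, h1⟩ := (continuous_dz hχ).bounded_above_of_compact_support (hcs_dz hc)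
  obtain ⟨C2, h2⟩ := (continuous_dzb hχ).bounded_above_of_compact_support (hcs_dzb hc)
  exact ⟨max C0 (max C1 C2), hχ, hc.isCompact, subset_rfl, fun x => (h0 x).trans (le_max_left _ _),
    fun x => (h1 x).trans ((le_max_left _ _).trans (le_max_right _ _)),
    fun x => (h2 x).trans ((le_max_right _ _).trans (le_max_right _ _))⟩

theorem dcLim_cs {χ F G : ℂ → ℂ} {C : ℝ} (hχ : Continuous χ) (hC : ∀ x, ‖χ x‖ ≤ C)
    (hF : MemLp F 2 volume) (hG : MemLp G 2 volume) :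
    Integrable (fun z => χ z * F z * G z) ∧
      ‖∫ z, χ z * F z * G z‖ ≤ C * √(∫ z, ‖F z‖ ^ 2) * √(∫ z, ‖G z‖ ^ 2) := by
  have C0 : 0 ≤ C := (norm_nonneg _).trans (hC 0)
  have hb : ∀ z, ‖χ z * F z‖ ≤ C * ‖F z‖ := fun z => by rw [norm_mul]; gcongr; exact hC z
  have hm : MemLp (fun z => χ z * F z) 2 volume :=
    hF.of_le_mul (c := C) (hχ.aestronglyMeasurable.mul hF.1) (Eventually.of_forall hb)
  obtain ⟨i, e⟩ := cs_le hm hG
  refine ⟨i, e.trans (mul_le_mul_of_nonneg_right ?_ (Real.sqrt_nonneg _))⟩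
  rw [← Real.sqrt_sq C0, ← Real.sqrt_mul (sq_nonneg C), ← integral_const_mul]
  refine Real.sqrt_le_sqrt (integral_mono (dcLim_int hm) ((dcLim_int hF).const_mul _) fun z => ?_)
  simp only
  rw [← mul_pow]
  gcongr
  exact hb z

theorem dcLim_ker {ε : ℝ} (hε : 0 < ε) (h1 : ε ≤ 1) (x : ℂ) : MemLp (ker ε x) 2 volume := by
  obtain ⟨C, -, h⟩ := ker_cut
  exact (h ε x hε h1).cd.continuous.memLp_of_hasCompactSupport (h ε x hε h1).hcs

theorem dcLim_bd {g : ℕ → ℂ → ℂ} {B ε : ℝ} (h : LB g B) (hε : 0 < ε) (h1 : ε ≤ 1) (j : ℕ) (x : ℂ) :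
    ‖moll ε (g j) x‖ ≤ √(∫ y, ‖ker ε 0 y‖ ^ 2) * √B := by
  rw [moll_eq hε]
  refine (cs_le (dcLim_ker hε h1 x) (h j).1).2.trans ?_
  have : ∫ y, ‖ker ε x y‖ ^ 2 = ∫ y, ‖ker ε 0 y‖ ^ 2 := by
    rw [← integral_sub_right_eq_self (fun y => ‖ker ε 0 y‖ ^ 2) x]
    simp [ker]
  rw [this]
  gcongr
  exact (h j).2

theorem dcLim_seq {F G : ℕ → ℂ → ℂ} {f g χ : ℂ → ℂ} {B ε : ℝ} (bF : LB F B) (bG : LB G B)
    (lF : WL F f) (lG : WL G g) (hχ : Continuous χ) (hc : HasCompactSupport χ) (hε : 0 < ε)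
    (h1 : ε ≤ 1) :
    Tendsto (fun j => ∫ x, χ x * moll ε (F j) x * moll ε (G j) x) atTop
      (𝓝 (∫ x, χ x * moll ε f x * moll ε g x)) := by
  obtain ⟨M, hM⟩ : ∃ M, M = √(∫ y, ‖ker ε 0 y‖ ^ 2) * √B := ⟨_, rfl⟩
  refine tendsto_integral_of_dominated_convergence (fun x => ‖χ x‖ * M * M)
    (fun j => (hχ.aestronglyMeasurable.mul (moll_mem (bF j).1 ε).1.1).mul (moll_mem (bG j).1 ε).1.1)
    (((hχ.integrable_of_hasCompactSupport hc).norm.mul_const M).mul_const M)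
    (fun j => Eventually.of_forall fun x => ?_) (Eventually.of_forall fun x => ?_)
  · have a := dcLim_bd bF hε h1 j x
    have b := dcLim_bd bG hε h1 j x
    rw [← hM] at a b
    have M0 : 0 ≤ M := (norm_nonneg _).trans a
    rw [norm_mul, norm_mul]
    gcongr
  · simp only [moll_eq hε]
    exact ((lF.lim _ (dcLim_ker hε h1 x)).const_mul _).mul (lG.lim _ (dcLim_ker hε h1 x))

theorem dcLim_eps {f g χ : ℂ → ℂ} {C : ℝ} (hf : MemLp f 2 volume) (hg : MemLp g 2 volume)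
    (hχ : Continuous χ) (hC : ∀ x, ‖χ x‖ ≤ C) :
    Tendsto (fun ε => ∫ x, χ x * moll ε f x * moll ε g x) (𝓝[>] (0 : ℝ))
      (𝓝 (∫ x, χ x * f x * g x)) := by
  have C0 : 0 ≤ C := (norm_nonneg _).trans (hC 0)
  rw [tendsto_iff_norm_sub_tendsto_zero]
  have t1 := ((moll_lim hf).sqrt.const_mul C).mul_const (√(∫ z, ‖g z‖ ^ 2))
  have t2 := (moll_lim hg).sqrt.const_mul (C * √(∫ z, ‖f z‖ ^ 2))
  have t := t1.add t2
  simp only [Real.sqrt_zero, mul_zero, zero_mul, add_zero] at t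
  refine squeeze_zero (fun _ => norm_nonneg _) (fun ε => ?_) t
  obtain ⟨mf, -⟩ := moll_mem hf ε
  obtain ⟨mg, bg⟩ := moll_mem hg ε
  obtain ⟨i1, e1⟩ := dcLim_cs hχ hC (mf.sub hf) mg
  obtain ⟨i2, e2⟩ := dcLim_cs hχ hC hf (mg.sub hg)
  simp only [Pi.sub_apply] at i1 e1 i2 e2
  have e : (∫ x, χ x * moll ε f x * moll ε g x) - ∫ x, χ x * f x * g x =
      (∫ x, χ x * (moll ε f x - f x) * moll ε g x) + ∫ x, χ x * f x * (moll ε g x - g x) := by
    rw [← integral_sub (dcLim_cs hχ hC mf mg).1 (dcLim_cs hχ hC hf hg).1, ← integral_add i1 i2]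
    congr 1; ext x; ring
  rw [e]
  refine (norm_add_le _ _).trans (add_le_add (e1.trans ?_) e2)
  gcongr

theorem dc_lim {U U' W W' : ℕ → ℂ → ℂ} {u u' w w' χ : ℂ → ℂ} {B : ℝ}
    (cU : ∀ j, ContDiff ℝ 1 (U j)) (cU' : ∀ j, ContDiff ℝ 1 (U' j))
    (cW : ∀ j, ContDiff ℝ 1 (W j)) (cW' : ∀ j, ContDiff ℝ 1 (W' j))
    (b1 : LB U B) (b2 : LB U' B) (b3 : LB (fun j => eP (U j) (U' j)) B)
    (b4 : LB W B) (b5 : LB W' B) (b6 : LB (fun j => eP (W j) (W' j)) B)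
    (l1 : WL U u) (l2 : WL U' u') (l3 : WL W w) (l4 : WL W' w')
    (hχ : ContDiff ℝ 1 χ) (hc : HasCompactSupport χ) :
    Tendsto (fun j => ∫ z, χ z * (W j z * U' j z - W' j z * U j z)) atTop
      (𝓝 (∫ z, χ z * (w z * u' z - w' z * u z))) := by
  obtain ⟨C, h⟩ := dcLim_cut hχ hc
  have cχ := hχ.continuous
  have sp : ∀ {a b c d : ℂ → ℂ}, MemLp a 2 volume → MemLp b 2 volume → MemLp c 2 volume →
      MemLp d 2 volume → ∫ z, χ z * (a z * b z - c z * d z) =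
        (∫ z, χ z * a z * b z) - ∫ z, χ z * c z * d z := fun ha hb hc hd => by
    rw [← integral_sub (dcLim_cs cχ h.b0 ha hb).1 (dcLim_cs cχ h.b0 hc hd).1]
    congr 1; ext z; ring
  rw [sp l3.mem l2.mem l4.mem l1.mem]
  simp only [fun j => sp (b4 j).1 (b2 j).1 (b5 j).1 (b1 j).1]
  rw [Metric.tendsto_nhds]
  intro η hη
  have t1 := (dcLim_eps l3.mem l2.mem cχ h.b0).sub (dcLim_eps l4.mem l1.mem cχ h.b0)
  have t2 : Tendsto (fun ε : ℝ => 16 * ε * kap * C * B) (𝓝[>] 0) (𝓝 0) := by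
    have : Continuous fun ε : ℝ => 16 * ε * kap * C * B := by fun_prop
    simpa using (this.tendsto 0).mono_left nhdsWithin_le_nhds
  obtain ⟨ε, ⟨e1, e2⟩, e3⟩ := (((Metric.tendsto_nhds.1 t1 (η / 3) (by positivity)).and
    (t2.eventually (gt_mem_nhds (by positivity : (0 : ℝ) < η / 3)))).and
    (Ioc_mem_nhdsGT (zero_lt_one' ℝ))).exists
  have t3 := (dcLim_seq b4 b2 l3 l2 cχ hc e3.1 e3.2).sub (dcLim_seq b5 b1 l4 l1 cχ hc e3.1 e3.2)
  filter_upwards [Metric.tendsto_nhds.1 t3 (η / 3) (by positivity)] with j hj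
  have d := div_curl e3.1 h (cU j) (cU' j) (cW j) (cW' j) (dcLim_sb b1 _ _ j) (dcLim_sb b2 _ _ j)
    (dcLim_sb b3 _ _ j) (dcLim_sb b4 _ _ j) (dcLim_sb b5 _ _ j) (dcLim_sb b6 _ _ j)
  rw [← dist_eq_norm, dist_comm] at d
  refine (dist_triangle4 _ _ _ _).trans_lt ((add_lt_add (add_lt_add (d.trans_lt e2) hj) e1).trans_eq ?_)
  ring

end Pool.Agent.Lib.MP_a52643_an.CP
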