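import Pool.Agent.Lib.MP_a52643_an.CP.Moll1

/-!
The div-curl bound in the half plane.
-/

open Complex MeasureTheory Set Filter Topology Metric
open scoped ComplexConjugate ContDiff ENNReal

noncomputable section

namespace Pool.Agent.Lib.MP_a52643_an.CP

lemma dcu_mem {K : Set ℂ} {e : ℝ} {x a : ℂ} (hx : x ∈ K) (ha : ‖a‖ ≤ e) :
    x + a ∈ cthickening e K :=
  mem_cthickening_of_dist_le _ x _ _ hx (by simpa using ha)

lemma dcu_sb {K : Set ℂ} {e ε B : ℝ} (hK : IsCompact K) (h1 : Cp (cthickening e K)) (hε : ε ≤ e)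
    {F G : ℂ → ℂ} (hF : ContinuousOn F UH) (h : ∀ x ∈ cthickening e K, G x = F x)
    (hB : ∫ z in cthickening e K, ‖F z‖ ^ 2 ≤ B) : SB K ε B G := by
  intro a ha
  rw [setIntegral_congr_fun hK.measurableSet (g := fun x => ‖F (x + a)‖ ^ 2)
      fun x hx => by simp only [h _ (dcu_mem hx (ha.trans hε))],
    ← (measurePreserving_add_right volume a).setIntegral_image_emb (measurableEmbedding_addRight a)
      (fun x => ‖F x‖ ^ 2) K]
  refine (setIntegral_mono_set (((hF.mono h1.2).norm.pow 2).integrableOn_compact h1.1)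
    (Eventually.of_forall fun x => sq_nonneg _) (LE.le.eventuallyLE ?_)).trans hB
  rintro _ ⟨x, hx, rfl⟩
  exact dcu_mem hx (ha.trans hε)

lemma dcu_eP {U U' V V' : ℂ → ℂ} {x : ℂ} (h : V =ᶠ[𝓝 x] U) (h' : V' =ᶠ[𝓝 x] U') :
    eP V V' x = eP U U' x := by
  simp only [eP, dz, dzb, h.fderiv_eq, h'.fderiv_eq]

theorem dcu {K : Set ℂ} (hK : Cp K) : ∃ (ε₀ C₁ : ℝ) (K₁ : Set ℂ), 0 < ε₀ ∧ ε₀ ≤ 1 ∧ 0 ≤ C₁ ∧
    Cp K₁ ∧ cthickening ε₀ K ⊆ K₁ ∧ ∀ (χ U U' W W' : ℂ → ℂ) (c B ε : ℝ), 0 < ε → ε ≤ ε₀ →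
      CutC χ K c → ContDiffOn ℝ 1 U UH → ContDiffOn ℝ 1 U' UH → ContDiffOn ℝ 1 W UH →
      ContDiffOn ℝ 1 W' UH → ∫ z in K₁, ‖U z‖ ^ 2 ≤ B → ∫ z in K₁, ‖U' z‖ ^ 2 ≤ B →
      ∫ z in K₁, ‖eP U U' z‖ ^ 2 ≤ B → ∫ z in K₁, ‖W z‖ ^ 2 ≤ B → ∫ z in K₁, ‖W' z‖ ^ 2 ≤ B →
      ∫ z in K₁, ‖eP W W' z‖ ^ 2 ≤ B →
      ‖((∫ x, χ x * moll ε W x * moll ε U' x) - ∫ x, χ x * moll ε W' x * moll ε U x)
        - ((∫ x, χ x * W x * U' x) - ∫ x, χ x * W' x * U x)‖ ≤ C₁ * ε * c * B := by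
  obtain ⟨r, r0, hr⟩ := hK.thick
  have h1 : Cp (cthickening (min r 1) K) :=
    ⟨hK.1.cthickening, (cthickening_mono (min_le_left _ _) K).trans hr.2⟩
  obtain ⟨θ, θ1, -, θ3, -, θ5⟩ := exists_cut h1.1 isOpen_UH h1.2
  refine ⟨min r 1, 16 * kap, _, lt_min r0 one_pos, min_le_right _ _,
    mul_nonneg (by norm_num) kap_nonneg, h1, subset_rfl, ?_⟩
  intro χ U U' W W' c B ε ε0 hε hχ hU hU' hW hW' b1 b2 b3 b4 b5 b6
  have t1 : ContDiff ℝ 1 (rC θ) := ofRealCLM.contDiff.comp (θ1.of_le (by simp))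
  have t2 : tsupport (rC θ) ⊆ UH :=
    (closure_mono (Function.support_subset_iff'.2 fun z hz => by
      simp [rC, Function.notMem_support.1 hz])).trans θ3
  have ev : ∀ F : ℂ → ℂ, ∀ x ∈ cthickening (min r 1) K, (fun z => rC θ z * F z) =ᶠ[𝓝 x] F :=
    fun F x hx => (θ5 x hx).mono fun y hy => by simp [rC, hy]
  have eq : ∀ F : ℂ → ℂ, ∀ x ∈ cthickening (min r 1) K, rC θ x * F x = F x :=
    fun F x hx => (ev F x hx).self_of_nhds
  have sb : ∀ {F : ℂ → ℂ}, ContDiffOn ℝ 1 F UH → ∫ z in cthickening (min r 1) K, ‖F z‖ ^ 2 ≤ B →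
      SB K ε B fun z => rC θ z * F z := fun hF hB =>
    dcu_sb hK.1 h1 hε hF.continuousOn (eq _) hB
  have key := div_curl ε0 hχ (cut_cd t1 t2 hU) (cut_cd t1 t2 hU') (cut_cd t1 t2 hW)
    (cut_cd t1 t2 hW') (sb hU b1) (sb hU' b2)
    (dcu_sb hK.1 h1 hε (co_eP hU hU') (fun x hx => dcu_eP (ev _ x hx) (ev _ x hx)) b3)
    (sb hW b4) (sb hW' b5)
    (dcu_sb hK.1 h1 hε (co_eP hW hW') (fun x hx => dcu_eP (ev _ x hx) (ev _ x hx)) b6)
  have z0 : ∀ x ∉ K, χ x = 0 := fun x hx =>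
    image_eq_zero_of_notMem_tsupport fun h' => hx (hχ.sub h')
  have em : ∀ F : ℂ → ℂ, ∀ x ∈ K, moll ε (fun z => rC θ z * F z) x = moll ε F x :=
    fun F x hx => moll_congr ε0 fun y hy =>
      eq F y (mem_cthickening_of_dist_le _ x _ _ hx ((mem_closedBall.1 hy).trans hε))
  have e1 : ∀ F G : ℂ → ℂ, ∫ x, χ x * moll ε (fun z => rC θ z * F z) x
      * moll ε (fun z => rC θ z * G z) x = ∫ x, χ x * moll ε F x * moll ε G x := fun F G => by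
    congr 1; ext x
    by_cases hx : x ∈ K
    · rw [em F x hx, em G x hx]
    · simp [z0 x hx]
  have e2 : ∀ F G : ℂ → ℂ, ∫ x, χ x * (rC θ x * F x) * (rC θ x * G x)
      = ∫ x, χ x * F x * G x := fun F G => by
    congr 1; ext x
    by_cases hx : x ∈ K
    · rw [eq F x (self_subset_cthickening K hx), eq G x (self_subset_cthickening K hx)]
    · simp [z0 x hx]
  rw [e1, e1, e2, e2] at key
  exact key.trans (le_of_eq (by ring))

end Pool.Agent.Lib.MP_a52643_an.CP
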