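import Pool.Agent.Lib.MP_a52643_an.DivCurl
import Pool.Agent.Lib.MP_a52643_an.Measure

/-!
Critical points of eigenfunctions: definitions and basic calculus.
-/

open Complex MeasureTheory Set Filter Topology Metric
open scoped ComplexConjugate ContDiff

noncomputable section

namespace Pool.Agent.Lib.MP_a52643_an.CP

/-- A real function read as a complex one. -/
def rC (f : ℂ → ℝ) (z : ℂ) : ℂ := f z

/-- Half the gradient, as a complex number. -/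
def gr (f : ℂ → ℝ) (z : ℂ) : ℂ := dzb (rC f) z

/-- The gradient, as a complex number. -/
def pp (u : ℂ → ℝ) (z : ℂ) : ℂ := 2 * gr u z

/-- The squared length of the gradient in the metric. -/
def SS (σ u : ℂ → ℝ) (z : ℂ) : ℝ := normSq (pp u z) / σ z

/-- The traceless part of the tensor of the rotated gradient. -/
def ZZ (σ u : ℂ → ℝ) (z : ℂ) : ℂ := -pp u z ^ 2 / σ z

/-- The energy density. -/
def ps (σ u : ℂ → ℝ) (lam : ℝ) (z : ℂ) : ℝ := (SS σ u z + lam * u z ^ 2) / 2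

/-- The squared cosine of the phase. -/
def qq (σ u : ℂ → ℝ) (lam : ℝ) (z : ℂ) : ℝ := lam * u z ^ 2 / (2 * ps σ u lam z)

/-- The tangential derivative of the energy density. -/
def TT (σ u : ℂ → ℝ) (lam : ℝ) (z : ℂ) : ℂ :=
  ZZ σ u z * conj (gr (ps σ u lam) z) + SS σ u z * gr (ps σ u lam) z

/-- A step from `0` at `1 / 8` to `1` at `1 / 4`. -/
def th (t : ℝ) : ℝ := Real.smoothTransition (8 * t - 1)

/-- The weight of the energy. -/
def F1 (t : ℝ) : ℝ := th t / t ^ 2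

/-- Its primitive. -/
def F0 (t : ℝ) : ℝ := ∫ x in (0 : ℝ)..t, F1 x

/-- The regularised energy. -/
def en (σ u : ℂ → ℝ) (lam δ : ℝ) (z : ℂ) : ℝ :=
  F1 (ps σ u lam z) * normSq (gr (ps σ u lam) z) / (SS σ u z + δ)

/-- Compact sets of the half plane. -/
def Cp (K : Set ℂ) : Prop := IsCompact K ∧ K ⊆ UH

/-- Test functions in the half plane. -/
structure Ts (φ : ℂ → ℂ) : Prop where
  cd : ContDiff ℝ 1 φ
  cs : HasCompactSupport φ
  sub : tsupport φ ⊆ UH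

/-- Conformal factors. -/
structure Met (σ : ℂ → ℝ) : Prop where
  cd : ContDiffOn ℝ ∞ σ UH
  pos : ∀ z ∈ UH, 0 < σ z

/-- Eigenfunctions. -/
structure Eg (σ u : ℂ → ℝ) (lam : ℝ) : Prop where
  cd : ContDiffOn ℝ ∞ u UH
  one : 1 ≤ lam
  eq : ∀ z ∈ UH, dz (pp u) z = -(lam * σ z * u z / 2 : ℝ)

/-- The area of a sublevel set of the energy density. -/
def ms (σ u : ℂ → ℝ) (lam : ℝ) (K : Set ℂ) (s : ℝ) : ℝ :=
  volume.real (K ∩ {z | ps σ u lam z < s})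

/-- Eigenfunctions with the energy bound and the comparison of areas. -/
structure Sol (σ : ℂ → ℝ) (K₀ : Set ℂ) (CE CM : Set ℂ → ℝ) (u : ℂ → ℝ) (lam : ℝ) : Prop where
  eg : Eg σ u lam
  en : ∀ K, Cp K → ∀ δ, 0 < δ → ∫ z in K, en σ u lam δ z ≤ CE K
  cm : ∀ K, Cp K → ∀ s, ms σ u lam K s ≤ CM K * ms σ u lam K₀ s

/-- Admissible weights. -/
structure Adm (κ : ℝ → ℝ) (Λ : ℝ) : Prop where
  cd : ContDiff ℝ ∞ κ
  zero : ∀ t ≤ 1 / 4, κ t = 0
  b0 : ∀ t, 0 < t → |κ t| ≤ Λ / t ^ 2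
  b1 : ∀ t, 0 < t → |deriv κ t| ≤ Λ / t ^ 3

/-- The phase averages. -/
def pn (n : ℕ) : ℝ := ∏ i ∈ Finset.range n, ((2 * i + 1) / (2 * i + 4) : ℝ)

/-- Sequences bounded in the square mean. -/
def LB (g : ℕ → ℂ → ℂ) (B : ℝ) : Prop := ∀ j, MemLp (g j) 2 volume ∧ ∫ z, ‖g j z‖ ^ 2 ≤ B

/-- Weak limits. -/
structure WL (g : ℕ → ℂ → ℂ) (G : ℂ → ℂ) : Prop where
  mem : MemLp G 2 volume
  lim : ∀ φ, MemLp φ 2 volume → Tendsto (fun j => ∫ z, φ z * g j z) atTop (𝓝 (∫ z, φ z * G z))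

/-- Weak derivative in `z`. -/
def WD (G H : ℂ → ℂ) : Prop :=
  ∀ φ, ContDiff ℝ 1 φ → HasCompactSupport φ → ∫ z, G z * dz φ z = -∫ z, H z * φ z

/-- Weak derivative in the conjugate of `z`. -/
def WDb (G H : ℂ → ℂ) : Prop :=
  ∀ φ, ContDiff ℝ 1 φ → HasCompactSupport φ → ∫ z, G z * dzb φ z = -∫ z, H z * φ z

/-- A proper action by Moebius maps, read in the plane. -/
structure Act {Γ : Type} [Group Γ] (m : Γ → ℂ → ℂ) : Prop where
  map : ∀ γ, ∀ z ∈ UH, m γ z ∈ UH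
  one : ∀ z ∈ UH, m 1 z = z
  mul : ∀ γ δ, ∀ z ∈ UH, m (γ * δ) z = m γ (m δ z)
  cd : ∀ γ, ContDiffOn ℝ ∞ (m γ) UH
  hol : ∀ γ, ∀ z ∈ UH, ∃ d, HasDerivAt (m γ) d z ∧ (m γ z).im = ‖d‖ * z.im
  mp : ∀ γ, MeasurePreserving (m γ) hyp hyp
  pd : ∀ K L, Cp K → Cp L → {γ | ∃ z ∈ K, m γ z ∈ L}.Finite

/-- Invariant functions. -/
def Iv {Γ : Type} (m : Γ → ℂ → ℂ) (f : ℂ → ℝ) : Prop := ∀ γ, ∀ z ∈ UH, f (m γ z) = f z

/-- The kernel of the index count. -/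
def kd (w : ℂ → ℂ) (ε : ℝ) (z : ℂ) : ℝ :=
  2 * ε / (normSq (w z) + ε) ^ 2 * (normSq (dz w z) - normSq (dzb w z))

/-- Functions with fewer than `N` orbits of critical points. -/
def Few {Γ : Type} (m : Γ → ℂ → ℂ) (N : ℕ) (u : ℂ → ℝ) : Prop :=
  ¬∃ z : Fin N → ℂ, (∀ i, z i ∈ UH ∧ pp u (z i) = 0) ∧ ∀ i j γ, m γ (z i) = z j → i = j

/-- The kernel of the mollification. -/
def ker (ε : ℝ) (x y : ℂ) : ℂ := (hk (ε⁻¹ • (y - x)) / ε ^ 2 : ℝ)

/-- The inverse square, cut off near zero. -/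
def f0 (t : ℝ) : ℝ := Real.smoothTransition (4 * t - 1) / t ^ 2

/-- The same, divided once more. -/
def g0 (t : ℝ) : ℝ := f0 t / t

/-- The field whose limit is holomorphic. -/
def Vj (σ u : ℂ → ℝ) (lam : ℝ) (z : ℂ) : ℂ := (g0 (ps σ u lam z) / σ z : ℝ) * ZZ σ u z

/-- Its length. -/
def Rj (σ u : ℂ → ℝ) (lam : ℝ) (z : ℂ) : ℝ := g0 (ps σ u lam z) / σ z * SS σ u z

/-- The average of its length. -/
def rj (σ u : ℂ → ℝ) (lam : ℝ) (z : ℂ) : ℝ := f0 (ps σ u lam z)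

/-- The data passed to the limit. -/
structure LimD (σ : ℂ → ℝ) (M : ℝ) (V : ℕ → ℂ → ℂ) (R r : ℕ → ℂ → ℝ) : Prop where
  cV : ∀ j, ContDiffOn ℝ ∞ (V j) UH
  cR : ∀ j, ContDiffOn ℝ ∞ (R j) UH
  cr : ∀ j, ContDiffOn ℝ ∞ (r j) UH
  nV : ∀ j, ∀ z ∈ UH, ‖V j z‖ = R j z
  bR : ∀ j, ∀ z ∈ UH, R j z ≤ M * z.im ^ 2
  br : ∀ j, ∀ z ∈ UH, 0 ≤ r j z ∧ r j z ≤ M
  en : ∀ K, Cp K → ∃ C, ∀ j, ∫ z in K, ‖eP (V j) (rC (R j)) z‖ ^ 2 ≤ C ∧
    ∫ z in K, ‖gr (r j) z‖ ^ 2 ≤ C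
  h3 : ∀ φ, Ts φ → Tendsto (fun j => ∫ z, φ z * (σ z * R j z - r j z)) atTop (𝓝 0)
  h4 : ∀ φ, Ts φ → Tendsto (fun j => ∫ z, φ z * (σ z * eP (V j) (rC (R j)) z + gr (r j) z
    + r j z * gr σ z / σ z + 2 * V j z * conj (gr σ z))) atTop (𝓝 0)
  h5 : ∀ φ, Ts φ → Tendsto (fun j => ∫ z, φ z * (V j z * conj (gr (r j) z)
    + R j z * gr (r j) z)) atTop (𝓝 0)

/-- The limit system on an open set. -/
structure LimS (σ : ℂ → ℝ) (V : ℂ → ℂ) (r : ℂ → ℝ) (O : Set ℂ) (D : ℂ → ℂ) : Prop where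
  mem : MemLp D 2 volume
  dr : ∀ φ, Ts φ → tsupport φ ⊆ O → ∫ z, r z * dzb φ z = -∫ z, D z * φ z
  dV : ∀ φ, Ts φ → tsupport φ ⊆ O →
    ∫ z, V z * dz φ z = -∫ z, (-2 * D z / σ z - 2 * V z * conj (gr σ z) / σ z) * φ z
  nV : ∀ᵐ z, z ∈ O → ‖V z‖ = r z / σ z
  tan : ∀ᵐ z, z ∈ O → V z * conj (D z) + r z / σ z * D z = 0

/-- Functions that are measurable and locally bounded in the half plane. -/
structure Lb (f : ℂ → ℂ) : Prop where
  me : AEStronglyMeasurable f volume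
  bd : ∀ K, Cp K → ∃ C, ∀ᵐ z, z ∈ K → ‖f z‖ ≤ C

/-! ### calculus -/

lemma UH_nhds {z : ℂ} (hz : z ∈ UH) : UH ∈ 𝓝 z := isOpen_UH.mem_nhds hz

lemma cdAt {E : Type} [NormedAddCommGroup E] [NormedSpace ℝ E] {n : WithTop ℕ∞} {f : ℂ → E}
    (h : ContDiffOn ℝ n f UH) {z : ℂ} (hz : z ∈ UH) : ContDiffAt ℝ n f z :=
  h.contDiffAt (UH_nhds hz)

lemma dAt {E : Type} [NormedAddCommGroup E] [NormedSpace ℝ E] {f : ℂ → E}
    (h : ContDiffOn ℝ ∞ f UH) {z : ℂ} (hz : z ∈ UH) : DifferentiableAt ℝ f z :=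
  (cdAt h hz).differentiableAt (by simp)

lemma dAt1 {E : Type} [NormedAddCommGroup E] [NormedSpace ℝ E] {f : ℂ → E}
    (h : ContDiffOn ℝ 1 f UH) {z : ℂ} (hz : z ∈ UH) : DifferentiableAt ℝ f z :=
  (cdAt h hz).differentiableAt one_ne_zero

lemma cd1 {E : Type} [NormedAddCommGroup E] [NormedSpace ℝ E] {f : ℂ → E}
    (h : ContDiffOn ℝ ∞ f UH) : ContDiffOn ℝ 1 f UH := h.of_le (by simp)

lemma cd_rC {n : WithTop ℕ∞} {f : ℂ → ℝ} {s : Set ℂ} (h : ContDiffOn ℝ n f s) :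
    ContDiffOn ℝ n (rC f) s := ofRealCLM.contDiff.comp_contDiffOn h

lemma d_rC {f : ℂ → ℝ} {z : ℂ} (h : DifferentiableAt ℝ f z) : DifferentiableAt ℝ (rC f) z :=
  ofRealCLM.differentiableAt.comp z h

lemma dz_congr {f g : ℂ → ℂ} {z : ℂ} (h : f =ᶠ[𝓝 z] g) : dz f z = dz g z := by
  simp only [dz, h.fderiv_eq]

lemma dzb_congr {f g : ℂ → ℂ} {z : ℂ} (h : f =ᶠ[𝓝 z] g) : dzb f z = dzb g z := by
  simp only [dzb, h.fderiv_eq]

lemma gr_congr {f g : ℂ → ℝ} {z : ℂ} (h : f =ᶠ[𝓝 z] g) : gr f z = gr g z :=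
  dzb_congr (h.mono fun w hw => by simp only [rC, hw])

lemma dz_conj (f : ℂ → ℂ) (z : ℂ) : dz (fun w => conj (f w)) z = conj (dzb f z) := by
  simp only [dz, dzb, wp, wm, fderiv_conj_comp]; simp [map_ofNat, sub_eq_add_neg]

lemma dzb_conj (f : ℂ → ℂ) (z : ℂ) : dzb (fun w => conj (f w)) z = conj (dz f z) := by
  simp only [dz, dzb, wp, wm, fderiv_conj_comp]; simp [map_ofNat]

lemma dz_rC (f : ℂ → ℝ) (z : ℂ) : dz (rC f) z = conj (gr f z) := by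
  rw [gr, ← dz_conj]; simp only [rC, conj_ofReal]; rfl

lemma dz_add {f g : ℂ → ℂ} {z : ℂ} (hf : DifferentiableAt ℝ f z) (hg : DifferentiableAt ℝ g z) :
    dz (fun w => f w + g w) z = dz f z + dz g z := by
  simp only [dz, wp, fderiv_fun_add hf hg]; simp; ring

lemma dzb_add {f g : ℂ → ℂ} {z : ℂ} (hf : DifferentiableAt ℝ f z) (hg : DifferentiableAt ℝ g z) :
    dzb (fun w => f w + g w) z = dzb f z + dzb g z := by
  simp only [dzb, wm, fderiv_fun_add hf hg]; simp; ring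

lemma dz_const (c z : ℂ) : dz (fun _ => c) z = 0 := by simp [dz, wp]

lemma dzb_const (c z : ℂ) : dzb (fun _ => c) z = 0 := by simp [dzb, wm]

lemma dz_cmul (c : ℂ) {f : ℂ → ℂ} {z : ℂ} (hf : DifferentiableAt ℝ f z) :
    dz (fun w => c * f w) z = c * dz f z := by
  rw [dz_mul (differentiableAt_const c) hf, dz_const]; ring

lemma dzb_cmul (c : ℂ) {f : ℂ → ℂ} {z : ℂ} (hf : DifferentiableAt ℝ f z) :
    dzb (fun w => c * f w) z = c * dzb f z := by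
  rw [dzb_mul (differentiableAt_const c) hf, dzb_const]; ring

lemma fderiv_eq_dz (f : ℂ → ℂ) (z h : ℂ) :
    fderiv ℝ f z h = h * dz f z + conj h * dzb f z := by
  rw [← wp_add_wm, dz, dzb, ← wp_smul, ← wm_smul]; simp

lemma fderiv_rC {f : ℂ → ℝ} {z : ℂ} (hf : DifferentiableAt ℝ f z) (h : ℂ) :
    fderiv ℝ (rC f) z h = (fderiv ℝ f z h : ℝ) := by
  have := (ofRealCLM.hasFDerivAt.comp z hf.hasFDerivAt).fderiv
  exact congrArg (fun L => L h) this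

lemma gr_eq {f : ℂ → ℝ} {z : ℂ} (hf : DifferentiableAt ℝ f z) :
    gr f z = ((fderiv ℝ f z 1 : ℝ) + I * (fderiv ℝ f z I : ℝ)) / 2 := by
  simp only [gr, dzb, wm, fderiv_rC hf, smul_eq_mul, mul_one]

lemma fderiv_eq_gr {f : ℂ → ℝ} {z : ℂ} (hf : DifferentiableAt ℝ f z) (h : ℂ) :
    fderiv ℝ f z h = 2 * (conj h * gr f z).re := by
  have e := fderiv_eq_dz (rC f) z h
  rw [fderiv_rC hf, dz_rC] at e
  have := congrArg re e
  rw [ofReal_re] at this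
  rw [this, gr]; simp; ring

lemma gr_comp {g : ℝ → ℝ} {g' : ℝ} {f : ℂ → ℝ} {z : ℂ} (hg : HasDerivAt g g' (f z))
    (hf : DifferentiableAt ℝ f z) : gr (fun w => g (f w)) z = g' * gr f z := by
  have e := hg.hasFDerivAt.comp z hf.hasFDerivAt
  have e' : fderiv ℝ (fun w => g (f w)) z = _ := e.fderiv
  rw [gr_eq (f := fun w => g (f w)) e.differentiableAt, gr_eq hf, e']; simp; ring

lemma gr_mul {f g : ℂ → ℝ} {z : ℂ} (hf : DifferentiableAt ℝ f z) (hg : DifferentiableAt ℝ g z) :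
    gr (fun w => f w * g w) z = gr f z * g z + f z * gr g z := by
  have : rC (fun w => f w * g w) = fun w => rC f w * rC g w := by ext w; simp [rC]
  rw [gr, this, dzb_mul (d_rC hf) (d_rC hg)]; rfl

lemma gr_add {f g : ℂ → ℝ} {z : ℂ} (hf : DifferentiableAt ℝ f z) (hg : DifferentiableAt ℝ g z) :
    gr (fun w => f w + g w) z = gr f z + gr g z := by
  have : rC (fun w => f w + g w) = fun w => rC f w + rC g w := by ext w; simp [rC]
  rw [gr, this, dzb_add (d_rC hf) (d_rC hg)]; rfl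

lemma cd_fderiv {n : WithTop ℕ∞} {f : ℂ → ℂ} (h : ContDiffOn ℝ (n + 1) f UH) (v : ℂ) :
    ContDiffOn ℝ n (fun z => fderiv ℝ f z v) UH :=
  (h.fderiv_of_isOpen isOpen_UH le_rfl).clm_apply contDiffOn_const

lemma cd_dz' {n : WithTop ℕ∞} {f : ℂ → ℂ} (h : ContDiffOn ℝ (n + 1) f UH) :
    ContDiffOn ℝ n (dz f) UH :=
  ((cd_fderiv h _).sub (contDiffOn_const.mul (cd_fderiv h _))).div_const _

lemma cd_dzb' {n : WithTop ℕ∞} {f : ℂ → ℂ} (h : ContDiffOn ℝ (n + 1) f UH) :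
    ContDiffOn ℝ n (dzb f) UH :=
  ((cd_fderiv h _).add (contDiffOn_const.mul (cd_fderiv h _))).div_const _

lemma cd_dz {f : ℂ → ℂ} (h : ContDiffOn ℝ ∞ f UH) : ContDiffOn ℝ ∞ (dz f) UH :=
  cd_dz' (n := ∞) h

lemma cd_dzb {f : ℂ → ℂ} (h : ContDiffOn ℝ ∞ f UH) : ContDiffOn ℝ ∞ (dzb f) UH :=
  cd_dzb' (n := ∞) h

lemma co_dz {f : ℂ → ℂ} (h : ContDiffOn ℝ 1 f UH) : ContinuousOn (dz f) UH :=
  (cd_dz' (n := 0) (by simpa using h)).continuousOn

lemma co_dzb {f : ℂ → ℂ} (h : ContDiffOn ℝ 1 f UH) : ContinuousOn (dzb f) UH :=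
  (cd_dzb' (n := 0) (by simpa using h)).continuousOn

lemma co_eP {f g : ℂ → ℂ} (hf : ContDiffOn ℝ 1 f UH) (hg : ContDiffOn ℝ 1 g UH) :
    ContinuousOn (eP f g) UH := (co_dz hf).add (co_dzb hg)

lemma cd_gr {f : ℂ → ℝ} (h : ContDiffOn ℝ ∞ f UH) : ContDiffOn ℝ ∞ (gr f) UH := cd_dzb (cd_rC h)

lemma cd_conj {n : WithTop ℕ∞} {f : ℂ → ℂ} {s : Set ℂ} (h : ContDiffOn ℝ n f s) :
    ContDiffOn ℝ n (fun z => conj (f z)) s := conjCLE.contDiff.comp_contDiffOn h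

lemma cd_normSq {n : WithTop ℕ∞} {f : ℂ → ℂ} {s : Set ℂ} (h : ContDiffOn ℝ n f s) :
    ContDiffOn ℝ n (fun z => normSq (f z)) s := by
  simp only [normSq_apply]
  have h1 := reCLM.contDiff.comp_contDiffOn h
  have h2 := imCLM.contDiff.comp_contDiffOn h
  exact (h1.mul h1).add (h2.mul h2)

/-- The two derivatives commute. -/
lemma dz_dzb {f : ℂ → ℂ} {z : ℂ} (h : ContDiffAt ℝ 2 f z) : dz (dzb f) z = dzb (dz f) z := by
  have hs := h.isSymmSndFDerivAt (by simp)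
  have hd : DifferentiableAt ℝ (fderiv ℝ f) z :=
    (h.fderiv_right (m := 1) (by norm_num)).differentiableAt one_ne_zero
  have e : ∀ v h, fderiv ℝ (fun w => fderiv ℝ f w v) z h = fderiv ℝ (fderiv ℝ f) z h v := by
    intro v h
    rw [fderiv_clm_apply hd (differentiableAt_const v)]; simp
  have d : ∀ v, DifferentiableAt ℝ (fun w => fderiv ℝ f w v) z := fun v =>
    hd.clm_apply (differentiableAt_const v)
  have e1 : dzb f = fun w => 2⁻¹ * fderiv ℝ f w 1 + I / 2 * fderiv ℝ f w I := by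
    ext w; simp [dzb, wm]; ring
  have e2 : dz f = fun w => 2⁻¹ * fderiv ℝ f w 1 + -I / 2 * fderiv ℝ f w I := by
    ext w; simp [dz, wp]; ring
  rw [e1, e2, dz_add ((d _).const_mul _) ((d _).const_mul _), dz_cmul _ (d _), dz_cmul _ (d _),
    dzb_add ((d _).const_mul _) ((d _).const_mul _), dzb_cmul _ (d _), dzb_cmul _ (d _)]
  simp only [dz, dzb, wp, wm, e, smul_eq_mul, mul_one, hs.eq I 1]
  ring

section fields

variable {σ u : ℂ → ℝ} {lam : ℝ}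

lemma Met.ne (hσ : Met σ) {z : ℂ} (hz : z ∈ UH) : (σ z : ℂ) ≠ 0 := by
  exact_mod_cast (hσ.pos z hz).ne'

lemma cd_pp (hu : ContDiffOn ℝ ∞ u UH) : ContDiffOn ℝ ∞ (pp u) UH :=
  contDiffOn_const.mul (cd_gr hu)

lemma cd_SS (hσ : Met σ) (hu : ContDiffOn ℝ ∞ u UH) : ContDiffOn ℝ ∞ (SS σ u) UH :=
  (cd_normSq (cd_pp hu)).div hσ.cd fun z hz => (hσ.pos z hz).ne'

lemma cd_ZZ (hσ : Met σ) (hu : ContDiffOn ℝ ∞ u UH) : ContDiffOn ℝ ∞ (ZZ σ u) UH := by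
  have := ((cd_pp hu).pow 2).neg.mul ((cd_rC hσ.cd).inv fun z hz => hσ.ne hz)
  exact this.congr fun z _ => by simp [ZZ, rC, div_eq_mul_inv]

lemma cd_ps (hσ : Met σ) (hu : ContDiffOn ℝ ∞ u UH) : ContDiffOn ℝ ∞ (ps σ u lam) UH :=
  ((cd_SS hσ hu).add (contDiffOn_const.mul (hu.pow 2))).div_const _

lemma cd_TT (hσ : Met σ) (hu : ContDiffOn ℝ ∞ u UH) : ContDiffOn ℝ ∞ (TT σ u lam) UH :=
  ((cd_ZZ hσ hu).mul (cd_conj (cd_gr (cd_ps hσ hu)))).add
    ((cd_rC (cd_SS hσ hu)).mul (cd_gr (cd_ps hσ hu)))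

lemma SS_nonneg (hσ : Met σ) {z : ℂ} (hz : z ∈ UH) : 0 ≤ SS σ u z :=
  div_nonneg (normSq_nonneg _) (hσ.pos z hz).le

lemma norm_ZZ (hσ : Met σ) {z : ℂ} (hz : z ∈ UH) : ‖ZZ σ u z‖ = SS σ u z := by
  simp [ZZ, SS, normSq_eq_norm_sq, abs_of_pos (hσ.pos z hz)]

lemma SS_le (hl : 0 ≤ lam) (z : ℂ) : SS σ u z ≤ 2 * ps σ u lam z := by
  have : 0 ≤ lam * u z ^ 2 := by positivity
  unfold ps; linarith

lemma lam_le (hσ : Met σ) {z : ℂ} (hz : z ∈ UH) : lam * u z ^ 2 ≤ 2 * ps σ u lam z := by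
  have := SS_nonneg (u := u) hσ hz
  unfold ps; linarith

lemma ps_nonneg (hσ : Met σ) (hl : 0 ≤ lam) {z : ℂ} (hz : z ∈ UH) : 0 ≤ ps σ u lam z := by
  have := SS_nonneg (u := u) hσ hz
  have : 0 ≤ lam * u z ^ 2 := by positivity
  unfold ps; linarith

lemma norm_TT (hσ : Met σ) {z : ℂ} (hz : z ∈ UH) :
    ‖TT σ u lam z‖ ≤ 2 * SS σ u z * ‖gr (ps σ u lam) z‖ := by
  refine (norm_add_le _ _).trans (le_of_eq ?_)
  rw [norm_mul, norm_mul, norm_ZZ hσ hz, norm_conj, norm_real,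
    Real.norm_of_nonneg (SS_nonneg hσ hz)]
  ring

end fields

/-! ### cut-offs and integration by parts -/

lemma cut_cd {n : WithTop ℕ∞} {φ F : ℂ → ℂ} (hφ : ContDiff ℝ n φ) (hs : tsupport φ ⊆ UH)
    (hF : ContDiffOn ℝ n F UH) : ContDiff ℝ n fun z => φ z * F z := by
  refine contDiff_iff_contDiffAt.2 fun z => ?_
  by_cases hz : z ∈ UH
  · exact hφ.contDiffAt.mul (cdAt hF hz)
  · have : φ =ᶠ[𝓝 z] 0 := notMem_tsupport_iff_eventuallyEq.1 fun h => hz (hs h)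
    exact (contDiffAt_const (c := 0)).congr_of_eventuallyEq (this.mono fun w hw => by simp [hw])

lemma cut_cont {φ F : ℂ → ℂ} (hφ : Continuous φ) (hs : tsupport φ ⊆ UH)
    (hF : ContinuousOn F UH) : Continuous fun z => φ z * F z :=
  contDiff_zero.1 (cut_cd (contDiff_zero.2 hφ) hs (contDiffOn_zero.2 hF))

lemma cut_int {φ F : ℂ → ℂ} (hφ : Continuous φ) (hc : HasCompactSupport φ)
    (hs : tsupport φ ⊆ UH) (hF : ContinuousOn F UH) : Integrable fun z => φ z * F z :=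
  (cut_cont hφ hs hF).integrable_of_hasCompactSupport hc.mul_right

lemma Ts.int {φ F : ℂ → ℂ} (h : Ts φ) (hF : ContinuousOn F UH) : Integrable fun z => φ z * F z :=
  cut_int h.cd.continuous h.cs h.sub hF

lemma Ts.mul {φ F : ℂ → ℂ} (h : Ts φ) (hF : ContDiffOn ℝ 1 F UH) : Ts fun z => φ z * F z :=
  ⟨cut_cd h.cd h.sub hF, h.cs.mul_right, (tsupport_mul_subset_left).trans h.sub⟩

lemma tsupport_dz (φ : ℂ → ℂ) : tsupport (dz φ) ⊆ tsupport φ :=
  (closure_mono (Function.support_subset_iff'.2 fun z hz => by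
    simp [dz, wp, Function.notMem_support.1 hz])).trans (tsupport_fderiv_subset ℝ)

lemma tsupport_dzb (φ : ℂ → ℂ) : tsupport (dzb φ) ⊆ tsupport φ :=
  (closure_mono (Function.support_subset_iff'.2 fun z hz => by
    simp [dzb, wm, Function.notMem_support.1 hz])).trans (tsupport_fderiv_subset ℝ)

lemma Ts.int_dz {φ F : ℂ → ℂ} (h : Ts φ) (hF : ContinuousOn F UH) :
    Integrable fun z => dz φ z * F z :=
  cut_int (continuous_dz h.cd) (hcs_dz h.cs) ((tsupport_dz φ).trans h.sub) hF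

lemma Ts.int_dzb {φ F : ℂ → ℂ} (h : Ts φ) (hF : ContinuousOn F UH) :
    Integrable fun z => dzb φ z * F z :=
  cut_int (continuous_dzb h.cd) (hcs_dzb h.cs) ((tsupport_dzb φ).trans h.sub) hF

lemma Ts.of_cut {φ : ℂ → ℂ} {K : Set ℂ} {C : ℝ} (h : CutC φ K C) (hK : Cp K) : Ts φ :=
  ⟨h.cd, h.hcs, h.sub.trans hK.2⟩

lemma Ts.ibp_dz {φ A : ℂ → ℂ} (h : Ts φ) (hA : ContDiffOn ℝ 1 A UH) :
    ∫ z, φ z * dz A z = -∫ z, dz φ z * A z := by
  have e := integral_dz (h.mul hA).cd (h.mul hA).cs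
  have : ∀ z, dz (fun z => φ z * A z) z = dz φ z * A z + φ z * dz A z := fun z => by
    by_cases hz : z ∈ UH
    · exact dz_mul (h.cd.differentiable one_ne_zero z) (dAt1 hA hz)
    · have h1 : z ∉ tsupport φ := fun h' => hz (h.sub h')
      rw [image_eq_zero_of_notMem_tsupport h1,
        image_eq_zero_of_notMem_tsupport fun h' => h1 (tsupport_dz φ h'),
        image_eq_zero_of_notMem_tsupport fun h' => hz ((h.mul hA).sub (tsupport_dz _ h'))]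
      simp
  simp only [this] at e
  rw [integral_add (h.int_dz hA.continuousOn) (h.int (co_dz hA))] at e
  linear_combination e

lemma Ts.ibp_dzb {φ A : ℂ → ℂ} (h : Ts φ) (hA : ContDiffOn ℝ 1 A UH) :
    ∫ z, φ z * dzb A z = -∫ z, dzb φ z * A z := by
  have e := integral_dzb (h.mul hA).cd (h.mul hA).cs
  have : ∀ z, dzb (fun z => φ z * A z) z = dzb φ z * A z + φ z * dzb A z := fun z => by
    by_cases hz : z ∈ UH
    · exact dzb_mul (h.cd.differentiable one_ne_zero z) (dAt1 hA hz)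
    · have h1 : z ∉ tsupport φ := fun h' => hz (h.sub h')
      rw [image_eq_zero_of_notMem_tsupport h1,
        image_eq_zero_of_notMem_tsupport fun h' => h1 (tsupport_dzb φ h'),
        image_eq_zero_of_notMem_tsupport fun h' => hz ((h.mul hA).sub (tsupport_dzb _ h'))]
      simp
  simp only [this] at e
  rw [integral_add (h.int_dzb hA.continuousOn) (h.int (co_dzb hA))] at e
  linear_combination e

lemma Ts.ibp {φ A B : ℂ → ℂ} (h : Ts φ) (hA : ContDiffOn ℝ 1 A UH) (hB : ContDiffOn ℝ 1 B UH) :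
    ∫ z, φ z * eP A B z = -∫ z, (dz φ z * A z + dzb φ z * B z) := by
  simp only [eP, mul_add]
  rw [integral_add (h.int (co_dz hA)) (h.int (co_dzb hB)), h.ibp_dz hA, h.ibp_dzb hB,
    integral_add (h.int_dz hA.continuousOn) (h.int_dzb hB.continuousOn)]
  ring

/-- A compact neighbourhood. -/
lemma Cp.thick {K : Set ℂ} (hK : Cp K) : ∃ r, 0 < r ∧ Cp (cthickening r K) := by
  obtain ⟨r, r0, h⟩ := hK.1.exists_cthickening_subset_open isOpen_UH hK.2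
  exact ⟨r, r0, hK.1.cthickening, h⟩

/-- A smooth cut-off that equals one near a compact set. -/
lemma exists_cut {K O : Set ℂ} (hK : IsCompact K) (hO : IsOpen O) (h : K ⊆ O) :
    ∃ χ : ℂ → ℝ, ContDiff ℝ ∞ χ ∧ HasCompactSupport χ ∧ tsupport χ ⊆ O ∧
      (∀ z, 0 ≤ χ z ∧ χ z ≤ 1) ∧ ∀ z ∈ K, χ =ᶠ[𝓝 z] 1 := by
  obtain ⟨L, hL, h1, h2⟩ := exists_compact_between hK hO h
  obtain ⟨f, f1, f2, f3⟩ := exists_contMDiffMap_zero_one_nhds_of_isClosed
    (n := ⊤) (modelWithCornersSelf ℝ ℂ) (s := (interior L)ᶜ) (t := K)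
    isOpen_interior.isClosed_compl hK.isClosed (disjoint_compl_left_iff_subset.2 h1)
  have s : tsupport f ⊆ L := closure_minimal
    (fun z hz => by
      by_contra h'
      exact hz (f1.self_of_nhdsSet z fun h'' => h' (interior_subset h''))) hL.isClosed
  exact ⟨f, f.contMDiff.contDiff, hL.of_isClosed_subset (isClosed_tsupport _) s, s.trans h2,
    fun z => f3 z, fun z hz => (mem_nhdsSet_iff_forall.1 f2 z hz)⟩

/-- Every test function has a bound. -/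
lemma Ts.cut {φ : ℂ → ℂ} (h : Ts φ) : ∃ C, CutC φ (tsupport φ) C := by
  obtain ⟨a, ha⟩ := h.cd.continuous.bounded_above_of_compact_support h.cs
  obtain ⟨b, hb⟩ := (continuous_dz h.cd).bounded_above_of_compact_support (hcs_dz h.cs)
  obtain ⟨c, hc⟩ := (continuous_dzb h.cd).bounded_above_of_compact_support (hcs_dzb h.cs)
  exact ⟨max a (max b c), h.cd, h.cs, subset_rfl, fun x => (ha x).trans (by simp),
    fun x => (hb x).trans (by simp), fun x => (hc x).trans (by simp)⟩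

/-! ### the weight -/

lemma th_cd : ContDiff ℝ ∞ th :=
  Real.smoothTransition.contDiff.comp ((contDiff_const.mul contDiff_id).sub contDiff_const)

lemma th_zero {t : ℝ} (h : t ≤ 1 / 8) : th t = 0 :=
  Real.smoothTransition.zero_of_nonpos (by linarith)

lemma th_one {t : ℝ} (h : 1 / 4 ≤ t) : th t = 1 :=
  Real.smoothTransition.one_of_one_le (by linarith)

lemma th_nonneg (t : ℝ) : 0 ≤ th t := Real.smoothTransition.nonneg _

lemma th_le (t : ℝ) : th t ≤ 1 := Real.smoothTransition.le_one _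

/-- Division of a weight that vanishes near the negative axis by a power. -/
lemma cd_div_pow {κ : ℝ → ℝ} (h : ContDiff ℝ ∞ κ) {a : ℝ} (ha : 0 < a) (h0 : ∀ t ≤ a, κ t = 0)
    (k : ℕ) : ContDiff ℝ ∞ fun t => κ t / t ^ k := by
  refine contDiff_iff_contDiffAt.2 fun t => ?_
  by_cases ht : t < a
  · refine (contDiffAt_const (c := 0)).congr_of_eventuallyEq ?_
    filter_upwards [Iio_mem_nhds ht] with s hs
    simp [h0 s (le_of_lt hs)]
  · exact h.contDiffAt.div (contDiffAt_id.pow k) (pow_ne_zero _ (by linarith))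

lemma F1_cd : ContDiff ℝ ∞ F1 := cd_div_pow th_cd (by norm_num) (fun _ => th_zero) 2

lemma F1_nonneg (t : ℝ) : 0 ≤ F1 t := div_nonneg (th_nonneg t) (sq_nonneg t)

lemma F1_zero {t : ℝ} (h : t ≤ 1 / 8) : F1 t = 0 := by simp [F1, th_zero h]

lemma F1_one {t : ℝ} (h : 1 / 4 ≤ t) : F1 t = 1 / t ^ 2 := by rw [F1, th_one h]

lemma F0_deriv (t : ℝ) : HasDerivAt F0 (F1 t) t :=
  (F1_cd.continuous.integral_hasStrictDerivAt 0 t).hasDerivAt

lemma F0_cd : ContDiff ℝ ∞ F0 := by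
  have : deriv F0 = F1 := funext fun t => (F0_deriv t).deriv
  exact contDiff_infty_iff_deriv.2 ⟨fun t => (F0_deriv t).differentiableAt, this ▸ F1_cd⟩

lemma F0_zero {t : ℝ} (h : t ≤ 1 / 8) : F0 t = 0 := by
  rw [F0, intervalIntegral.integral_congr (g := fun _ => 0), intervalIntegral.integral_zero]
  intro x hx
  exact F1_zero (hx.2.trans (sup_le (by norm_num) h))

lemma en_nonneg {σ u : ℂ → ℝ} {lam δ : ℝ} (hσ : Met σ) (hδ : 0 < δ) {z : ℂ} (hz : z ∈ UH) :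
    0 ≤ en σ u lam δ z :=
  div_nonneg (mul_nonneg (F1_nonneg _) (normSq_nonneg _)) (add_nonneg (SS_nonneg hσ hz) hδ.le)

lemma co_en {σ u : ℂ → ℝ} {lam δ : ℝ} (hσ : Met σ) (hu : ContDiffOn ℝ ∞ u UH) (hδ : 0 < δ) :
    ContinuousOn (en σ u lam δ) UH :=
  ((F1_cd.continuous.comp_continuousOn (cd_ps hσ hu).continuousOn).mul
    (cd_normSq (cd_gr (cd_ps hσ hu))).continuousOn).div
    ((cd_SS hσ hu).continuousOn.add continuousOn_const)
    fun _ hz => (add_pos_of_nonneg_of_pos (SS_nonneg hσ hz) hδ).ne'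

end Pool.Agent.Lib.MP_a52643_an.CP
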