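import Pool.Agent.Lib.MP_a52643_an.YA.Phi

/-!
The index lemma: the regularised Jacobian of a planar field has bounded mass at zeros where one
diagonal entry of the derivative does not vanish.
-/

namespace Pool.Agent.Lib.MP_a52643_an.CP

open Complex Filter Topology Metric MeasureTheory Set QS YA
open scoped ContDiff

private noncomputable def ixB (t : ℝ) : ℝ := 1 - ka (t ^ 2)

private theorem ixB_deriv (t : ℝ) : HasDerivAt ixB (-(k1 (t ^ 2) * (2 * t))) t := by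
  have h1 : HasDerivAt (fun t : ℝ => t ^ 2) (2 * t) t := by simpa using hasDerivAt_pow 2 t
  exact ((ka_deriv (t ^ 2)).comp t h1).const_sub 1

private theorem ixB_sm : ContDiff ℝ ∞ ixB :=
  contDiff_const.sub (ka_sm.comp (contDiff_id.pow 2))

private theorem ixB_out {t : ℝ} (h : 2 ≤ |t|) : ixB t = 0 ∧ k1 (t ^ 2) = 0 := by
  have h1 : 2 ≤ t ^ 2 := by nlinarith [sq_abs t]
  exact ⟨by rw [ixB, (high h1).1, sub_self], (high h1).2⟩

private theorem ixB_bd (t : ℝ) : 0 ≤ ixB t ∧ ixB t ≤ 1 ∧ |k1 (t ^ 2) * (2 * t)| ≤ 4 * cK := by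
  refine ⟨sub_nonneg.2 (ka_le_one _), sub_le_self _ (ka_nonneg _), ?_⟩
  have c1 := one_le_cK
  rcases le_total 2 |t| with h | h
  · rw [(ixB_out h).2, zero_mul, abs_zero]
    linarith
  · rw [abs_mul, abs_mul, abs_of_nonneg (k1_nonneg _), abs_two]
    nlinarith [k1_le (t ^ 2), k1_nonneg (t ^ 2), abs_nonneg t]

private theorem ix_cut {c₁ c₂ : ℂ →L[ℝ] ℝ} {e₁ e₂ : ℂ} (h11 : c₁ e₁ = 1) (h12 : c₁ e₂ = 0)
    (h21 : c₂ e₁ = 0) (h22 : c₂ e₂ = 1) (p : ℂ) {δ h : ℝ} (hδ : 0 < δ) (hh : 0 < h) :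
    ∃ θ : ℂ → ℝ, Sm θ ∧
      (∀ z, 0 ≤ θ z ∧ θ z ≤ 1 ∧ |D e₁ θ z| ≤ 4 * cK / δ ∧ |D e₂ θ z| ≤ 4 * cK / h) ∧
      (∀ z, |c₁ (z - p)| ≤ δ → |c₂ (z - p)| ≤ h → θ z = 1) ∧
      ∀ z, 2 * δ ≤ |c₁ (z - p)| ∨ 2 * h ≤ |c₂ (z - p)| →
        θ z = 0 ∧ D e₁ θ z = 0 ∧ D e₂ θ z = 0 := by
  have sL : ∀ (c : ℂ →L[ℝ] ℝ) (d : ℝ), Sm fun z => c (z - p) / d := fun c d =>
    (c.contDiff.comp (contDiff_id.sub contDiff_const)).div_const d
  have dL : ∀ (c : ℂ →L[ℝ] ℝ) (d : ℝ) (v z : ℂ), D v (fun z => c (z - p) / d) z = c v / d := by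
    intro c d v z
    have h1 : HasFDerivAt (fun z => c (z - p)) c z := by
      have := c.hasFDerivAt.comp z ((hasFDerivAt_id z).sub_const p)
      rw [ContinuousLinearMap.comp_id] at this
      exact this
    have h2 := (h1.const_mul d⁻¹).fderiv
    simp only [D, div_eq_inv_mul]
    rw [h2]
    simp
  have sB : ∀ (c : ℂ →L[ℝ] ℝ) (d : ℝ), Sm fun z => ixB (c (z - p) / d) := fun c d =>
    ixB_sm.comp (sL c d)
  have dθ : ∀ v z, D v (fun z => ixB (c₁ (z - p) / δ) * ixB (c₂ (z - p) / h)) z =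
      -(k1 ((c₁ (z - p) / δ) ^ 2) * (2 * (c₁ (z - p) / δ))) * (c₁ v / δ) * ixB (c₂ (z - p) / h) +
      ixB (c₁ (z - p) / δ) *
        (-(k1 ((c₂ (z - p) / h) ^ 2) * (2 * (c₂ (z - p) / h))) * (c₂ v / h)) := fun v z => by
    rw [D_mul_at (dif (sB _ _) z) (dif (sB _ _) z), D_comp (ixB_deriv _) (dif (sL _ _) z),
      D_comp (ixB_deriv _) (dif (sL _ _) z), dL, dL]
  refine ⟨fun z => ixB (c₁ (z - p) / δ) * ixB (c₂ (z - p) / h), (sB _ _).mul (sB _ _),
    fun z => ?_, fun z h1 h2 => ?_, fun z hz => ?_⟩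
  · obtain ⟨a1, a2, a3⟩ := ixB_bd (c₁ (z - p) / δ)
    obtain ⟨b1, b2, b3⟩ := ixB_bd (c₂ (z - p) / h)
    refine ⟨mul_nonneg a1 b1, mul_le_one₀ a2 b1 b2, ?_, ?_⟩
    · rw [dθ, h11, h21, zero_div, mul_zero, mul_zero, add_zero, abs_mul, abs_mul, abs_neg,
        abs_of_nonneg b1, abs_of_pos (one_div_pos.2 hδ), mul_one_div]
      exact (mul_le_of_le_one_right (by positivity) b2).trans
        (div_le_div_of_nonneg_right a3 hδ.le)
    · rw [dθ, h12, h22, zero_div, mul_zero, zero_mul, zero_add, abs_mul, abs_mul, abs_neg,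
        abs_of_nonneg a1, abs_of_pos (one_div_pos.2 hh), mul_one_div]
      exact (mul_le_of_le_one_left (by positivity) a2).trans
        (div_le_div_of_nonneg_right b3 hh.le)
  · have k : ∀ {x d : ℝ}, 0 < d → |x| ≤ d → ixB (x / d) = 1 := fun {x d} hd hx => by
      have : (x / d) ^ 2 ≤ 1 := by
        rw [div_pow, div_le_one (by positivity), ← sq_abs]
        exact pow_le_pow_left₀ (abs_nonneg _) hx 2
      rw [ixB, (low this).1, sub_zero]
    simp only [k hδ h1, k hh h2, mul_one]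
  · have k : ∀ {x d : ℝ}, 0 < d → 2 * d ≤ |x| → 2 ≤ |x / d| := fun {x d} hd hx => by
      rwa [abs_div, abs_of_pos hd, le_div_iff₀ hd]
    rcases hz with hz | hz
    · simp only [dθ, (ixB_out (k hδ hz)).1, (ixB_out (k hδ hz)).2, zero_mul, neg_zero,
        add_zero, and_self]
    · simp only [dθ, (ixB_out (k hh hz)).1, (ixB_out (k hh hz)).2, zero_mul, mul_zero, neg_zero,
        add_zero, and_self]

private noncomputable def ixG (e : ℝ) (q : ℝ × ℝ) : ℝ :=
  e * Real.arctan (q.2 / √(q.1 ^ 2 + e)) / √(q.1 ^ 2 + e) ^ 3 +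
    e * q.2 / ((q.1 ^ 2 + e) * (q.1 ^ 2 + e + q.2 ^ 2))

private theorem ixG_sm {e : ℝ} (he : 0 < e) : ContDiff ℝ ∞ (ixG e) := by
  have h0 : ∀ q : ℝ × ℝ, 0 < q.1 ^ 2 + e := fun q => by positivity
  have h1 : ContDiff ℝ ∞ fun q : ℝ × ℝ => q.1 ^ 2 + e := by fun_prop
  have h2 : ContDiff ℝ ∞ fun q : ℝ × ℝ => √(q.1 ^ 2 + e) := h1.sqrt fun q => (h0 q).ne'
  have h3 : ∀ q : ℝ × ℝ, √(q.1 ^ 2 + e) ≠ 0 := fun q => (Real.sqrt_pos.2 (h0 q)).ne'
  refine ((contDiff_const.mul (Real.contDiff_arctan.comp (contDiff_snd.div h2 h3))).div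
    (h2.pow 3) fun q => pow_ne_zero 3 (h3 q)).add ((contDiff_const.mul contDiff_snd).div
      (h1.mul (h1.add (contDiff_snd.pow 2))) fun q => ?_)
  have := h0 q
  positivity

private theorem ixG_deriv {e : ℝ} (he : 0 < e) (s t : ℝ) :
    HasDerivAt (fun t => ixG e (s, t)) (2 * e / (s ^ 2 + t ^ 2 + e) ^ 2) t := by
  have h0 : 0 < s ^ 2 + e := by positivity
  obtain ⟨A, hA, hA2⟩ : ∃ A : ℝ, √(s ^ 2 + e) = A ∧ s ^ 2 + e = A ^ 2 :=
    ⟨_, rfl, (Real.sq_sqrt h0.le).symm⟩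
  have A0 : 0 < A := hA ▸ Real.sqrt_pos.2 h0
  have h1 := (((Real.hasDerivAt_arctan (t / A)).comp t
    ((hasDerivAt_id' t).div_const A)).const_mul e).div_const (A ^ 3)
  have h2 : HasDerivAt (fun t : ℝ => A ^ 2 * (A ^ 2 + t ^ 2)) (A ^ 2 * (2 * t)) t := by
    simpa using ((hasDerivAt_pow 2 t).const_add (A ^ 2)).const_mul (A ^ 2)
  have h3 := ((hasDerivAt_id' t).const_mul e).div h2 (by positivity)
  have h4 := h1.add h3
  have e1 : (fun t => ixG e (s, t)) = fun t => e * Real.arctan (t / A) / A ^ 3 +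
      e * t / (A ^ 2 * (A ^ 2 + t ^ 2)) := by
    funext t
    simp only [ixG, hA]
    rw [hA2]
  rw [e1, show s ^ 2 + t ^ 2 + e = A ^ 2 + t ^ 2 by linarith]
  refine HasDerivAt.congr_deriv h4 ?_
  field_simp
  ring

private theorem ixG_bd {e : ℝ} (he : 0 < e) (s t : ℝ) :
    |ixG e (s, t)| ≤ 3 * (e / √(s ^ 2 + e) ^ 3) := by
  have h0 : 0 < s ^ 2 + e := by positivity
  obtain ⟨A, hA, hA2⟩ : ∃ A : ℝ, √(s ^ 2 + e) = A ∧ s ^ 2 + e = A ^ 2 :=
    ⟨_, rfl, (Real.sq_sqrt h0.le).symm⟩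
  have A0 : 0 < A := hA ▸ Real.sqrt_pos.2 h0
  simp only [ixG, hA]
  rw [hA2]
  have a1 : |Real.arctan (t / A)| ≤ 2 := by
    rw [abs_le]
    constructor <;>
      linarith [Real.arctan_lt_pi_div_two (t / A), Real.neg_pi_div_two_lt_arctan (t / A),
        Real.pi_le_four]
  have a2 : |e * Real.arctan (t / A) / A ^ 3| ≤ 2 * (e / A ^ 3) := by
    rw [mul_div_right_comm, abs_mul, abs_of_pos (by positivity : 0 < e / A ^ 3), mul_comm]
    exact mul_le_mul_of_nonneg_right a1 (by positivity)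
  have a3 : |e * t / (A ^ 2 * (A ^ 2 + t ^ 2))| ≤ e / A ^ 3 := by
    rw [abs_div, abs_mul, abs_of_pos he, abs_of_pos (by positivity : 0 < A ^ 2 * (A ^ 2 + t ^ 2)),
      div_le_div_iff₀ (by positivity) (by positivity)]
    have a4 : |t| * A ≤ A ^ 2 + t ^ 2 := by nlinarith [sq_abs t, sq_nonneg (|t| - A), abs_nonneg t]
    have := mul_le_mul_of_nonneg_left a4 (by positivity : 0 ≤ e * A ^ 2)
    linarith
  linarith [abs_add_le (e * Real.arctan (t / A) / A ^ 3) (e * t / (A ^ 2 * (A ^ 2 + t ^ 2)))]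

private theorem ixG_D {e : ℝ} (he : 0 < e) {a b : ℂ → ℝ} (ha : Sm a) (hb : Sm b) (z : ℂ) :
    ∃ x : ℝ, ∀ v, D v (fun z => ixG e (a z, b z)) z =
      x * D v a z + 2 * e / (a z ^ 2 + b z ^ 2 + e) ^ 2 * D v b z := by
  have h1 := ((ixG_sm he).differentiable (by simp) (a z, b z)).hasFDerivAt
  set L := fderiv ℝ (ixG e) (a z, b z)
  have h2 := (h1.comp z ((dif ha z).hasFDerivAt.prodMk (dif hb z).hasFDerivAt)).fderiv
  have h3 : L (0, 1) = 2 * e / (a z ^ 2 + b z ^ 2 + e) ^ 2 := by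
    have h4 : HasDerivAt (fun t : ℝ => (a z, t)) ((0 : ℝ), (1 : ℝ)) (b z) :=
      (hasDerivAt_const _ _).prodMk (hasDerivAt_id' _)
    exact (h1.comp_hasDerivAt (b z) h4).unique (ixG_deriv he _ _)
  refine ⟨L (1, 0), fun v => ?_⟩
  have h5 : fderiv ℝ (fun z => ixG e (a z, b z)) z = _ := h2
  rw [D, h5, ← h3, mul_comm (L (1, 0)), mul_comm (L (0, 1)), ← smul_eq_mul, ← smul_eq_mul,
    ← map_smul, ← map_smul, ← map_add]
  simp [D]

private theorem ix_sig {e : ℝ} (he : 0 < e) (s : ℝ) :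
    HasDerivAt (fun s : ℝ => s / √(s ^ 2 + e)) (e / √(s ^ 2 + e) ^ 3) s ∧
      |s / √(s ^ 2 + e)| ≤ 1 := by
  have h0 : 0 < s ^ 2 + e := by positivity
  have A0 := Real.sqrt_pos.2 h0
  have A2 := Real.sq_sqrt h0.le
  constructor
  · have h1 : HasDerivAt (fun s : ℝ => s ^ 2 + e) (2 * s) s := by
      simpa using (hasDerivAt_pow 2 s).add_const e
    refine ((hasDerivAt_id' s).div (h1.sqrt h0.ne') A0.ne').congr_deriv ?_
    field_simp
    linarith
  · rw [abs_div, abs_of_pos A0, div_le_one A0]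
    exact Real.abs_le_sqrt (by linarith)

private theorem ix_cD {F : ℂ → ℝ} (h : ContDiff ℝ 1 F) (v : ℂ) : Continuous (D v F) :=
  (h.continuous_fderiv one_ne_zero).clm_apply continuous_const

private theorem ix_out {F : ℂ → ℝ} {r : ℝ} (h : ∀ z, r ≤ ‖z‖ → F z = 0) (v z : ℂ)
    (hz : r + 1 ≤ ‖z‖) : D v F z = 0 := by
  have e : F =ᶠ[𝓝 z] fun _ => 0 :=
    ((isOpen_lt continuous_const continuous_norm).eventually_mem
      (show r < ‖z‖ by linarith)).mono fun x hx => h x hx.le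
  rw [D_congr e]
  simp [D]

private theorem ix_ibp {w F : ℂ → ℝ} (hw : ContDiff ℝ 1 w) (hF : Sm F) {r : ℝ}
    (h : ∀ z, r ≤ ‖z‖ → w z = 0) (v : ℂ) : ∫ z, w z * D v F z = -∫ z, D v w z * F z :=
  integral_mul_fderiv_eq_neg_fderiv_mul_of_integrable (μ := volume) (f := w) (g := F) (v := v)
    (int_out (F := fun z => D v w z * F z) ((ix_cD hw v).mul hF.continuous)
      fun z hz => by rw [ix_out h v z hz, zero_mul])
    (int_out (F := fun z => w z * D v F z) (hw.continuous.mul (smD hF v).continuous)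
      fun z hz => by rw [h z hz, zero_mul])
    (int_out (F := fun z => w z * F z) (hw.continuous.mul hF.continuous)
      fun z hz => by rw [h z hz, zero_mul])
    (fun x _ => hw.differentiable one_ne_zero x) fun x _ => dif hF x

private theorem ix_mul {F G : ℂ → ℝ} (hF : ContDiff ℝ 1 F) (hG : Sm G) (v : ℂ) :
    D v (fun s => F s * G s) = fun z => D v F z * G z + F z * D v G z :=
  funext fun z => D_mul_at (hF.differentiable one_ne_zero z) (dif hG z) v

private theorem ix_one {G : ℂ → ℝ} (hG : Sm G) : ContDiff ℝ 1 G := hG.of_le (by simp)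

private theorem ix_parts {e : ℝ} (he : 0 < e) {a b ψ : ℂ → ℝ} (ha : Sm a) (hb : Sm b)
    (hψ : ContDiff ℝ 1 ψ) {r : ℝ} (hr : ∀ z, r ≤ ‖z‖ → ψ z = 0) (e₁ e₂ : ℂ) :
    ∫ z, ψ z * (2 * e / (a z ^ 2 + b z ^ 2 + e) ^ 2) *
        (D e₁ a z * D e₂ b z - D e₂ a z * D e₁ b z) =
      ∫ z, (D e₁ ψ z * D e₂ a z - D e₂ ψ z * D e₁ a z) * ixG e (a z, b z) := by
  have sg : Sm fun z => ixG e (a z, b z) := (ixG_sm he).comp (ha.prodMk hb)
  set g := fun z => ixG e (a z, b z) with hg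
  have k : ∀ v w, ∫ z, ψ z * D v a z * D w g z =
      -∫ z, (D w ψ z * D v a z + ψ z * D w (D v a) z) * g z := fun v w => by
    have := ix_ibp (hψ.mul (ix_one (smD ha v))) sg (r := r)
      (fun z hz => by rw [hr z hz, zero_mul]) w
    rw [ix_mul hψ (smD ha v)] at this
    exact this
  have c0 := hψ.continuous
  have c1 := sg.continuous
  have c2 := fun v => (smD ha v).continuous
  have c3 := ix_cD hψ
  have c4 := fun v => (smD sg v).continuous
  have c5 := fun v w => (smD (smD ha v) w).continuous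
  have i1 : ∀ v w, Integrable fun z => ψ z * D v a z * D w g z := fun v w =>
    int_out (r := r) ((c0.mul (c2 v)).mul (c4 w)) fun z hz => by simp [hr z hz]
  have i2 : ∀ v w, Integrable fun z => (D w ψ z * D v a z + ψ z * D w (D v a) z) * g z :=
    fun v w => int_out (r := r + 1) ((((c3 w).mul (c2 v)).add (c0.mul (c5 v w))).mul c1)
      fun z hz => by simp [hr z (by linarith), ix_out hr w z hz]
  calc _ = ∫ z, (ψ z * D e₁ a z * D e₂ g z - ψ z * D e₂ a z * D e₁ g z) := by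
        congr 1
        funext z
        obtain ⟨x, hx⟩ := ixG_D he ha hb z
        rw [hx, hx]
        ring
    _ = _ := by
        rw [integral_sub (i1 _ _) (i1 _ _), k, k, neg_sub_neg, ← integral_sub (i2 _ _) (i2 _ _)]
        congr 1
        funext z
        rw [D_comm ha e₁ e₂]
        ring

private theorem ix_loc {c₁ c₂ : ℂ →L[ℝ] ℝ} {e₁ e₂ : ℂ} (h11 : c₁ e₁ = 1) (h12 : c₁ e₂ = 0)
    (h21 : c₂ e₁ = 0) (h22 : c₂ e₂ = 1) (hn : ∀ z, ‖z‖ ≤ |c₁ z| + |c₂ z|)
    (hv : ∀ (p : ℂ) (δ h : ℝ), 0 ≤ δ → 0 ≤ h →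
      volume {z | |c₁ (z - p)| ≤ δ ∧ |c₂ (z - p)| ≤ h} = ENNReal.ofReal (4 * δ * h))
    {a b φ : ℂ → ℝ} (ha : Sm a) (hb : Sm b) (hφ : ContDiff ℝ 1 φ) {r M η : ℝ}
    (hr : ∀ z, r ≤ ‖z‖ → φ z = 0) (hM : ∀ z, |φ z| ≤ M) (hη : 0 < η) {p : ℂ}
    (hp : D e₁ a p ≠ 0) : ∃ θ : ℂ → ℝ, Sm θ ∧ (∀ z, 0 ≤ θ z ∧ θ z ≤ 1) ∧
      (∀ᶠ z in 𝓝 p, θ z = 1) ∧ ∀ e, 0 < e →
      |∫ z, φ z * θ z * (2 * e / (a z ^ 2 + b z ^ 2 + e) ^ 2) *
        (D e₁ a z * D e₂ b z - D e₂ a z * D e₁ b z)| ≤ 1536 * cK ^ 2 * M + η := by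
  have M0 : 0 ≤ M := (abs_nonneg _).trans (hM 0)
  have K1 := one_le_cK
  obtain ⟨s, c, hs, hc, hsc⟩ : ∃ s c : ℝ, |s| = 1 ∧ 0 < c ∧ c < s * D e₁ a p := by
    rcases lt_or_gt_of_ne hp with h | h
    · exact ⟨-1, -D e₁ a p / 2, by simp, by linarith, by linarith⟩
    · exact ⟨1, D e₁ a p / 2, by simp, by linarith, by linarith⟩
  have ca := fun v => (smD ha v).continuous
  have cφ := ix_cD hφ
  obtain ⟨ρ, hρ, h1⟩ := Metric.eventually_nhds_iff.1
    ((continuous_const.mul (ca e₁)).continuousAt.eventually (lt_mem_nhds hsc))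
  obtain ⟨L, hL⟩ := (isCompact_closedBall p ρ).exists_bound_of_continuousOn
    (((ca e₂).abs.add (cφ e₁).abs).add (cφ e₂).abs).continuousOn
  have L0 : 0 ≤ L := (norm_nonneg _).trans (hL p (mem_closedBall_self hρ.le))
  set δ := ρ / 9 with hδ
  have δ0 : 0 < δ := by positivity
  set Y := L + (L + M * (4 * cK / δ)) * (L / c) with hY
  have Y0 : 0 ≤ Y := by positivity
  set h := min δ (η / (384 * cK * Y + 1)) with hh
  have h0 : 0 < h := lt_min δ0 (by positivity)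
  have hδ' : h ≤ δ := min_le_left _ _
  have hη' : 384 * cK * Y * h ≤ η := by
    have := (le_div_iff₀ (by positivity)).1 (min_le_right δ (η / (384 * cK * Y + 1)))
    rw [← hh] at this
    linarith
  obtain ⟨θ, sθ, b1, b2, b3⟩ := ix_cut h11 h12 h21 h22 p δ0 h0
  obtain ⟨Θ, sΘ, d1, d2, d3⟩ := ix_cut h11 h12 h21 h22 p (δ := 2 * δ) (h := 2 * h)
    (by linarith) (by linarith)
  refine ⟨θ, sθ, fun z => ⟨(b1 z).1, (b1 z).2.1⟩, ?_, fun e he => ?_⟩
  · have k : ∀ (c : ℂ →L[ℝ] ℝ) {d : ℝ}, 0 < d → ∀ᶠ z in 𝓝 p, |c (z - p)| < d := fun c d hd =>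
      (by fun_prop : Continuous fun z => |c (z - p)|).continuousAt.eventually
        (gt_mem_nhds (by simpa using hd))
    filter_upwards [k c₁ δ0, k c₂ h0] with z z1 z2 using b2 z z1.le z2.le
  have hin : ∀ z, |c₁ (z - p)| ≤ 2 * (2 * δ) → |c₂ (z - p)| ≤ 2 * (2 * h) → dist z p < ρ :=
    fun z z1 z2 => by
      have := hn (z - p)
      rw [dist_eq_norm]
      linarith
  have hΘ0 : ∀ z, ‖p‖ + ρ ≤ ‖z‖ → Θ z = 0 := fun z hz => by
    by_contra hne
    have k1 : ¬ (2 * (2 * δ) ≤ |c₁ (z - p)| ∨ 2 * (2 * h) ≤ |c₂ (z - p)|) :=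
      fun k => hne (d3 z k).1
    rw [not_or, not_le, not_le] at k1
    have k2 := hin z k1.1.le k1.2.le
    have k3 := norm_sub_norm_le z p
    rw [dist_eq_norm] at k2
    linarith
  set Q := M * (4 * cK / h) + Y with hQ
  have Q0 : 0 ≤ Q := by positivity
  have sψ : ContDiff ℝ 1 fun z => φ z * θ z := hφ.mul (ix_one sθ)
  have ssig : Sm fun z => a z / √(a z ^ 2 + e) :=
    ha.div (((ha.pow 2).add contDiff_const).sqrt fun z => by positivity) fun z => by positivity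
  have dsig : ∀ z, D e₁ (fun z => a z / √(a z ^ 2 + e)) z =
      e / √(a z ^ 2 + e) ^ 3 * D e₁ a z := fun z => D_comp (ix_sig he (a z)).1 (dif ha z) e₁
  have key : ∀ z, |D e₁ (fun z => φ z * θ z) z * D e₂ a z -
      D e₂ (fun z => φ z * θ z) z * D e₁ a z| ≤ Q * (Θ z * (s * D e₁ a z)) := fun z => by
    rw [ix_mul hφ sθ, ix_mul hφ sθ]
    by_cases hz : 2 * δ ≤ |c₁ (z - p)| ∨ 2 * h ≤ |c₂ (z - p)|
    · obtain ⟨z1, z2, z3⟩ := b3 z hz
      simp only [z1, z2, z3, mul_zero, add_zero, zero_mul, sub_zero, abs_zero]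
      by_cases hz' : 2 * (2 * δ) ≤ |c₁ (z - p)| ∨ 2 * (2 * h) ≤ |c₂ (z - p)|
      · rw [(d3 z hz').1, zero_mul, mul_zero]
      · rw [not_or, not_le, not_le] at hz'
        exact mul_nonneg Q0 (mul_nonneg (d1 z).1 (hc.trans (h1 (hin z hz'.1.le hz'.2.le))).le)
    · rw [not_or, not_le, not_le] at hz
      have z1 := hin z (by linarith) (by linarith)
      have z2 : c < s * D e₁ a z := h1 z1
      have z3 := hL z (mem_closedBall.2 z1.le)
      have z4 : |D e₁ a z| = s * D e₁ a z := by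
        rw [← abs_of_pos (hc.trans z2), abs_mul, hs, one_mul]
      simp only [Pi.add_apply, Real.norm_eq_abs] at z3
      have z5 := (le_abs_self _).trans z3
      have n1 := abs_nonneg (D e₂ a z)
      have n2 := abs_nonneg (D e₁ φ z)
      have n3 := abs_nonneg (D e₂ φ z)
      obtain ⟨t0, t1, t2, t3⟩ := b1 z
      have k : ∀ v (B : ℝ), |D v φ z| ≤ L → |D v θ z| ≤ B →
          |D v φ z * θ z + φ z * D v θ z| ≤ L + M * B := fun v B k1 k2 => by
        refine (abs_add_le _ _).trans (add_le_add ?_ ?_)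
        · rw [abs_mul, abs_of_nonneg t0]
          exact (mul_le_of_le_one_right (abs_nonneg _) t1).trans k1
        · rw [abs_mul]
          exact mul_le_mul (hM z) k2 (abs_nonneg _) M0
      have k1 := k e₁ _ (by linarith) t2
      have k2 := k e₂ _ (by linarith) t3
      have k3 : |D e₂ a z| ≤ L / c * (s * D e₁ a z) := by
        have := mul_le_mul_of_nonneg_left z2.le (div_nonneg L0 hc.le)
        rw [div_mul_cancel₀ _ hc.ne'] at this
        linarith
      have k4 := mul_le_mul k1 k3 n1 (by positivity)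
      have k5 := mul_le_mul_of_nonneg_right k2 (hc.trans z2).le
      refine (abs_sub _ _).trans ?_
      rw [d2 z hz.1.le hz.2.le, one_mul, abs_mul, abs_mul, z4, hQ, hY]
      linarith
  rw [ix_parts he ha hb sψ (r := r) (fun z hz => by rw [hr z hz, zero_mul]), ← Real.norm_eq_abs]
  have cΘ := sΘ.continuous
  have i1 : Integrable fun z => 3 * Q * s * (Θ z * D e₁ (fun z => a z / √(a z ^ 2 + e)) z) :=
    (int_out (r := ‖p‖ + ρ) (cΘ.mul (smD ssig e₁).continuous) fun z hz => by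
      simp [hΘ0 z hz]).const_mul _
  refine (norm_integral_le_of_norm_le i1 (Eventually.of_forall fun z => ?_)).trans ?_
  · rw [Real.norm_eq_abs, abs_mul, dsig]
    have := mul_le_mul (key z) (ixG_bd he (a z) (b z)) (abs_nonneg _)
      ((abs_nonneg _).trans (key z))
    linarith
  rw [integral_const_mul, ibp1 sΘ ssig hΘ0]
  have hm : MeasurableSet {z | |c₁ (z - p)| ≤ 2 * (2 * δ) ∧ |c₂ (z - p)| ≤ 2 * (2 * h)} :=
    ((isClosed_le (f := fun z => |c₁ (z - p)|) (by fun_prop) continuous_const).inter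
      (isClosed_le (f := fun z => |c₂ (z - p)|) (by fun_prop) continuous_const)).measurableSet
  have hvol := hv p (2 * (2 * δ)) (2 * (2 * h)) (by linarith) (by linarith)
  have u1 : ‖∫ z, D e₁ Θ z * (a z / √(a z ^ 2 + e))‖ ≤ 128 * cK * h := by
    have i2 : IntegrableOn (fun _ : ℂ => 4 * cK / (2 * δ))
        {z | |c₁ (z - p)| ≤ 2 * (2 * δ) ∧ |c₂ (z - p)| ≤ 2 * (2 * h)} :=
      integrableOn_const (by rw [hvol]; exact ENNReal.ofReal_ne_top)
    refine (norm_integral_le_of_norm_le (i2.integrable_indicator hm)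
      (Eventually.of_forall fun z => ?_)).trans (le_of_eq ?_)
    · by_cases hz : z ∈ {z | |c₁ (z - p)| ≤ 2 * (2 * δ) ∧ |c₂ (z - p)| ≤ 2 * (2 * h)}
      · rw [indicator_of_mem hz, Real.norm_eq_abs, abs_mul]
        exact (mul_le_of_le_one_right (abs_nonneg _) (ix_sig he _).2).trans (d1 z).2.2.1
      · rw [indicator_of_notMem hz]
        simp only [mem_ofPred_eq, not_and_or, not_le] at hz
        rw [(d3 z (hz.imp le_of_lt le_of_lt)).2.1, zero_mul, norm_zero]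
    · rw [integral_indicator_const _ hm, Measure.real, hvol,
        ENNReal.toReal_ofReal (by positivity), smul_eq_mul]
      field_simp
      ring
  have u2 : s * -∫ z, D e₁ Θ z * (a z / √(a z ^ 2 + e)) ≤ 128 * cK * h := by
    refine (le_abs_self _).trans ?_
    rwa [abs_mul, hs, one_mul, abs_neg]
  have u3 := mul_le_mul_of_nonneg_left u2 (show 0 ≤ 3 * Q by positivity)
  have u4 : Q * h = M * (4 * cK) + Y * h := by
    rw [hQ]
    field_simp
  have u5 : 3 * Q * (128 * cK * h) = 384 * cK * (Q * h) := by ring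
  rw [u5, u4] at u3
  linarith

private theorem ix_vol (p : ℂ) {δ : ℝ} (h : ℝ) (hδ : 0 ≤ δ) :
    volume {z : ℂ | |(z - p).re| ≤ δ ∧ |(z - p).im| ≤ h} = ENNReal.ofReal (4 * δ * h) := by
  have e : {z : ℂ | |(z - p).re| ≤ δ ∧ |(z - p).im| ≤ h} = measurableEquivRealProd ⁻¹'
      (Icc (p.re - δ) (p.re + δ) ×ˢ Icc (p.im - h) (p.im + h)) := by
    ext z
    simp only [mem_ofPred_eq, sub_re, sub_im, abs_le, mem_preimage, measurableEquivRealProd_apply,
      mem_prod, mem_Icc]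
    constructor <;> rintro ⟨⟨a, b⟩, c, d⟩ <;> refine ⟨⟨?_, ?_⟩, ?_, ?_⟩ <;> linarith
  rw [e, volume_preserving_equiv_real_prod.measure_preimage_equiv, Measure.volume_eq_prod,
    Measure.prod_prod, Real.volume_Icc, Real.volume_Icc, ← ENNReal.ofReal_mul (by linarith)]
  congr 1
  ring

/-- The index lemma. -/
theorem index_bound (P : Finset ℂ) : ∀ (w₁ w₂ φ : ℂ → ℝ) (r M η : ℝ), Sm w₁ → Sm w₂ →
    ContDiff ℝ 1 φ → (∀ z, r ≤ ‖z‖ → φ z = 0) → (∀ z, |φ z| ≤ M) →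
    (∀ z ∈ tsupport φ, w₁ z = 0 → w₂ z = 0 → z ∈ P) →
    (∀ p ∈ P, D 1 w₁ p ≠ 0 ∨ D I w₂ p ≠ 0) → 0 < η → ∃ e₀, 0 < e₀ ∧ ∀ e, 0 < e → e < e₀ →
      |∫ z, φ z * (2 * e / (w₁ z ^ 2 + w₂ z ^ 2 + e) ^ 2) *
        (D 1 w₁ z * D I w₂ z - D I w₁ z * D 1 w₂ z)| ≤ 1536 * cK ^ 2 * M * P.card + η := by
  classical
  induction P using Finset.induction_on with
  | empty =>
    intro w₁ w₂ φ r M η h1 h2 hφ hr hM hz _ hη
    have c1 := h1.continuous
    have c2 := h2.continuous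
    have hK : IsCompact (tsupport φ) := HasCompactSupport.intro (isCompact_closedBall 0 r)
      fun z hz => hr z (by rw [mem_closedBall_zero_iff] at hz; exact (not_le.1 hz).le)
    obtain ⟨c, hc, h3⟩ := hK.exists_forall_le' (f := fun z => w₁ z ^ 2 + w₂ z ^ 2) (a := 0)
      (by fun_prop) fun z hz' => by
        by_contra hn
        have a1 : w₁ z ^ 2 = 0 := by nlinarith [sq_nonneg (w₁ z), sq_nonneg (w₂ z)]
        have a2 : w₂ z ^ 2 = 0 := by nlinarith [sq_nonneg (w₁ z), sq_nonneg (w₂ z)]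
        simpa using hz z hz' (pow_eq_zero_iff two_ne_zero |>.1 a1)
          (pow_eq_zero_iff two_ne_zero |>.1 a2)
    set J := fun z => D 1 w₁ z * D I w₂ z - D I w₁ z * D 1 w₂ z with hJ
    have cJ : Continuous J := ((smD h1 1).continuous.mul (smD h2 I).continuous).sub
      ((smD h1 I).continuous.mul (smD h2 1).continuous)
    have i1 : Integrable fun z => |φ z * J z| :=
      int_out (r := r) (hφ.continuous.mul cJ).abs fun z hz => by simp [hr z hz]
    set K := 2 / c ^ 2 * ∫ z, |φ z * J z| with hKd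
    have K0 : 0 ≤ K := mul_nonneg (by positivity) (integral_nonneg fun z => abs_nonneg _)
    refine ⟨η / (K + 1), by positivity, fun e he he' => ?_⟩
    rw [lt_div_iff₀ (by positivity)] at he'
    rw [← Real.norm_eq_abs]
    refine (norm_integral_le_of_norm_le (i1.const_mul (e * (2 / c ^ 2)))
      (Eventually.of_forall fun z => ?_)).trans ?_
    · by_cases hz' : z ∈ tsupport φ
      · have a1 := h3 z hz'
        rw [Real.norm_eq_abs, mul_right_comm, abs_mul, mul_comm,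
          abs_of_nonneg (by positivity : 0 ≤ 2 * e / (w₁ z ^ 2 + w₂ z ^ 2 + e) ^ 2)]
        refine mul_le_mul_of_nonneg_right ?_ (abs_nonneg _)
        rw [← mul_div_assoc, mul_comm e]
        exact div_le_div_of_nonneg_left (by positivity) (by positivity)
          (pow_le_pow_left₀ hc.le (by linarith) 2)
      · simp [image_eq_zero_of_notMem_tsupport hz']
    · rw [integral_const_mul, mul_assoc, ← hKd]
      simp only [Finset.card_empty, Nat.cast_zero, mul_zero, zero_add]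
      linarith
  | insert p P hp ih =>
    intro w₁ w₂ φ r M η h1 h2 hφ hr hM hz hP hη
    obtain ⟨θ, sθ, b1, b2, b3⟩ : ∃ θ : ℂ → ℝ, Sm θ ∧ (∀ z, 0 ≤ θ z ∧ θ z ≤ 1) ∧
        (∀ᶠ z in 𝓝 p, θ z = 1) ∧ ∀ e, 0 < e →
        |∫ z, φ z * θ z * (2 * e / (w₁ z ^ 2 + w₂ z ^ 2 + e) ^ 2) *
          (D 1 w₁ z * D I w₂ z - D I w₁ z * D 1 w₂ z)| ≤ 1536 * cK ^ 2 * M + η / 2 := by
      rcases hP p (Finset.mem_insert_self _ _) with h | h
      · exact ix_loc (c₁ := reCLM) (c₂ := imCLM) (by simp) (by simp) (by simp) (by simp)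
          (fun z => norm_le_abs_re_add_abs_im z) (fun p δ h a _ => ix_vol p h a) h1 h2 hφ hr hM
          (half_pos hη) h
      · obtain ⟨θ, a1, a2, a3, a4⟩ := ix_loc (c₁ := imCLM) (c₂ := reCLM) (e₂ := 1) (by simp)
          (by simp) (by simp) (by simp)
          (fun z => (norm_le_abs_re_add_abs_im z).trans_eq (add_comm _ _))
          (fun p δ h _ b => by
            rw [mul_right_comm, ← ix_vol p δ b]
            simp only [and_comm, reCLM_apply, imCLM_apply]) h2 h1 hφ hr hM (half_pos hη) h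
        refine ⟨θ, a1, a2, a3, fun e he => le_of_eq_of_le ?_ (a4 e he)⟩
        congr 2
        funext z
        ring
    have s1 : ContDiff ℝ 1 fun z => φ z * (1 - θ z) := hφ.mul (contDiff_const.sub (ix_one sθ))
    obtain ⟨e₀, he₀, h3⟩ := ih w₁ w₂ _ r M (η / 2) h1 h2 s1
      (fun z hz => by rw [hr z hz, zero_mul]) (fun z => by
        rw [abs_mul, abs_of_nonneg (sub_nonneg.2 (b1 z).2)]
        exact (mul_le_of_le_one_right (abs_nonneg _) (sub_le_self _ (b1 z).1)).trans (hM z))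
      (fun z hz' a b => by
        rcases Finset.mem_insert.1 (hz z (tsupport_mul_subset_left hz') a b) with rfl | h
        · refine absurd hz' (notMem_tsupport_iff_eventuallyEq.2 ?_)
          filter_upwards [b2] with y hy
          simp [hy]
        · exact h)
      (fun q hq => hP q (Finset.mem_insert_of_mem hq)) (half_pos hη)
    refine ⟨e₀, he₀, fun e he he' => ?_⟩
    have c1 := h1.continuous
    have c2 := h2.continuous
    have cJ : Continuous fun z => D 1 w₁ z * D I w₂ z - D I w₁ z * D 1 w₂ z :=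
      ((smD h1 1).continuous.mul (smD h2 I).continuous).sub
        ((smD h1 I).continuous.mul (smD h2 1).continuous)
    have ck : Continuous fun z => 2 * e / (w₁ z ^ 2 + w₂ z ^ 2 + e) ^ 2 :=
      continuous_const.div (by fun_prop) fun z => by positivity
    have a1 := b3 e he
    have a2 := h3 e he he'
    have a3 := integral_add
      (int_out (r := r) (((hφ.continuous.mul sθ.continuous).mul ck).mul cJ)
        fun z hz => by simp [hr z hz])
      (int_out (r := r) ((s1.continuous.mul ck).mul cJ) fun z hz => by simp [hr z hz])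
    simp only [Pi.mul_apply] at a3
    have a4 : ∫ z, φ z * (2 * e / (w₁ z ^ 2 + w₂ z ^ 2 + e) ^ 2) *
        (D 1 w₁ z * D I w₂ z - D I w₁ z * D 1 w₂ z) = _ := Eq.trans (by
      congr 1
      funext z
      ring) a3
    rw [a4, Finset.card_insert_of_notMem hp]
    push_cast
    linarith [abs_add_le
      (∫ z, φ z * θ z * (2 * e / (w₁ z ^ 2 + w₂ z ^ 2 + e) ^ 2) *
        (D 1 w₁ z * D I w₂ z - D I w₁ z * D 1 w₂ z))
      (∫ z, φ z * (1 - θ z) * (2 * e / (w₁ z ^ 2 + w₂ z ^ 2 + e) ^ 2) *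
        (D 1 w₁ z * D I w₂ z - D I w₁ z * D 1 w₂ z))]

end Pool.Agent.Lib.MP_a52643_an.CP
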