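import Pool.Agent.Lib.MP_a52643_an.CP.Defs
import Pool.Agent.Lib.MP_a52643_an.CP.IdxPt

/-!
The index count.
-/

open Complex MeasureTheory Set Filter Topology Metric
open scoped ComplexConjugate ContDiff ENNReal

noncomputable section

namespace Pool.Agent.Lib.MP_a52643_an.CP

private theorem idx_D {w : ℂ → ℂ} {z : ℂ} (h : DifferentiableAt ℝ w z) (v : ℂ) :
    QS.D v (fun y => (w y).re) z = (fderiv ℝ w z v).re ∧
      QS.D v (fun y => (w y).im) z = (fderiv ℝ w z v).im :=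
  ⟨congrArg (fun L => L v) (reCLM.hasFDerivAt.comp z h.hasFDerivAt).fderiv,
    congrArg (fun L => L v) (imCLM.hasFDerivAt.comp z h.hasFDerivAt).fderiv⟩

theorem index : ∃ C₀ : ℝ, 0 ≤ C₀ ∧ ∀ (w : ℂ → ℂ) (P : Finset ℂ) (φ : ℂ → ℝ) (M : ℝ),
    ContDiffOn ℝ ∞ w UH → Ts (rC φ) → (∀ z, |φ z| ≤ M) →
    (∀ z ∈ tsupport φ, w z = 0 → z ∈ P ∧ (dz w z).re ≠ 0) →
    ∀ᶠ ε in 𝓝[>] (0 : ℝ), |∫ z, φ z * kd w ε z| ≤ C₀ * (M + 1) * P.card + 1 := by
  classical
  refine ⟨1536 * YA.cK ^ 2, by positivity, fun w P φ M hw hφ hM hz => ?_⟩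
  have M0 : 0 ≤ M := (abs_nonneg _).trans (hM 0)
  have e : tsupport (rC φ) = tsupport φ := by
    unfold tsupport
    congr 1
    ext z
    simp [rC]
  have hK : IsCompact (tsupport φ) := e ▸ hφ.cs
  obtain ⟨χ, c1, -, c3, -, c5⟩ := exists_cut hK isOpen_UH (e ▸ hφ.sub)
  have c6 : tsupport (rC χ) ⊆ UH := by
    refine subset_trans (closure_mono fun z hz => ?_) c3
    simpa [rC] using hz
  have sW : ContDiff ℝ ∞ fun z => rC χ z * w z :=
    cut_cd (ofRealCLM.contDiff.comp c1) c6 hw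
  set W := fun z => rC χ z * w z with hW
  have eW : ∀ z ∈ tsupport φ, W =ᶠ[𝓝 z] w := fun z hz =>
    (c5 z hz).mono fun y hy => by simp [hW, rC, hy]
  have dW := sW.differentiable (by simp)
  obtain ⟨r, hr⟩ := hK.isBounded.subset_ball 0
  obtain ⟨e₀, he₀, h⟩ := index_bound (P.filter fun z => z ∈ tsupport φ ∧ w z = 0)
    (fun z => (W z).re) (fun z => (W z).im) φ r M 1 (reCLM.contDiff.comp sW)
    (imCLM.contDiff.comp sW) (reCLM.contDiff.comp hφ.cd)
    (fun z hz => image_eq_zero_of_notMem_tsupport fun h' =>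
      absurd (mem_ball_zero_iff.1 (hr h')) (not_lt.2 hz)) hM
    (fun z hz' a b => by
      have h0 : w z = 0 := by
        rw [← (eW z hz').self_of_nhds]
        exact Complex.ext a b
      exact Finset.mem_filter.2 ⟨(hz z hz' h0).1, hz', h0⟩)
    (fun p hp => by
      obtain ⟨-, h1, h2⟩ := Finset.mem_filter.1 hp
      have h3 := (hz p h1 h2).2
      rw [← dz_congr (eW p h1)] at h3
      rw [(idx_D (dW p) 1).1, (idx_D (dW p) I).2]
      by_contra hn
      rw [not_or, not_not, not_not] at hn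
      exact h3 (by simp [dz, wp, hn.1, hn.2])) one_pos
  filter_upwards [Ioo_mem_nhdsGT he₀] with ε hε
  refine le_of_eq_of_le ?_ ((h ε hε.1 hε.2).trans ?_)
  · congr 2
    funext z
    by_cases hz' : z ∈ tsupport φ
    · rw [kd, ← dz_congr (eW z hz'), ← dzb_congr (eW z hz'), ← (eW z hz').self_of_nhds,
        (idx_D (dW z) 1).1, (idx_D (dW z) I).2, (idx_D (dW z) I).1, (idx_D (dW z) 1).2]
      simp only [dz, dzb, wp, wm, normSq_apply, smul_eq_mul, mul_one, div_ofNat_re, div_ofNat_im,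
        sub_re, sub_im, add_re, add_im, mul_re, mul_im, I_re, I_im]
      ring
    · simp [image_eq_zero_of_notMem_tsupport hz']
  · have : ((P.filter fun z => z ∈ tsupport φ ∧ w z = 0).card : ℝ) ≤ P.card := by
      exact_mod_cast Finset.card_filter_le _ _
    gcongr
    linarith

end Pool.Agent.Lib.MP_a52643_an.CP
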