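import Pool.Agent.Lib.MP_a52643_an.CP.Id
import Pool.Agent.Lib.MP_a52643_an.CP.Idx
import Pool.Agent.Lib.MP_a52643_an.CP.Ang

/-!
The energy bound.
-/

open Complex MeasureTheory Set Filter Topology Metric
open scoped ComplexConjugate ContDiff ENNReal

noncomputable section

namespace Pool.Agent.Lib.MP_a52643_an.CP

variable {σ u : ℂ → ℝ} {lam : ℝ} {K K₀ : Set ℂ} {CE CM : Set ℂ → ℝ} {z : ℂ}

lemma En_F0 (t : ℝ) : 0 ≤ F0 t ∧ F0 t ≤ 8 := by
  by_cases h : t ≤ 1 / 8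
  · rw [F0_zero h]; norm_num
  have h' : 1 / 8 ≤ t := (not_le.1 h).le
  refine ⟨intervalIntegral.integral_nonneg (by linarith) fun x _ => F1_nonneg x, ?_⟩
  have hB : ∀ x : ℝ, 1 / 8 ≤ x → HasDerivAt (fun x : ℝ => 8 - x⁻¹) (1 / x ^ 2) x := fun x hx => by
    have := (hasDerivAt_inv (x := x) (by linarith)).const_sub 8
    simpa using this
  have := image_le_of_deriv_right_le_deriv_boundary (f := F0) (f' := F1) (a := 1 / 8) (b := t)
    F0_cd.continuous.continuousOn (fun x _ => (F0_deriv x).hasDerivWithinAt)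
    (B := fun x : ℝ => 8 - x⁻¹) (B' := fun x => 1 / x ^ 2) (by rw [F0_zero le_rfl]; norm_num)
    (fun x hx => (hB x hx.1).continuousAt.continuousWithinAt)
    (fun x hx => (hB x hx.1).hasDerivWithinAt)
    (fun x _ => div_le_div_of_nonneg_right (th_le x) (sq_nonneg x)) ⟨h', le_rfl⟩
  have h0 : 0 ≤ t⁻¹ := inv_nonneg.2 (by linarith)
  linarith

lemma En_F1 {t S : ℝ} (h : S ≤ 2 * t) : F1 t * S ≤ 16 := by
  by_cases h1 : t ≤ 1 / 8
  · rw [F1_zero h1]; norm_num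
  have h2 : 1 / 8 < t := not_le.1 h1
  have h3 : 0 < t := by linarith
  refine (mul_le_mul_of_nonneg_left h (F1_nonneg t)).trans ?_
  rw [F1, div_mul_eq_mul_div, div_le_iff₀ (by positivity)]
  nlinarith [th_le t, th_nonneg t]

lemma En_ts (f : ℂ → ℝ) : tsupport (rC f) = tsupport f := by
  simp [tsupport, Function.support, rC]

lemma En_alg (a g G : ℂ) {x f0 f1 S ε : ℝ} (hx : 0 ≤ x) (h0 : 0 ≤ f0) (h8 : f0 ≤ 8) (h1 : 0 ≤ f1)
    (hS : 0 ≤ S) (hε : 0 < ε) (h16 : f1 * S ≤ 16) :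
    2 * (x * (f1 * normSq g / (S + ε)))
      ≤ 2 * (conj (a * f0 + x * (f1 * g)) * ((2 * g + S * G) / (S + ε : ℝ))).re
        - 4 * (f0 / (S + ε) * (conj a * g).re) + (16 * ‖a * G‖ + 8 * (x * normSq G)) := by
  have hD : 0 < S + ε := by linarith
  obtain ⟨t, ht⟩ : ∃ t, t = (S + ε)⁻¹ := ⟨_, rfl⟩
  have t0 : 0 ≤ t := ht ▸ (inv_pos.2 hD).le
  have t1 : S * t ≤ 1 := by rw [ht, ← div_eq_mul_inv, div_le_one hD]; linarith
  have e : (conj (a * f0 + x * (f1 * g)) * ((2 * g + S * G) / (S + ε : ℝ))).re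
      = t * (2 * f0 * (conj a * g).re + f0 * S * (conj a * G).re + 2 * x * f1 * normSq g
        + x * f1 * S * (conj g * G).re) := by
    rw [div_eq_mul_inv, ← ofReal_inv, ← ht]
    simp [normSq_apply]; ring
  have r2 : -(conj a * G).re ≤ ‖a * G‖ := by
    have := (abs_re_le_norm (conj a * G))
    rw [norm_mul, norm_conj, ← norm_mul] at this
    linarith [neg_abs_le (conj a * G).re]
  have r3 : 0 ≤ 4 * normSq g + 4 * S * (conj g * G).re + S ^ 2 * normSq G := by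
    have := normSq_nonneg (2 * g + S * G)
    simp [normSq_apply] at this ⊢
    linarith
  have b1 : f0 * (S * t) ≤ 8 := by nlinarith [mul_nonneg hS t0]
  have b2 : f1 * S * (S * t) ≤ 16 := by nlinarith [mul_nonneg hS t0, mul_nonneg h1 hS]
  have c1 : f0 * (S * t) * -(conj a * G).re ≤ 8 * ‖a * G‖ :=
    (mul_le_mul_of_nonneg_left r2 (by positivity)).trans
      (mul_le_mul_of_nonneg_right b1 (norm_nonneg _))
  have c2 := mul_le_mul_of_nonneg_right b2 (mul_nonneg hx (normSq_nonneg G))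
  have c3 := mul_nonneg (mul_nonneg (mul_nonneg hx h1) t0) r3
  rw [e, div_eq_mul_inv, div_eq_mul_inv, ← ht]
  nlinarith

/-- The gradient in an orthonormal frame. -/
def En_w (σ u : ℂ → ℝ) (y : ℂ) : ℂ := pp u y * rC (fun y => (√(σ y))⁻¹) y

lemma En_s_cd (hσ : Met σ) : ContDiffOn ℝ ∞ (fun y => (√(σ y))⁻¹) UH :=
  (hσ.cd.sqrt fun y hy => (hσ.pos y hy).ne').inv fun y hy => (Real.sqrt_pos.2 (hσ.pos y hy)).ne'

lemma En_w_cd (hσ : Met σ) (hu : ContDiffOn ℝ ∞ u UH) : ContDiffOn ℝ ∞ (En_w σ u) UH :=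
  (cd_pp hu).mul (cd_rC (En_s_cd hσ))

lemma En_s_sq (hσ : Met σ) (hz : z ∈ UH) : (√(σ z))⁻¹ * (√(σ z))⁻¹ = (σ z)⁻¹ := by
  rw [← mul_inv, Real.mul_self_sqrt (hσ.pos z hz).le]

lemma En_normSq (hσ : Met σ) (hz : z ∈ UH) : normSq (En_w σ u z) = SS σ u z := by
  rw [En_w, map_mul, rC, normSq_ofReal, En_s_sq hσ hz, SS, div_eq_mul_inv]

lemma En_dz (hσ : Met σ) (h : Eg σ u lam) (hz : z ∈ UH) :
    dz (En_w σ u) z = -(lam * σ z * u z / 2 : ℝ) * ((√(σ z))⁻¹ : ℝ)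
      + pp u z * conj (gr (fun y => (√(σ y))⁻¹) z) := by
  have := dz_mul (dAt (cd_pp h.cd) hz) (dAt (cd_rC (En_s_cd hσ)) hz)
  rw [h.eq z hz, dz_rC] at this
  exact this

lemma En_N (hσ : Met σ) (h : Eg σ u lam) (hz : z ∈ UH) :
    conj (En_w σ u z) * dzb (En_w σ u) z - En_w σ u z * conj (dz (En_w σ u) z)
      = 2 * gr (ps σ u lam) z + SS σ u z * (gr σ z / σ z) := by
  have e1 : dzb (En_w σ u) z = dzb (pp u) z * ((√(σ z))⁻¹ : ℝ)
      + pp u z * gr (fun y => (√(σ y))⁻¹) z :=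
    dzb_mul (dAt (cd_pp h.cd) hz) (dAt (cd_rC (En_s_cd hσ)) hz)
  have e2 : (((√(σ z))⁻¹ : ℝ) : ℂ) * ((√(σ z))⁻¹ : ℝ) * σ z = 1 := by
    rw [← ofReal_mul, En_s_sq hσ hz, ← ofReal_mul, inv_mul_cancel₀ (hσ.pos z hz).ne', ofReal_one]
  have e3 := I3 hσ h hz
  have e4 : (σ z : ℂ) * (gr σ z / σ z) = gr σ z := mul_div_cancel₀ _ (hσ.ne hz)
  rw [e1, En_dz hσ h hz, En_w, rC]
  simp only [map_add, map_mul, map_neg, conj_conj, conj_ofReal]
  generalize (((√(σ z))⁻¹ : ℝ) : ℂ) = s at e2 ⊢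
  generalize gr σ z / σ z = G at e4 ⊢
  push_cast
  linear_combination s * s * e3 + (2 * gr (ps σ u lam) z + SS σ u z * G) * e2
    - s * s * SS σ u z * e4

/-- The test function of the energy identity. -/
def En_φ (σ u : ℂ → ℝ) (lam : ℝ) (χ : ℂ → ℝ) (y : ℂ) : ℝ := χ y * F0 (ps σ u lam y)

lemma En_φ_ts (hσ : Met σ) (hu : ContDiffOn ℝ ∞ u UH) {χ : ℂ → ℝ} (hχ : Ts (rC χ)) :
    Ts (rC (En_φ σ u lam χ)) := by
  have := hχ.mul (cd1 (cd_rC (F0_cd.comp_contDiffOn (cd_ps (lam := lam) hσ hu))))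
  convert this using 2 with y
  simp [rC, En_φ]

lemma En_zero (hσ : Met σ) (h : Eg σ u lam) {χ : ℂ → ℝ} (hχ : Ts (rC χ))
    (hz : z ∈ tsupport (En_φ σ u lam χ)) (h0 : En_w σ u z = 0) :
    z ∈ tsupport χ ∧ pp u z = 0 ∧ (dz (En_w σ u) z).re ≠ 0 := by
  have h1 : z ∈ tsupport χ := tsupport_mul_subset_left hz
  have h2 : z ∈ UH := hχ.sub (by rwa [En_ts])
  have h3 : 0 < (√(σ z))⁻¹ := inv_pos.2 (Real.sqrt_pos.2 (hσ.pos z h2))
  have h4 : pp u z = 0 :=
    (mul_eq_zero.1 h0).resolve_right (by simp only [rC]; exact_mod_cast h3.ne')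
  have h5 : 1 / 8 ≤ ps σ u lam z := by
    by_contra h6
    have := (cdAt (cd_ps (lam := lam) hσ h.cd) h2).continuousAt.eventually_lt
      continuousAt_const (not_le.1 h6)
    refine notMem_tsupport_iff_eventuallyEq.2 ?_ hz
    filter_upwards [this] with y hy
    simp [En_φ, F0_zero hy.le]
  have h6 : u z ≠ 0 := fun h7 => by
    norm_num [ps, SS, h4, h7] at h5
  refine ⟨h1, h4, ?_⟩
  rw [En_dz hσ h h2, h4, zero_mul, add_zero, ← ofReal_neg, ← ofReal_mul, ofReal_re]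
  have := hσ.pos z h2
  have : 0 < lam := by linarith [h.one]
  exact mul_ne_zero (neg_ne_zero.2 (by positivity)) h3.ne'

/-- The field of the energy identity. -/
def En_X (σ u : ℂ → ℝ) (ε : ℝ) (y : ℂ) : ℂ :=
  (conj (En_w σ u y) * dzb (En_w σ u) y - En_w σ u y * conj (dz (En_w σ u) y))
    / (normSq (En_w σ u y) + ε : ℝ)

lemma En_ibp (hσ : Met σ) (hu : ContDiffOn ℝ ∞ u UH) {φ : ℂ → ℝ} (hφ : Ts (rC φ)) {ε : ℝ}
    (hε : 0 < ε) : Integrable (fun z => 2 * (conj (gr φ z) * En_X σ u ε z).re) ∧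
      ∫ z, 2 * (conj (gr φ z) * En_X σ u ε z).re = ∫ z, φ z * kd (En_w σ u) ε z := by
  have hX : ContDiffOn ℝ 1 (En_X σ u ε) UH := cd1 (Ang_cd (En_w_cd hσ hu) hε)
  have e1 : ∀ z, dz (rC φ) z * En_X σ u ε z + dzb (rC φ) z * conj (En_X σ u ε z)
      = (2 * (conj (gr φ z) * En_X σ u ε z).re : ℝ) := fun z => by
    rw [← add_conj, dz_rC, map_mul, conj_conj]; rfl
  have e2 : ∀ z, rC φ z * eP (En_X σ u ε) (fun y => conj (En_X σ u ε y)) z
      = -(φ z * kd (En_w σ u) ε z : ℝ) := fun z => by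
    by_cases hz : z ∈ UH
    · have := div_angle (En_w_cd hσ hu) hε hz
      rw [show eP (En_X σ u ε) (fun y => conj (En_X σ u ε y)) z = _ from this, rC]
      push_cast; ring
    · have : φ z = 0 := image_eq_zero_of_notMem_tsupport fun h' => hz (hφ.sub (by rwa [En_ts]))
      simp [rC, this]
  have e3 := hφ.ibp hX (cd_conj hX)
  have e4 := ((hφ.int_dz hX.continuousOn).add (hφ.int_dzb (cd_conj hX).continuousOn)).re
  simp only [e1, e2, integral_neg, integral_complex_ofReal, neg_inj, ofReal_inj] at e3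
  refine ⟨e4.congr (Eventually.of_forall fun z => ?_), e3.symm⟩
  simp only [Pi.add_apply, e1, RCLike.re_to_complex, ofReal_re]

lemma En_pt (hσ : Met σ) (h : Eg σ u lam) {χ : ℂ → ℝ} (hχ : Ts (rC χ)) (h0 : ∀ z, 0 ≤ χ z)
    {ε : ℝ} (hε : 0 < ε) (z : ℂ) :
    2 * (χ z * en σ u lam ε z)
      ≤ 2 * (conj (gr (En_φ σ u lam χ) z) * En_X σ u ε z).re
        - 4 * (F0 (ps σ u lam z) / (SS σ u z + ε) * (conj (gr χ z) * gr (ps σ u lam) z).re)
        + (16 * ‖gr χ z * (gr σ z / σ z)‖ + 8 * (χ z * normSq (gr σ z / σ z))) := by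
  by_cases hz : z ∈ UH
  · have dψ := dAt (cd_ps (lam := lam) hσ h.cd) hz
    have dχ : DifferentiableAt ℝ χ z :=
      reCLM.differentiableAt.comp z (hχ.cd.differentiable one_ne_zero z)
    have e : gr (En_φ σ u lam χ) z
        = gr χ z * F0 (ps σ u lam z) + χ z * (F1 (ps σ u lam z) * gr (ps σ u lam) z) := by
      rw [← gr_comp (F0_deriv _) dψ]
      exact gr_mul dχ ((F0_deriv _).differentiableAt.comp z dψ)
    rw [e, En_X, En_N hσ h hz, En_normSq hσ hz, en]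
    exact En_alg _ _ _ (h0 z) (En_F0 _).1 (En_F0 _).2 (F1_nonneg _) (SS_nonneg hσ hz) hε
      (En_F1 (SS_le (by linarith [h.one]) z))
  · have e1 : χ z = 0 := image_eq_zero_of_notMem_tsupport fun h' => hz (hχ.sub (by rwa [En_ts]))
    have e2 : gr χ z = 0 :=
      image_eq_zero_of_notMem_tsupport fun h' => hz (hχ.sub (tsupport_dzb _ h'))
    have e3 : gr (En_φ σ u lam χ) z = 0 :=
      image_eq_zero_of_notMem_tsupport fun h' =>
        hz ((En_φ_ts hσ h.cd hχ).sub (tsupport_dzb _ h'))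
    simp [e1, e2, e3]

lemma En_int {χ F : ℂ → ℝ} (hχ : Ts (rC χ)) (hF : ContinuousOn F UH) :
    Integrable fun z => χ z * F z :=
  (hχ.int (continuous_ofReal.comp_continuousOn hF)).re.congr
    (Eventually.of_forall fun z => by simp [rC])

theorem energy (hσ : Met σ) {χ : ℂ → ℝ} (hχ : Ts (rC χ)) (h0 : ∀ z, 0 ≤ χ z ∧ χ z ≤ 1) (n : ℕ) :
    ∃ C : ℝ, ∀ (u : ℂ → ℝ) (lam : ℝ), Eg σ u lam →
      (∀ ε, 0 < ε → ∫ z, F0 (ps σ u lam z) / (SS σ u z + ε)
        * (conj (gr χ z) * gr (ps σ u lam) z).re = 0) →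
      ∀ P : Finset ℂ, P.card ≤ n → (∀ z ∈ tsupport χ, pp u z = 0 → z ∈ P) →
      ∀ δ, 0 < δ → ∫ z, χ z * en σ u lam δ z ≤ C := by
  obtain ⟨C₀, hC₀, hI⟩ := index
  have hG : ContinuousOn (fun z => gr σ z / σ z) UH :=
    (cd_gr hσ.cd).continuousOn.div (cd_rC hσ.cd).continuousOn fun z hz => hσ.ne hz
  have iR : Integrable fun z =>
      16 * ‖gr χ z * (gr σ z / σ z)‖ + 8 * (χ z * normSq (gr σ z / σ z)) :=
    ((hχ.int_dzb hG).norm.const_mul 16).add
      ((En_int hχ (continuous_normSq.comp_continuousOn hG)).const_mul 8)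
  refine ⟨(C₀ * (8 + 1) * n + 1 + ∫ z, (16 * ‖gr χ z * (gr σ z / σ z)‖
    + 8 * (χ z * normSq (gr σ z / σ z)))) / 2, fun u lam h hd P hP hz δ hδ => ?_⟩
  have hφ := En_φ_ts (lam := lam) hσ h.cd hχ
  have hev := hI (En_w σ u) P (En_φ σ u lam χ) 8 (En_w_cd hσ h.cd) hφ
    (fun z => by
      rw [En_φ, abs_of_nonneg (mul_nonneg (h0 z).1 (En_F0 _).1)]
      nlinarith [h0 z, En_F0 (ps σ u lam z)])
    (fun z h1 h2 => by
      obtain ⟨a, b, c⟩ := En_zero hσ h hχ h1 h2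
      exact ⟨hz z a b, c⟩)
  obtain ⟨ε, hε, hε0, hεδ⟩ := (hev.and (Ioo_mem_nhdsGT hδ)).exists
  have i1 := En_int hχ (co_en (lam := lam) hσ h.cd hε0)
  have m1 : ∫ z, χ z * en σ u lam δ z ≤ ∫ z, χ z * en σ u lam ε z := by
    refine integral_mono (En_int hχ (co_en hσ h.cd hδ)) i1 fun z => ?_
    by_cases hz : z ∈ UH
    · exact mul_le_mul_of_nonneg_left (div_le_div_of_nonneg_left
        (mul_nonneg (F1_nonneg _) (normSq_nonneg _))
        (add_pos_of_nonneg_of_pos (SS_nonneg hσ hz) hε0) (by linarith)) (h0 z).1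
    · have e1 : χ z = 0 :=
        image_eq_zero_of_notMem_tsupport fun h' => hz (hχ.sub (by rwa [En_ts]))
      simp [e1]
  obtain ⟨i2, e2⟩ := En_ibp hσ h.cd hφ hε0
  have i3 : Integrable fun z => F0 (ps σ u lam z) / (SS σ u z + ε)
      * (conj (gr χ z) * gr (ps σ u lam) z).re := by
    have c1 : ContinuousOn (fun z => F0 (ps σ u lam z) / (SS σ u z + ε)) UH :=
      (F0_cd.continuous.comp_continuousOn (cd_ps hσ h.cd).continuousOn).div
        ((cd_SS hσ h.cd).continuousOn.add continuousOn_const)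
        fun _ hz => (add_pos_of_nonneg_of_pos (SS_nonneg hσ hz) hε0).ne'
    refine (hχ.int_dz ((cd_gr (cd_ps (lam := lam) hσ h.cd)).continuousOn.mul
      (continuous_ofReal.comp_continuousOn c1))).re.congr (Eventually.of_forall fun z => ?_)
    simp only [dz_rC, RCLike.re_to_complex, Pi.mul_apply, Function.comp, ← mul_assoc,
      re_mul_ofReal]
    ring
  have m2 := integral_mono (i1.const_mul 2) ((i2.sub (i3.const_mul 4)).add iR)
    (En_pt hσ h hχ (fun z => (h0 z).1) hε0)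
  rw [integral_add' (i2.sub (i3.const_mul 4)) iR, integral_sub' i2 (i3.const_mul 4), e2,
    integral_const_mul, integral_const_mul, hd ε hε0] at m2
  have m3 : C₀ * (8 + 1) * P.card ≤ C₀ * (8 + 1) * n :=
    mul_le_mul_of_nonneg_left (by exact_mod_cast hP) (by positivity)
  linarith [le_abs_self (∫ z, En_φ σ u lam χ z * kd (En_w σ u) ε z)]

end Pool.Agent.Lib.MP_a52643_an.CP
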