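import Pool.Agent.Lib.MP_a52643_an.CP.Part
import Pool.Agent.Lib.MP_a52643_an.CP.En

/-!
Uniform constants for the family, and the choice of the scale.
-/

open Complex MeasureTheory Set Filter Topology Metric
open scoped ComplexConjugate ContDiff ENNReal

noncomputable section

namespace Pool.Agent.Lib.MP_a52643_an.CP

variable {Γ : Type} [Group Γ] {m : Γ → ℂ → ℂ} {K K₀ : Set ℂ}

lemma fam_met {ρ : ℂ → ℝ} (hρ : Met ρ) : Met fun z => ρ z / z.im ^ 2 :=
  ⟨hρ.cd.div (imCLM.contDiff.contDiffOn.pow 2) fun _ hz => pow_ne_zero _ (ne_of_gt hz),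
    fun z hz => div_pos (hρ.pos z hz) (pow_pos hz 2)⟩

lemma fam_pp {u : ℂ → ℝ} (hu : ContDiffOn ℝ ∞ u UH) (c : ℝ) {z : ℂ} (hz : z ∈ UH) :
    pp (fun z => c * u z) z = c * pp u z := by
  have e : rC (fun z => c * u z) = fun w => (c : ℂ) * rC u w := by
    ext w
    simp [rC]
  rw [pp, pp, gr, gr, e, dzb_cmul _ (d_rC (dAt hu hz))]
  ring

theorem family (h : Act m) (h0 : Cp K₀) (cov : ∀ z ∈ UH, ∃ γ, m γ z ∈ K₀) {ρ : ℂ → ℝ}
    (hρ : Met ρ) (iρ : Iv m ρ) (N : ℕ) : ∃ CE CM : Set ℂ → ℝ, ∀ (u : ℂ → ℝ) (lam : ℝ),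
      Eg (fun z => ρ z / z.im ^ 2) u lam → Iv m u → Few m N u →
      Sol (fun z => ρ z / z.im ^ 2) K₀ CE CM u lam := by
  have hσ := fam_met hρ
  obtain ⟨χ, hχ, h01, ⟨c, hc, hcK⟩, h1⟩ := exists_part h h0 cov
  have hs : tsupport χ = tsupport (rC χ) := by
    unfold tsupport
    congr 1
    ext z
    simp [rC]
  obtain ⟨n, hn⟩ := count h (K := tsupport χ) (hs ▸ ⟨hχ.cs, hχ.sub⟩) N
  obtain ⟨C, hC⟩ := energy hσ hχ h01 n
  choose! D hD0 hD1 hD2 using fun K (hK : Cp K) => mult h h0 cov hK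
  refine ⟨fun K => D K * (C / c), D, fun u lam hu iu hF => ?_⟩
  have ip := Iv.ps h iρ hu.cd iu lam
  have iS := Iv.SS h iρ hu.cd iu
  have cp := cd_ps (lam := lam) hσ hu.cd
  refine ⟨hu, fun K hK δ hδ => ?_, fun K hK s => hD2 K hK _ s cp.continuousOn ip⟩
  obtain ⟨P, hP, hP'⟩ := hn u hF
  have h2 := hC u lam hu (fun ε hε => unfold_div h hχ h1
    ((F0_cd.continuous.comp_continuousOn cp.continuousOn).div
      ((cd_SS hσ hu.cd).continuousOn.add continuousOn_const)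
      fun _ hz => (add_pos_of_nonneg_of_pos (SS_nonneg hσ hz) hε).ne') cp
    (fun γ z hz => by simp only [ip γ z hz, iS γ z hz]) ip) P hP hP' δ hδ
  have ce := co_en (lam := lam) hσ hu.cd hδ
  refine (hD1 K hK _ ce (fun z hz => en_nonneg hσ hδ hz) fun γ z hz => ?_).trans
    (mul_le_mul_of_nonneg_left ?_ (hD0 K hK))
  · have h3 := Iv.grad h cp ip γ z hz
    simp only [en, ip γ z hz, iS γ z hz] at h3 ⊢
    rw [← mul_div_assoc, ← mul_div_assoc, mul_left_comm, h3, mul_left_comm]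
  · have hi : Integrable fun z => χ z * en (fun z => ρ z / z.im ^ 2) u lam δ z := by
      have h3 := (hχ.int (continuous_ofReal.comp_continuousOn ce)).re
      simpa [rC] using h3
    rw [le_div_iff₀ hc, ← integral_mul_const]
    refine le_trans (setIntegral_mono_on
      (((ce.mono h0.2).integrableOn_compact h0.1).mul_const c) hi.integrableOn h0.1.measurableSet
      fun z hz => ?_) ((setIntegral_le_integral hi (ae_of_all _ fun z => ?_)).trans h2)
    · rw [mul_comm]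
      exact mul_le_mul_of_nonneg_right (hcK z hz) (en_nonneg hσ hδ (h0.2 hz))
    · by_cases hz : z ∈ UH
      · exact mul_nonneg (h01 z).1 (en_nonneg hσ hδ hz)
      · have h3 : χ z = 0 := image_eq_zero_of_notMem_tsupport fun h' => hz (hχ.sub (hs ▸ h'))
        simp [h3]

theorem Eg.smul {σ u : ℂ → ℝ} {lam : ℝ} (h : Eg σ u lam) (c : ℝ) :
    Eg σ (fun z => c * u z) lam := by
  refine ⟨contDiffOn_const.mul h.cd, h.one, fun z hz => ?_⟩
  rw [dz_congr (g := fun w => c * pp u w) (eventually_of_mem (UH_nhds hz) fun w hw =>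
    fam_pp h.cd c hw), dz_cmul _ (dAt (cd_pp h.cd) hz), h.eq z hz]
  push_cast
  ring

theorem Few.smul {N : ℕ} {u : ℂ → ℝ} (h : Few m N u) (hu : ContDiffOn ℝ ∞ u UH) {c : ℝ}
    (hc : c ≠ 0) : Few m N fun z => c * u z := by
  rintro ⟨z, h1, h2⟩
  refine h ⟨z, fun i => ⟨(h1 i).1, ?_⟩, h2⟩
  have h3 := (h1 i).2
  rw [fam_pp hu c (h1 i).1] at h3
  exact (mul_eq_zero.1 h3).resolve_left (ofReal_ne_zero.2 hc)

theorem exists_scale {σ u : ℂ → ℝ} {lam δ : ℝ} (hσ : Met σ) (h : Eg σ u lam) (h0 : Cp K₀)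
    (hf : (K₀ ∩ {z | pp u z = 0}).Finite) (hδ : 0 < δ) (hδ' : δ < volume.real K₀) :
    ∃ c : ℝ, c ≠ 0 ∧ ms σ (fun z => c * u z) lam K₀ 1 ≤ δ ∧
      δ ≤ ms σ (fun z => c * u z) lam K₀ 2 := by
  have cp := (cd_ps (lam := lam) hσ h.cd).continuousOn.mono h0.2
  have hl : 0 ≤ lam := zero_le_one.trans h.one
  obtain ⟨s, hs, h1, h2⟩ : ∃ s, 0 < s ∧ ms σ u lam K₀ s ≤ δ ∧ δ ≤ ms σ u lam K₀ (2 * s) := by
    by_contra hn
    obtain ⟨U, hU, hUo, hUm⟩ := (K₀ ∩ {z | pp u z = 0}).exists_isOpen_lt_of_lt (μ := volume)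
      (ENNReal.ofReal δ) (by rw [hf.measure_zero]; exact ENNReal.ofReal_pos.2 hδ)
    obtain ⟨s, hs, hs'⟩ := (h0.1.diff hUo).exists_forall_le' (cp.mono sdiff_subset) (a := 0)
      fun z hz => by
        have h1 : pp u z ≠ 0 := fun h' => hz.2 (hU ⟨hz.1, h'⟩)
        have h2 : 0 < SS σ u z := div_pos (normSq_pos.2 h1) (hσ.pos z (h0.2 hz.1))
        have h3 := SS_le (σ := σ) (u := u) hl z
        linarith
    have h1 : ∀ k : ℕ, ms σ u lam K₀ (2 ^ k * s) ≤ δ := fun k => by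
      induction k with
      | zero =>
        refine ENNReal.toReal_le_of_le_ofReal hδ.le (le_trans (measure_mono fun z hz => ?_) hUm.le)
        by_contra h'
        have h2 : ps σ u lam z < 2 ^ 0 * s := hz.2
        linarith [hs' z ⟨hz.1, h'⟩]
      | succ k ih =>
        by_contra h'
        exact hn ⟨_, by positivity, ih, by rw [← mul_assoc, ← pow_succ']; exact (not_le.1 h').le⟩
    obtain ⟨B, hB⟩ := h0.1.bddAbove_image cp
    obtain ⟨k, hk⟩ := pow_unbounded_of_one_lt (B / s) (one_lt_two (α := ℝ))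
    have h2 : K₀ ∩ {z | ps σ u lam z < 2 ^ k * s} = K₀ := inter_eq_left.2 fun z hz =>
      (hB (mem_image_of_mem _ hz)).trans_lt ((div_lt_iff₀ hs).1 hk)
    have h3 := h1 k
    rw [ms, h2] at h3
    linarith
  have key : ∀ t, ms σ (fun z => (√s)⁻¹ * u z) lam K₀ t = ms σ u lam K₀ (t * s) := fun t => by
    unfold ms
    congr 1
    ext z
    refine and_congr_right fun hz => ?_
    have e : ps σ (fun z => (√s)⁻¹ * u z) lam z = ps σ u lam z / s := by
      simp only [ps, SS, fam_pp h.cd _ (h0.2 hz), map_mul, normSq_ofReal, mul_pow, ← sq, inv_pow,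
        Real.sq_sqrt hs.le]
      ring
    simp only [mem_ofPred_eq, e, div_lt_iff₀ hs]
  exact ⟨(√s)⁻¹, inv_ne_zero (Real.sqrt_pos.2 hs).ne', by rwa [key, one_mul], by rwa [key]⟩

end Pool.Agent.Lib.MP_a52643_an.CP
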