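import Pool.Agent.Lib.MP_a52643_an.CP.Defs

/-!
Pointwise identities.
-/

open Complex MeasureTheory Set Filter Topology Metric
open scoped ComplexConjugate ContDiff ENNReal

noncomputable section

namespace Pool.Agent.Lib.MP_a52643_an.CP

variable {σ u : ℂ → ℝ} {lam : ℝ} {K K₀ : Set ℂ} {CE CM : Set ℂ → ℝ} {z : ℂ}


theorem I0 (hσ : Met σ) (hu : ContDiffOn ℝ ∞ u UH) (hz : z ∈ UH) :
    gr (SS σ u) z = 2 * gr (ps σ u lam) z - lam * u z * pp u z := by
  have hp := dAt (cd_ps (lam := lam) hσ hu) hz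
  have h1 := dAt hu hz
  have e : SS σ u = fun w => 2 * ps σ u lam w + -lam * (u w * u w) := by
    ext w; unfold ps; ring
  have c : ∀ (a : ℝ) {f : ℂ → ℝ}, DifferentiableAt ℝ f z → gr (fun w => a * f w) z = a * gr f z :=
    fun a f hf => gr_comp (g := fun t => a * t) (by simpa using (hasDerivAt_id (f z)).const_mul a) hf
  have h2 : DifferentiableAt ℝ (fun w => u w * u w) z := h1.mul h1
  rw [e, gr_add (hp.const_mul _) (h2.const_mul _), c _ hp, c _ h2, gr_mul h1 h1, pp]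
  push_cast; ring

theorem I1 (hσ : Met σ) (h : Eg σ u lam) (hz : z ∈ UH) :
    eP (ZZ σ u) (rC (SS σ u)) z = 2 * gr (ps σ u lam) z - ZZ σ u z * conj (gr σ z) / σ z := by
  have hp := dAt (cd_pp h.cd) hz
  have hZ := dAt (cd_ZZ hσ h.cd) hz
  have hs := d_rC (dAt hσ.cd hz)
  have h0 := hσ.ne hz
  have e : (fun w => ZZ σ u w * rC σ w) =ᶠ[𝓝 z] fun w => -1 * (pp u w * pp u w) := by
    filter_upwards [UH_nhds hz] with w hw
    have := hσ.ne hw
    simp only [ZZ, rC]; field_simp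
  have e1 := dz_congr e
  rw [dz_mul hZ hs, dz_cmul _ (f := fun w => pp u w * pp u w) (hp.mul hp), dz_mul hp hp, h.eq z hz,
    dz_rC] at e1
  have e2 : dz (ZZ σ u) z = lam * u z * pp u z - ZZ σ u z * conj (gr σ z) / σ z := by
    simp only [rC] at e1
    push_cast at e1
    field_simp
    linear_combination e1
  have e3 := I0 (lam := lam) hσ h.cd hz
  rw [gr] at e3
  rw [eP, e2, e3]; simp only [gr]; ring

theorem I2 (σ u : ℂ → ℝ) (z : ℂ) : ZZ σ u z * conj (gr u z) + SS σ u z * gr u z = 0 := by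
  rw [ZZ, SS, ofReal_div, normSq_eq_conj_mul_self, pp, map_mul, map_ofNat]
  ring

theorem I3 (hσ : Met σ) (h : Eg σ u lam) (hz : z ∈ UH) :
    conj (pp u z) * dzb (pp u) z
      = -(lam * σ z * u z / 2) * pp u z + 2 * σ z * gr (ps σ u lam) z + SS σ u z * gr σ z := by
  have hp := dAt (cd_pp h.cd) hz
  have hS := dAt (cd_SS hσ h.cd) hz
  have hs := dAt hσ.cd hz
  have e : rC (fun w => SS σ u w * σ w) =ᶠ[𝓝 z] fun w => conj (pp u w) * pp u w := by
    filter_upwards [UH_nhds hz] with w hw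
    rw [rC, SS, div_mul_cancel₀ _ (hσ.pos w hw).ne', normSq_eq_conj_mul_self]
  have e1 := dzb_congr e
  rw [← gr, gr_mul hS hs, dzb_mul (differentiableAt_conj' hp) hp, dzb_conj, h.eq z hz, map_neg,
    conj_ofReal, I0 (lam := lam) hσ h.cd hz] at e1
  push_cast at e1
  linear_combination -e1

theorem en_ge (hσ : Met σ) (hl : 0 ≤ lam) (hz : z ∈ UH) (h : 1 / 4 ≤ ps σ u lam z) :
    ‖gr (ps σ u lam) z‖ ^ 2 / ps σ u lam z ^ 3 ≤ 6 * en σ u lam 1 z := by
  have h0 : 0 < ps σ u lam z := by linarith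
  have h1 := SS_le (σ := σ) (u := u) hl z
  have h2 := SS_nonneg (u := u) hσ hz
  rw [en, F1_one h, normSq_eq_norm_sq, ← mul_div_assoc, div_le_div_iff₀ (by positivity) (by positivity)]
  have : 6 * (1 / ps σ u lam z ^ 2 * ‖gr (ps σ u lam) z‖ ^ 2) * ps σ u lam z ^ 3
      = ‖gr (ps σ u lam) z‖ ^ 2 * (6 * ps σ u lam z) := by field_simp
  rw [this]
  gcongr
  linarith

theorem qq_mem (hσ : Met σ) (hl : 0 ≤ lam) (hz : z ∈ UH) :
    0 ≤ qq σ u lam z ∧ qq σ u lam z ≤ 1 := by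
  have h0 := ps_nonneg (u := u) hσ hl hz
  exact ⟨div_nonneg (by positivity) (by positivity),
    div_le_one_of_le₀ (lam_le hσ hz) (by positivity)⟩

theorem SS_eq (h : 0 < ps σ u lam z) : SS σ u z = 2 * ps σ u lam z * (1 - qq σ u lam z) := by
  have : SS σ u z = 2 * ps σ u lam z - lam * u z ^ 2 := by unfold ps; ring
  rw [this, qq]; field_simp

/-- Weights times powers of the phase are smooth. -/
theorem cd_wq (hσ : Met σ) (hu : ContDiffOn ℝ ∞ u UH) {κ : ℝ → ℝ} (hκ : ContDiff ℝ ∞ κ)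
    (h0 : ∀ t ≤ 1 / 4, κ t = 0) (n : ℕ) :
    ContDiffOn ℝ ∞ (fun z => κ (ps σ u lam z) * qq σ u lam z ^ n) UH := by
  have := ((cd_div_pow hκ (by norm_num) h0 n).comp_contDiffOn (cd_ps (lam := lam) hσ hu)).mul
    (((contDiffOn_const (c := lam / 2)).mul (hu.pow 2)).pow n)
  refine this.congr fun z _ => ?_
  simp only [qq, Function.comp, div_pow, mul_pow]
  ring

theorem ms_mono (hK : Cp K) {s t : ℝ} (h : s ≤ t) : ms σ u lam K s ≤ ms σ u lam K t := by
  exact measureReal_mono (inter_subset_inter_right _ fun z hz => lt_of_lt_of_le hz h)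
    ((measure_mono inter_subset_left).trans_lt hK.1.measure_lt_top).ne

theorem meas_lt (hσ : Met σ) (hu : ContDiffOn ℝ ∞ u UH) (hK : Cp K) (s : ℝ) :
    MeasurableSet (K ∩ {z | ps σ u lam z < s}) := by
  have : K ∩ {z | ps σ u lam z < s} = K ∩ (UH ∩ ps σ u lam ⁻¹' Iio s) := by
    ext z; exact ⟨fun h => ⟨h.1, hK.2 h.1, h.2⟩, fun h => ⟨h.1, h.2.2⟩⟩
  rw [this]
  exact hK.1.measurableSet.inter
    ((cd_ps hσ hu).continuousOn.isOpen_inter_preimage isOpen_UH isOpen_Iio).measurableSet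

theorem meas_le (hσ : Met σ) (hu : ContDiffOn ℝ ∞ u UH) (hK : Cp K) (s : ℝ) :
    IsCompact (K ∩ {z | ps σ u lam z ≤ s}) := by
  exact hK.1.of_isClosed_subset (((cd_ps hσ hu).continuousOn.mono hK.2).preimage_isClosed_of_isClosed
    hK.1.isClosed isClosed_Iic) inter_subset_left

end Pool.Agent.Lib.MP_a52643_an.CP
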