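import Pool.Agent.Lib.MP_a52643_an.CP.Defs

/-!
Invariance under the group, coverings and counting.
-/

open Complex MeasureTheory Set Filter Topology Metric
open scoped ComplexConjugate ContDiff ENNReal

noncomputable section

namespace Pool.Agent.Lib.MP_a52643_an.CP

variable {Γ : Type} [Group Γ] {m : Γ → ℂ → ℂ} {K K₀ : Set ℂ}


lemma Inv_chain {M : ℂ → ℂ} {d z : ℂ} (hd : HasDerivAt M d z) {f : ℂ → ℝ}
    (hf : DifferentiableAt ℝ f (M z)) : gr (fun w => f (M w)) z = conj d * gr f (M z) := by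
  have e := hf.hasFDerivAt.comp z hd.complexToReal_fderiv
  have e' : fderiv ℝ (fun w => f (M w)) z = _ := e.fderiv
  rw [gr_eq (f := fun w => f (M w)) e.differentiableAt, e']
  simp only [ContinuousLinearMap.comp_apply, _root_.smul_apply,
    one_apply_eq_self, fderiv_eq_gr hf, smul_eq_mul]
  apply Complex.ext <;> simp <;> ring

theorem pair_act (h : Act m) (γ : Γ) {f g : ℂ → ℝ} {z : ℂ} (hz : z ∈ UH)
    (hf : DifferentiableAt ℝ f (m γ z)) (hg : DifferentiableAt ℝ g (m γ z)) :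
    z.im ^ 2 * (conj (gr (fun w => f (m γ w)) z) * gr (fun w => g (m γ w)) z)
      = (m γ z).im ^ 2 * (conj (gr f (m γ z)) * gr g (m γ z)) := by
  obtain ⟨d, hd, hi⟩ := h.hol γ z hz
  rw [Inv_chain hd hf, Inv_chain hd hg, hi, map_mul, conj_conj]
  push_cast
  linear_combination (z.im : ℂ) ^ 2 * conj (gr f (m γ z)) * gr g (m γ z) * mul_conj' d

theorem Iv.grad (h : Act m) {f : ℂ → ℝ} (hf : ContDiffOn ℝ ∞ f UH) (hi : Iv m f) :
    Iv m fun z => z.im ^ 2 * normSq (gr f z) := by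
  intro γ z hz
  obtain ⟨d, hd, him⟩ := h.hol γ z hz
  have e : gr f z = conj d * gr f (m γ z) := by
    rw [← Inv_chain hd (dAt hf (h.map γ z hz))]
    exact gr_congr ((eventually_mem_set.2 (UH_nhds hz)).mono fun w hw => (hi γ w hw).symm)
  simp only [e, him, map_mul, normSq_conj, normSq_eq_norm_sq d]
  ring

theorem Iv.SS (h : Act m) {ρ u : ℂ → ℝ} (hρ : Iv m ρ) (hu : ContDiffOn ℝ ∞ u UH) (hi : Iv m u) :
    Iv m (SS (fun z => ρ z / z.im ^ 2) u) := by
  intro γ z hz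
  have e := Iv.grad h hu hi γ z hz
  simp only [CP.SS, pp, div_div_eq_mul_div, map_mul, hρ γ z hz] at e ⊢
  congr 1
  linear_combination normSq 2 * e

theorem Iv.ps (h : Act m) {ρ u : ℂ → ℝ} (hρ : Iv m ρ) (hu : ContDiffOn ℝ ∞ u UH) (hi : Iv m u)
    (lam : ℝ) : Iv m (ps (fun z => ρ z / z.im ^ 2) u lam) := by
  intro γ z hz
  simp only [CP.ps, Iv.SS h hρ hu hi γ z hz, hi γ z hz]

lemma Inv_hyp {A : Set ℂ} (hA : Cp A) {G : ℂ → ℝ≥0∞} (hG : AEMeasurable G (volume.restrict UH)) :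
    ∫⁻ z, A.indicator G z ∂hyp = ∫⁻ z in A, ENNReal.ofReal (1 / z.im ^ 2) * G z := by
  have hm : MeasurableSet A := hA.1.measurableSet
  rw [hyp, lintegral_withDensity_eq_lintegral_mul₀ (by fun_prop) (hG.indicator hm)]
  have : ((fun z : ℂ => ENNReal.ofReal (1 / z.im ^ 2)) * A.indicator G) =
      A.indicator fun z => ENNReal.ofReal (1 / z.im ^ 2) * G z := by
    ext z
    by_cases hz : z ∈ A <;> simp [hz]
  rw [this, lintegral_indicator hm, Measure.restrict_restrict hm, inter_eq_left.2 hA.2]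

lemma Inv_lint (h : Act m) (h0 : Cp K₀) (cov : ∀ z ∈ UH, ∃ γ, m γ z ∈ K₀) (hK : Cp K) :
    ∃ n : ℕ, ∀ G : ℂ → ℝ≥0∞, AEMeasurable G (volume.restrict UH) →
      (∀ γ, ∀ z ∈ UH, G (m γ z) = G z) →
      ∫⁻ z in K, ENNReal.ofReal (1 / z.im ^ 2) * G z ≤
        n * ∫⁻ z in K₀, ENNReal.ofReal (1 / z.im ^ 2) * G z := by
  have hS := h.pd K K₀ hK h0
  refine ⟨hS.toFinset.card, fun G hG hi => ?_⟩
  have h1 : AEMeasurable (K₀.indicator G) hyp :=
    (hG.indicator h0.1.measurableSet).mono_ac (withDensity_absolutelyContinuous _ _)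
  rw [← Inv_hyp hK hG, ← Inv_hyp h0 hG]
  calc ∫⁻ z, K.indicator G z ∂hyp
      ≤ ∫⁻ z, ∑ γ ∈ hS.toFinset, K₀.indicator G (m γ z) ∂hyp := by
        refine lintegral_mono fun z => ?_
        by_cases hz : z ∈ K
        · obtain ⟨γ, hγ⟩ := cov z (hK.2 hz)
          have := Finset.single_le_sum (f := fun γ => K₀.indicator G (m γ z))
            (fun _ _ => zero_le) (hS.mem_toFinset.2 ⟨z, hz, hγ⟩)
          simpa [hz, hγ, hi γ z (hK.2 hz)] using this
        · simp [hz]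
    _ = ∑ γ ∈ hS.toFinset, ∫⁻ z, K₀.indicator G (m γ z) ∂hyp :=
        lintegral_finsetSum' _ fun γ _ =>
          h1.comp_quasiMeasurePreserving (h.mp γ).quasiMeasurePreserving
    _ = ∑ _γ ∈ hS.toFinset, ∫⁻ z, K₀.indicator G z ∂hyp := by
        refine Finset.sum_congr rfl fun γ _ => ?_
        rw [← lintegral_map' ((h.mp γ).map_eq.symm ▸ h1) (h.mp γ).measurable.aemeasurable,
          (h.mp γ).map_eq]
    _ = _ := by rw [Finset.sum_const, nsmul_eq_mul]

lemma Inv_int (h : Act m) (h0 : Cp K₀) (cov : ∀ z ∈ UH, ∃ γ, m γ z ∈ K₀) (hK : Cp K) :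
    ∃ n : ℕ, ∀ H : ℂ → ℝ, AEMeasurable H (volume.restrict UH) → (∀ z ∈ UH, 0 ≤ H z) →
      IntegrableOn H K → IntegrableOn H K₀ → Iv m (fun z => z.im ^ 2 * H z) →
      ∫ z in K, H z ≤ n * ∫ z in K₀, H z := by
  obtain ⟨n, hn⟩ := Inv_lint h h0 cov hK
  refine ⟨n, fun H hH hp i1 i0 hi => ?_⟩
  have e : ∀ A, Cp A → IntegrableOn H A →
      ∫⁻ z in A, ENNReal.ofReal (1 / z.im ^ 2) * ENNReal.ofReal (z.im ^ 2 * H z) =
        ENNReal.ofReal (∫ z in A, H z) := fun A hA iA => by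
    rw [ofReal_integral_eq_lintegral_ofReal iA
      ((ae_restrict_mem hA.1.measurableSet).mono fun z hz => hp z (hA.2 hz))]
    refine setLIntegral_congr_fun hA.1.measurableSet fun z hz => ?_
    have : z.im ≠ 0 := (hA.2 hz : 0 < z.im).ne'
    rw [← ENNReal.ofReal_mul (by positivity)]
    congr 1
    field_simp
  have := hn (fun z => ENNReal.ofReal (z.im ^ 2 * H z))
    (((measurable_im.pow_const 2).aemeasurable.mul hH).ennreal_ofReal)
    (fun γ z hz => congrArg ENNReal.ofReal (hi γ z hz))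
  have p0 : 0 ≤ ∫ z in K₀, H z :=
    setIntegral_nonneg h0.1.measurableSet fun z hz => hp z (h0.2 hz)
  rw [e K hK i1, e K₀ h0 i0, ← ENNReal.ofReal_natCast, ← ENNReal.ofReal_mul n.cast_nonneg] at this
  exact (ENNReal.ofReal_le_ofReal_iff (by positivity)).1 this

/-- Invariant densities on a compact set are controlled on the covering set. -/
theorem mult (h : Act m) (h0 : Cp K₀) (cov : ∀ z ∈ UH, ∃ γ, m γ z ∈ K₀) (hK : Cp K) :
    ∃ C : ℝ, 0 ≤ C ∧
      (∀ H : ℂ → ℝ, ContinuousOn H UH → (∀ z ∈ UH, 0 ≤ H z) → Iv m (fun z => z.im ^ 2 * H z) →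
        ∫ z in K, H z ≤ C * ∫ z in K₀, H z) ∧
      ∀ (f : ℂ → ℝ) (s : ℝ), ContinuousOn f UH → Iv m f →
        volume.real (K ∩ {z | f z < s}) ≤ C * volume.real (K₀ ∩ {z | f z < s}) := by
  obtain ⟨n, hn⟩ := Inv_int h h0 cov hK
  have cw : ContinuousOn (fun z : ℂ => 1 / z.im ^ 2) UH :=
    continuousOn_const.div (by fun_prop) fun z hz => pow_ne_zero _ (hz : 0 < z.im).ne'
  obtain ⟨a, ha⟩ := hK.1.exists_bound_of_continuousOn (f := fun z : ℂ => z.im ^ 2) (by fun_prop)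
  obtain ⟨b, hb⟩ := h0.1.exists_bound_of_continuousOn (cw.mono h0.2)
  have iw : ∀ A, Cp A → IntegrableOn (fun z : ℂ => 1 / z.im ^ 2) A := fun A hA =>
    (cw.mono hA.2).integrableOn_compact hA.1
  refine ⟨n * (1 + |a| * |b|), by positivity, fun H hH hp hi => ?_, fun f s hf hi => ?_⟩
  · have p0 : 0 ≤ ∫ z in K₀, H z :=
      setIntegral_nonneg h0.1.measurableSet fun z hz => hp z (h0.2 hz)
    refine (hn H (hH.aemeasurable isOpen_UH.measurableSet) hp
      ((hH.mono hK.2).integrableOn_compact hK.1) ((hH.mono h0.2).integrableOn_compact h0.1)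
      hi).trans (mul_le_mul_of_nonneg_right ?_ p0)
    exact le_mul_of_one_le_right n.cast_nonneg (le_add_of_nonneg_right (by positivity))
  · have hE : MeasurableSet (UH ∩ f ⁻¹' Iio s) :=
      (hf.isOpen_inter_preimage isOpen_UH isOpen_Iio).measurableSet
    set E := UH ∩ f ⁻¹' Iio s with hEd
    have eA : ∀ A, Cp A → A ∩ {z | f z < s} = A ∩ E := fun A hA =>
      Set.ext fun z => ⟨fun hz => ⟨hz.1, hA.2 hz.1, hz.2⟩, fun hz => ⟨hz.1, hz.2.2⟩⟩
    have key := hn (E.indicator fun z => 1 / z.im ^ 2)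
      ((cw.aemeasurable isOpen_UH.measurableSet).indicator hE)
      (fun z _ => indicator_nonneg (fun w _ => by positivity) z)
      ((iw K hK).indicator hE) ((iw K₀ h0).indicator hE) (fun γ z hz => by
        have h1 : z.im ≠ 0 := (hz : 0 < z.im).ne'
        have h2 : (m γ z).im ≠ 0 := (h.map γ z hz : 0 < (m γ z).im).ne'
        have h3 : m γ z ∈ E ↔ z ∈ E := by
          simp only [hEd, mem_inter_iff, mem_preimage, hi γ z hz, h.map γ z hz, hz]
        by_cases h4 : z ∈ E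
        · simp only [indicator_of_mem h4, indicator_of_mem (h3.2 h4)]
          field_simp
        · simp only [indicator_of_notMem h4, indicator_of_notMem (mt h3.1 h4), mul_zero])
    rw [setIntegral_indicator hE, setIntegral_indicator hE] at key
    have fin : ∀ A, Cp A → volume (A ∩ E) ≠ ⊤ := fun A hA =>
      ((measure_mono inter_subset_left).trans_lt hA.1.measure_lt_top).ne
    have k1 : volume.real (K ∩ E) ≤ |a| * ∫ z in K ∩ E, 1 / z.im ^ 2 := by
      rw [← integral_const_mul, ← mul_one (volume.real (K ∩ E)), ← smul_eq_mul,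
        ← setIntegral_const]
      refine setIntegral_mono_on (integrableOn_const (fin K hK))
        (((iw K hK).mono_set inter_subset_left).const_mul _) (hK.1.measurableSet.inter hE)
        fun z hz => ?_
      have h1 : 0 < z.im := hK.2 hz.1
      rw [mul_one_div, one_le_div (by positivity)]
      exact (le_abs_self _).trans ((ha z hz.1).trans (le_abs_self a))
    have k2 : ∫ z in K₀ ∩ E, 1 / z.im ^ 2 ≤ |b| * volume.real (K₀ ∩ E) := by
      rw [mul_comm, ← smul_eq_mul, ← setIntegral_const]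
      refine setIntegral_mono_on ((iw K₀ h0).mono_set inter_subset_left)
        (integrableOn_const (fin K₀ h0)) (h0.1.measurableSet.inter hE) fun z hz => ?_
      exact (le_abs_self _).trans ((hb z hz.1).trans (le_abs_self b))
    rw [eA K hK, eA K₀ h0]
    have p0 : 0 ≤ volume.real (K₀ ∩ E) := measureReal_nonneg
    have k3 := mul_le_mul_of_nonneg_left
      (key.trans (mul_le_mul_of_nonneg_left k2 n.cast_nonneg)) (abs_nonneg a)
    have k4 : 0 ≤ (n : ℝ) * volume.real (K₀ ∩ E) := by positivity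
    nlinarith

lemma Inv_max (h : Act m) {C : Set ℂ} (hC : C ⊆ UH) : ∀ N : ℕ,
    (¬∃ z : Fin N → ℂ, (∀ i, z i ∈ C) ∧ ∀ i j γ, m γ (z i) = z j → i = j) →
    ∃ A : Finset ℂ, A.card ≤ N ∧ (∀ a ∈ A, a ∈ C) ∧ ∀ w ∈ C, ∃ a ∈ A, ∃ γ, m γ a = w := by
  classical
  intro N
  induction N with
  | zero => exact fun hN => (hN ⟨Fin.elim0, fun i => i.elim0, fun i => i.elim0⟩).elim
  | succ N ih =>
    intro hN
    by_cases h1 : ∃ z : Fin N → ℂ, (∀ i, z i ∈ C) ∧ ∀ i j γ, m γ (z i) = z j → i = j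
    · obtain ⟨z, hz, hi⟩ := h1
      refine ⟨Finset.univ.image z, Finset.card_image_le.trans (by simp), ?_, fun w hw => ?_⟩
      · intro a ha
        obtain ⟨i, -, rfl⟩ := Finset.mem_image.1 ha
        exact hz i
      · by_contra hn
        have hn' : ∀ i γ, m γ (z i) ≠ w := fun i γ e =>
          hn ⟨z i, Finset.mem_image_of_mem _ (Finset.mem_univ i), γ, e⟩
        refine hN ⟨Fin.cons w z, fun i => Fin.cases hw hz i, fun i j γ => ?_⟩
        refine Fin.cases (Fin.cases (fun _ => rfl) (fun j e => ?_) j)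
          (fun i => Fin.cases (fun e => ?_) (fun j e => ?_) j) i
        · simp only [Fin.cons_zero, Fin.cons_succ] at e
          refine (hn' j γ⁻¹ ?_).elim
          rw [← e, ← h.mul _ _ _ (hC hw), inv_mul_cancel, h.one _ (hC hw)]
        · simp only [Fin.cons_zero, Fin.cons_succ] at e
          exact (hn' i γ e).elim
        · simp only [Fin.cons_succ] at e
          rw [hi i j γ e]
    · obtain ⟨A, hA, h2⟩ := ih h1
      exact ⟨A, hA.trans N.le_succ, h2⟩

theorem count (h : Act m) (hK : Cp K) (N : ℕ) : ∃ n : ℕ, ∀ u, Few m N u →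
    ∃ P : Finset ℂ, P.card ≤ n ∧ ∀ z ∈ K, pp u z = 0 → z ∈ P := by
  classical
  have hS := h.pd K K hK hK
  refine ⟨N * hS.toFinset.card, fun u hu => ?_⟩
  obtain ⟨A, hA, h1, h2⟩ := Inv_max h (C := {z | z ∈ K ∧ pp u z = 0}) (fun z hz => hK.2 hz.1) N
    fun ⟨z, hz, hi⟩ => hu ⟨z, fun i => ⟨hK.2 (hz i).1, (hz i).2⟩, hi⟩
  refine ⟨(A ×ˢ hS.toFinset).image fun p => m p.2 p.1, Finset.card_image_le.trans ?_,
    fun z hz h0 => ?_⟩
  · rw [Finset.card_product]
    exact Nat.mul_le_mul_right _ hA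
  · obtain ⟨a, ha, γ, e⟩ := h2 z ⟨hz, h0⟩
    exact Finset.mem_image.2 ⟨(a, γ),
      Finset.mem_product.2 ⟨ha, hS.mem_toFinset.2 ⟨a, (h1 a ha).1, e ▸ hz⟩⟩, e⟩

end Pool.Agent.Lib.MP_a52643_an.CP
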