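import Pool.Agent.Lib.MP_a52643_an.CP.Step

/-!
The iteration.
-/

open Complex MeasureTheory Set Filter Topology Metric
open scoped ComplexConjugate ContDiff ENNReal

noncomputable section

namespace Pool.Agent.Lib.MP_a52643_an.CP

variable {σ u : ℂ → ℝ} {lam : ℝ} {K K₀ : Set ℂ} {CE CM : Set ℂ → ℝ} {z : ℂ}

theorem iter (hσ : Met σ) (h0 : Cp K₀) (CE CM : Set ℂ → ℝ) :
    ∃ δ : ℝ, 0 < δ ∧ ∀ (u : ℕ → ℂ → ℝ) (lam : ℕ → ℝ), (∀ j, Sol σ K₀ CE CM (u j) (lam j)) →
      Tendsto lam atTop atTop → (∀ j, ms σ (u j) (lam j) K₀ 1 ≤ δ) →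
      Tendsto (fun j => ms σ (u j) (lam j) K₀ (1 / 2)) atTop (𝓝 0) := by
  obtain ⟨C, r₀, hC, hr, H⟩ := step hσ h0 CE CM
  obtain ⟨δ, d0, d1, d2⟩ : ∃ δ : ℝ, 0 < δ ∧ δ ≤ r₀ / 8 ∧ 65536 * C * δ ≤ 1 := by
    refine ⟨min (r₀ / 8) (1 / (65536 * C)), by positivity, min_le_left _ _, ?_⟩
    have : min (r₀ / 8) (1 / (65536 * C)) ≤ 1 / (65536 * C) := min_le_right _ _
    rw [le_div_iff₀ (by positivity)] at this
    linarith
  refine ⟨δ, d0, fun u lam hS hl h1 => ?_⟩
  have key : ∀ k : ℕ, ∀ᶠ j in atTop,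
      ms σ (u j) (lam j) K₀ (1 / 2 + (1 / 2) ^ k / 2) ≤ δ * ((1 / 2) ^ k) ^ 4 := by
    intro k
    induction k with
    | zero =>
      refine Eventually.of_forall fun j => ?_
      rw [show (1 / 2 + (1 / 2) ^ 0 / 2 : ℝ) = 1 by norm_num]
      simpa using h1 j
    | succ k ih =>
      rw [pow_succ]
      have x0 : (0 : ℝ) < (1 / 2) ^ k := by positivity
      have x1 : (1 / 2 : ℝ) ^ k ≤ 1 := pow_le_one₀ (by norm_num) (by norm_num)
      generalize (1 / 2 : ℝ) ^ k = x at *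
      have x4 : x ^ 4 ≤ x := pow_le_of_le_one x0.le x1 (by norm_num)
      obtain ⟨L, hL⟩ := H (x / 8) (δ * x ^ 4) (by positivity) (by linarith) (by positivity)
        (by nlinarith)
      filter_upwards [ih, hl.eventually_ge_atTop L] with j hj hj'
      have := hL _ _ (hS j) hj' _ (by linarith) (by linarith) hj
      rw [show 1 / 2 + x / 2 - 2 * (x / 8) = 1 / 2 + x * (1 / 2) / 2 by ring] at this
      refine this.trans ?_
      have e : C * (δ * x ^ 4) ^ 2 / (x / 8) ^ 4 = 65536 * C * δ * (δ * (x * (1 / 2)) ^ 4) := by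
        field_simp
        ring
      rw [e]
      exact mul_le_of_le_one_left (by positivity) d2
  refine tendsto_order.2 ⟨fun b hb => Eventually.of_forall fun j =>
    hb.trans_le measureReal_nonneg, fun b hb => ?_⟩
  obtain ⟨k, hk⟩ := exists_pow_lt_of_lt_one (div_pos hb d0) (by norm_num : (1 / 2 : ℝ) < 1)
  have x0 : (0 : ℝ) < (1 / 2) ^ k := by positivity
  have x4 : ((1 / 2 : ℝ) ^ k) ^ 4 ≤ (1 / 2) ^ k :=
    pow_le_of_le_one x0.le (pow_le_one₀ (by norm_num) (by norm_num)) (by norm_num)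
  rw [lt_div_iff₀ d0] at hk
  filter_upwards [key k] with j hj
  refine lt_of_le_of_lt (le_trans ?_ hj) (by nlinarith)
  refine measureReal_mono (inter_subset_inter_right _ fun z hz => ?_)
    ((measure_mono inter_subset_left).trans_lt h0.1.measure_lt_top).ne
  simp only [mem_ofPred_eq] at hz ⊢
  linarith

end Pool.Agent.Lib.MP_a52643_an.CP
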