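import Pool.Agent.Lib.MP_a52643_an.CP.Weak

/-!
The square of the limit field is weakly holomorphic.
-/

open Complex MeasureTheory Set Filter Topology Metric
open scoped ComplexConjugate ContDiff ENNReal

noncomputable section

namespace Pool.Agent.Lib.MP_a52643_an.CP

lemma limC_mem_lb {b G : ℂ → ℂ} (hb : Continuous b) (hc : HasCompactSupport b)
    (hs : tsupport b ⊆ UH) (hG : Lb G) : MemLp (fun z => b z * G z) 2 volume := by
  obtain ⟨C, hC⟩ := hG.bd (tsupport b) ⟨hc, hs⟩
  obtain ⟨A, hA⟩ := hb.bounded_above_of_compact_support hc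
  refine (hc.mul_right (f' := G)).memLp_of_bound (hb.aestronglyMeasurable.mul hG.me)
    (A * max C 0) ?_
  filter_upwards [hC] with z hz
  have A0 : 0 ≤ A := (norm_nonneg _).trans (hA z)
  by_cases h : z ∈ tsupport b
  · rw [Pi.mul_apply, norm_mul]
    exact mul_le_mul (hA z) ((hz h).trans (le_max_left _ _)) (norm_nonneg _) A0
  · rw [Pi.mul_apply, image_eq_zero_of_notMem_tsupport h, zero_mul, norm_zero]
    positivity

lemma limC_mem_l2 {b G : ℂ → ℂ} (hb : Continuous b) (hc : HasCompactSupport b)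
    (hG : MemLp G 2 volume) : MemLp (fun z => b z * G z) 2 volume := by
  obtain ⟨A, hA⟩ := hb.bounded_above_of_compact_support hc
  refine hG.of_le_mul (c := A) (hb.aestronglyMeasurable.mul hG.1) (Eventually.of_forall fun z => ?_)
  rw [norm_mul]
  exact mul_le_mul_of_nonneg_right (hA z) (norm_nonneg _)

lemma limC_mem_conj {G : ℂ → ℂ} (hG : MemLp G 2 volume) :
    MemLp (fun z => conj (G z)) 2 volume :=
  hG.of_le (continuous_conj.comp_aestronglyMeasurable hG.1)
    (Eventually.of_forall fun z => by simp)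

lemma limC_int {F G : ℂ → ℂ} (hF : MemLp F 2 volume) (hG : MemLp G 2 volume) :
    Integrable fun z => F z * G z := hF.integrable_mul hG

lemma limC_ts {a ψ : ℂ → ℂ} (ha : Ts a) (hψ : ContDiff ℝ 1 ψ) : Ts fun z => a z * ψ z :=
  ha.mul hψ.contDiffOn

lemma limC_wd {G H a : ℂ → ℂ} {O : Set ℂ}
    (h : ∀ φ, Ts φ → tsupport φ ⊆ O → ∫ z, G z * dz φ z = -∫ z, H z * φ z)
    (ha : Ts a) (hs : tsupport a ⊆ O) (m1 : MemLp (fun z => a z * G z) 2 volume)
    (m2 : MemLp (fun z => a z * H z) 2 volume) (m3 : MemLp (fun z => dz a z * G z) 2 volume) :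
    WD (fun z => a z * G z) fun z => a z * H z + dz a z * G z := by
  intro ψ h1 h2
  have p1 : MemLp ψ 2 volume := h1.continuous.memLp_of_hasCompactSupport h2
  have p2 : MemLp (dz ψ) 2 volume := (continuous_dz h1).memLp_of_hasCompactSupport (hcs_dz h2)
  have e := h _ (limC_ts ha h1) (tsupport_mul_subset_left.trans hs)
  have e1 : ∀ z, G z * dz (fun z => a z * ψ z) z
      = dz a z * G z * ψ z + a z * G z * dz ψ z := fun z => by
    rw [dz_mul (ha.cd.differentiable one_ne_zero z) (h1.differentiable one_ne_zero z)]; ring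
  have e2 : ∀ z, H z * (a z * ψ z) = a z * H z * ψ z := fun z => by ring
  simp only [e1, e2] at e
  rw [integral_add (limC_int m3 p1) (limC_int m1 p2)] at e
  simp only [add_mul]
  rw [integral_add (limC_int m2 p1) (limC_int m3 p1)]
  linear_combination e

lemma limC_wdb {G H a : ℂ → ℂ} {O : Set ℂ}
    (h : ∀ φ, Ts φ → tsupport φ ⊆ O → ∫ z, G z * dzb φ z = -∫ z, H z * φ z)
    (ha : Ts a) (hs : tsupport a ⊆ O) (m1 : MemLp (fun z => a z * G z) 2 volume)
    (m2 : MemLp (fun z => a z * H z) 2 volume) (m3 : MemLp (fun z => dzb a z * G z) 2 volume) :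
    WDb (fun z => a z * G z) fun z => a z * H z + dzb a z * G z := by
  intro ψ h1 h2
  have p1 : MemLp ψ 2 volume := h1.continuous.memLp_of_hasCompactSupport h2
  have p2 : MemLp (dzb ψ) 2 volume := (continuous_dzb h1).memLp_of_hasCompactSupport (hcs_dzb h2)
  have e := h _ (limC_ts ha h1) (tsupport_mul_subset_left.trans hs)
  have e1 : ∀ z, G z * dzb (fun z => a z * ψ z) z
      = dzb a z * G z * ψ z + a z * G z * dzb ψ z := fun z => by
    rw [dzb_mul (ha.cd.differentiable one_ne_zero z) (h1.differentiable one_ne_zero z)]; ring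
  have e2 : ∀ z, H z * (a z * ψ z) = a z * H z * ψ z := fun z => by ring
  simp only [e1, e2] at e
  rw [integral_add (limC_int m3 p1) (limC_int m1 p2)] at e
  simp only [add_mul]
  rw [integral_add (limC_int m2 p1) (limC_int m3 p1)]
  linear_combination e

/-- Weak derivatives are unique. -/
lemma limC_uniq {F G F' G' : ℂ → ℂ} (hF : WD F F') (hG : WD G G') (e : F =ᵐ[volume] G)
    (iF : Integrable F') (iG : Integrable G') : ∀ᵐ z, F' z - G' z = 0 := by
  have := ae_zero_of_test (F := fun z => F' z - G' z) isOpen_univ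
    ((iF.sub iG).locallyIntegrable.locallyIntegrableOn _) (fun ψ h1 h2 _ => by
      obtain ⟨A, hA⟩ := h1.continuous.bounded_above_of_compact_support h2
      have i1 : Integrable fun z => F' z * ψ z :=
        iF.mul_bdd h1.continuous.aestronglyMeasurable (Eventually.of_forall hA)
      have i2 : Integrable fun z => G' z * ψ z :=
        iG.mul_bdd h1.continuous.aestronglyMeasurable (Eventually.of_forall hA)
      have e1 : ∀ z, ψ z * (F' z - G' z) = F' z * ψ z - G' z * ψ z := fun z => by ring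
      simp only [e1]
      rw [integral_sub i1 i2]
      have e2 : ∫ z, F z * dz ψ z = ∫ z, G z * dz ψ z :=
        integral_congr_ae (e.mono fun z hz => by simp only [hz])
      linear_combination hF ψ h1 h2 - hG ψ h1 h2 - e2)
  exact this.mono fun z hz => hz (mem_univ z)

lemma limC_alg {s r : ℝ} {v D G E : ℂ} (hs : s ≠ 0) (h1 : ‖v‖ = r / s)
    (h2 : v * conj D + r / s * D = 0)
    (h3 : (-2 * D / s - 2 * v * conj G / s) * conj v + v * conj E
      - (conj ((s⁻¹ : ℝ) * D + (-(s ^ 2)⁻¹ : ℝ) * G * r) * conj ((s⁻¹ : ℝ) * (r : ℂ))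
        + conj ((s⁻¹ : ℝ) * (r : ℂ)) * conj ((s⁻¹ : ℝ) * D + (-(s ^ 2)⁻¹ : ℝ) * G * r)) = 0) :
    v * E = 0 := by
  have s0 : (s : ℂ) ≠ 0 := by exact_mod_cast hs
  have a1 : v * conj v = (r / s) ^ 2 := by
    rw [mul_conj, normSq_eq_norm_sq, h1]; push_cast; ring
  have a2 : conj v * D + r / s * conj D = 0 := by
    have := congrArg conj h2
    simpa using this
  simp only [map_add, map_mul, conj_ofReal] at h3
  push_cast at h3
  have a3 : v * conj E = 0 := by
    have si : (s : ℂ) * (s : ℂ)⁻¹ = 1 := mul_inv_cancel₀ s0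
    simp only [div_eq_mul_inv, ← inv_pow] at a1 a2 h3
    linear_combination h3 + 2 * (s : ℂ)⁻¹ * a2 + 2 * conj G * (s : ℂ)⁻¹ * a1
  rcases mul_eq_zero.1 a3 with h | h
  · simp [h]
  · have : E = 0 := by simpa using h
    simp [this]

theorem limC {σ ρ : ℂ → ℝ} {v D : ℂ → ℂ} {K : Set ℂ} (hσ : Met σ) (hv : Lb v) (hρ : Lb (rC ρ))
    (hK : Cp K) (h : LimS σ v ρ (interior K) D) {φ : ℂ → ℂ} (hφ : Ts φ)
    (hs : tsupport φ ⊆ interior K) : ∫ z, v z ^ 2 * dzb φ z = 0 := by
  obtain ⟨κ, k1, k2, k3, -, k5⟩ := exists_cut hφ.cs isOpen_interior hs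
  have hO : interior K ⊆ UH := interior_subset.trans hK.2
  have ks : tsupport (rC κ) ⊆ tsupport κ :=
    closure_mono fun z hz h0 => hz (by simp [rC, h0])
  have tk : Ts (rC κ) :=
    ⟨(ofRealCLM.contDiff.comp k1).of_le (by simp),
      k2.of_isClosed_subset (isClosed_tsupport _) ks, ks.trans (k3.trans hO)⟩
  have kO : tsupport (rC κ) ⊆ interior K := ks.trans k3
  have ci : ContDiffOn ℝ ∞ (rC fun w => (σ w)⁻¹) UH :=
    cd_rC (hσ.cd.inv fun z hz => (hσ.pos z hz).ne')
  set a : ℂ → ℂ := fun z => rC κ z * rC (fun w => (σ w)⁻¹) z with ha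
  have ta : Ts a := tk.mul (cd1 ci)
  have aO : tsupport a ⊆ interior K := tsupport_mul_subset_left.trans kO
  -- the cut field
  have m1 : MemLp (fun z => rC κ z * v z) 2 volume :=
    limC_mem_lb tk.cd.continuous tk.cs tk.sub hv
  have m2 : MemLp (fun z => rC κ z * (-2 * D z / σ z - 2 * v z * conj (gr σ z) / σ z)) 2
      volume := by
    have t2 : Ts fun z => a z * conj (gr σ z) := ta.mul (cd1 (cd_conj (cd_gr hσ.cd)))
    have := ((limC_mem_l2 ta.cd.continuous ta.cs h.mem).const_mul (-2)).add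
      ((limC_mem_lb t2.cd.continuous t2.cs t2.sub hv).const_mul (-2))
    refine this.ae_eq (Eventually.of_forall fun z => ?_)
    simp only [ha, rC, Pi.add_apply, div_eq_mul_inv]
    push_cast
    ring
  have m3 : MemLp (fun z => dz (rC κ) z * v z) 2 volume :=
    limC_mem_lb (continuous_dz tk.cd) (hcs_dz tk.cs) ((tsupport_dz _).trans tk.sub) hv
  have w1 := limC_wd h.dV tk kO m1 m2 m3
  obtain ⟨E, mE, wE⟩ := beurling (K := tsupport (rC κ)) tk.cs
    (fun z hz => by rw [image_eq_zero_of_notMem_tsupport hz, zero_mul]) m1 (m2.add m3) w1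
  -- the cut length
  have n1 : MemLp (fun z => a z * rC ρ z) 2 volume :=
    limC_mem_lb ta.cd.continuous ta.cs ta.sub hρ
  have n2 : MemLp (fun z => a z * D z) 2 volume := limC_mem_l2 ta.cd.continuous ta.cs h.mem
  have n3 : MemLp (fun z => dzb a z * rC ρ z) 2 volume :=
    limC_mem_lb (continuous_dzb ta.cd) (hcs_dzb ta.cs) ((tsupport_dzb _).trans ta.sub) hρ
  have w2 := (limC_wdb (G := rC ρ) h.dr ta aO n1 n2 n3).conj
  have c1 := limC_mem_conj m1
  have cE := limC_mem_conj mE
  have d1 := limC_mem_conj n1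
  have d2 := limC_mem_conj (n2.add n3)
  have w3 := WD.mul m1 (m2.add m3) c1 cE w1 wE.conj
  have w4 := WD.mul d1 d2 d1 d2 w2 w2
  have ee : (fun z => rC κ z * v z * conj (rC κ z * v z)) =ᵐ[volume]
      fun z => conj (a z * rC ρ z) * conj (a z * rC ρ z) := by
    filter_upwards [h.nV] with z hz
    by_cases hz' : z ∈ interior K
    · rw [mul_conj, normSq_eq_norm_sq, norm_mul, hz hz']
      simp only [ha, rC, map_mul, conj_ofReal, norm_real, Real.norm_eq_abs, mul_pow, sq_abs,
        div_eq_mul_inv]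
      push_cast
      ring
    · have : rC κ z = 0 := image_eq_zero_of_notMem_tsupport fun h' => hz' (kO h')
      simp [ha, this]
  have u := limC_uniq w3 w4 ee ((limC_int (m2.add m3) c1).add (limC_int m1 cE))
    ((limC_int d2 d1).add (limC_int d1 d2))
  have key : ∀ᵐ z, z ∈ tsupport φ → v z * E z = 0 := by
    filter_upwards [u, h.nV, h.tan] with z u1 u2 u3 hz
    have zO := hs hz
    have zU := hO zO
    have q0 : rC κ =ᶠ[𝓝 z] fun _ => 1 := (k5 z hz).mono fun w hw => by simp [rC, hw]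
    have q1 : rC κ z = 1 := q0.self_of_nhds
    have q2 : dz (rC κ) z = 0 := by rw [dz_congr q0, dz_const]
    have q3 : a z = ((σ z)⁻¹ : ℝ) := by
      show rC κ z * _ = _
      rw [q1, one_mul, rC]
    have q4 : dzb a z = (-(σ z ^ 2)⁻¹ : ℝ) * gr σ z := by
      have : a =ᶠ[𝓝 z] rC fun w => (σ w)⁻¹ := q0.mono fun w hw => by simp only [ha, hw, one_mul]
      rw [dzb_congr this]
      exact gr_comp (g := fun t => t⁻¹) (hasDerivAt_inv (hσ.pos z zU).ne') (dAt hσ.cd zU)
    simp only [Pi.add_apply, q1, q2, q3, q4, one_mul, zero_mul, add_zero] at u1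
    exact limC_alg (hσ.pos z zU).ne' (u2 zO) (u3 zO) u1
  have w5 := WDb.mul m1 mE m1 mE wE wE φ hφ.cd hφ.cs
  have l1 : ∀ z, rC κ z * v z * (rC κ z * v z) * dzb φ z = v z ^ 2 * dzb φ z := fun z => by
    by_cases hz : z ∈ tsupport φ
    · have : rC κ z = 1 := by simp [rC, (k5 z hz).self_of_nhds]
      rw [this]; ring
    · rw [image_eq_zero_of_notMem_tsupport fun h' => hz (tsupport_dzb φ h')]; ring
  simp only [l1] at w5
  rw [w5, neg_eq_zero]
  refine integral_eq_zero_of_ae (key.mono fun z hz => ?_)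
  by_cases hz' : z ∈ tsupport φ
  · have := hz hz'
    simp only [Pi.zero_apply]
    linear_combination 2 * rC κ z * φ z * this
  · simp [image_eq_zero_of_notMem_tsupport hz']

end Pool.Agent.Lib.MP_a52643_an.CP
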