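import Pool.Agent.Lib.MP_a52643_an.CP.Weak

/-!
A weakly holomorphic function that decays at the real axis vanishes.
-/

open Complex MeasureTheory Set Filter Topology Metric
open scoped ComplexConjugate ContDiff ENNReal

noncomputable section

namespace Pool.Agent.Lib.MP_a52643_an.CP

lemma liou_max {F : ℂ → ℂ} {A e : ℝ} (hA : 0 ≤ A) (he : 0 < e) (he1 : e ≤ 1)
    (hd : ∀ z : ℂ, 0 ≤ z.im → DifferentiableAt ℂ F z)
    (hb : ∀ z : ℂ, 0 ≤ z.im → ‖F z‖ ≤ A * (z.im + 3 * e) ^ 4) {z : ℂ} (hz : z ∈ UH) :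
    ‖F z‖ ≤ 81 * A * e ^ 4 * ‖z + I‖ ^ 5 := by
  have h1 : ∀ w : ℂ, 0 ≤ w.im → 1 ≤ ‖w + I‖ := fun w hw => by
    have := im_le_norm (w + I)
    simp only [add_im, I_im] at this
    linarith
  have key : ∀ ρ : ℝ, 5 ≤ ρ → ‖z‖ < ρ →
      ‖F z / (z + I) ^ 5‖ ≤ 81 * A * e ^ 4 + 16 * A / (ρ - 1) := fun ρ h5 hρ => by
    have hc : closure (ball (0 : ℂ) ρ ∩ UH) ⊆ closedBall 0 ρ ∩ {w | 0 ≤ w.im} :=
      closure_minimal (inter_subset_inter ball_subset_closedBall fun w (hw : 0 < w.im) => hw.le)
        (isClosed_closedBall.inter (isClosed_le continuous_const continuous_im))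
    refine norm_le_of_forall_mem_frontier_norm_le (f := fun w => F w / (w + I) ^ 5)
      (U := ball 0 ρ ∩ UH) (isBounded_ball.subset inter_subset_left)
      (DifferentiableOn.diffContOnCl fun w hw => ?_) (fun w hw => ?_)
      (subset_closure ⟨mem_ball_zero_iff.2 hρ, hz⟩)
    · have n0 : w + I ≠ 0 := norm_pos_iff.1 (one_pos.trans_le (h1 w (hc hw).2))
      have d1 : DifferentiableAt ℂ (fun w : ℂ => (w + I) ^ 5) w := by fun_prop
      exact ((hd w (hc hw).2).fun_div d1 (pow_ne_zero 5 n0)).differentiableWithinAt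
    · rw [(isOpen_ball.inter isOpen_UH).frontier_eq] at hw
      obtain ⟨h2, h3⟩ := hc hw.1
      have h4 := h1 w h3
      have h6 := hb w h3
      have h3' : 0 ≤ w.im := h3
      have p1 : 0 ≤ 16 * A / (ρ - 1) := div_nonneg (by positivity) (by linarith)
      rw [norm_div, norm_pow]
      by_cases h0 : w.im = 0
      · rw [h0] at h6
        refine (div_le_self (norm_nonneg _) (one_le_pow₀ h4)).trans ?_
        nlinarith
      · have h7 : ‖w‖ = ρ := le_antisymm (mem_closedBall_zero_iff.1 h2) (not_lt.1 fun h =>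
          hw.2 ⟨mem_ball_zero_iff.2 h, lt_of_le_of_ne h3' (Ne.symm h0)⟩)
        have h8 : ρ - 1 ≤ ‖w + I‖ := by
          have := norm_sub_le (w + I) I
          simp only [add_sub_cancel_right, norm_I] at this
          linarith
        have h9 : w.im + 3 * e ≤ 2 * (ρ - 1) := by linarith [im_le_norm w]
        have p2 : 0 < ρ - 1 := by linarith
        calc _ ≤ A * (2 * (ρ - 1)) ^ 4 / (ρ - 1) ^ 5 := by
              gcongr
              exact h6.trans (by gcongr)
          _ = 16 * A / (ρ - 1) := by field_simp; norm_num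
          _ ≤ _ := le_add_of_nonneg_left (by positivity)
  have t : Tendsto (fun ρ : ℝ => 81 * A * e ^ 4 + 16 * A / (ρ - 1)) atTop
      (𝓝 (81 * A * e ^ 4 + 0)) :=
    tendsto_const_nhds.add (tendsto_const_nhds.div_atTop (tendsto_atTop_add_const_right _ _ tendsto_id))
  have := ge_of_tendsto t (((eventually_ge_atTop 5).and (eventually_gt_atTop ‖z‖)).mono
    fun ρ h => key ρ h.1 h.2)
  rwa [add_zero, norm_div, norm_pow, div_le_iff₀ (pow_pos (one_pos.trans_le (h1 z (le_of_lt hz))) _)]
    at this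

lemma liou_bd {G : ℂ → ℂ} {e B : ℝ} {x : ℂ} (he : 0 < e)
    (h : ∀ᵐ y, y ∈ closedBall x e → ‖G y‖ ≤ B) : ‖moll e G x‖ ≤ B := by
  have h1 : ∫ y, hk (e⁻¹ • (y - x)) / e ^ 2 = 1 := by
    have := moll_eq he (fun _ => 1) x
    simp only [moll, ker, mul_one, integral_complex_ofReal, integral_hk] at this
    exact_mod_cast this.symm
  have h2 : Integrable fun y => hk (e⁻¹ • (y - x)) / e ^ 2 := by
    by_contra h'
    rw [integral_undef h'] at h1
    exact zero_ne_one h1
  rw [moll_eq he]
  refine (norm_integral_le_of_norm_le (h2.mul_const B) (h.mono fun y hy => ?_)).trans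
    (by rw [integral_mul_const, h1, one_mul])
  have h3 : 0 ≤ hk (e⁻¹ • (y - x)) / e ^ 2 := div_nonneg (hk_nonneg _) (sq_nonneg _)
  rw [norm_mul, ker, norm_real, Real.norm_of_nonneg h3]
  by_cases hy' : y ∈ closedBall x e
  · exact mul_le_mul_of_nonneg_left (hy hy') h3
  · rw [hk_zero]
    · simp
    · rw [norm_smul, norm_inv, Real.norm_of_nonneg he.le, ← div_eq_inv_mul, one_lt_div he]
      simpa [dist_eq_norm] using hy'

theorem liouville {W : ℂ → ℂ} {M : ℝ} (hW : AEStronglyMeasurable W volume)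
    (hb : ∀ᵐ z, z ∈ UH → ‖W z‖ ≤ M * z.im ^ 4)
    (h : ∀ φ, Ts φ → ∫ z, W z * dzb φ z = 0) : ∀ᵐ z, z ∈ UH → W z = 0 := by
  set G : ℂ → ℂ := UH.indicator W with hG
  have mG : AEStronglyMeasurable G volume := hW.indicator isOpen_UH.measurableSet
  have bG : ∀ᵐ z, ‖G z‖ ≤ |M| * z.im ^ 4 := hb.mono fun z hz => by
    by_cases h' : z ∈ UH
    · rw [hG, indicator_of_mem h']
      exact (hz h').trans (by gcongr; exact le_abs_self M)
    · rw [hG, indicator_of_notMem h', norm_zero]; positivity
  have bK : ∀ K : Set ℂ, IsCompact K → ∃ C, ∀ᵐ z, z ∈ K → ‖G z‖ ≤ C := fun K hK => by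
    obtain ⟨C, hC⟩ := hK.exists_bound_of_continuousOn
      (f := fun z : ℂ => |M| * z.im ^ 4) (by fun_prop)
    exact ⟨C, bG.mono fun z hz hz' => hz.trans ((le_abs_self _).trans (hC z hz'))⟩
  have lG : LocallyIntegrable G := (locallyIntegrable_iff).2 fun K hK => by
    obtain ⟨C, hC⟩ := bK K hK
    exact Measure.integrableOn_of_bounded hK.measure_lt_top.ne mG
      ((ae_restrict_iff' hK.measurableSet).2 hC)
  obtain ⟨C₀, -, hk0⟩ := ker_cut
  have small : ∀ e : ℝ, 0 < e → e ≤ 1 → ∀ x : ℂ, 2 * e < x.im →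
      ‖moll e G x‖ ≤ 81 * |M| * e ^ 4 * (‖x‖ + 3) ^ 5 := fun e he he1 x hx => by
    have := liou_max (F := fun z => moll e G (z + 2 * e * I)) (abs_nonneg M) he he1
      (fun z hz => ?_) (fun z hz => liou_bd he (bG.mono fun y hy hy' => hy.trans ?_))
      (z := x - 2 * e * I) (by simp [UH]; linarith)
    · rw [sub_add_cancel] at this
      refine this.trans ?_
      gcongr
      refine (norm_add_le _ _).trans ?_
      have := norm_sub_le x (2 * e * I)
      simp only [norm_mul, norm_I, Complex.norm_ofNat, norm_real, Real.norm_of_nonneg he.le] at this ⊢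
      linarith
    · refine DifferentiableAt.comp z (g := moll e G) ?_ (by fun_prop)
      refine differentiableAt_complex_iff_differentiableAt_real.2
        ⟨(moll_cd he lG).differentiable (by simp) _, ?_⟩
      have c := hk0 e (z + 2 * e * I) he he1
      have s : closedBall (z + 2 * e * I) e ⊆ UH := fun y hy => by
        have := (abs_im_le_norm (y - (z + 2 * e * I))).trans (mem_closedBall_iff_norm.1 hy)
        have := (abs_le.1 this).1
        simp [UH] at this ⊢
        linarith
      have t : Ts (ker e (z + 2 * e * I)) := ⟨c.cd, c.hcs, c.sub.trans s⟩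
      have e0 : dzb (moll e G) (z + 2 * e * I) = 0 := by
        rw [dzb_moll he lG, neg_eq_zero, ← h _ t]
        congr 1; ext y
        by_cases hy : y ∈ UH
        · rw [hG, indicator_of_mem hy]
        · rw [image_eq_zero_of_notMem_tsupport fun h' => hy (t.sub (tsupport_dzb _ h'))]; simp
      rw [fderiv_eq_dz, fderiv_eq_dz, e0]; simp
    · have := (abs_im_le_norm (y - (z + 2 * e * I))).trans (mem_closedBall_iff_norm.1 hy')
      have h1 := abs_le.1 this
      simp only [sub_im, add_im, mul_im, mul_re, re_ofNat, ofReal_re, im_ofNat, ofReal_im, I_re,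
        I_im] at h1
      have : 0 ≤ y.im := by linarith [h1.1]
      gcongr
      linarith [h1.2]
  have := ae_zero_of_test isOpen_UH (lG.locallyIntegrableOn UH) fun φ c1 c2 c3 => ?_
  · exact this.mono fun z hz hz' => by simpa [hG, hz'] using hz hz'
  obtain ⟨r, r0, hr⟩ := Cp.thick ⟨c2, c3⟩
  set K := cthickening r (tsupport φ)
  obtain ⟨C, hC⟩ := bK K hr.1
  have m2 : MemLp (K.indicator G) 2 volume := by
    rw [memLp_indicator_iff_restrict hr.1.measurableSet]
    have : IsFiniteMeasure (volume.restrict K) := ⟨by simpa using hr.1.measure_lt_top⟩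
    exact MemLp.of_bound mG.restrict C ((ae_restrict_iff' hr.1.measurableSet).2 hC)
  have mφ : MemLp φ 2 volume := c1.continuous.memLp_of_hasCompactSupport c2
  obtain ⟨R, hR⟩ := c2.isBounded.exists_norm_le
  obtain ⟨a, a0, ha⟩ : ∃ a, 0 < a ∧ ∀ x ∈ tsupport φ, a ≤ x.im := by
    obtain ⟨a, a0, ha⟩ := c2.exists_forall_le' continuous_im.continuousOn fun x hx => c3 hx
    exact ⟨a, a0, ha⟩
  have t1 : Tendsto (fun e => ∫ z, φ z * moll e (K.indicator G) z) (𝓝[>] 0) (𝓝 0) := by
    have t : Tendsto (fun e : ℝ => (∫ z, ‖φ z‖) * (81 * |M| * e ^ 4 * (R + 3) ^ 5)) (𝓝[>] 0)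
        (𝓝 0) := by
      refine tendsto_nhdsWithin_of_tendsto_nhds (Continuous.tendsto' (by fun_prop) _ _ (by simp))
    refine squeeze_zero_norm' ?_ t
    filter_upwards [Ioo_mem_nhdsGT (lt_min one_pos (lt_min r0 (half_pos a0)))] with e he
    obtain ⟨he, he'⟩ := he
    simp only [lt_min_iff] at he'
    rw [← integral_mul_const]
    refine norm_integral_le_of_norm_le
      ((c1.continuous.integrable_of_hasCompactSupport c2).norm.mul_const _)
      (Eventually.of_forall fun z => ?_)
    by_cases hz : z ∈ tsupport φ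
    · rw [norm_mul, moll_congr (H := G) he fun y hy => indicator_of_mem
        (closedBall_subset_cthickening hz r (closedBall_subset_closedBall he'.2.1.le hy)) _]
      refine mul_le_mul_of_nonneg_left ((small e he he'.1.le z ?_).trans ?_) (norm_nonneg _)
      · linarith [ha z hz, he'.2.2]
      · have := hR z hz
        gcongr
    · simp [image_eq_zero_of_notMem_tsupport hz]
  have t2 : Tendsto (fun e => ∫ z, φ z * moll e (K.indicator G) z) (𝓝[>] 0)
      (𝓝 (∫ z, φ z * K.indicator G z)) := by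
    rw [tendsto_iff_norm_sub_tendsto_zero]
    have t := ((Real.continuous_sqrt.tendsto 0).comp (moll_lim m2)).const_mul
      (√(∫ z, ‖φ z‖ ^ 2))
    simp only [Real.sqrt_zero, mul_zero] at t
    refine squeeze_zero (fun _ => norm_nonneg _) (fun e => ?_) t
    rw [← integral_sub (cs_le mφ (moll_mem m2 e).1).1 (cs_le mφ m2).1]
    simpa only [mul_sub, Pi.sub_apply, Function.comp] using (cs_le mφ ((moll_mem m2 e).1.sub m2)).2
  rw [← tendsto_nhds_unique t2 t1]
  congr 1; ext z
  by_cases hz : z ∈ tsupport φ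
  · rw [indicator_of_mem (self_subset_cthickening _ hz)]
  · simp [image_eq_zero_of_notMem_tsupport hz]

end Pool.Agent.Lib.MP_a52643_an.CP
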