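import Pool.Agent.Lib.MP_a52643_an.CP.LimB
import Pool.Agent.Lib.MP_a52643_an.CP.LimC
import Pool.Agent.Lib.MP_a52643_an.CP.Liou

/-!
The limit cannot exist.
-/

open Complex MeasureTheory Set Filter Topology Metric
open scoped ComplexConjugate ContDiff ENNReal

noncomputable section

namespace Pool.Agent.Lib.MP_a52643_an.CP

variable {σ : ℂ → ℝ} {M : ℝ} {V : ℕ → ℂ → ℂ} {R r : ℕ → ℂ → ℝ}


lemma Lim_nbhd {K : Set ℂ} (hK : Cp K) : ∃ L, Cp L ∧ K ⊆ interior L := by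
  obtain ⟨r, r0, h⟩ := hK.thick
  exact ⟨_, h, (self_subset_thickening r0 K).trans (thickening_subset_interior_cthickening r K)⟩

lemma Lim_ae {P : ℂ → Prop} (h : ∀ K, Cp K → ∀ᵐ z, z ∈ interior K → P z) :
    ∀ᵐ z, z ∈ UH → P z := by
  rw [ae_iff]
  refine measure_null_of_locally_null _ fun x hx => ?_
  have hx' : x ∈ UH := by
    by_contra h'
    exact hx fun h'' => absurd h'' h'
  obtain ⟨L, hL, hs⟩ := Lim_nbhd (K := {x}) ⟨isCompact_singleton, singleton_subset_iff.2 hx'⟩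
  refine ⟨{z | ¬(z ∈ UH → P z)} ∩ interior L,
    inter_mem_nhdsWithin _ (isOpen_interior.mem_nhds (hs rfl)), ?_⟩
  refine measure_mono_null (fun z hz => ?_) (ae_iff.1 (h L hL))
  exact fun h' => hz.1 fun _ => h' hz.2

theorem lim_false (hσ : Met σ) {c : ℝ} (hc : 0 < c) (hb : ∀ z ∈ UH, c ≤ σ z * z.im ^ 2)
    (h : LimD σ M V R r) {K₀ : Set ℂ} (h0 : Cp K₀) {δ : ℝ} (hδ : 0 < δ)
    (hm : ∀ᶠ j in atTop, δ ≤ ∫ z in K₀, r j z) : False := by
  obtain ⟨s, v, ρ, hs, hv, hρ, hρb, hl⟩ := limA h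
  have hB : ∀ K, Cp K → ∃ D, LimS σ v ρ (interior K) D := fun K hK =>
    limB hσ (h.sub hs) hv hρ (hρb.mono fun z hz hu => (hz hu).1) hl hK
  have hn : ∀ᵐ z, z ∈ UH → ‖v z‖ = ρ z / σ z := Lim_ae fun K hK => (hB K hK).choose_spec.nV
  have hz : ∀ᵐ z, z ∈ UH → v z ^ 2 = 0 := by
    refine liouville (M := (M / c) ^ 2) (hv.me.pow 2) ?_ fun φ hφ => ?_
    · filter_upwards [hn, hρb] with z h1 h2 hu
      have s0 := hσ.pos z hu
      have e : ρ z / σ z ≤ M / c * z.im ^ 2 := by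
        rw [div_mul_eq_mul_div, div_le_div_iff₀ s0 hc]
        have := mul_le_mul (h2 hu).2 (hb z hu) hc.le ((h2 hu).1.trans (h2 hu).2)
        linarith
      rw [norm_pow, h1 hu]
      calc (ρ z / σ z) ^ 2 ≤ (M / c * z.im ^ 2) ^ 2 :=
            pow_le_pow_left₀ (div_nonneg (h2 hu).1 s0.le) e 2
        _ = _ := by ring
    · obtain ⟨L, hL, hsub⟩ := Lim_nbhd (K := tsupport φ) ⟨hφ.cs, hφ.sub⟩
      obtain ⟨D, hD⟩ := hB L hL
      exact limC hσ hv hρ hL hD hφ hsub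
  have hρ0 : ∀ᵐ z, z ∈ UH → ρ z = 0 := by
    filter_upwards [hn, hz] with z h1 h2 hu
    have e := h1 hu
    rw [pow_eq_zero_iff two_ne_zero |>.1 (h2 hu), norm_zero, eq_comm, div_eq_zero_iff] at e
    exact e.resolve_right (hσ.pos z hu).ne'
  obtain ⟨χ, c1, c2, c3, -, c5⟩ := exists_cut h0.1 isOpen_UH h0.2
  have hχ : Ts (rC χ) := by
    have e : tsupport (rC χ) ⊆ tsupport χ :=
      closure_mono fun z hz h' => hz (by simp [rC, h'])
    exact ⟨ofRealCLM.contDiff.comp (c1.of_le (by simp)),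
      c2.of_isClosed_subset (isClosed_tsupport _) e, e.trans c3⟩
  have hmK : MeasurableSet K₀ := h0.1.measurableSet
  have t := (hl _ hχ).2.lim (K₀.indicator fun _ => 1)
    (memLp_indicator_const 2 hmK 1 (Or.inr h0.1.measure_lt_top.ne))
  have key : ∀ f : ℂ → ℝ, ∫ z, K₀.indicator (fun _ => (1 : ℂ)) z * (rC χ z * f z)
      = ((∫ z in K₀, f z : ℝ) : ℂ) := fun f => by
    rw [← integral_complex_ofReal, ← integral_indicator hmK]
    refine integral_congr_ae (Eventually.of_forall fun z => ?_)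
    by_cases hz : z ∈ K₀
    · have : χ z = 1 := (c5 z hz).self_of_nhds
      simp [hz, rC, this]
    · simp [hz]
  simp only [key] at t
  have e0 : ∫ z in K₀, ρ z = 0 :=
    setIntegral_eq_zero_of_ae_eq_zero (hρ0.mono fun z hz hk => hz (h0.2 hk))
  rw [e0] at t
  have t' : Tendsto (fun j => ∫ z in K₀, r (s j) z) atTop (𝓝 0) :=
    (continuous_re.tendsto _).comp t
  exact absurd (ge_of_tendsto t' (hs.tendsto_atTop.eventually hm)) (not_le.2 hδ)

end Pool.Agent.Lib.MP_a52643_an.CP
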