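import Pool.Agent.Lib.MP_a52643_an.CP.Moll2

/-!
Extraction of the weak limits.
-/

open Complex MeasureTheory Set Filter Topology Metric
open scoped ComplexConjugate ContDiff ENNReal

noncomputable section

namespace Pool.Agent.Lib.MP_a52643_an.CP

variable {σ : ℂ → ℝ} {M : ℝ} {V : ℕ → ℂ → ℂ} {R r : ℕ → ℂ → ℝ}

/-- The weight that makes the sequences square integrable. -/
def limAw (z : ℂ) : ℝ := (1 + ‖z‖) ^ 2

/-- A function cut to the half plane and divided by the square of the weight. -/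
def limAc (g : ℂ → ℂ) : ℂ → ℂ := UH.indicator fun z => g z / (limAw z ^ 2 : ℝ)

lemma limAw_one (z : ℂ) : 1 ≤ limAw z := one_le_pow₀ (le_add_of_nonneg_right (norm_nonneg z))

lemma limAw_pos (z : ℂ) : 0 < limAw z := one_pos.trans_le (limAw_one z)

lemma limAw_cont : Continuous limAw := (continuous_const.add continuous_norm).pow 2

lemma limAw_mem (C : ℝ) : MemLp (fun z => C * (limAw z)⁻¹) 2 volume := by
  have hc : Continuous fun z => (limAw z)⁻¹ := limAw_cont.inv₀ fun z => (limAw_pos z).ne'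
  refine MemLp.const_mul ((memLp_two_iff_integrable_sq hc.aestronglyMeasurable).2 ?_) C
  have h := integrable_one_add_norm (E := ℂ) (μ := volume) (r := 4) (by
    rw [Complex.finrank_real_complex]; norm_num)
  refine h.congr (Eventually.of_forall fun z => ?_)
  have h1 : (0 : ℝ) ≤ 1 + ‖z‖ := by positivity
  simp only [limAw]
  rw [Real.rpow_neg h1, show (4 : ℝ) = (4 : ℕ) by norm_num, Real.rpow_natCast, inv_pow, ← pow_mul]

lemma limAc_le {g : ℂ → ℂ} {C : ℝ} (hC : 0 ≤ C) (hb : ∀ z ∈ UH, ‖g z‖ ≤ C * limAw z) (z : ℂ) :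
    ‖limAc g z‖ ≤ C * (limAw z)⁻¹ := by
  have h0 := limAw_pos z
  by_cases hz : z ∈ UH
  · rw [limAc, indicator_of_mem hz, norm_div, norm_real, Real.norm_of_nonneg (sq_nonneg _),
      div_le_iff₀ (by positivity)]
    refine (hb z hz).trans (le_of_eq ?_)
    field_simp
  · rw [limAc, indicator_of_notMem hz, norm_zero]
    positivity

lemma limAc_mem {g : ℂ → ℂ} {C : ℝ} (hC : 0 ≤ C) (hc : ContinuousOn g UH)
    (hb : ∀ z ∈ UH, ‖g z‖ ≤ C * limAw z) : MemLp (limAc g) 2 volume := by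
  refine (limAw_mem C).mono' ?_ (Eventually.of_forall (limAc_le hC hb))
  refine (aestronglyMeasurable_indicator_iff isOpen_UH.measurableSet).2
    (ContinuousOn.aestronglyMeasurable (hc.div ?_ fun z _ => ?_) isOpen_UH.measurableSet)
  · exact (continuous_ofReal.comp (limAw_cont.pow 2)).continuousOn
  · exact ofReal_ne_zero.2 (pow_pos (limAw_pos z) 2).ne'

lemma limA_ext {g : ℕ → ℂ → ℂ} {C : ℝ} (hC : 0 ≤ C) (hc : ∀ j, ContinuousOn (g j) UH)
    (hb : ∀ j, ∀ z ∈ UH, ‖g j z‖ ≤ C * limAw z) :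
    ∃ (s : ℕ → ℕ) (G : ℂ → ℂ), StrictMono s ∧ WL (fun j => limAc (g (s j))) G := by
  refine weak_cpt (g := fun j => limAc (g j)) (B := ∫ z, (C * (limAw z)⁻¹) ^ 2) fun j =>
    ⟨limAc_mem hC (hc j) (hb j), ?_⟩
  refine integral_mono_of_nonneg (Eventually.of_forall fun z => sq_nonneg _)
    (limAw_mem C).integrable_sq (Eventually.of_forall fun z => ?_)
  exact pow_le_pow_left₀ (norm_nonneg _) (limAc_le hC (hb j) z) 2

lemma limA_cut {g : ℕ → ℂ → ℂ} {G χ : ℂ → ℂ} (h : WL (fun j => limAc (g j)) G) (hχ : Ts χ) :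
    WL (fun j z => χ z * g j z) fun z => χ z * (G z * (limAw z ^ 2 : ℝ)) := by
  have hc : Continuous fun z => χ z * (limAw z ^ 2 : ℝ) :=
    hχ.cd.continuous.mul (continuous_ofReal.comp (limAw_cont.pow 2))
  obtain ⟨K, hK⟩ := hc.bounded_above_of_compact_support hχ.cs.mul_right
  have hm : ∀ φ : ℂ → ℂ, MemLp φ 2 volume →
      MemLp (fun z => φ z * (χ z * (limAw z ^ 2 : ℝ))) 2 volume := fun φ hφ =>
    hφ.of_le_mul (c := K) (hφ.1.mul hc.aestronglyMeasurable) (Eventually.of_forall fun z => by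
      rw [norm_mul, mul_comm]
      exact mul_le_mul_of_nonneg_right (hK z) (norm_nonneg _))
  refine ⟨?_, fun φ hφ => ?_⟩
  · convert hm G h.mem using 2 with z
    ring
  · convert h.lim _ (hm φ hφ) using 4 with j z z
    · by_cases hz : z ∈ UH
      · have h0 : ((limAw z ^ 2 : ℝ) : ℂ) ≠ 0 := ofReal_ne_zero.2 (pow_pos (limAw_pos z) 2).ne'
        rw [limAc, indicator_of_mem hz]
        field_simp
      · rw [image_eq_zero_of_notMem_tsupport fun h' => hz (hχ.sub h')]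
        simp
    · ring

lemma limA_half {g : ℕ → ℂ → ℂ} {G : ℂ → ℂ} (h : WL g G) (hm : ∀ j, MemLp (g j) 2 volume) (c : ℂ)
    {b : ℂ → ℝ} (hb : MemLp b 2 volume) (hle : ∀ j z, (c * g j z).re ≤ b z) :
    ∀ᵐ z, (c * G z).re ≤ b z := by
  have i1 : ∀ {F : ℂ → ℂ}, MemLp F 2 volume → ∀ s : Set ℂ, volume s < ⊤ →
      IntegrableOn (fun z => c * F z) s := fun hF s hs => by
    have : Fact (volume s < ⊤) := ⟨hs⟩
    exact ((hF.restrict s).integrable one_le_two).const_mul c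
  have i2 : ∀ s : Set ℂ, volume s < ⊤ → IntegrableOn b s := fun s hs => by
    have : Fact (volume s < ⊤) := ⟨hs⟩
    exact (hb.restrict s).integrable one_le_two
  have key := ae_nonneg_of_forall_setIntegral_nonneg_of_sigmaFinite (μ := volume)
    (f := fun z => b z - (c * G z).re)
    (fun s _ hs => (i2 s hs).sub (i1 h.mem s hs).re) fun s hs hs' => by
      have h1 := h.lim _ (memLp_indicator_const 2 hs c (Or.inr hs'.ne))
      have e : ∀ F : ℂ → ℂ, ∫ z, s.indicator (fun _ => c) z * F z = ∫ z in s, c * F z := fun F => by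
        rw [← integral_indicator hs]
        refine integral_congr_ae (Eventually.of_forall fun z => ?_)
        by_cases hz : z ∈ s <;> simp [hz]
      simp only [e] at h1
      have h2 := (continuous_re.tendsto _).comp h1
      have e2 : ∀ {F : ℂ → ℂ}, MemLp F 2 volume →
          ∫ z in s, (c * F z).re = (∫ z in s, c * F z).re := fun hF => integral_re (i1 hF s hs')
      have i3 : IntegrableOn (fun z => (c * G z).re) s := (i1 h.mem s hs').re
      rw [integral_sub (i2 s hs') i3, sub_nonneg, e2 h.mem]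
      refine le_of_tendsto' h2 fun j => ?_
      rw [Function.comp_apply, ← e2 (hm j)]
      exact integral_mono (i1 (hm j) s hs').re (i2 s hs') (hle j)
  filter_upwards [key] with z hz
  exact sub_nonneg.1 hz

lemma limA_sub {g : ℕ → ℂ → ℂ} {G : ℂ → ℂ} (h : WL g G) {s : ℕ → ℕ} (hs : StrictMono s) :
    WL (fun j => g (s j)) G :=
  ⟨h.mem, fun φ hφ => (h.lim φ hφ).comp hs.tendsto_atTop⟩

lemma limA_congr {g : ℕ → ℂ → ℂ} {G H : ℂ → ℂ} (h : WL g G) (e : G =ᵐ[volume] H) : WL g H :=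
  ⟨h.mem.ae_eq e, fun φ hφ => by
    rw [← integral_congr_ae (f := fun z => φ z * G z) (e.mono fun z hz => by simp only [hz])]
    exact h.lim φ hφ⟩

theorem LimD.sub (h : LimD σ M V R r) {s : ℕ → ℕ} (hs : StrictMono s) :
    LimD σ M (fun j => V (s j)) (fun j => R (s j)) fun j => r (s j) :=
  ⟨fun _ => h.cV _, fun _ => h.cR _, fun _ => h.cr _, fun _ => h.nV _, fun _ => h.bR _,
    fun _ => h.br _, fun K hK => (h.en K hK).imp fun _ hC _ => hC _,
    fun φ hφ => (h.h3 φ hφ).comp hs.tendsto_atTop, fun φ hφ => (h.h4 φ hφ).comp hs.tendsto_atTop,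
    fun φ hφ => (h.h5 φ hφ).comp hs.tendsto_atTop⟩

theorem limA (h : LimD σ M V R r) : ∃ (s : ℕ → ℕ) (v : ℂ → ℂ) (ρ : ℂ → ℝ), StrictMono s ∧
    Lb v ∧ Lb (rC ρ) ∧ (∀ᵐ z, z ∈ UH → 0 ≤ ρ z ∧ ρ z ≤ M) ∧ ∀ χ, Ts χ →
      WL (fun j z => χ z * V (s j) z) (fun z => χ z * v z) ∧
      WL (fun j z => χ z * r (s j) z) fun z => χ z * ρ z := by
  have hM : 0 ≤ M := (h.br 0 I (by simp [UH])).1.trans (h.br 0 I (by simp [UH])).2
  have bV : ∀ j, ∀ z ∈ UH, ‖V j z‖ ≤ M * limAw z := fun j z hz => by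
    rw [h.nV j z hz]
    refine (h.bR j z hz).trans (mul_le_mul_of_nonneg_left ?_ hM)
    rw [limAw, ← sq_abs]
    exact pow_le_pow_left₀ (abs_nonneg _) ((abs_im_le_norm z).trans (by linarith)) 2
  have br : ∀ j, ∀ z ∈ UH, ‖rC (r j) z‖ ≤ M * limAw z := fun j z hz => by
    rw [rC, norm_real, Real.norm_of_nonneg (h.br j z hz).1]
    exact (h.br j z hz).2.trans (le_mul_of_one_le_right hM (limAw_one z))
  have cV : ∀ j, ContinuousOn (V j) UH := fun j => (h.cV j).continuousOn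
  have cr : ∀ j, ContinuousOn (rC (r j)) UH := fun j => (cd_rC (h.cr j)).continuousOn
  obtain ⟨s₁, G, hs₁, hG⟩ := limA_ext hM cV bV
  obtain ⟨s₂, H, hs₂, hH⟩ := limA_ext (g := fun j => rC (r (s₁ j))) hM (fun _ => cr _) fun _ => br _
  have hW : Continuous fun z => ((limAw z ^ 2 : ℝ) : ℂ) :=
    continuous_ofReal.comp (limAw_cont.pow 2)
  have mG : ∀ j, MemLp (limAc (V (s₁ j))) 2 volume := fun j => limAc_mem hM (cV _) (bV _)
  have mH : ∀ j, MemLp (limAc (rC (r (s₁ (s₂ j))))) 2 volume := fun j =>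
    limAc_mem hM (cr _) (br _)
  have aG : ∀ c : ℂ, ‖c‖ = 1 → ∀ᵐ z, (c * G z).re ≤ M * (limAw z)⁻¹ := fun c hc =>
    limA_half hG mG c (limAw_mem M) fun j z => (re_le_norm _).trans (by
      rw [norm_mul, hc, one_mul]
      exact limAc_le hM (bV _) z)
  have eH : ∀ j z, ∃ t : ℝ, limAc (rC (r j)) z = t ∧ 0 ≤ t ∧ t ≤ M * (limAw z ^ 2)⁻¹ := by
    intro j z
    have h0 := limAw_pos z
    by_cases hz : z ∈ UH
    · refine ⟨r j z / limAw z ^ 2, by rw [limAc, indicator_of_mem hz, rC, ofReal_div],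
        div_nonneg (h.br j z hz).1 (sq_nonneg _), ?_⟩
      rw [← div_eq_mul_inv]
      exact div_le_div_of_nonneg_right (h.br j z hz).2 (sq_nonneg _)
    · exact ⟨0, by rw [limAc, indicator_of_notMem hz, ofReal_zero], le_rfl, by positivity⟩
  have mW : MemLp (fun z => M * (limAw z ^ 2)⁻¹) 2 volume := by
    refine (limAw_mem M).mono' (continuous_const.mul ((limAw_cont.pow 2).inv₀ fun z =>
      (pow_pos (limAw_pos z) 2).ne')).aestronglyMeasurable (Eventually.of_forall fun z => ?_)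
    have h0 := limAw_pos z
    rw [Real.norm_of_nonneg (by positivity)]
    exact mul_le_mul_of_nonneg_left (inv_anti₀ h0 (le_self_pow₀ (limAw_one z) two_ne_zero)) hM
  have a1 := limA_half hH mH 1 mW fun j z => by
    obtain ⟨t, e, -, h2⟩ := eH (s₁ (s₂ j)) z
    simpa [e] using h2
  have a2 := limA_half hH mH (-1) (b := fun _ => 0) MemLp.zero fun j z => by
    obtain ⟨t, e, h1, -⟩ := eH (s₁ (s₂ j)) z
    simpa [e] using h1
  have a3 := limA_half hH mH I (b := fun _ => 0) MemLp.zero fun j z => by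
    obtain ⟨t, e, -⟩ := eH (s₁ (s₂ j)) z
    simp [e]
  have a4 := limA_half hH mH (-I) (b := fun _ => 0) MemLp.zero fun j z => by
    obtain ⟨t, e, -⟩ := eH (s₁ (s₂ j)) z
    simp [e]
  have eρ : ∀ᵐ z, H z * (limAw z ^ 2 : ℝ) = (((H z).re * limAw z ^ 2 : ℝ) : ℂ) := by
    filter_upwards [a3, a4] with z h3 h4
    have h5 : (H z).im = 0 := by
      simp only [mul_re, I_re, I_im, neg_re, neg_im] at h3 h4
      linarith
    rw [ofReal_mul]
    congr 1
    exact Complex.ext (by simp) (by simp [h5])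
  have bρ : ∀ᵐ z, 0 ≤ (H z).re * limAw z ^ 2 ∧ (H z).re * limAw z ^ 2 ≤ M := by
    filter_upwards [a1, a2] with z h1 h2
    have h0 := limAw_pos z
    rw [one_mul, ← div_eq_mul_inv, le_div_iff₀ (by positivity)] at h1
    exact ⟨mul_nonneg (by simpa using h2) (sq_nonneg _), h1⟩
  refine ⟨fun j => s₁ (s₂ j), fun z => G z * (limAw z ^ 2 : ℝ), fun z => (H z).re * limAw z ^ 2,
    hs₁.comp hs₂, ⟨hG.mem.1.mul hW.aestronglyMeasurable, fun K hK => ?_⟩,
    ⟨(hH.mem.1.mul hW.aestronglyMeasurable).congr eρ, fun K _ => ⟨M, ?_⟩⟩,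
    bρ.mono fun z hz _ => hz, fun χ hχ => ⟨limA_cut (limA_sub hG hs₂) hχ, ?_⟩⟩
  · obtain ⟨C, hC⟩ := hK.1.exists_bound_of_continuousOn limAw_cont.continuousOn
    refine ⟨2 * M * C, ?_⟩
    filter_upwards [aG 1 (by simp), aG (-1) (by simp), aG I (by simp), aG (-I) (by simp)]
      with z h1 h2 h3 h4 hz
    have h0 := limAw_pos z
    have h5 : ‖G z‖ ≤ 2 * (M * (limAw z)⁻¹) := by
      simp only [mul_re, I_re, I_im, neg_re, neg_im, one_re, one_im] at h1 h2 h3 h4
      have h6 : |(G z).re| ≤ M * (limAw z)⁻¹ := abs_le.2 ⟨by linarith, by linarith⟩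
      have h7 : |(G z).im| ≤ M * (limAw z)⁻¹ := abs_le.2 ⟨by linarith, by linarith⟩
      linarith [norm_le_abs_re_add_abs_im (G z)]
    rw [norm_mul, norm_real, Real.norm_of_nonneg (sq_nonneg _)]
    calc ‖G z‖ * limAw z ^ 2 ≤ 2 * (M * (limAw z)⁻¹) * limAw z ^ 2 :=
          mul_le_mul_of_nonneg_right h5 (sq_nonneg _)
      _ = 2 * M * limAw z := by field_simp
      _ ≤ 2 * M * C := mul_le_mul_of_nonneg_left ((le_abs_self _).trans (hC z hz)) (by positivity)
  · filter_upwards [bρ] with z hz _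
    rw [rC, norm_real, Real.norm_of_nonneg hz.1]
    exact hz.2
  · exact limA_congr (limA_cut hH hχ) (eρ.mono fun z hz => by simp only [hz])

end Pool.Agent.Lib.MP_a52643_an.CP
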