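import Pool.Agent.Lib.MP_a52643_an.CP.Moll1
import Pool.Agent.Lib.MP_a52643_an.CP.Moll2

/-!
Weak derivatives: products and the missing derivative.
-/

open Complex MeasureTheory Set Filter Topology Metric
open scoped ComplexConjugate ContDiff ENNReal

noncomputable section

namespace Pool.Agent.Lib.MP_a52643_an.CP

theorem WD.conj {G H : ℂ → ℂ} (h : WD G H) : WDb (fun z => conj (G z)) fun z => conj (H z) := by
  intro φ h1 h2
  have e := h (fun z => conj (φ z)) (conjCLE.contDiff.comp h1)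
    (h2.comp_left (g := fun w : ℂ => conj w) (by simp))
  have e' := congrArg (fun w : ℂ => conj w) e
  simp only [dz_conj, map_neg, ← integral_conj, map_mul, conj_conj] at e'
  exact e'

theorem WDb.conj {G H : ℂ → ℂ} (h : WDb G H) : WD (fun z => conj (G z)) fun z => conj (H z) := by
  intro φ h1 h2
  have e := h (fun z => conj (φ z)) (conjCLE.contDiff.comp h1)
    (h2.comp_left (g := fun w : ℂ => conj w) (by simp))
  have e' := congrArg (fun w : ℂ => conj w) e
  simp only [dzb_conj, map_neg, ← integral_conj, map_mul, conj_conj] at e'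
  exact e'

lemma weak_mem {f φ : ℂ → ℂ} (hf : MemLp f 2 volume) (hφ : Continuous φ)
    (hc : HasCompactSupport φ) : MemLp (fun z => f z * φ z) 2 volume := by
  obtain ⟨C, hC⟩ := hφ.bounded_above_of_compact_support hc
  refine MemLp.of_le_mul (c := C) hf (hf.1.mul hφ.aestronglyMeasurable) (.of_forall fun z => ?_)
  rw [norm_mul, mul_comm]
  exact mul_le_mul_of_nonneg_right (hC z) (norm_nonneg _)

lemma weak_conj {f : ℂ → ℂ} (hf : MemLp f 2 volume) : MemLp (fun z => conj (f z)) 2 volume :=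
  MemLp.of_le hf (continuous_conj.comp_aestronglyMeasurable hf.1) (.of_forall fun z => by simp)

lemma weak_lim {F G : ℂ → ℂ} (hF : MemLp F 2 volume) (hG : MemLp G 2 volume) :
    Tendsto (fun ε => ∫ z, F z * moll ε G z) (𝓝[>] (0 : ℝ)) (𝓝 (∫ z, F z * G z)) := by
  rw [tendsto_iff_norm_sub_tendsto_zero]
  have h0 : Tendsto (fun ε => √(∫ z, ‖F z‖ ^ 2) * √(∫ z, ‖moll ε G z - G z‖ ^ 2))
      (𝓝[>] (0 : ℝ)) (𝓝 0) := by
    simpa using (moll_lim hG).sqrt.const_mul (√(∫ z, ‖F z‖ ^ 2))
  refine squeeze_zero (fun _ => norm_nonneg _) (fun ε => ?_) h0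
  have hm := (moll_mem hG ε).1
  rw [← integral_sub (cs_le hF hm).1 (cs_le hF hG).1]
  simp only [← mul_sub]
  exact (cs_le hF (hm.sub hG)).2

theorem WD.mul {f f' g g' : ℂ → ℂ} (hf : MemLp f 2 volume) (hf' : MemLp f' 2 volume)
    (hg : MemLp g 2 volume) (hg' : MemLp g' 2 volume) (h1 : WD f f') (h2 : WD g g') :
    WD (fun z => f z * g z) fun z => f' z * g z + f z * g' z := by
  intro φ hφ hc
  have m1 := weak_mem hf (continuous_dz hφ) (hcs_dz hc)
  have m2 := weak_mem hf hφ.continuous hc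
  have m3 := weak_mem hf' hφ.continuous hc
  have hl : LocallyIntegrable g := hg.locallyIntegrable (by norm_num)
  have t1 := (weak_lim m1 hg).add (weak_lim m2 hg')
  have t2 := (weak_lim m3 hg).neg
  have e : ∀ᶠ ε in 𝓝[>] (0 : ℝ), (∫ z, f z * dz φ z * MP_a52643_an.moll ε g z) +
      ∫ z, f z * φ z * MP_a52643_an.moll ε g' z = -∫ z, f' z * φ z * MP_a52643_an.moll ε g z := by
    filter_upwards [self_mem_nhdsWithin] with ε hε
    have hs : ContDiff ℝ 1 (MP_a52643_an.moll ε g) := (moll_cd hε hl).of_le (by simp)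
    have e1 := h1 (fun z => φ z * MP_a52643_an.moll ε g z) (hφ.mul hs) hc.mul_right
    have e2 : ∀ z, dz (fun z => φ z * MP_a52643_an.moll ε g z) z =
        dz φ z * MP_a52643_an.moll ε g z + φ z * MP_a52643_an.moll ε g' z := fun z => by
      rw [dz_mul (hφ.differentiable one_ne_zero z) (hs.differentiable one_ne_zero z),
        WD.moll hε hl h2]
    simp only [e2, mul_add, ← mul_assoc] at e1
    rw [← integral_add (cs_le m1 (moll_mem hg ε).1).1 (cs_le m2 (moll_mem hg' ε).1).1]
    exact e1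
  have e3 := tendsto_nhds_unique_of_eventuallyEq t1 t2 e
  have e4 : ∫ z, (f' z * g z + f z * g' z) * φ z =
      (∫ z, f' z * φ z * g z) + ∫ z, f z * φ z * g' z := by
    rw [← integral_add (cs_le m3 hg).1 (cs_le m2 hg').1]
    exact integral_congr_ae (.of_forall fun z => by simp only; ring)
  have e5 : ∫ z, f z * g z * dz φ z = ∫ z, f z * dz φ z * g z :=
    integral_congr_ae (.of_forall fun z => by simp only; ring)
  rw [e4, e5]
  linear_combination e3

theorem WDb.mul {f f' g g' : ℂ → ℂ} (hf : MemLp f 2 volume) (hf' : MemLp f' 2 volume)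
    (hg : MemLp g 2 volume) (hg' : MemLp g' 2 volume) (h1 : WDb f f') (h2 : WDb g g') :
    WDb (fun z => f z * g z) fun z => f' z * g z + f z * g' z := by
  have := (WD.mul (weak_conj hf) (weak_conj hf') (weak_conj hg) (weak_conj hg') h1.conj
    h2.conj).conj
  simpa only [map_mul, map_add, conj_conj] using this

lemma weak_cd_fderiv {f : ℂ → ℂ} (hf : ContDiff ℝ 2 f) (v : ℂ) :
    ContDiff ℝ 1 fun z => fderiv ℝ f z v :=
  (hf.fderiv_right (m := 1) (by norm_num)).clm_apply contDiff_const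

lemma weak_cd_dz {f : ℂ → ℂ} (hf : ContDiff ℝ 2 f) : ContDiff ℝ 1 (dz f) :=
  ((weak_cd_fderiv hf _).sub (contDiff_const.mul (weak_cd_fderiv hf _))).div_const _

lemma weak_cd_dzb {f : ℂ → ℂ} (hf : ContDiff ℝ 2 f) : ContDiff ℝ 1 (dzb f) :=
  ((weak_cd_fderiv hf _).add (contDiff_const.mul (weak_cd_fderiv hf _))).div_const _

lemma weak_ibp_dz {a b : ℂ → ℂ} (ha : ContDiff ℝ 1 a) (hb : ContDiff ℝ 1 b)
    (hc : HasCompactSupport b) : ∫ z, a z * dz b z = -∫ z, dz a z * b z := by
  have e := integral_dz (ha.mul hb) hc.mul_left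
  simp only [fun z => dz_mul (ha.differentiable one_ne_zero z)
    (hb.differentiable one_ne_zero z)] at e
  have i1 : Integrable fun z => dz a z * b z :=
    ((continuous_dz ha).mul hb.continuous).integrable_of_hasCompactSupport hc.mul_left
  have i2 : Integrable fun z => a z * dz b z :=
    (ha.continuous.mul (continuous_dz hb)).integrable_of_hasCompactSupport (hcs_dz hc).mul_left
  rw [integral_add i1 i2] at e
  linear_combination e

lemma weak_ibp_dzb {a b : ℂ → ℂ} (ha : ContDiff ℝ 1 a) (hb : ContDiff ℝ 1 b)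
    (hc : HasCompactSupport b) : ∫ z, a z * dzb b z = -∫ z, dzb a z * b z := by
  have e := integral_dzb (ha.mul hb) hc.mul_left
  simp only [fun z => dzb_mul (ha.differentiable one_ne_zero z)
    (hb.differentiable one_ne_zero z)] at e
  have i1 : Integrable fun z => dzb a z * b z :=
    ((continuous_dzb ha).mul hb.continuous).integrable_of_hasCompactSupport hc.mul_left
  have i2 : Integrable fun z => a z * dzb b z :=
    (ha.continuous.mul (continuous_dzb hb)).integrable_of_hasCompactSupport (hcs_dzb hc).mul_left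
  rw [integral_add i1 i2] at e
  linear_combination e

theorem norm_dz_eq {f : ℂ → ℂ} (hf : ContDiff ℝ 2 f) (hc : HasCompactSupport f) :
    ∫ z, ‖dzb f z‖ ^ 2 = ∫ z, ‖dz f z‖ ^ 2 := by
  have h1 : ContDiff ℝ 1 fun z => conj (f z) := conjCLE.contDiff.comp (hf.of_le (by norm_num))
  have h2 : HasCompactSupport fun z => conj (f z) :=
    hc.comp_left (g := fun w : ℂ => conj w) (by simp)
  have e1 := weak_ibp_dz (weak_cd_dzb hf) h1 h2
  have e2 := weak_ibp_dzb (weak_cd_dz hf) h1 h2
  simp only [dz_conj, fun z => dz_dzb (f := f) (z := z) hf.contDiffAt, mul_conj'] at e1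
  simp only [dzb_conj, mul_conj'] at e2
  have e3 := e1.trans e2.symm
  simp only [← ofReal_pow, integral_complex_ofReal] at e3
  exact_mod_cast e3

lemma weak_hcs {f : ℂ → ℂ} {K : Set ℂ} (hK : IsCompact K) (h0 : ∀ z ∉ K, f z = 0) {ε : ℝ}
    (hε : 0 < ε) : HasCompactSupport (moll ε f) := by
  refine HasCompactSupport.intro (hK.cthickening (r := ε)) fun x hx => ?_
  rw [moll_congr (H := fun _ => 0) hε fun y hy => h0 y fun hy' =>
    hx (mem_cthickening_of_dist_le x y ε K hy' (by rw [dist_comm]; exact hy))]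
  simp [moll]

theorem beurling {f h : ℂ → ℂ} {K : Set ℂ} (hK : IsCompact K) (h0 : ∀ z ∉ K, f z = 0)
    (hf : MemLp f 2 volume) (hh : MemLp h 2 volume) (hd : WD f h) :
    ∃ h', MemLp h' 2 volume ∧ WDb f h' := by
  have hl : LocallyIntegrable f := hf.locallyIntegrable (by norm_num)
  have hp : ∀ j : ℕ, (0 : ℝ) < 1 / (j + 1) := fun j => by positivity
  have hs : ∀ j : ℕ, ContDiff ℝ 2 (moll (1 / (j + 1)) f) := fun j =>
    contDiff_infty.1 (moll_cd (hp j) hl) 2
  have hs1 : ∀ j : ℕ, ContDiff ℝ 1 (moll (1 / (j + 1)) f) := fun j => (hs j).of_le (by norm_num)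
  have hB : LB (fun j : ℕ => dzb (moll (1 / (j + 1)) f)) (∫ z, ‖h z‖ ^ 2) := fun j => by
    have hc := weak_hcs hK h0 (hp j)
    refine ⟨(continuous_dzb (hs1 j)).memLp_of_hasCompactSupport (hcs_dzb hc), ?_⟩
    simp only
    rw [norm_dz_eq (hs j) hc, WD.moll (hp j) hl hd]
    exact (moll_mem hh _).2
  obtain ⟨s, G, h1, h2⟩ := weak_cpt hB
  refine ⟨G, h2.mem, fun φ hφ hc => ?_⟩
  have ht : Tendsto (fun j : ℕ => (1 / ((s j : ℕ) + 1) : ℝ)) atTop (𝓝[>] 0) :=
    tendsto_nhdsWithin_iff.2 ⟨(tendsto_one_div_add_atTop_nhds_zero_nat (𝕜 := ℝ)).comp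
      h1.tendsto_atTop, .of_forall fun j => hp _⟩
  have t1 := (weak_lim ((continuous_dzb hφ).memLp_of_hasCompactSupport (hcs_dzb hc)) hf).comp ht
  have t2 := (h2.lim φ (hφ.continuous.memLp_of_hasCompactSupport hc)).neg
  have e := tendsto_nhds_unique_of_eventuallyEq t1 t2 (.of_forall fun j => by
    have := weak_ibp_dzb (hs1 (s j)) hφ hc
    simpa only [Function.comp, mul_comm] using this)
  simpa only [mul_comm] using e

/-- The fundamental lemma on an open set. -/
theorem ae_zero_of_test {F : ℂ → ℂ} {O : Set ℂ} (hO : IsOpen O) (hF : LocallyIntegrableOn F O)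
    (h : ∀ φ : ℂ → ℂ, ContDiff ℝ 1 φ → HasCompactSupport φ → tsupport φ ⊆ O →
      ∫ z, φ z * F z = 0) : ∀ᵐ z, z ∈ O → F z = 0 := by
  refine hO.ae_eq_zero_of_integral_contDiff_smul_eq_zero hF fun g h1 h2 h3 => ?_
  have := h (fun z => (g z : ℂ)) (ofRealCLM.contDiff.comp (h1.of_le (by simp)))
    (h2.comp_left (g := fun t : ℝ => (t : ℂ)) (by simp))
    ((tsupport_comp_subset (g := fun t : ℝ => (t : ℂ)) (by simp) g).trans h3)
  simpa only [real_smul] using this

end Pool.Agent.Lib.MP_a52643_an.CP
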