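import Pool.Agent.Lib.MP_a52643_an.CP.LimA
import Pool.Agent.Lib.MP_a52643_an.CP.DcLim
import Pool.Agent.Lib.MP_a52643_an.CP.Weak

/-!
The limit system.
-/

open Complex MeasureTheory Set Filter Topology Metric
open scoped ComplexConjugate ContDiff ENNReal

noncomputable section

namespace Pool.Agent.Lib.MP_a52643_an.CP

variable {σ : ℂ → ℝ} {M : ℝ} {V : ℕ → ℂ → ℂ} {R r : ℕ → ℂ → ℝ}

theorem LimB_sq {f : ℂ → ℂ} (h : MemLp f 2 volume) : Integrable fun z => ‖f z‖ ^ 2 :=
  (memLp_two_iff_integrable_sq_norm h.1).1 h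

theorem LimB_add {f g : ℕ → ℂ → ℂ} (hf : ∃ B, LB f B) (hg : ∃ B, LB g B) :
    ∃ B, LB (fun j z => f j z + g j z) B := by
  obtain ⟨a, ha⟩ := hf
  obtain ⟨b, hb⟩ := hg
  refine ⟨2 * a + 2 * b, fun j => ⟨(ha j).1.add (hb j).1, ?_⟩⟩
  have h1 := LimB_sq (ha j).1
  have h2 := LimB_sq (hb j).1
  have h3 := integral_mono (LimB_sq ((ha j).1.add (hb j).1))
    ((h1.const_mul 2).add (h2.const_mul 2)) fun z => by
      have := norm_add_le (f j z) (g j z)
      have h0 := norm_nonneg (f j z + g j z)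
      simp only [Pi.add_apply]
      nlinarith [sq_nonneg (‖f j z‖ - ‖g j z‖)]
  simp only [Pi.add_apply] at h3
  rw [integral_add (h1.const_mul 2) (h2.const_mul 2), integral_const_mul, integral_const_mul] at h3
  linarith [(ha j).2, (hb j).2]

theorem LimB_conj {f : ℕ → ℂ → ℂ} (hf : ∃ B, LB f B) : ∃ B, LB (fun j z => conj (f j z)) B :=
  hf.imp fun _ h j => ⟨(h j).1.star, by simpa only [norm_conj] using (h j).2⟩

theorem LimB_neg {f : ℕ → ℂ → ℂ} (hf : ∃ B, LB f B) : ∃ B, LB (fun j z => -f j z) B :=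
  hf.imp fun _ h j => ⟨(h j).1.neg, by simpa only [norm_neg] using (h j).2⟩

theorem LimB_cut {φ : ℂ → ℂ} {F : ℕ → ℂ → ℂ} {L : Set ℂ} {C : ℝ} (hφ : Continuous φ) (hL : Cp L)
    (hs : tsupport φ ⊆ L) (hF : ∀ j, ContinuousOn (F j) UH)
    (h : ∀ j, ∫ z in L, ‖F j z‖ ^ 2 ≤ C) : ∃ B, LB (fun j z => φ z * F j z) B := by
  have hc : HasCompactSupport φ := hL.1.of_isClosed_subset (isClosed_tsupport _) hs
  obtain ⟨a, ha⟩ := hφ.bounded_above_of_compact_support hc
  refine ⟨a ^ 2 * C, fun j => ?_⟩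
  have m := (cut_cont hφ (hs.trans hL.2) (hF j)).memLp_of_hasCompactSupport (p := 2) (μ := volume)
    hc.mul_right
  refine ⟨m, ?_⟩
  rw [← setIntegral_eq_integral_of_forall_compl_eq_zero (s := L) fun z hz => by
    simp [image_eq_zero_of_notMem_tsupport fun h' => hz (hs h')]]
  refine le_trans ?_ (mul_le_mul_of_nonneg_left (h j) (sq_nonneg a))
  rw [← integral_const_mul]
  refine integral_mono (LimB_sq m).integrableOn
    (((((hF j).mono hL.2).norm.pow 2).integrableOn_compact hL.1).const_mul _) fun z => ?_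
  simp only [norm_mul, mul_pow]
  exact mul_le_mul_of_nonneg_right (pow_le_pow_left₀ (norm_nonneg _) (ha z) 2) (sq_nonneg _)

theorem LimB_cut' {φ : ℂ → ℂ} {F : ℕ → ℂ → ℂ} {L : Set ℂ} {C : ℝ} (hφ : Continuous φ) (hL : Cp L)
    (hs : tsupport φ ⊆ L) (hF : ∀ j, ContinuousOn (F j) UH)
    (h : ∀ j, ∀ z ∈ L, ‖F j z‖ ≤ C) : ∃ B, LB (fun j z => φ z * F j z) B :=
  LimB_cut (C := C ^ 2 * volume.real L) hφ hL hs hF fun j => (le_abs_self _).trans
    (norm_setIntegral_le_of_norm_le_const (f := fun z => ‖F j z‖ ^ 2) hL.1.measure_lt_top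
      fun z hz => by
        rw [Real.norm_of_nonneg (sq_nonneg _)]
        exact pow_le_pow_left₀ (norm_nonneg _) (h j z hz) 2)

theorem LimB_wconj {g : ℕ → ℂ → ℂ} {G : ℂ → ℂ} (h : WL g G) :
    WL (fun j z => conj (g j z)) fun z => conj (G z) := by
  refine ⟨h.mem.star, fun φ hφ => ?_⟩
  have e : ∀ f : ℂ → ℂ, ∫ z, φ z * conj (f z) = conj (∫ z, conj (φ z) * f z) := fun f => by
    rw [← integral_conj]
    simp only [map_mul, conj_conj]
  simp only [e]
  exact (continuous_conj.tendsto _).comp (h.lim _ hφ.star)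

theorem LimB_wneg {g : ℕ → ℂ → ℂ} {G : ℂ → ℂ} (h : WL g G) :
    WL (fun j z => -g j z) fun z => -G z :=
  ⟨h.mem.neg, fun φ hφ => by simpa only [mul_neg, integral_neg] using (h.lim φ hφ).neg⟩

theorem LimB_wsub {g : ℕ → ℂ → ℂ} {G : ℂ → ℂ} (h : WL g G) {s : ℕ → ℕ} (hs : StrictMono s) :
    WL (fun j => g (s j)) G := ⟨h.mem, fun φ hφ => (h.lim φ hφ).comp hs.tendsto_atTop⟩

theorem LimB_dc {U U' W W' : ℕ → ℂ → ℂ} {u u' w w' χ : ℂ → ℂ}
    (cU : ∀ j, ContDiff ℝ 1 (U j)) (cU' : ∀ j, ContDiff ℝ 1 (U' j))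
    (cW : ∀ j, ContDiff ℝ 1 (W j)) (cW' : ∀ j, ContDiff ℝ 1 (W' j))
    (b1 : ∃ B, LB U B) (b2 : ∃ B, LB U' B) (b3 : ∃ B, LB (fun j => eP (U j) (U' j)) B)
    (b4 : ∃ B, LB W B) (b5 : ∃ B, LB W' B) (b6 : ∃ B, LB (fun j => eP (W j) (W' j)) B)
    (l1 : WL U u) (l2 : WL U' u') (l3 : WL W w) (l4 : WL W' w')
    (hχ : ContDiff ℝ 1 χ) (hc : HasCompactSupport χ) :
    Tendsto (fun j => ∫ z, χ z * (W j z * U' j z - W' j z * U j z)) atTop
      (𝓝 (∫ z, χ z * (w z * u' z - w' z * u z))) := by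
  obtain ⟨B1, b1⟩ := b1
  obtain ⟨B2, b2⟩ := b2
  obtain ⟨B3, b3⟩ := b3
  obtain ⟨B4, b4⟩ := b4
  obtain ⟨B5, b5⟩ := b5
  obtain ⟨B6, b6⟩ := b6
  have m : ∀ {g : ℕ → ℂ → ℂ} {B B' : ℝ}, LB g B → B ≤ B' → LB g B' := fun h hB j =>
    ⟨(h j).1, (h j).2.trans hB⟩
  exact dc_lim (B := max B1 (max B2 (max B3 (max B4 (max B5 B6))))) cU cU' cW cW'
    (m b1 (by simp)) (m b2 (by simp)) (m b3 (by simp)) (m b4 (by simp)) (m b5 (by simp))
    (m b6 (by simp)) l1 l2 l3 l4 hχ hc

theorem LimB_dz {φ A : ℂ → ℂ} (h : Ts φ) (hA : ContDiffOn ℝ 1 A UH) (z : ℂ) :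
    dz (fun z => φ z * A z) z = dz φ z * A z + φ z * dz A z := by
  by_cases hz : z ∈ UH
  · exact dz_mul (h.cd.differentiable one_ne_zero z) (dAt1 hA hz)
  · have h1 : z ∉ tsupport φ := fun h' => hz (h.sub h')
    rw [image_eq_zero_of_notMem_tsupport h1,
      image_eq_zero_of_notMem_tsupport fun h' => h1 (tsupport_dz φ h'),
      image_eq_zero_of_notMem_tsupport fun h' => hz ((h.mul hA).sub (tsupport_dz _ h'))]
    simp

theorem LimB_dzb {φ A : ℂ → ℂ} (h : Ts φ) (hA : ContDiffOn ℝ 1 A UH) (z : ℂ) :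
    dzb (fun z => φ z * A z) z = dzb φ z * A z + φ z * dzb A z := by
  by_cases hz : z ∈ UH
  · exact dzb_mul (h.cd.differentiable one_ne_zero z) (dAt1 hA hz)
  · have h1 : z ∉ tsupport φ := fun h' => hz (h.sub h')
    rw [image_eq_zero_of_notMem_tsupport h1,
      image_eq_zero_of_notMem_tsupport fun h' => h1 (tsupport_dzb φ h'),
      image_eq_zero_of_notMem_tsupport fun h' => hz ((h.mul hA).sub (tsupport_dzb _ h'))]
    simp

theorem LimB_cd {f : ℂ → ℂ} (h : ContDiff ℝ ∞ f) : ContDiff ℝ 1 (dzb f) := by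
  have h1 : ∀ v, ContDiff ℝ 1 fun z => fderiv ℝ f z v := fun v =>
    (h.fderiv_right (m := 1) (by norm_cast)).clm_apply contDiff_const
  exact ((h1 _).add (contDiff_const.mul (h1 _))).div_const _

theorem LimB_mem {φ : ℂ → ℂ} (h : Continuous φ) (hc : HasCompactSupport φ) : MemLp φ 2 volume :=
  h.memLp_of_hasCompactSupport hc

/-- Two functions that vanish off the support of `φ` and agree on it. -/
theorem LimB_loc {φ F G : ℂ → ℂ} (h : ∀ z ∈ tsupport φ, F z = G z)
    (h' : ∀ z, φ z = 0 → dz φ z = 0 → dzb φ z = 0 → F z = G z) : ∫ z, F z = ∫ z, G z := by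
  congr 1
  funext z
  by_cases hz : z ∈ tsupport φ
  · exact h z hz
  · exact h' z (image_eq_zero_of_notMem_tsupport hz)
      (image_eq_zero_of_notMem_tsupport fun h' => hz (tsupport_dz φ h'))
      (image_eq_zero_of_notMem_tsupport fun h' => hz (tsupport_dzb φ h'))

theorem LimB_four {a b c d : ℂ → ℂ} (ha : Integrable a) (hb : Integrable b) (hc : Integrable c)
    (hd : Integrable d) : (∫ z, a z) + (∫ z, b z) + (∫ z, c z) + ∫ z, d z =
      ∫ z, (a z + b z + c z + d z) :=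
  ((integral_add ((ha.add hb).add hc) hd).trans (congrArg (· + _)
    ((integral_add (ha.add hb) hc).trans (congrArg (· + _) (integral_add ha hb))))).symm

section cut

variable {k : ℂ → ℝ}

theorem LimB_bounds (h : LimD σ M V R r) (hT : Ts (rC k)) :
    (∃ B, LB (fun j z => rC k z * V j z) B) ∧ (∃ B, LB (fun j z => rC k z * rC (R j) z) B) ∧
    (∃ B, LB (fun j => eP (fun z => rC k z * V j z) fun z => rC k z * rC (R j) z) B) ∧
    ∃ B, LB (fun j => dzb fun z => rC k z * rC (r j) z) B := by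
  have hL : Cp (tsupport (rC k)) := ⟨hT.cs, hT.sub⟩
  obtain ⟨Y, hY⟩ := hL.1.exists_bound_of_continuousOn (f := fun z => M * z.im ^ 2) (by fun_prop)
  obtain ⟨C, hC⟩ := h.en _ hL
  have bV : ∀ j, ∀ z ∈ tsupport (rC k), ‖V j z‖ ≤ Y := fun j z hz => by
    rw [h.nV j z (hL.2 hz)]
    exact (h.bR j z (hL.2 hz)).trans ((le_abs_self _).trans (hY z hz))
  have bR : ∀ j, ∀ z ∈ tsupport (rC k), ‖rC (R j) z‖ ≤ Y := fun j z hz => by
    rw [rC, ← h.nV j z (hL.2 hz), norm_real, norm_norm]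
    exact bV j z hz
  have br : ∀ j, ∀ z ∈ tsupport (rC k), ‖rC (r j) z‖ ≤ M := fun j z hz => by
    rw [rC, norm_real, Real.norm_of_nonneg (h.br j z (hL.2 hz)).1]
    exact (h.br j z (hL.2 hz)).2
  have cV := fun j => cd1 (h.cV j)
  have cR := fun j => cd1 (cd_rC (h.cR j))
  have cr := fun j => cd1 (cd_rC (h.cr j))
  have c0 := hT.cd.continuous
  refine ⟨LimB_cut' c0 hL subset_rfl (fun j => (cV j).continuousOn) bV,
    LimB_cut' c0 hL subset_rfl (fun j => (cR j).continuousOn) bR, ?_, ?_⟩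
  · have := LimB_add (LimB_cut c0 hL subset_rfl (fun j => co_eP (cV j) (cR j)) fun j => (hC j).1)
      (LimB_add (LimB_cut' (continuous_dz hT.cd) hL (tsupport_dz _)
        (fun j => (cV j).continuousOn) bV) (LimB_cut' (continuous_dzb hT.cd) hL (tsupport_dzb _)
        (fun j => (cR j).continuousOn) bR))
    refine (congrArg (fun g => ∃ B, LB g B) (funext fun j => funext fun z => ?_)).mpr this
    rw [eP, eP, LimB_dz hT (cV j), LimB_dzb hT (cR j)]
    ring
  · have := LimB_add (LimB_cut' (continuous_dzb hT.cd) hL (tsupport_dzb _)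
      (fun j => (cr j).continuousOn) br)
      (LimB_cut c0 hL subset_rfl (fun j => co_dzb (cr j)) fun j => (hC j).2)
    exact (congrArg (fun g => ∃ B, LB g B)
      (funext fun j => funext fun z => LimB_dzb hT (cr j) z)).mpr this

theorem LimB_inv (hσ : Met σ) : ContDiffOn ℝ ∞ (fun z => (rC σ z)⁻¹) UH :=
  (cd_rC hσ.cd).inv fun _ hz => hσ.ne hz

theorem LimB_R (hσ : Met σ) (h : LimD σ M V R r) (hT : Ts (rC k)) {ρ : ℂ → ℝ}
    (hl : WL (fun j z => rC k z * (rC σ z)⁻¹ * r j z) fun z => rC k z * (rC σ z)⁻¹ * ρ z) :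
    WL (fun j z => rC k z * rC (R j) z) fun z => rC k z * (rC σ z)⁻¹ * ρ z := by
  obtain ⟨B, hB⟩ := (LimB_bounds h hT).2.1
  refine WL.of_test hB hl.mem fun φ hφ hc => ?_
  have hψ := hT.mul (hφ.contDiffOn.mul (cd1 (LimB_inv hσ)))
  have h1 := (h.h3 _ hψ).add (hl.lim φ (LimB_mem hφ.continuous hc))
  rw [zero_add] at h1
  refine h1.congr fun j => ?_
  have c1 := (cd_rC (h.cR j)).continuousOn
  have c2 := (cd_rC (h.cr j)).continuousOn
  refine (integral_add (hψ.int (((cd_rC hσ.cd).continuousOn.mul c1).sub c2))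
    ((hψ.int c2).congr (Eventually.of_forall fun z => by simp only [rC]; ring))).symm.trans ?_
  refine LimB_loc (φ := rC k) (fun z hz => ?_) fun z h0 _ _ => by simp [h0]
  have := hσ.ne (hT.sub hz)
  simp only [rC, Pi.sub_apply, Pi.mul_apply]
  field_simp
  ring

theorem LimB_main (hσ : Met σ) (h : LimD σ M V R r) {v D : ℂ → ℂ} {ρ : ℂ → ℝ}
    (h0 : ∀ᵐ z, z ∈ UH → 0 ≤ ρ z) (hl : ∀ χ, Ts χ →
      WL (fun j z => χ z * V j z) (fun z => χ z * v z) ∧
      WL (fun j z => χ z * r j z) fun z => χ z * ρ z) {K : Set ℂ} (hK : Cp K)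
    (hk : ContDiff ℝ ∞ (rC k)) (hT : Ts (rC k)) (h1 : ∀ z ∈ K, rC k =ᶠ[𝓝 z] 1)
    (hD : WL (fun j => dzb fun z => rC k z * rC (r j) z) D) : LimS σ v ρ (interior K) D := by
  obtain ⟨b1, b2, b3, b4⟩ := LimB_bounds h hT
  have cτ := LimB_inv hσ
  have l1 := (hl _ hT).1
  have l2 := LimB_R hσ h hT (hl _ (hT.mul (cd1 cτ))).2
  have l3 := (hl _ hT).2
  have cV := fun j => cd1 (h.cV j)
  have cR := fun j => cd1 (cd_rC (h.cR j))
  have cr := fun j => cd1 (cd_rC (h.cr j))
  have k1 : ∀ z ∈ interior K, rC k z = 1 := fun z hz => (h1 z (interior_subset hz)).self_of_nhds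
  have k2 : ∀ j, ∀ z ∈ interior K, dzb (fun z => rC k z * rC (r j) z) z = gr (r j) z :=
    fun j z hz => dzb_congr ((h1 z (interior_subset hz)).mono fun w hw => by simp [hw])
  have kU : ∀ z ∈ interior K, z ∈ UH := fun z hz => hK.2 (interior_subset hz)
  have cC : ∀ j, ContDiff ℝ ∞ fun z => rC k z * rC (r j) z := fun j =>
    cut_cd hk hT.sub (cd_rC (h.cr j))
  have dr : ∀ φ, Ts φ → tsupport φ ⊆ interior K →
      ∫ z, ρ z * dzb φ z = -∫ z, D z * φ z := fun φ hφ hs => by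
    have t1 := hD.lim φ (LimB_mem hφ.cd.continuous hφ.cs)
    have t2 := (l3.lim _ (LimB_mem (continuous_dzb hφ.cd) (hcs_dzb hφ.cs))).neg
    have e := tendsto_nhds_unique t1
      (t2.congr fun j => (hφ.ibp_dzb ((cC j).of_le (by simp)).contDiffOn).symm)
    simp only [mul_comm (D _)]
    rw [e, neg_neg]
    exact LimB_loc (φ := φ) (fun z hz => by rw [k1 z (hs hz)]; ring) fun z _ _ a => by simp [a]
  refine ⟨hD.mem, dr, fun φ hφ hs => ?_, ?_, ?_⟩
  · have cg := cd_gr hσ.cd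
    have p1 := hφ.mul (cd1 cτ)
    have p2 := p1.mul (cd1 (cτ.mul cg))
    have p3 := p1.mul (cd1 (cd_conj cg))
    have m1 := LimB_mem p1.cd.continuous p1.cs
    have m2 := LimB_mem p2.cd.continuous p2.cs
    have m3 := LimB_mem p3.cd.continuous p3.cs
    have m4 := LimB_mem (continuous_dz hφ.cd) (hcs_dz hφ.cs)
    have m5 := LimB_mem (continuous_dzb hφ.cd) (hcs_dzb hφ.cs)
    have t := (((((l1.lim _ m4).add (l2.lim _ m5)).neg.add (hD.lim _ m1)).add (l3.lim _ m2)).add
      ((l1.lim _ m3).const_mul 2))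
    have e := tendsto_nhds_unique (h.h4 _ p1) (t.congr fun j => by
      have i1 := hφ.int (co_eP (cV j) (cR j))
      have i2 := p1.int (co_dzb ((cC j).of_le (by simp)).contDiffOn)
      have i3 := p2.int (hT.mul (cr j)).cd.continuous.continuousOn
      have i4 := (p3.int (hT.mul (cV j)).cd.continuous.continuousOn).const_mul 2
      have e1 : -((∫ z, dz φ z * (rC k z * V j z)) + ∫ z, dzb φ z * (rC k z * rC (R j) z)) =
          ∫ z, φ z * eP (V j) (rC (R j)) z := by
        rw [hφ.ibp (cV j) (cR j), ← integral_add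
          (hφ.int_dz (hT.mul (cV j)).cd.continuous.continuousOn)
          (hφ.int_dzb (hT.mul (cR j)).cd.continuous.continuousOn)]
        exact congrArg _ (LimB_loc (φ := φ) (fun z hz => by rw [k1 z (hs hz)]; ring)
          fun z _ a b => by simp [a, b])
      rw [e1, ← integral_const_mul]
      refine (LimB_four i1 i2 i3 i4).trans ?_
      refine LimB_loc (φ := φ) (fun z hz => ?_) fun z a _ _ => by simp [a]
      have := hσ.ne (hφ.sub hz)
      rw [k2 j z (hs hz), k1 z (hs hz)]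
      simp only [rC]
      field_simp)
    have e2 := dr _ p1 (tsupport_mul_subset_left.trans hs)
    have e3 : ∫ z, ρ z * dzb (fun z => φ z * (rC σ z)⁻¹) z =
        (∫ z, dzb φ z * (rC k z * (rC σ z)⁻¹ * ρ z)) -
          ∫ z, φ z * (rC σ z)⁻¹ * ((rC σ z)⁻¹ * gr σ z) * (rC k z * ρ z) := by
      rw [← integral_sub (cs_le m5 l2.mem).1 (cs_le m2 l3.mem).1]
      refine LimB_loc (φ := φ) (fun z hz => ?_) fun z a _ b => by
        simp [LimB_dzb hφ (cd1 cτ), a, b]
      have hz' := hφ.sub hz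
      have a1 := hσ.ne hz'
      have a2 := dzb_mul (dAt (cd_rC hσ.cd) hz') (dAt cτ hz')
      rw [dzb_congr (f := fun w => rC σ w * (rC σ w)⁻¹) (g := fun _ => 1)
        (mem_of_superset (UH_nhds hz') fun w hw => mul_inv_cancel₀ (hσ.ne hw)), dzb_const] at a2
      have a3 : dzb (fun z => (rC σ z)⁻¹) z = -((rC σ z)⁻¹ * ((rC σ z)⁻¹ * gr σ z)) := by
        have a4 : (rC σ z)⁻¹ * rC σ z = 1 := inv_mul_cancel₀ a1
        rw [gr]
        linear_combination (-(rC σ z)⁻¹) * a2 - dzb (fun z => (rC σ z)⁻¹) z * a4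
      rw [LimB_dzb hφ (cd1 cτ), a3, k1 z (hs hz)]
      ring
    have e4 : ∫ z, (-2 * D z / σ z - 2 * v z * conj (gr σ z) / σ z) * φ z =
        -2 * (∫ z, φ z * (rC σ z)⁻¹ * D z) -
          2 * ∫ z, φ z * (rC σ z)⁻¹ * conj (gr σ z) * (rC k z * v z) := by
      rw [← integral_const_mul, ← integral_const_mul, ← integral_sub
        ((cs_le m1 hD.mem).1.const_mul _) ((cs_le m3 l1.mem).1.const_mul _)]
      refine LimB_loc (φ := φ) (fun z hz => ?_) fun z a _ _ => by simp [a]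
      rw [k1 z (hs hz)]
      simp only [rC]
      ring
    have e5 : ∫ z, v z * dz φ z = ∫ z, dz φ z * (rC k z * v z) :=
      LimB_loc (φ := φ) (fun z hz => by rw [k1 z (hs hz)]; ring) fun z _ a _ => by simp [a]
    simp only [mul_comm (D _)] at e2
    rw [e4, e5]
    linear_combination e - e2 + e3
  · have e : ∀ j, eP (fun z => rC k z * rC (R j) z) (fun z => conj (rC k z * V j z)) =
        fun z => conj (eP (fun z => rC k z * V j z) (fun z => rC k z * rC (R j) z) z) :=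
      fun j => by
        funext z
        rw [eP, eP, map_add, ← dzb_conj, ← dz_conj, add_comm]
        simp only [rC, map_mul, conj_ofReal]
    have a := ae_zero_of_test isOpen_interior
      (((cs_le l2.mem l2.mem).1.sub (cs_le (LimB_wconj l1).mem l1.mem).1).locallyIntegrable
        |>.locallyIntegrableOn (interior K)) fun φ hφ hc _ => by
      have t := LimB_dc (fun j => (hT.mul (cV j)).cd) (fun j => (hT.mul (cR j)).cd)
        (fun j => (hT.mul (cR j)).cd) (fun j => conjCLE.contDiff.comp (hT.mul (cV j)).cd)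
        b1 b2 b3 b2 (LimB_conj b1)
        ((congrArg (fun g => ∃ B, LB g B) (funext e)).mpr (LimB_conj b3)) l1 l2 l2
        (LimB_wconj l1) hφ hc
      refine tendsto_nhds_unique t (tendsto_const_nhds.congr fun j => ?_)
      rw [← integral_zero ℂ ℂ (μ := volume)]
      refine LimB_loc (φ := rC k) (fun z hz => ?_) fun z a _ _ => by simp [a]
      have a1 := conj_mul' (V j z)
      rw [h.nV j z (hT.sub hz)] at a1
      simp only [rC, Function.comp_apply, conjCLE_apply, map_mul, conj_ofReal]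
      linear_combination (φ z * (k z : ℂ) ^ 2) * a1
    filter_upwards [a, h0] with z a1 a2 hz
    have a3 := a1 hz
    simp only [Pi.sub_apply, k1 z hz, one_mul, conj_mul'] at a3
    rw [rC] at a3
    have a4 : (ρ z / σ z) ^ 2 = ‖v z‖ ^ 2 := by
      have : (((ρ z / σ z) ^ 2 : ℝ) : ℂ) = (‖v z‖ ^ 2 : ℝ) := by
        push_cast
        linear_combination a3
      exact_mod_cast this
    exact ((pow_left_inj₀ (div_nonneg (a2 (kU z hz)) (hσ.pos z (kU z hz)).le) (norm_nonneg _)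
      two_ne_zero).1 a4).symm
  · have e : ∀ j, eP (dzb fun z => rC k z * rC (r j) z)
        (fun z => -conj (dzb (fun z => rC k z * rC (r j) z) z)) = fun _ => 0 := fun j => by
      funext z
      have a1 : (fun z => -conj (dzb (fun z => rC k z * rC (r j) z) z)) =
          fun z => -1 * dz (fun z => rC k z * rC (r j) z) z := by
        funext w
        rw [← dz_conj]
        simp only [rC, map_mul, conj_ofReal, neg_mul, one_mul]
      have a2 : dz (fun z => rC k z * rC (r j) z) =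
          fun z => conj (dzb (fun z => rC k z * rC (r j) z) z) := by
        funext w
        rw [← dz_conj]
        simp only [rC, map_mul, conj_ofReal]
      rw [eP, a1, dzb_cmul, dz_dzb ((cC j).of_le (by norm_cast)).contDiffAt]
      · ring
      · rw [a2]
        exact (conjCLE.contDiff.comp (LimB_cd (cC j))).differentiable one_ne_zero z
    have l4 := LimB_wneg (LimB_wconj hD)
    have a := ae_zero_of_test isOpen_interior
      (((cs_le hD.mem l2.mem).1.sub (cs_le l4.mem l1.mem).1).locallyIntegrable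
        |>.locallyIntegrableOn (interior K)) fun φ hφ hc hs => by
      have t := LimB_dc (fun j => (hT.mul (cV j)).cd) (fun j => (hT.mul (cR j)).cd)
        (fun j => LimB_cd (cC j)) (fun j => (conjCLE.contDiff.comp (LimB_cd (cC j))).neg)
        b1 b2 b3 b4 (LimB_neg (LimB_conj b4))
        ⟨0, fun j => by
          have := e j
          simp only [Function.comp_apply, conjCLE_apply, this]
          simp⟩ l1 l2 hD l4 hφ hc
      refine tendsto_nhds_unique t ((h.h5 φ ⟨hφ, hc, fun z hz => kU z (hs hz)⟩).congr fun j => ?_)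
      refine LimB_loc (φ := φ) (fun z hz => ?_) fun z a _ _ => by simp [a]
      simp only [Function.comp_apply, conjCLE_apply, k2 j z (hs hz), k1 z (hs hz)]
      simp only [rC]
      ring
    filter_upwards [a] with z a1 hz
    have a3 := a1 hz
    simp only [Pi.sub_apply, k1 z hz, one_mul] at a3
    rw [rC] at a3
    linear_combination a3

end cut

theorem limB (hσ : Met σ) (h : LimD σ M V R r) {v : ℂ → ℂ} {ρ : ℂ → ℝ} (hv : Lb v)
    (hρ : Lb (rC ρ)) (h0 : ∀ᵐ z, z ∈ UH → 0 ≤ ρ z) (hl : ∀ χ, Ts χ →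
      WL (fun j z => χ z * V j z) (fun z => χ z * v z) ∧
      WL (fun j z => χ z * r j z) fun z => χ z * ρ z) {K : Set ℂ} (hK : Cp K) :
    ∃ D, LimS σ v ρ (interior K) D := by
  obtain ⟨k, k1, k2, k3, -, k5⟩ := exists_cut hK.1 isOpen_UH hK.2
  have hk : ContDiff ℝ ∞ (rC k) := ofRealCLM.contDiff.comp k1
  have hT : Ts (rC k) := ⟨hk.of_le (by simp), k2.comp_left ofReal_zero,
    (tsupport_comp_subset ofReal_zero k).trans k3⟩
  obtain ⟨B, hB⟩ := (LimB_bounds h hT).2.2.2
  obtain ⟨s, D, hs, hD⟩ := weak_cpt hB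
  exact ⟨D, LimB_main hσ (h.sub hs) h0
    (fun χ hχ => ⟨LimB_wsub (hl χ hχ).1 hs, LimB_wsub (hl χ hχ).2 hs⟩) hK hk hT
    (fun z hz => (k5 z hz).mono fun w hw => by simp [rC, hw]) hD⟩

end Pool.Agent.Lib.MP_a52643_an.CP
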