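import Pool.Agent.Lib.MP_a52643_an.CP.Fam
import Pool.Agent.Lib.MP_a52643_an.CP.Iter
import Pool.Agent.Lib.MP_a52643_an.CP.CoreB
import Pool.Agent.Lib.MP_a52643_an.CP.Lim

/-!
The number of critical points tends to infinity.
-/

open Complex MeasureTheory Set Filter Topology Metric
open scoped ComplexConjugate ContDiff ENNReal

noncomputable section

namespace Pool.Agent.Lib.MP_a52643_an.CP

variable {Γ : Type} [Group Γ] {m : Γ → ℂ → ℂ} {K K₀ : Set ℂ}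


lemma Main_pos (h : Act m) (h0 : Cp K₀) (hv : 0 < volume.real K₀)
    (cov : ∀ z ∈ UH, ∃ γ, m γ z ∈ K₀) {ρ : ℂ → ℝ}
    (hρ : Met ρ) (iρ : Iv m ρ) (N : ℕ) : ∃ L : ℝ, ∀ (u : ℂ → ℝ) (lam : ℝ),
      Eg (fun z => ρ z / z.im ^ 2) u lam → Iv m u → L ≤ lam → ¬Few m N u := by
  by_contra hcon
  have hcon' : ∀ j : ℕ, ∃ (u : ℂ → ℝ) (lam : ℝ), Eg (fun z => ρ z / z.im ^ 2) u lam ∧ Iv m u ∧
      (j : ℝ) ≤ lam ∧ Few m N u := fun j => by
    by_contra h'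
    exact hcon ⟨j, fun u lam a b c d => h' ⟨u, lam, a, b, c, d⟩⟩
  choose u lam hE hI hL hF using hcon'
  have hσ : Met fun z => ρ z / z.im ^ 2 :=
    ⟨hρ.cd.div ((imCLM.contDiff.pow 2).contDiffOn) fun z hz => pow_ne_zero 2 (ne_of_gt hz),
      fun z hz => div_pos (hρ.pos z hz) (pow_pos hz 2)⟩
  obtain ⟨γ₀, hγ₀⟩ := cov I (by simp [UH])
  obtain ⟨x, hx, hmin⟩ := h0.1.exists_isMinOn ⟨_, hγ₀⟩ (hρ.cd.continuousOn.mono h0.2)
  have hb : ∀ z ∈ UH, ρ x ≤ ρ z / z.im ^ 2 * z.im ^ 2 := fun z hz => by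
    obtain ⟨γ, hγ⟩ := cov z hz
    rw [div_mul_cancel₀ _ (pow_ne_zero 2 (ne_of_gt hz)), ← iρ γ z hz]
    exact hmin hγ
  obtain ⟨CE, CM, hfam⟩ := family h h0 cov hρ iρ N
  obtain ⟨δ₀, δ0, hit⟩ := iter hσ h0 CE CM
  obtain ⟨n, hn⟩ := count h h0 N
  have dp : 0 < min δ₀ (volume.real K₀ / 2) := lt_min δ0 (half_pos hv)
  have hsc : ∀ j, ∃ c : ℝ, c ≠ 0 ∧
      ms (fun z => ρ z / z.im ^ 2) (fun z => c * u j z) (lam j) K₀ 1
        ≤ min δ₀ (volume.real K₀ / 2) ∧ min δ₀ (volume.real K₀ / 2) ≤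
      ms (fun z => ρ z / z.im ^ 2) (fun z => c * u j z) (lam j) K₀ 2 := fun j => by
    obtain ⟨P, -, hP⟩ := hn _ (hF j)
    exact exists_scale hσ (hE j) h0 (P.finite_toSet.subset fun z hz => hP z hz.1 hz.2) dp
      ((min_le_right _ _).trans_lt (half_lt_self hv))
  choose c c0 c1 c2 using hsc
  have hS : ∀ j, Sol (fun z => ρ z / z.im ^ 2) K₀ CE CM (fun z => c j * u j z) (lam j) :=
    fun j => hfam _ _ ((hE j).smul _) (fun γ z hz => by simp only [hI j γ z hz])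
      ((hF j).smul (hE j).cd (c0 j))
  have hl : Tendsto lam atTop atTop := tendsto_atTop_mono hL tendsto_natCast_atTop_atTop
  have hm := hit _ _ hS hl fun j => (c1 j).trans (min_le_left _ _)
  obtain ⟨M, hD⟩ := core hσ (hρ.pos x (h0.2 hx)) hb h0 hS hl hm
  refine lim_false hσ (hρ.pos x (h0.2 hx)) hb hD h0 (δ := min δ₀ (volume.real K₀ / 2) / 8)
    (by positivity) ?_
  filter_upwards [hm.eventually (gt_mem_nhds (half_pos dp))] with j hj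
  have := core_mass (lam := lam j) hσ h0 (hS j).eg.cd
  have := c2 j
  linarith

theorem main (h : Act m) (h0 : Cp K₀) (cov : ∀ z ∈ UH, ∃ γ, m γ z ∈ K₀) {ρ : ℂ → ℝ}
    (hρ : Met ρ) (iρ : Iv m ρ) (N : ℕ) : ∃ L : ℝ, ∀ (u : ℂ → ℝ) (lam : ℝ),
      Eg (fun z => ρ z / z.im ^ 2) u lam → Iv m u → L ≤ lam → ¬Few m N u := by
  obtain ⟨K₁, h1, hs⟩ := Lim_nbhd h0
  obtain ⟨γ₀, hγ₀⟩ := cov I (by simp [UH])
  refine Main_pos h h1 ?_ (fun z hz => (cov z hz).imp fun γ hγ => interior_subset (hs hγ))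
    hρ iρ N
  exact ENNReal.toReal_pos (Measure.measure_pos_of_nonempty_interior _ ⟨_, hs hγ₀⟩).ne'
    h1.1.measure_lt_top.ne

end Pool.Agent.Lib.MP_a52643_an.CP
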