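import Pool.Agent.Lib.MP_a52643_an.CP.Defs

/-!
The mollifier as an integral operator.
-/

open Complex MeasureTheory Set Filter Topology Metric
open scoped ComplexConjugate ContDiff ENNReal Convolution

noncomputable section

namespace Pool.Agent.Lib.MP_a52643_an.CP

lemma moll1_hk : ContDiff ℝ ∞ fun a => (hk a : ℂ) := by
  have h1 : ContDiff ℝ ∞ bet :=
    Real.smoothTransition.contDiff.comp ((contDiff_const.mul contDiff_id).sub contDiff_const)
  have h2 : ContDiff ℝ ∞ (normSq : ℂ → ℝ) :=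
    contDiffOn_univ.1 (cd_normSq (f := fun z => z) contDiffOn_id)
  exact ofRealCLM.contDiff.comp (((contDiff_infty_iff_deriv.1 h1).2.comp h2).div_const cH)

lemma moll1_ker (ε : ℝ) (x : ℂ) :
    ker ε x = fun y => ((ε : ℂ) ^ 2)⁻¹ * (hk (ε⁻¹ • (y - x)) : ℂ) := by
  funext y
  simp [ker, div_eq_inv_mul]

theorem ker_cd (ε : ℝ) (x : ℂ) : ContDiff ℝ ∞ (ker ε x) := by
  rw [moll1_ker]
  exact contDiff_const.mul (moll1_hk.comp ((contDiff_id.sub contDiff_const).const_smul _))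

lemma moll1_zero {ε : ℝ} (hε : 0 < ε) {x y : ℂ} (h : y ∉ closedBall x ε) : ker ε x y = 0 := by
  rw [ker, hk_zero, zero_div, ofReal_zero]
  rw [mem_closedBall, dist_eq_norm, not_le] at h
  rwa [norm_smul, norm_inv, Real.norm_of_nonneg hε.le, ← div_eq_inv_mul, one_lt_div hε]

lemma moll1_sub {ε : ℝ} (hε : 0 < ε) (x : ℂ) : tsupport (ker ε x) ⊆ closedBall x ε :=
  closure_minimal (fun _ hy => by_contra fun h => hy (moll1_zero hε h)) isClosed_closedBall

lemma moll1_hcs {ε : ℝ} (hε : 0 < ε) (x : ℂ) : HasCompactSupport (ker ε x) :=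
  (isCompact_closedBall x ε).of_isClosed_subset (isClosed_tsupport _) (moll1_sub hε x)

lemma moll1_fd (ε : ℝ) (x y v : ℂ) : fderiv ℝ (ker ε x) y v =
    ((ε : ℂ) ^ 3)⁻¹ * fderiv ℝ (fun a => (hk a : ℂ)) (ε⁻¹ • (y - x)) v := by
  have h1 : HasFDerivAt (fun y : ℂ => ε⁻¹ • (y - x)) (ε⁻¹ • ContinuousLinearMap.id ℝ ℂ) y :=
    ((hasFDerivAt_id (𝕜 := ℝ) y).sub_const x).const_smul ε⁻¹
  have h2 := ((moll1_hk.differentiable (by simp) _).hasFDerivAt.comp y h1).const_mul
    ((ε : ℂ) ^ 2)⁻¹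
  rw [moll1_ker]
  refine (congrArg (fun L => L v) h2.fderiv).trans ?_
  simp only [smul_apply, ContinuousLinearMap.comp_apply, ContinuousLinearMap.id_apply]
  rw [map_smul]
  simp only [smul_eq_mul, real_smul, ofReal_inv]
  ring

theorem ker_cut : ∃ C : ℝ, 0 ≤ C ∧ ∀ (ε : ℝ) (x : ℂ), 0 < ε → ε ≤ 1 →
    CutC (ker ε x) (closedBall x ε) (C / ε ^ 3) := by
  have h1 : ContDiff ℝ 1 fun a => (hk a : ℂ) := moll1_hk.of_le (by simp)
  obtain ⟨a, ha⟩ := h1.continuous.bounded_above_of_compact_support hcs_hkC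
  obtain ⟨b, hb⟩ := (continuous_dz h1).bounded_above_of_compact_support (hcs_dz hcs_hkC)
  obtain ⟨c, hc⟩ := (continuous_dzb h1).bounded_above_of_compact_support (hcs_dzb hcs_hkC)
  have a0 : 0 ≤ a := (norm_nonneg _).trans (ha 0)
  have e : ∀ {ε : ℝ} {z : ℂ} {t : ℝ}, 0 < ε → ‖z‖ ≤ t → t ≤ max a (max b c) →
      ‖((ε : ℂ) ^ 3)⁻¹ * z‖ ≤ max a (max b c) / ε ^ 3 := fun hε h h' => by
    rw [norm_mul, norm_inv, norm_pow, norm_real, Real.norm_of_nonneg hε.le, div_eq_inv_mul]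
    exact mul_le_mul_of_nonneg_left (h.trans h') (by positivity)
  refine ⟨max a (max b c), a0.trans (le_max_left _ _), fun ε x hε h => ⟨(ker_cd ε x).of_le (by simp),
    isCompact_closedBall x ε, moll1_sub hε x, fun y => ?_, fun y => ?_, fun y => ?_⟩⟩
  · have h2 : ker ε x y = ((ε : ℂ) ^ 3)⁻¹ * (ε * hk (ε⁻¹ • (y - x))) := by
      have : (ε : ℂ) ≠ 0 := by exact_mod_cast hε.ne'
      rw [moll1_ker]
      field_simp
    rw [h2]
    refine e hε ?_ (le_max_left _ _)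
    rw [norm_mul, norm_real, Real.norm_of_nonneg hε.le]
    exact (mul_le_of_le_one_left (norm_nonneg _) h).trans (ha _)
  · have h2 : dz (ker ε x) y = ((ε : ℂ) ^ 3)⁻¹ * dz (fun a => (hk a : ℂ)) (ε⁻¹ • (y - x)) := by
      simp only [dz, wp, moll1_fd]
      ring
    rw [h2]
    exact e hε (hb _) (by simp)
  · have h2 : dzb (ker ε x) y = ((ε : ℂ) ^ 3)⁻¹ * dzb (fun a => (hk a : ℂ)) (ε⁻¹ • (y - x)) := by
      simp only [dzb, wm, moll1_fd]
      ring
    rw [h2]
    exact e hε (hc _) (by simp)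

theorem moll_eq {ε : ℝ} (hε : 0 < ε) (G : ℂ → ℂ) (x : ℂ) :
    moll ε G x = ∫ y, ker ε x y * G y := by
  have h0 : (ε : ℂ) ≠ 0 := by exact_mod_cast hε.ne'
  have h1 := Measure.integral_comp_smul volume (fun y => ker ε x (x + y) * G (x + y)) ε
  rw [integral_add_left_eq_self (fun y => ker ε x y * G y) x, finrank_real_complex,
    abs_of_pos (by positivity)] at h1
  simp only [moll1_ker, add_sub_cancel_left, inv_smul_smul₀ hε.ne', mul_assoc,
    integral_const_mul] at h1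
  rw [real_smul, ofReal_inv, ofReal_pow] at h1
  simp only [moll1_ker, mul_assoc, integral_const_mul]
  exact mul_left_cancel₀ (inv_ne_zero (pow_ne_zero 2 h0)) h1

theorem moll_congr {ε : ℝ} (hε : 0 < ε) {G H : ℂ → ℂ} {x : ℂ}
    (h : ∀ y ∈ closedBall x ε, G y = H y) : moll ε G x = moll ε H x := by
  rw [moll_eq hε, moll_eq hε]
  congr 1
  funext y
  by_cases hy : y ∈ closedBall x ε
  · rw [h y hy]
  · rw [moll1_zero hε hy, zero_mul, zero_mul]

lemma moll1_conv {ε : ℝ} (hε : 0 < ε) (G : ℂ → ℂ) :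
    moll ε G = G ⋆[ContinuousLinearMap.mul ℝ ℂ, volume] fun y => ker ε 0 (-y) := by
  funext x
  rw [moll_eq hε, convolution_def]
  congr 1
  funext y
  simp [ker, mul_comm]

lemma moll1_ncs {ε : ℝ} (hε : 0 < ε) : HasCompactSupport fun y => ker ε 0 (-y) :=
  (moll1_hcs hε 0).comp_homeomorph (Homeomorph.neg ℂ)

lemma moll1_ncd (ε : ℝ) : ContDiff ℝ ∞ fun y => ker ε 0 (-y) := (ker_cd ε 0).comp contDiff_neg

theorem moll_cd {ε : ℝ} (hε : 0 < ε) {G : ℂ → ℂ} (hG : LocallyIntegrable G) :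
    ContDiff ℝ ∞ (moll ε G) := by
  rw [moll1_conv hε]
  exact (moll1_ncs hε).contDiff_convolution_right _ hG (moll1_ncd ε)

lemma moll1_fderiv {ε : ℝ} (hε : 0 < ε) {G : ℂ → ℂ} (hG : LocallyIntegrable G) (x v : ℂ) :
    fderiv ℝ (moll ε G) x v = -∫ y, G y * fderiv ℝ (ker ε x) y v := by
  have h1 : ContDiff ℝ 1 fun y => ker ε 0 (-y) := (moll1_ncd ε).of_le (by simp)
  rw [moll1_conv hε, ((moll1_ncs hε).hasFDerivAt_convolution_right _ hG h1 x).fderiv,
    convolution_precompR_apply _ hG ((moll1_ncs hε).fderiv ℝ) (h1.continuous_fderiv one_ne_zero),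
    convolution_def, ← integral_neg]
  congr 1
  funext y
  have h2 := (((ker_cd ε 0).differentiable (by simp) (-(x - y))).hasFDerivAt.comp (x - y)
    (hasFDerivAt_id (x - y)).neg).fderiv
  have h3 : fderiv ℝ (fun y => ker ε 0 (-y)) (x - y) v = -fderiv ℝ (ker ε 0) (-(x - y)) v := by
    refine (congrArg (fun L => L v) h2).trans ?_
    simp
  rw [ContinuousLinearMap.mul_apply', h3, moll1_fd, moll1_fd]
  simp

lemma moll1_int {ε : ℝ} (hε : 0 < ε) {G : ℂ → ℂ} (hG : LocallyIntegrable G) (x v : ℂ) :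
    Integrable fun y => G y * fderiv ℝ (ker ε x) y v :=
  hG.integrable_smul_right_of_hasCompactSupport
    ((((ker_cd ε x).continuous_fderiv (by simp))).clm_apply continuous_const)
    ((moll1_hcs hε x).fderiv_apply ℝ v)

theorem dz_moll {ε : ℝ} (hε : 0 < ε) {G : ℂ → ℂ} (hG : LocallyIntegrable G) (x : ℂ) :
    dz (moll ε G) x = -∫ y, G y * dz (ker ε x) y := by
  have e : ∀ y, G y * dz (ker ε x) y = (G y * fderiv ℝ (ker ε x) y 1 -
      I * (G y * fderiv ℝ (ker ε x) y (I • 1))) / 2 := fun y => by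
    simp only [dz, wp]
    ring
  simp only [e]
  rw [integral_div, integral_sub (moll1_int hε hG x _) ((moll1_int hε hG x _).const_mul _),
    integral_const_mul, dz, wp, moll1_fderiv hε hG, moll1_fderiv hε hG]
  ring

theorem dzb_moll {ε : ℝ} (hε : 0 < ε) {G : ℂ → ℂ} (hG : LocallyIntegrable G) (x : ℂ) :
    dzb (moll ε G) x = -∫ y, G y * dzb (ker ε x) y := by
  have e : ∀ y, G y * dzb (ker ε x) y = (G y * fderiv ℝ (ker ε x) y 1 +
      I * (G y * fderiv ℝ (ker ε x) y (I • 1))) / 2 := fun y => by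
    simp only [dzb, wm]
    ring
  simp only [e]
  rw [integral_div, integral_add (moll1_int hε hG x _) ((moll1_int hε hG x _).const_mul _),
    integral_const_mul, dzb, wm, moll1_fderiv hε hG, moll1_fderiv hε hG]
  ring

theorem WD.moll {ε : ℝ} (hε : 0 < ε) {G H : ℂ → ℂ} (hG : LocallyIntegrable G) (h : WD G H) :
    dz (moll ε G) = moll ε H := by
  funext x
  rw [dz_moll hε hG, h _ ((ker_cd ε x).of_le (by simp)) (moll1_hcs hε x), neg_neg, moll_eq hε]
  simp only [mul_comm]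

theorem WDb.moll {ε : ℝ} (hε : 0 < ε) {G H : ℂ → ℂ} (hG : LocallyIntegrable G) (h : WDb G H) :
    dzb (moll ε G) = moll ε H := by
  funext x
  rw [dzb_moll hε hG, h _ ((ker_cd ε x).of_le (by simp)) (moll1_hcs hε x), neg_neg, moll_eq hε]
  simp only [mul_comm]

end Pool.Agent.Lib.MP_a52643_an.CP
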