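import Pool.Agent.Lib.MP_a52643_an.CP.Inv

/-!
An invariant partition of unity and the unfolding of a divergence.
-/

open Complex MeasureTheory Set Filter Topology Metric
open scoped ComplexConjugate ContDiff ENNReal

noncomputable section

namespace Pool.Agent.Lib.MP_a52643_an.CP

variable {Γ : Type} [Group Γ] {m : Γ → ℂ → ℂ} {K K₀ : Set ℂ}

lemma part_fin (h : Act m) {L : Set ℂ} (hK : Cp K) (hL : Cp L) :
    ∃ S : Finset Γ, ∀ γ, ∀ z ∈ K, m γ z ∈ L → γ ∈ S :=
  ⟨(h.pd K L hK hL).toFinset, fun _ z hz hm => (Finite.mem_toFinset _).2 ⟨z, hz, hm⟩⟩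

omit [Group Γ] in
lemma part_sum {f : ℂ → ℝ} {S : Finset Γ} {p : Γ → ℂ} (hS : ∀ γ, p γ ∈ tsupport f → γ ∈ S) :
    ∑ᶠ γ, f (p γ) = ∑ γ ∈ S, f (p γ) :=
  finsum_eq_sum_of_support_subset _ fun γ hγ => hS γ (subset_tsupport f hγ)

lemma part_nhds (hK : Cp K) : ∃ K', Cp K' ∧ ∀ z ∈ K, K' ∈ 𝓝 z := by
  obtain ⟨r, r0, hr⟩ := hK.thick
  exact ⟨_, hr, fun z hz => mem_of_superset (isOpen_thickening.mem_nhds
    (self_subset_thickening r0 K hz)) (thickening_subset_cthickening r K)⟩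

lemma part_inv (h : Act m) (γ : Γ) {z : ℂ} (hz : z ∈ UH) : m γ⁻¹ (m γ z) = z := by
  rw [← h.mul _ _ z hz, inv_mul_cancel, h.one z hz]

theorem exists_part (h : Act m) (h0 : Cp K₀) (cov : ∀ z ∈ UH, ∃ γ, m γ z ∈ K₀) :
    ∃ χ : ℂ → ℝ, Ts (rC χ) ∧ (∀ z, 0 ≤ χ z ∧ χ z ≤ 1) ∧ (∃ c, 0 < c ∧ ∀ z ∈ K₀, c ≤ χ z) ∧
      ∀ z ∈ UH, ∑ᶠ γ, χ (m γ z) = 1 := by
  obtain ⟨f, f1, f2, f3, f4, f5⟩ := exists_cut h0.1 isOpen_UH h0.2
  have hL : Cp (tsupport f) := ⟨f2, f3⟩
  have hone : ∀ z ∈ K₀, f z = 1 := fun z hz => (f5 z hz).self_of_nhds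
  set g : ℂ → ℝ := fun z => ∑ᶠ γ, f (m γ z) with hg
  have hpt : ∀ z ∈ UH, Cp {z} := fun z hz => ⟨isCompact_singleton, singleton_subset_iff.2 hz⟩
  have g1 : ∀ z ∈ UH, 1 ≤ g z := fun z hz => by
    obtain ⟨S, hS⟩ := part_fin h (hpt z hz) hL
    obtain ⟨γ, hγ⟩ := cov z hz
    have e : g z = ∑ γ ∈ S, f (m γ z) := part_sum fun γ => hS γ z rfl
    rw [e, ← hone _ hγ]
    exact Finset.single_le_sum (f := fun γ => f (m γ z)) (fun _ _ => (f4 _).1)
      (hS γ z rfl (subset_tsupport f (by rw [Function.mem_support, hone _ hγ]; exact one_ne_zero)))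
  have g2 : ContDiffOn ℝ ∞ g UH := fun z hz => by
    obtain ⟨K', hK', hn⟩ := part_nhds (hpt z hz)
    obtain ⟨S, hS⟩ := part_fin h hK' hL
    have e : g =ᶠ[𝓝 z] fun w => ∑ γ ∈ S, f (m γ w) := by
      filter_upwards [hn z rfl] with w hw using part_sum fun γ => hS γ w hw
    exact ((ContDiffAt.sum fun γ _ =>
      f1.contDiffAt.comp z (cdAt (h.cd γ) hz)).congr_of_eventuallyEq e).contDiffWithinAt
  have g3 : Iv m g := fun δ z hz => by
    simp only [hg, ← h.mul _ δ z hz]
    exact finsum_comp_equiv (Equiv.mulRight δ) (f := fun γ => f (m γ z))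
  have hs : tsupport (rC f) ⊆ tsupport f :=
    closure_mono fun z hz h' => hz (by simp [rC, h'])
  have hf : Ts (rC f) := ⟨(ofRealCLM.contDiff.comp f1).of_le (by simp),
    f2.of_isClosed_subset (isClosed_tsupport _) hs, hs.trans f3⟩
  refine ⟨fun z => f z * (g z)⁻¹, ?_, fun z => ?_, ?_, fun z hz => ?_⟩
  · have := hf.mul (cd1 (cd_rC (g2.inv fun z hz => by linarith [g1 z hz])))
    convert this using 2 with z
    simp [rC]
  · by_cases hz : z ∈ UH
    · have h1 := inv_le_one_of_one_le₀ (g1 z hz)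
      have h2 : 0 ≤ (g z)⁻¹ := inv_nonneg.2 (by linarith [g1 z hz])
      exact ⟨mul_nonneg (f4 z).1 h2, mul_le_one₀ (f4 z).2 h2 h1⟩
    · simp [image_eq_zero_of_notMem_tsupport fun h' => hz (f3 h')]
  · obtain ⟨S, hS⟩ := part_fin h h0 hL
    refine ⟨((S.card : ℝ) + 1)⁻¹, by positivity, fun z hz => ?_⟩
    have e : g z = ∑ γ ∈ S, f (m γ z) := part_sum fun γ => hS γ z hz
    have h1 : g z ≤ S.card := by
      rw [e]
      simpa using Finset.sum_le_card_nsmul S (fun γ => f (m γ z)) 1 fun _ _ => (f4 _).2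
    change _ ≤ f z * (g z)⁻¹
    rw [hone z hz, one_mul]
    exact inv_anti₀ (by linarith [g1 z (h0.2 hz)]) (by linarith)
  · simp only [g3 _ z hz]
    rw [← finsum_mul]
    exact mul_inv_cancel₀ (by linarith [g1 z hz] : g z ≠ 0)

lemma part_cv (h : Act m) (γ : Γ) {G : ℂ → ℂ} (hG : ContinuousOn G UH) :
    ∫ z in UH, (1 / z.im ^ 2 : ℝ) • G (m γ z) = ∫ z in UH, (1 / z.im ^ 2 : ℝ) • G z := by
  have e : ∀ F : ℂ → ℂ, ∫ z, F z ∂hyp = ∫ z in UH, (1 / z.im ^ 2 : ℝ) • F z := fun F => by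
    rw [hyp, integral_withDensity_eq_integral_toReal_smul (by fun_prop) (by simp)]
    refine integral_congr_ae (Eventually.of_forall fun z => ?_)
    simp only [ENNReal.toReal_ofReal (by positivity : (0 : ℝ) ≤ 1 / z.im ^ 2)]
  have hm : AEStronglyMeasurable G hyp :=
    (hG.aestronglyMeasurable isOpen_UH.measurableSet).mono_ac
      (withDensity_absolutelyContinuous _ _)
  rw [← e G, ← e (fun z => G (m γ z)), ← integral_map (h.mp γ).measurable.aemeasurable
    (by rwa [(h.mp γ).map_eq]), (h.mp γ).map_eq]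

lemma part_dz_sum {ι : Type} (S : Finset ι) {f : ι → ℂ → ℂ} {z : ℂ}
    (hf : ∀ i, DifferentiableAt ℝ (f i) z) :
    ∑ i ∈ S, dz (f i) z = dz (fun w => ∑ i ∈ S, f i w) z := by
  classical
  induction S using Finset.induction_on with
  | empty => simp [dz_const]
  | insert i S hi ih =>
    simp only [Finset.sum_insert hi]
    rw [dz_add (hf i) (DifferentiableAt.fun_sum fun j _ => hf j), ih]

theorem unfold_div (h : Act m) {χ : ℂ → ℝ} (hχ : Ts (rC χ)) (h1 : ∀ z ∈ UH, ∑ᶠ γ, χ (m γ z) = 1)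
    {a b : ℂ → ℝ} (ha : ContinuousOn a UH) (hb : ContDiffOn ℝ ∞ b UH) (ia : Iv m a) (ib : Iv m b) :
    ∫ z, a z * (conj (gr χ z) * gr b z).re = 0 := by
  have hs : tsupport χ ⊆ tsupport (rC χ) := closure_mono fun z hz h' => hz (by simpa [rC] using h')
  have hK : Cp (tsupport (rC χ)) := ⟨hχ.cs, hχ.sub⟩
  obtain ⟨K', hK', hn⟩ := part_nhds hK
  obtain ⟨S, hS⟩ := part_fin h hK' hK
  have hab : ContinuousOn (fun z => rC a z * gr b z) UH :=
    (continuous_ofReal.comp_continuousOn ha).mul (cd_gr hb).continuousOn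
  have hc : ∀ γ, ContDiffOn ℝ 1 (fun z => rC χ (m γ z)) UH := fun γ =>
    hχ.cd.comp_contDiffOn (cd1 (h.cd γ))
  have hd : ∀ z, DifferentiableAt ℝ χ z := fun z =>
    reCLM.differentiableAt.comp z (hχ.cd.differentiable one_ne_zero z)
  have key : ∀ γ, ∫ z in UH, dz (rC χ) z * (rC χ (m γ⁻¹ z) * (rC a z * gr b z)) =
      ∫ z in UH, rC χ z * (dz (fun w => rC χ (m γ w)) z * (rC a z * gr b z)) := by
    intro γ
    have e := part_cv h γ (G := fun z => (z.im : ℂ) ^ 2 *
      (dz (rC χ) z * (rC χ (m γ⁻¹ z) * (rC a z * gr b z))))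
      (((continuous_ofReal.comp continuous_im).pow 2).continuousOn.mul
        ((continuous_dz hχ.cd).continuousOn.mul ((hc γ⁻¹).continuousOn.mul hab)))
    refine Eq.trans (setIntegral_congr_fun isOpen_UH.measurableSet fun z hz => ?_)
      (e.symm.trans (setIntegral_congr_fun isOpen_UH.measurableSet fun z hz => ?_))
    · have hz' : (z.im : ℂ) ≠ 0 := by exact_mod_cast (show 0 < z.im from hz).ne'
      simp only [real_smul]
      push_cast
      field_simp
    · have hz' : (z.im : ℂ) ≠ 0 := by exact_mod_cast (show 0 < z.im from hz).ne'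
      have e1 := pair_act h γ hz (hd _) (dAt hb (h.map γ z hz))
      have e2 : gr (fun w => b (m γ w)) z = gr b z :=
        gr_congr (by filter_upwards [UH_nhds hz] with w hw using ib γ w hw)
      have e3 : dz (fun w => rC χ (m γ w)) z = conj (gr (fun w => χ (m γ w)) z) :=
        dz_rC (fun w => χ (m γ w)) z
      have e4 : rC a (m γ z) = rC a z := by simp only [rC, ia γ z hz]
      rw [e2] at e1
      simp only [real_smul, part_inv h γ hz, e3, e4, dz_rC]
      push_cast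
      field_simp
      linear_combination (-(rC χ z * rC a z)) * e1
  have main : ∫ z, dz (rC χ) z * (rC a z * gr b z) = 0 := by
    have h0 : ∀ z, z ∉ tsupport (rC χ) → dz (rC χ) z = 0 := fun z hz =>
      image_eq_zero_of_notMem_tsupport fun h' => hz (tsupport_dz _ h')
    rw [← setIntegral_eq_integral_of_forall_compl_eq_zero (s := UH)
      fun z hz => by rw [h0 z fun h' => hz (hχ.sub h'), zero_mul]]
    have e1 : ∫ z in UH, dz (rC χ) z * (rC a z * gr b z) =
        ∫ z in UH, ∑ γ ∈ S, dz (rC χ) z * (rC χ (m γ⁻¹ z) * (rC a z * gr b z)) := by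
      refine setIntegral_congr_fun isOpen_UH.measurableSet fun z hz => ?_
      by_cases hz' : z ∈ tsupport (rC χ)
      · have e := h1 z hz
        rw [← finsum_comp_equiv (Equiv.inv Γ) (f := fun γ => χ (m γ z)),
          part_sum (S := S) (p := fun γ => m (Equiv.inv Γ γ) z) fun γ hγ =>
            hS γ _ (mem_of_mem_nhds (hn _ (hs hγ))) (by
              have := part_inv h γ⁻¹ hz
              rw [inv_inv] at this
              exact this.symm ▸ hz')] at e
        have e' : ∑ γ ∈ S, rC χ (m γ⁻¹ z) = 1 := by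
          simp only [rC]
          exact_mod_cast e
        simp only [← Finset.mul_sum, ← Finset.sum_mul, e', one_mul]
      · simp [h0 z hz']
    have i1 : ∀ γ, IntegrableOn
        (fun z => dz (rC χ) z * (rC χ (m γ⁻¹ z) * (rC a z * gr b z))) UH := fun γ =>
      (hχ.int_dz ((hc γ⁻¹).continuousOn.mul hab)).integrableOn
    have i2 : ∀ γ, IntegrableOn
        (fun z => rC χ z * (dz (fun w => rC χ (m γ w)) z * (rC a z * gr b z))) UH := fun γ =>
      (hχ.int ((co_dz (hc γ)).mul hab)).integrableOn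
    rw [e1, integral_finsetSum _ fun γ _ => i1 γ]
    simp only [key]
    rw [← integral_finsetSum _ fun γ _ => i2 γ]
    refine setIntegral_eq_zero_of_forall_eq_zero fun z hz => ?_
    by_cases hz' : z ∈ tsupport (rC χ)
    · have e : (fun w => ∑ γ ∈ S, rC χ (m γ w)) =ᶠ[𝓝 z] fun _ => 1 := by
        filter_upwards [hn z hz'] with w hw
        have e := h1 w (hK'.2 hw)
        rw [part_sum (S := S) (p := fun γ => m γ w) fun γ hγ => hS γ w hw (hs hγ)] at e
        simp only [rC]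
        exact_mod_cast e
      rw [← Finset.mul_sum, ← Finset.sum_mul, part_dz_sum S fun γ => dAt1 (hc γ) hz, dz_congr e,
        dz_const, zero_mul, mul_zero]
    · simp [image_eq_zero_of_notMem_tsupport hz']
  have e := reCLM.integral_comp_comm (hχ.int_dz hab)
  rw [main, map_zero] at e
  refine Eq.trans (integral_congr_ae (Eventually.of_forall fun z => ?_)) e
  simp only [reCLM_apply, dz_rC]
  rw [mul_left_comm, rC, re_ofReal_mul]

end Pool.Agent.Lib.MP_a52643_an.CP
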