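import Pool.Agent.Lib.MP_a52643_an.CP.PhaseG

/-!
Averaging over the phase.
-/

open Complex MeasureTheory Set Filter Topology Metric
open scoped ComplexConjugate ContDiff ENNReal

noncomputable section

namespace Pool.Agent.Lib.MP_a52643_an.CP

variable {σ u : ℂ → ℝ} {lam : ℝ} {K K₀ : Set ℂ} {CE CM : Set ℂ → ℝ} {z : ℂ}


theorem pn_pos (n : ℕ) : 0 < pn n :=
  Finset.prod_pos fun i _ => by positivity

lemma Phase_succ (n : ℕ) : pn (n + 1) = pn n * ((2 * n + 1) / (2 * n + 4)) :=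
  Finset.prod_range_succ _ _

theorem pn_ge (n : ℕ) : (n : ℝ) / 4 ≤ (n * (n + 1) * pn n) ^ 2 := by
  induction n with
  | zero => simp
  | succ n ih =>
    rcases n.eq_zero_or_pos with rfl | hn
    · norm_num [pn]
    have h0 : (0 : ℝ) < n := by exact_mod_cast hn
    have e : ((n + 1 : ℕ) * ((n + 1 : ℕ) + 1) * pn (n + 1) : ℝ)
        = n * (n + 1) * pn n * ((2 * n + 1) / (2 * n)) := by
      rw [Phase_succ]; push_cast; field_simp; ring
    rw [e, mul_pow]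
    refine le_trans ?_ (mul_le_mul_of_nonneg_right ih (sq_nonneg _))
    rw [div_pow, ← mul_div_assoc, le_div_iff₀ (by positivity)]
    push_cast
    nlinarith

/-- Bounds that depend on the metric only. -/
lemma Phase_bd (hσ : Met σ) (hK : Cp K) : ∃ b : ℝ, 0 ≤ b ∧ ∀ z ∈ K, ‖gr σ z‖ ≤ b * σ z ∧
    ∀ (u : ℂ → ℝ) (lam : ℝ), 0 ≤ lam → ‖pp u z‖ ≤ b * √(ps σ u lam z) := by
  obtain ⟨a, ha⟩ := hK.1.exists_bound_of_continuousOn (hσ.cd.continuousOn.mono hK.2)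
  obtain ⟨b, hb⟩ := hK.1.exists_bound_of_continuousOn (f := fun z => gr σ z / rC σ z)
    (((cd_gr hσ.cd).continuousOn.div (cd_rC hσ.cd).continuousOn fun z hz => hσ.ne hz).mono hK.2)
  refine ⟨max b √(2 * a), le_max_of_le_right (Real.sqrt_nonneg _), fun z hz => ⟨?_, ?_⟩⟩
  · have h := hb z hz
    have s := hσ.pos z (hK.2 hz)
    rw [norm_div, rC, norm_real, Real.norm_of_nonneg s.le, div_le_iff₀ s] at h
    exact h.trans (mul_le_mul_of_nonneg_right (le_max_left _ _) s.le)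
  · intro u lam hl
    have s := hσ.pos z (hK.2 hz)
    have h1 : σ z ≤ a := (le_abs_self _).trans (ha z hz)
    have h2 := SS_le (σ := σ) (u := u) hl z
    have h3 := ps_nonneg (u := u) hσ hl (hK.2 hz)
    rw [SS, div_le_iff₀ s, normSq_eq_norm_sq] at h2
    refine le_trans ?_ (mul_le_mul_of_nonneg_right (le_max_right _ _) (Real.sqrt_nonneg _))
    rw [← Real.sqrt_mul (by linarith)]
    exact Real.le_sqrt_of_sq_le (by nlinarith)

lemma Phase_rC (f : ℂ → ℝ) (z h : ℂ) :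
    fderiv ℝ (rC f) z h = h * conj (gr f z) + conj h * gr f z := by
  rw [fderiv_eq_dz, dz_rC, gr]

lemma Phase_norm (h G : ℂ) : ‖h * conj G + conj h * G‖ ≤ 2 * ‖h‖ * ‖G‖ := by
  refine (norm_add_le _ _).trans (le_of_eq ?_)
  simp only [norm_mul, norm_conj]; ring

lemma Phase_S (hσ : Met σ) (hu : ContDiffOn ℝ ∞ u UH) (hz : z ∈ UH) :
    fderiv ℝ (rC (SS σ u)) z (pp u z) + (2 : ℕ) * lam * σ z * u z * rC (SS σ u) z
      = 2 * (pp u z * conj (gr (ps σ u lam) z) + conj (pp u z) * gr (ps σ u lam) z) := by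
  have e : (σ z : ℂ) * SS σ u z = pp u z * conj (pp u z) := by
    rw [mul_conj, SS]; push_cast; field_simp [hσ.ne hz]
  rw [Phase_rC, I0 (lam := lam) hσ hu hz]
  simp only [map_sub, map_mul, conj_ofReal, map_ofNat, rC]
  push_cast
  linear_combination 2 * lam * u z * e

lemma Phase_Z (hσ : Met σ) (h : Eg σ u lam) (hz : z ∈ UH) :
    σ z * (fderiv ℝ (ZZ σ u) z (pp u z) + (2 : ℕ) * lam * σ z * u z * ZZ σ u z)
      = -(pp u z * (4 * σ z * gr (ps σ u lam) z + 2 * SS σ u z * gr σ z)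
        + (pp u z * conj (gr σ z) + conj (pp u z) * gr σ z) * ZZ σ u z) := by
  have e0 : ∀ w ∈ UH, rC σ w * ZZ σ u w = -1 * (pp u w * pp u w) := fun w hw => by
    rw [rC, ZZ]; field_simp [hσ.ne hw]
  have e : (fun w => rC σ w * ZZ σ u w) =ᶠ[𝓝 z] fun w => -1 * (pp u w * pp u w) :=
    mem_of_superset (UH_nhds hz) e0
  have d1 := dAt (cd_rC hσ.cd) hz
  have d2 := dAt (cd_ZZ hσ h.cd) hz
  have d3 := dAt (cd_pp h.cd) hz
  have e1 := dz_congr e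
  have e2 := dzb_congr e
  rw [dz_mul d1 d2, dz_cmul _ (d3.fun_mul d3), dz_mul d3 d3, dz_rC, h.eq z hz] at e1
  rw [dzb_mul d1 d2, dzb_cmul _ (d3.fun_mul d3), dzb_mul d3 d3] at e2
  have e3 := I3 hσ h hz
  have e4 := e0 z hz
  rw [fderiv_eq_dz]
  simp only [rC, gr] at *
  push_cast at *
  linear_combination pp u z * e1 + conj (pp u z) * e2 - 2 * pp u z * e3 + 2 * lam * σ z * u z * e4

lemma Phase_int (hσ : Met σ) (hu : ContDiffOn ℝ ∞ u UH) {κ : ℝ → ℝ} {Λ : ℝ} (hκ : Adm κ Λ)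
    {φ Θ : ℂ → ℂ} (hφ : Ts φ) (hΘ : ContDiffOn ℝ ∞ Θ UH) (n m : ℕ) (a b : ℝ) :
    Integrable fun z => φ z * (κ (ps σ u lam z) * (a * qq σ u lam z ^ n
      - b * qq σ u lam z ^ m) : ℝ) * Θ z := by
  have h := (cd_rC ((contDiffOn_const (c := a).mul (cd_wq (lam := lam) hσ hu hκ.cd hκ.zero n)).sub
    (contDiffOn_const (c := b).mul (cd_wq (lam := lam) hσ hu hκ.cd hκ.zero m)))).mul hΘ
  refine (hφ.int h.continuousOn).congr (ae_of_all _ fun z => ?_)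
  simp only [rC]; push_cast; ring

/-- Telescoping. -/
lemma Phase_tel (hσ : Met σ) (hK : Cp K) (CE : Set ℂ → ℝ) (a : ℝ) (n : ℕ) :
    ∃ C : ℝ, ∀ (u : ℂ → ℝ) (lam : ℝ) (K₀ : Set ℂ) (CM : Set ℂ → ℝ), Sol σ K₀ CE CM u lam →
      ∀ Θ : ℂ → ℂ, ContDiffOn ℝ ∞ Θ UH → (∀ z ∈ K, ‖Θ z‖ ≤ 2 * ps σ u lam z) →
      (∀ z ∈ K, ‖fderiv ℝ Θ z (pp u z) + (2 : ℕ) * lam * σ z * u z * Θ z‖
        ≤ a * √(ps σ u lam z) * (‖gr (ps σ u lam) z‖ + ps σ u lam z)) →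
      ∀ (κ : ℝ → ℝ) (Λ : ℝ) (φ : ℂ → ℂ) (c : ℝ), Adm κ Λ → CutC φ K c →
        ‖∫ z, φ z * (κ (ps σ u lam z) * (qq σ u lam z ^ n / pn n - 1) : ℝ) * Θ z‖
          ≤ C * Λ * c / √lam := by
  induction n with
  | zero => exact ⟨0, fun u lam K₀ CM _ Θ _ _ _ κ Λ φ c _ _ => by simp [pn]⟩
  | succ n ih =>
    obtain ⟨C, hC⟩ := ih
    obtain ⟨D, hD⟩ := phaseG hσ hK CE n 2 a
    have hp := pn_pos n
    obtain ⟨t, ht⟩ : ∃ t : ℝ, t = 1 / ((2 * n + 1) * pn n) := ⟨_, rfl⟩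
    have t0 : 0 ≤ t := by rw [ht]; positivity
    refine ⟨C + t * D, fun u lam K₀ CM hs Θ h1 h2 h3 κ Λ φ c hκ hφ => ?_⟩
    have i1 := Phase_int (lam := lam) hσ hs.eg.cd hκ (Ts.of_cut hφ hK) h1 n 0 (1 / pn n) 1
    have i2 := Phase_int (lam := lam) hσ hs.eg.cd hκ (Ts.of_cut hφ hK) h1 n (n + 1)
      (2 * n + 1) (2 * n + 2 + (2 : ℕ))
    simp only [one_div_mul_eq_div, pow_zero, mul_one] at i1
    have e : ∀ z, φ z * (κ (ps σ u lam z) * (qq σ u lam z ^ (n + 1) / pn (n + 1) - 1) : ℝ) * Θ z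
        = φ z * (κ (ps σ u lam z) * (qq σ u lam z ^ n / pn n - 1) : ℝ) * Θ z
          - t * (φ z * (κ (ps σ u lam z) * ((2 * n + 1) * qq σ u lam z ^ n
            - (2 * n + 2 + (2 : ℕ)) * qq σ u lam z ^ (n + 1)) : ℝ) * Θ z) := fun z => by
      have : qq σ u lam z ^ (n + 1) / pn (n + 1) - 1 = qq σ u lam z ^ n / pn n - 1
          - t * ((2 * n + 1) * qq σ u lam z ^ n
            - (2 * n + 2 + (2 : ℕ)) * qq σ u lam z ^ (n + 1)) := by
        rw [Phase_succ, ht]; push_cast; field_simp; ring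
      rw [this]; push_cast; ring
    simp only [e]
    rw [integral_sub i1 (i2.const_mul _), integral_const_mul]
    refine (norm_sub_le _ _).trans ?_
    rw [norm_mul, norm_real, Real.norm_of_nonneg t0]
    have k1 := hC u lam K₀ CM hs Θ h1 h2 h3 κ Λ φ c hκ hφ
    have k2 := mul_le_mul_of_nonneg_left (hD u lam K₀ CM hs Θ h1 h2 h3 κ Λ φ c hκ hφ) t0
    refine (add_le_add k1 k2).trans (le_of_eq ?_)
    ring

theorem phase0 (hσ : Met σ) (hK : Cp K) (CE : Set ℂ → ℝ) :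
    ∃ C : ℝ, ∀ (u : ℂ → ℝ) (lam : ℝ) (K₀ : Set ℂ) (CM : Set ℂ → ℝ), Sol σ K₀ CE CM u lam →
      ∀ (κ : ℝ → ℝ) (Λ : ℝ) (φ : ℂ → ℂ) (c : ℝ), Adm κ Λ → CutC φ K c →
        ‖∫ z, φ z * (κ (ps σ u lam z) * (SS σ u z - ps σ u lam z) : ℝ)‖ ≤ C * Λ * c / √lam := by
  obtain ⟨b, b0, hb⟩ := Phase_bd hσ hK
  obtain ⟨C, hC⟩ := phaseG hσ hK CE 0 0 (2 * b)
  refine ⟨C, fun u lam K₀ CM hs κ Λ φ c hκ hφ => ?_⟩
  have hl : 0 ≤ lam := zero_le_one.trans hs.eg.one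
  have h := hC u lam K₀ CM hs (rC (ps σ u lam)) (cd_rC (cd_ps hσ hs.eg.cd))
    (fun z hz => ?_) (fun z hz => ?_) κ Λ φ c hκ hφ
  · convert h using 3 with z
    ext z
    by_cases h0 : ps σ u lam z ≤ 1 / 4
    · simp [hκ.zero _ h0]
    · rw [SS_eq (lam := lam) (by linarith), rC]; push_cast; ring
  · have := ps_nonneg (u := u) hσ hl (hK.2 hz)
    rw [rC, norm_real, Real.norm_of_nonneg this]; linarith
  · have h1 := ps_nonneg (u := u) hσ hl (hK.2 hz)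
    have h2 := (hb z hz).2 u lam hl
    rw [Phase_rC]
    simp only [Nat.cast_zero, zero_mul, add_zero]
    refine (Phase_norm _ _).trans ?_
    rw [mul_assoc 2 b]
    gcongr
    linarith

theorem phaseM (hσ : Met σ) (hK : Cp K) (CE : Set ℂ → ℝ) (n : ℕ) :
    ∃ C : ℝ, ∀ (u : ℂ → ℝ) (lam : ℝ) (K₀ : Set ℂ) (CM : Set ℂ → ℝ), Sol σ K₀ CE CM u lam →
      ∀ (κ : ℝ → ℝ) (Λ : ℝ) (φ : ℂ → ℂ) (c : ℝ), Adm κ Λ → CutC φ K c →
        ‖∫ z, φ z * (κ (ps σ u lam z) * (qq σ u lam z ^ n / pn n - 1) : ℝ) * ZZ σ u z‖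
          ≤ C * Λ * c / √lam ∧
        ‖∫ z, φ z * (κ (ps σ u lam z) * (qq σ u lam z ^ n / pn n - 1) : ℝ) * SS σ u z‖
          ≤ C * Λ * c / √lam := by
  obtain ⟨b, b0, hb⟩ := Phase_bd hσ hK
  obtain ⟨C, hC⟩ := Phase_tel hσ hK CE (b * (4 + 8 * b)) n
  refine ⟨C, fun u lam K₀ CM hs κ Λ φ c hκ hφ => ?_⟩
  have hl : 0 ≤ lam := zero_le_one.trans hs.eg.one
  have key : ∀ z ∈ K, ‖pp u z‖ * (4 * ‖gr (ps σ u lam) z‖ + 8 * b * ps σ u lam z)
      ≤ b * (4 + 8 * b) * √(ps σ u lam z) * (‖gr (ps σ u lam) z‖ + ps σ u lam z) := by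
    intro z hz
    have h1 := ps_nonneg (u := u) hσ hl (hK.2 hz)
    have h2 := norm_nonneg (gr (ps σ u lam) z)
    calc _ ≤ b * √(ps σ u lam z) * ((4 + 8 * b) * (‖gr (ps σ u lam) z‖ + ps σ u lam z)) :=
          mul_le_mul ((hb z hz).2 u lam hl) (by nlinarith [mul_nonneg b0 h2]) (by positivity)
            (by positivity)
      _ = _ := by ring
  refine ⟨hC u lam K₀ CM hs _ (cd_ZZ hσ hs.eg.cd) (fun z hz => ?_) (fun z hz => ?_) κ Λ φ c hκ hφ,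
    hC u lam K₀ CM hs (rC (SS σ u)) (cd_rC (cd_SS hσ hs.eg.cd)) (fun z hz => ?_)
      (fun z hz => ?_) κ Λ φ c hκ hφ⟩
  · rw [norm_ZZ hσ (hK.2 hz)]; exact SS_le hl z
  · refine le_trans ?_ (key z hz)
    have s := hσ.pos z (hK.2 hz)
    have e := congrArg norm (Phase_Z hσ hs.eg (hK.2 hz))
    have g := (hb z hz).1
    have h1 := SS_nonneg (u := u) hσ (hK.2 hz)
    have h2 := SS_le (σ := σ) (u := u) hl z
    have h3 := ps_nonneg (u := u) hσ hl (hK.2 hz)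
    rw [norm_mul, norm_real, Real.norm_of_nonneg s.le, norm_neg] at e
    refine le_of_mul_le_mul_left (e.trans_le ((norm_add_le _ _).trans ?_)) s
    have k1 : ‖4 * σ z * gr (ps σ u lam) z + 2 * SS σ u z * gr σ z‖
        ≤ 4 * σ z * ‖gr (ps σ u lam) z‖ + 2 * (2 * ps σ u lam z) * (b * σ z) := by
      refine (norm_add_le _ _).trans ?_
      simp only [norm_mul, norm_real, Real.norm_of_nonneg s.le, Real.norm_of_nonneg h1,
        Complex.norm_ofNat]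
      gcongr
    have k2 : ‖pp u z * conj (gr σ z) + conj (pp u z) * gr σ z‖ * SS σ u z
        ≤ 2 * ‖pp u z‖ * (b * σ z) * (2 * ps σ u lam z) := by
      have := Phase_norm (pp u z) (gr σ z)
      gcongr
      exact this.trans (by gcongr)
    rw [norm_mul, norm_mul, norm_ZZ hσ (hK.2 hz)]
    refine (add_le_add (mul_le_mul_of_nonneg_left k1 (norm_nonneg _)) k2).trans (le_of_eq ?_)
    ring
  · rw [rC, norm_real, Real.norm_of_nonneg (SS_nonneg hσ (hK.2 hz))]; exact SS_le hl z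
  · refine le_trans ?_ (key z hz)
    have h1 := ps_nonneg (u := u) hσ hl (hK.2 hz)
    have h2 := Phase_norm (pp u z) (gr (ps σ u lam) z)
    rw [Phase_S hσ hs.eg.cd (hK.2 hz), norm_mul, Complex.norm_ofNat]
    nlinarith [mul_nonneg (norm_nonneg (pp u z)) (mul_nonneg b0 h1)]

end Pool.Agent.Lib.MP_a52643_an.CP
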