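import Pool.Agent.Lib.MP_a52643_an.CP.Id

/-!
Averaging over the phase, general form.
-/

open Complex MeasureTheory Set Filter Topology Metric
open scoped ComplexConjugate ContDiff ENNReal

noncomputable section

namespace Pool.Agent.Lib.MP_a52643_an.CP

variable {σ u : ℂ → ℝ} {lam : ℝ} {K K₀ : Set ℂ} {CE CM : Set ℂ → ℝ} {z : ℂ}

/-- The weight divided by a power. -/
def phaseG_h (κ : ℝ → ℝ) (n : ℕ) (t : ℝ) : ℝ := κ t / t ^ (n + 1)

/-- An odd power of the eigenfunction over the conformal factor. -/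
def phaseG_v (σ u : ℂ → ℝ) (lam : ℝ) (n : ℕ) (z : ℂ) : ℝ :=
  (lam / 2) ^ n / 2 * u z ^ (2 * n + 1) * (σ z)⁻¹

/-- The scalar factor of the test field. -/
def phaseG_G (σ u : ℂ → ℝ) (lam : ℝ) (κ : ℝ → ℝ) (n : ℕ) (z : ℂ) : ℝ :=
  phaseG_h κ n (ps σ u lam z) * phaseG_v σ u lam n z

lemma phaseG_h_cd {κ : ℝ → ℝ} {Λ : ℝ} (h : Adm κ Λ) (n : ℕ) : ContDiff ℝ ∞ (phaseG_h κ n) :=
  cd_div_pow h.cd (by norm_num) h.zero (n + 1)

lemma phaseG_h_zero {κ : ℝ → ℝ} {Λ t : ℝ} (h : Adm κ Λ) (n : ℕ) (ht : t < 1 / 4) :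
    phaseG_h κ n t = 0 ∧ deriv (phaseG_h κ n) t = 0 := by
  have e : phaseG_h κ n =ᶠ[𝓝 t] fun _ => 0 := by
    filter_upwards [Iio_mem_nhds ht] with s hs
    simp [phaseG_h, h.zero s (le_of_lt hs)]
  exact ⟨e.eq_of_nhds, by rw [e.deriv_eq]; simp⟩

lemma phaseG_h_le {κ : ℝ → ℝ} {Λ t : ℝ} (h : Adm κ Λ) (n : ℕ) (ht : 0 < t) :
    |phaseG_h κ n t| * t ^ (n + 1) ≤ Λ / t ^ 2 ∧
      |deriv (phaseG_h κ n) t| * t ^ (n + 1) ≤ (n + 2) * Λ / t ^ 3 := by
  have p : 0 < t ^ (n + 1) := pow_pos ht _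
  have b0 := h.b0 t ht
  have b1 := h.b1 t ht
  constructor
  · rw [phaseG_h, abs_div, abs_of_pos p, div_mul_cancel₀ _ p.ne']; exact b0
  · have d : HasDerivAt κ (deriv κ t) t := (h.cd.differentiable (by simp) t).hasDerivAt
    have e : deriv (phaseG_h κ n) t = _ := (d.div (hasDerivAt_pow (n + 1) t) p.ne').deriv
    have e2 : deriv (phaseG_h κ n) t * t ^ (n + 1) = deriv κ t - (n + 1) * (κ t / t) := by
      rw [e]; simp only [Nat.add_sub_cancel]; push_cast; field_simp; ring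
    rw [← abs_of_pos p, ← abs_mul, e2]
    have b2 : |κ t / t| ≤ Λ / t ^ 3 := by
      rw [abs_div, abs_of_pos ht, div_le_iff₀ ht]
      refine b0.trans (le_of_eq ?_); field_simp
    calc _ ≤ |deriv κ t| + |(n + 1) * (κ t / t)| := abs_sub _ _
      _ = |deriv κ t| + (n + 1) * |κ t / t| := by
        rw [abs_mul, abs_of_nonneg (by positivity : (0 : ℝ) ≤ n + 1)]
      _ ≤ Λ / t ^ 3 + (n + 1) * (Λ / t ^ 3) := by gcongr
      _ = _ := by ring

lemma phaseG_v_cd (hσ : Met σ) (hu : ContDiffOn ℝ ∞ u UH) (n : ℕ) :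
    ContDiffOn ℝ ∞ (phaseG_v σ u lam n) UH :=
  (contDiffOn_const.mul (hu.pow _)).mul (hσ.cd.inv fun z hz => (hσ.pos z hz).ne')

lemma phaseG_G_cd (hσ : Met σ) (hu : ContDiffOn ℝ ∞ u UH) {κ : ℝ → ℝ} {Λ : ℝ} (h : Adm κ Λ)
    (n : ℕ) : ContDiffOn ℝ ∞ (phaseG_G σ u lam κ n) UH :=
  ((phaseG_h_cd h n).comp_contDiffOn (cd_ps hσ hu)).mul (phaseG_v_cd hσ hu n)

lemma phaseG_gr (hσ : Met σ) (hu : ContDiffOn ℝ ∞ u UH) {κ : ℝ → ℝ} {Λ : ℝ} (h : Adm κ Λ)
    (n : ℕ) (hz : z ∈ UH) :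
    gr (phaseG_G σ u lam κ n) z
      = (deriv (phaseG_h κ n) (ps σ u lam z) * phaseG_v σ u lam n z : ℝ) * gr (ps σ u lam) z
        + (phaseG_h κ n (ps σ u lam z) * ((lam / 2) ^ n / 2 * ((2 * n + 1) * u z ^ (2 * n)))
          * (σ z)⁻¹ : ℝ) * gr u z
        - (phaseG_G σ u lam κ n z * (σ z)⁻¹ : ℝ) * gr σ z := by
  have s0 := (hσ.pos z hz).ne'
  have d1 := dAt (cd_ps (lam := lam) hσ hu) hz
  have dh : HasDerivAt (phaseG_h κ n) (deriv (phaseG_h κ n) (ps σ u lam z)) (ps σ u lam z) :=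
    ((phaseG_h_cd h n).differentiable (by simp) _).hasDerivAt
  have e1 := gr_comp dh d1
  have e2 := gr_comp ((hasDerivAt_pow (2 * n + 1) (u z)).const_mul ((lam / 2) ^ n / 2)) (dAt hu hz)
  have e3 := gr_comp (hasDerivAt_inv s0) (dAt hσ.cd hz)
  have e4 : gr (phaseG_v σ u lam n) z = _ :=
    gr_mul (f := fun w => (lam / 2) ^ n / 2 * u w ^ (2 * n + 1)) (g := fun w => (σ w)⁻¹)
      (((dAt hu hz).pow _).const_mul _) ((dAt hσ.cd hz).inv s0)
  have e5 : gr (phaseG_G σ u lam κ n) z = _ :=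
    gr_mul (f := fun w => phaseG_h κ n (ps σ u lam w)) (g := phaseG_v σ u lam n)
      (dh.differentiableAt.comp z d1) (dAt (phaseG_v_cd hσ hu n) hz)
  rw [e5, e4, e1, e2, e3]
  simp only [phaseG_G, phaseG_v, Nat.add_sub_cancel]
  push_cast
  ring

/-- The main term in polynomial form. -/
lemma phaseG_main (hσ : Met σ) {κ : ℝ → ℝ} {Λ : ℝ} (h : Adm κ Λ) (n k : ℕ) (hz : z ∈ UH) :
    κ (ps σ u lam z) * ((2 * n + 1) * qq σ u lam z ^ n - (2 * n + 2 + k) * qq σ u lam z ^ (n + 1))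
      = phaseG_h κ n (ps σ u lam z) * ((lam / 2) ^ n / 2 * ((2 * n + 1) * u z ^ (2 * n)))
          * SS σ u z - (k + 1) * lam * σ z * u z * phaseG_G σ u lam κ n z := by
  have s0 := (hσ.pos z hz).ne'
  by_cases ht : ps σ u lam z ≤ 1 / 4
  · simp [phaseG_G, phaseG_h, h.zero _ ht]
  · have t0 : ps σ u lam z ≠ 0 := by intro e; rw [e] at ht; norm_num at ht
    have e : SS σ u z = 2 * ps σ u lam z - lam * u z ^ 2 := by unfold ps; ring
    rw [e]
    simp only [phaseG_G, phaseG_h, phaseG_v, qq, div_pow, mul_pow]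
    field_simp
    ring

/-- The divergence of the test field. -/
lemma phaseG_eP (hσ : Met σ) (hu : Eg σ u lam) {κ : ℝ → ℝ} {Λ : ℝ} (h : Adm κ Λ) (n k : ℕ)
    {Θ : ℂ → ℂ} (hΘ : ContDiffOn ℝ ∞ Θ UH) (hz : z ∈ UH) :
    eP (fun w => rC (phaseG_G σ u lam κ n) w * Θ w * pp u w)
        (fun w => rC (phaseG_G σ u lam κ n) w * Θ w * conj (pp u w)) z
      = (κ (ps σ u lam z) * ((2 * n + 1) * qq σ u lam z ^ n
          - (2 * n + 2 + k) * qq σ u lam z ^ (n + 1)) : ℝ) * Θ z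
        + ((deriv (phaseG_h κ n) (ps σ u lam z) * phaseG_v σ u lam n z : ℝ)
            * (pp u z * conj (gr (ps σ u lam) z) + conj (pp u z) * gr (ps σ u lam) z) * Θ z
          - (phaseG_G σ u lam κ n z * (σ z)⁻¹ : ℝ)
            * (pp u z * conj (gr σ z) + conj (pp u z) * gr σ z) * Θ z
          + (phaseG_G σ u lam κ n z : ℝ)
            * (fderiv ℝ Θ z (pp u z) + k * lam * σ z * u z * Θ z)) := by
  have s0 := hσ.ne hz
  have dG := d_rC (dAt (phaseG_G_cd (lam := lam) hσ hu.cd h n) hz)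
  have dΘ := dAt hΘ hz
  have dp := dAt (cd_pp hu.cd) hz
  have dq := dAt (cd_conj (cd_pp hu.cd)) hz
  have eS : (SS σ u z : ℂ) = pp u z * conj (pp u z) * (σ z : ℂ)⁻¹ := by
    rw [SS, mul_conj]; push_cast; ring
  have eg : gr u z = pp u z / 2 := by rw [pp]; ring
  rw [phaseG_main hσ h n k hz, eP, dz_mul (dG.fun_mul dΘ) dp, dzb_mul (dG.fun_mul dΘ) dq, dz_mul dG dΘ,
    dzb_mul dG dΘ, dzb_conj, hu.eq z hz, dz_rC, ← gr, phaseG_gr hσ hu.cd h n hz, fderiv_eq_dz, eg]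
  simp only [map_add, map_sub, map_mul, map_neg, conj_ofReal, map_div₀, map_ofNat, rC]
  push_cast
  rw [eS]
  ring

lemma phaseG_real {r v h0 h1 P g t M Λ a c s : ℝ} {n : ℕ} (ht : 1 / 4 ≤ t)
    (hM : 1 ≤ M) (hΛ : 0 ≤ Λ) (hc : 0 ≤ c) (hg : 0 ≤ g) (ha : 0 ≤ a)
    (H0 : |h0| * t ^ (n + 1) ≤ Λ / t ^ 2) (H1 : |h1| * t ^ (n + 1) ≤ (n + 2) * Λ / t ^ 3)
    (V1 : r * |v| * P ≤ t ^ (n + 1) * M ^ 2) (V2 : r * |v| * s ≤ t ^ (n + 1) * M) :
    r * (c * (|h1| * |v| * (2 * P * g) * (2 * t) + |h0| * |v| * M * (2 * P * M) * (2 * t)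
        + |h0| * |v| * (a * s * (g + t))) + 2 * (c * (|h0| * |v| * (2 * t) * P)))
      ≤ c * Λ * ((4 * (n + 2) * M ^ 2 + M * a) * (g / t ^ 2)
        + 4 * (4 * M ^ 4 + M * a + 4 * M ^ 2)) := by
  have t0 : 0 < t := by linarith
  have A : |h0| * (r * |v| * P) ≤ Λ / t ^ 2 * M ^ 2 := by
    calc _ ≤ |h0| * (t ^ (n + 1) * M ^ 2) := by gcongr
      _ = |h0| * t ^ (n + 1) * M ^ 2 := by ring
      _ ≤ _ := by gcongr
  have B : |h1| * (r * |v| * P) ≤ (n + 2) * Λ / t ^ 3 * M ^ 2 := by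
    calc _ ≤ |h1| * (t ^ (n + 1) * M ^ 2) := by gcongr
      _ = |h1| * t ^ (n + 1) * M ^ 2 := by ring
      _ ≤ _ := by gcongr
  have C : |h0| * (r * |v| * s) ≤ Λ / t ^ 2 * M := by
    calc _ ≤ |h0| * (t ^ (n + 1) * M) := by gcongr
      _ = |h0| * t ^ (n + 1) * M := by ring
      _ ≤ _ := by gcongr
  have D : 1 / t ≤ 4 := by rw [div_le_iff₀ t0]; linarith
  calc _ = c * (|h1| * (r * |v| * P) * (4 * g * t) + |h0| * (r * |v| * P) * (4 * M ^ 2 * t + 4 * t)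
        + |h0| * (r * |v| * s) * (a * (g + t))) := by ring
    _ ≤ c * ((n + 2) * Λ / t ^ 3 * M ^ 2 * (4 * g * t)
        + Λ / t ^ 2 * M ^ 2 * (4 * M ^ 2 * t + 4 * t) + Λ / t ^ 2 * M * (a * (g + t))) := by
      gcongr
    _ = c * Λ * ((4 * (n + 2) * M ^ 2 + M * a) * (g / t ^ 2)
        + 1 / t * (4 * M ^ 4 + M * a + 4 * M ^ 2)) := by field_simp; ring
    _ ≤ _ := by gcongr

lemma phaseG_sq {x y : ℝ} (h : x ^ 2 ≤ y ^ 2) (hy : 0 ≤ y) : x ≤ y :=
  (abs_le_of_sq_le_sq' h hy).2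

lemma phaseG_v_le (hσ : Met σ) (hl : 0 ≤ lam) (hz : z ∈ UH) (n : ℕ) {M : ℝ} (hM : 1 ≤ M)
    (h1 : σ z ≤ M) (h2 : (σ z)⁻¹ ≤ M) :
    √lam * |phaseG_v σ u lam n z| * ‖pp u z‖ ≤ ps σ u lam z ^ (n + 1) * M ^ 2 ∧
      √lam * |phaseG_v σ u lam n z| * √(ps σ u lam z) ≤ ps σ u lam z ^ (n + 1) * M := by
  have s0 := hσ.pos z hz
  have t0 := ps_nonneg (u := u) hσ hl hz
  have l1 := lam_le (u := u) (lam := lam) hσ hz
  have l2 : ‖pp u z‖ ^ 2 ≤ 2 * ps σ u lam z * M := by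
    have := SS_le (σ := σ) (u := u) hl z
    rw [SS, div_le_iff₀ s0, normSq_eq_norm_sq] at this
    exact this.trans (by gcongr)
  set t := ps σ u lam z
  have v : |phaseG_v σ u lam n z| ≤ t ^ n / 2 * |u z| * M := by
    have e : phaseG_v σ u lam n z = (lam * u z ^ 2 / 2) ^ n / 2 * u z * (σ z)⁻¹ := by
      simp only [phaseG_v, div_pow, mul_pow]; ring
    rw [e, abs_mul, abs_mul, abs_of_nonneg (by positivity : 0 ≤ (lam * u z ^ 2 / 2) ^ n / 2),
      abs_of_pos (inv_pos.2 s0)]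
    gcongr
    linarith
  have q : (√lam * |u z|) ^ 2 ≤ 2 * t := by rwa [mul_pow, Real.sq_sqrt hl, sq_abs]
  have a1 : √lam * |u z| * ‖pp u z‖ ≤ 2 * t * M := by
    refine phaseG_sq ?_ (by positivity)
    calc _ = (√lam * |u z|) ^ 2 * ‖pp u z‖ ^ 2 := by ring
      _ ≤ 2 * t * (2 * t * M) := by gcongr
      _ = (2 * t) ^ 2 * (M * 1) := by ring
      _ ≤ (2 * t) ^ 2 * (M * M) := by gcongr
      _ = _ := by ring
  have a2 : √lam * |u z| * √t ≤ 2 * t := by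
    refine phaseG_sq ?_ (by positivity)
    calc _ = (√lam * |u z|) ^ 2 * √t ^ 2 := by ring
      _ ≤ 2 * t * √t ^ 2 := by gcongr
      _ ≤ _ := by rw [Real.sq_sqrt t0]; nlinarith [sq_nonneg t]
  constructor
  · calc _ ≤ √lam * (t ^ n / 2 * |u z| * M) * ‖pp u z‖ := by gcongr
      _ = t ^ n / 2 * M * (√lam * |u z| * ‖pp u z‖) := by ring
      _ ≤ t ^ n / 2 * M * (2 * t * M) := by gcongr
      _ = _ := by ring
  · calc _ ≤ √lam * (t ^ n / 2 * |u z| * M) * √t := by gcongr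
      _ = t ^ n / 2 * M * (√lam * |u z| * √t) := by ring
      _ ≤ t ^ n / 2 * M * (2 * t) := by gcongr
      _ = _ := by ring

lemma phaseG_pair (p g : ℂ) : ‖p * conj g + conj p * g‖ ≤ 2 * ‖p‖ * ‖g‖ := by
  refine (norm_add_le _ _).trans (le_of_eq ?_)
  simp only [norm_mul, norm_conj]; ring

lemma phaseG_bd (hσ : Met σ) (hK : Cp K) :
    ∃ M, 1 ≤ M ∧ ∀ z ∈ K, σ z ≤ M ∧ (σ z)⁻¹ ≤ M ∧ ‖gr σ z‖ ≤ M := by
  obtain ⟨a, ha⟩ := hK.1.exists_bound_of_continuousOn (hσ.cd.continuousOn.mono hK.2)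
  obtain ⟨b, hb⟩ := hK.1.exists_bound_of_continuousOn
    ((hσ.cd.inv fun z hz => (hσ.pos z hz).ne').continuousOn.mono hK.2)
  obtain ⟨c, hc⟩ := hK.1.exists_bound_of_continuousOn ((cd_gr hσ.cd).continuousOn.mono hK.2)
  refine ⟨max 1 (max a (max b c)), le_max_left _ _, fun z hz => ⟨?_, ?_, ?_⟩⟩
  · exact ((le_abs_self _).trans (ha z hz)).trans (by simp)
  · exact ((le_abs_self _).trans (hb z hz)).trans (by simp)
  · exact (hc z hz).trans (by simp)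

theorem phaseG (hσ : Met σ) (hK : Cp K) (CE : Set ℂ → ℝ) (n k : ℕ) (a : ℝ) :
    ∃ C : ℝ, ∀ (u : ℂ → ℝ) (lam : ℝ) (K₀ : Set ℂ) (CM : Set ℂ → ℝ), Sol σ K₀ CE CM u lam →
      ∀ Θ : ℂ → ℂ, ContDiffOn ℝ ∞ Θ UH → (∀ z ∈ K, ‖Θ z‖ ≤ 2 * ps σ u lam z) →
      (∀ z ∈ K, ‖fderiv ℝ Θ z (pp u z) + k * lam * σ z * u z * Θ z‖
        ≤ a * √(ps σ u lam z) * (‖gr (ps σ u lam) z‖ + ps σ u lam z)) →
      ∀ (κ : ℝ → ℝ) (Λ : ℝ) (φ : ℂ → ℂ) (c : ℝ), Adm κ Λ → CutC φ K c →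
        ‖∫ z, φ z * (κ (ps σ u lam z) * ((2 * n + 1) * qq σ u lam z ^ n
          - (2 * n + 2 + k) * qq σ u lam z ^ (n + 1)) : ℝ) * Θ z‖ ≤ C * Λ * c / √lam := by
  obtain ⟨M, hM, bM⟩ := phaseG_bd hσ hK
  set D1 : ℝ := 4 * (n + 2) * M ^ 2 + M * |a| with hD1
  set D2 : ℝ := 4 * (4 * M ^ 4 + M * |a| + 4 * M ^ 2) with hD2
  have d1 : 0 ≤ D1 := by positivity
  have d2 : 0 ≤ D2 := by positivity
  refine ⟨(D1 + D2) * volume.real K + 24 * D1 * CE K, ?_⟩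
  intro u lam K₀ CM S Θ hΘ b0 b1 κ Λ φ c hκ hφ
  have hu := S.eg.cd
  have l0 : 0 < lam := by linarith [S.eg.one]
  have r0 : 0 < √lam := Real.sqrt_pos.2 l0
  have hΛ : 0 ≤ Λ := by simpa using (abs_nonneg _).trans (hκ.b0 1 one_pos)
  have hc : 0 ≤ c := (norm_nonneg _).trans (hφ.b0 0)
  have T := Ts.of_cut hφ hK
  have cG := (cd_rC (phaseG_G_cd (lam := lam) hσ hu hκ n)).mul hΘ
  have cA := cd1 (cG.mul (cd_pp hu))
  have cB := cd1 (cG.mul (cd_conj (cd_pp hu)))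
  have i1 := T.int (co_eP cA cB)
  have i2 := (T.int_dz cA.continuousOn).add (T.int_dzb cB.continuousOn)
  have e := T.ibp cA cB
  have cm : ContinuousOn (fun z => ((κ (ps σ u lam z) * ((2 * n + 1) * qq σ u lam z ^ n
      - (2 * n + 2 + k) * qq σ u lam z ^ (n + 1)) : ℝ) : ℂ) * Θ z) UH := by
    refine (continuous_ofReal.comp_continuousOn ?_).mul hΘ.continuousOn
    refine (((cd_wq (lam := lam) hσ hu hκ.cd hκ.zero n).continuousOn.const_smul
      (2 * n + 1 : ℝ)).sub ((cd_wq (lam := lam) hσ hu hκ.cd hκ.zero (n + 1)).continuousOn.const_smul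
      (2 * n + 2 + k : ℝ))).congr fun z _ => ?_
    simp only [Pi.sub_apply, Pi.smul_apply, smul_eq_mul]; ring
  have i3 := T.int cm
  have ce := (co_en (lam := lam) hσ hu one_pos).mono hK.2
  have ie : IntegrableOn (en σ u lam 1) K := ce.integrableOn_compact hK.1
  have ic : IntegrableOn (fun _ : ℂ => D1 + D2) K := integrableOn_const hK.1.measure_lt_top.ne
  have ib : IntegrableOn (fun z => c * Λ / √lam * (D1 + D2 + 24 * D1 * en σ u lam 1 z)) K :=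
    (ic.add (ie.const_mul _)).const_mul _
  have e2 := integral_sub (i1.add i2) i3
  rw [integral_add' i1 i2, e] at e2
  have key := norm_integral_le_of_norm_le ((integrable_indicator_iff hK.1.measurableSet).2 ib)
    (f := fun z => φ z * eP (fun w => rC (phaseG_G σ u lam κ n) w * Θ w * pp u w)
        (fun w => rC (phaseG_G σ u lam κ n) w * Θ w * conj (pp u w)) z
      + (dz φ z * (rC (phaseG_G σ u lam κ n) z * Θ z * pp u z)
        + dzb φ z * (rC (phaseG_G σ u lam κ n) z * Θ z * conj (pp u z)))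
      - φ z * (((κ (ps σ u lam z) * ((2 * n + 1) * qq σ u lam z ^ n
      - (2 * n + 2 + k) * qq σ u lam z ^ (n + 1)) : ℝ) : ℂ) * Θ z)) (Eventually.of_forall ?_)
  · have e3 := e2.trans (congrArg₂ (· - ·) (neg_add_cancel _) rfl)
    rw [zero_sub] at e3
    have e4 := (congrArg norm e3).symm.trans_le key
    rw [norm_neg, integral_indicator hK.1.measurableSet, integral_const_mul,
      integral_add ic (ie.const_mul _), integral_const_mul, setIntegral_const, smul_eq_mul] at e4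
    simp only [mul_assoc] at e4 ⊢
    refine e4.trans ?_
    have := S.en K hK 1 one_pos
    calc _ ≤ c * Λ / √lam * (volume.real K * (D1 + D2) + 24 * (D1 * CE K)) := by gcongr
      _ = _ := by ring
  · intro z
    by_cases hzK : z ∈ K
    swap
    · have h1 : z ∉ tsupport φ := fun h' => hzK (hφ.sub h')
      simp [hzK, image_eq_zero_of_notMem_tsupport h1,
        image_eq_zero_of_notMem_tsupport fun h' => h1 (tsupport_dz φ h'),
        image_eq_zero_of_notMem_tsupport fun h' => h1 (tsupport_dzb φ h')]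
    have hz := hK.2 hzK
    have en0 := en_nonneg (u := u) (lam := lam) hσ one_pos hz
    rw [indicator_of_mem hzK, phaseG_eP hσ S.eg hκ n k hΘ hz]
    rcases lt_or_ge (ps σ u lam z) (1 / 4) with ht | ht
    · obtain ⟨z0, z1⟩ := phaseG_h_zero hκ n ht
      simp only [phaseG_G, rC, z0, z1]
      simp
      positivity
    obtain ⟨m1, m2, m3⟩ := bM z hzK
    obtain ⟨H0, H1⟩ := phaseG_h_le hκ n (by linarith : 0 < ps σ u lam z)
    obtain ⟨V1, V2⟩ := phaseG_v_le (u := u) hσ l0.le hz n hM m1 m2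
    have R := phaseG_real ht hM hΛ hc (norm_nonneg (gr (ps σ u lam) z)) (abs_nonneg a)
      H0 H1 V1 V2
    have eg := en_ge hσ l0.le hz ht
    have t0 : 0 < ps σ u lam z := by linarith
    have X : ‖gr (ps σ u lam) z‖ / ps σ u lam z ^ 2 ≤ 1 + 24 * en σ u lam 1 z := by
      have e1 : (‖gr (ps σ u lam) z‖ / ps σ u lam z ^ 2) ^ 2
          = 1 / ps σ u lam z * (‖gr (ps σ u lam) z‖ ^ 2 / ps σ u lam z ^ 3) := by field_simp
      have e2 : 1 / ps σ u lam z ≤ 4 := by rw [div_le_iff₀ t0]; linarith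
      have e3 : (‖gr (ps σ u lam) z‖ / ps σ u lam z ^ 2) ^ 2 ≤ 4 * (6 * en σ u lam 1 z) := by
        rw [e1]; gcongr
      nlinarith [sq_nonneg (‖gr (ps σ u lam) z‖ / ps σ u lam z ^ 2 - 1)]
    have nG : ‖(phaseG_G σ u lam κ n z : ℂ)‖
        = |phaseG_h κ n (ps σ u lam z)| * |phaseG_v σ u lam n z| := by
      rw [norm_real, Real.norm_eq_abs, phaseG_G, abs_mul]
    have nΘ := b0 z hzK
    have n1 : ‖((deriv (phaseG_h κ n) (ps σ u lam z) * phaseG_v σ u lam n z : ℝ) : ℂ)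
        * (pp u z * conj (gr (ps σ u lam) z) + conj (pp u z) * gr (ps σ u lam) z) * Θ z‖
        ≤ |deriv (phaseG_h κ n) (ps σ u lam z)| * |phaseG_v σ u lam n z|
          * (2 * ‖pp u z‖ * ‖gr (ps σ u lam) z‖) * (2 * ps σ u lam z) := by
      rw [norm_mul, norm_mul, norm_real, Real.norm_eq_abs, abs_mul]
      gcongr
      exact phaseG_pair _ _
    have n2 : ‖((phaseG_G σ u lam κ n z * (σ z)⁻¹ : ℝ) : ℂ)
        * (pp u z * conj (gr σ z) + conj (pp u z) * gr σ z) * Θ z‖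
        ≤ |phaseG_h κ n (ps σ u lam z)| * |phaseG_v σ u lam n z| * M * (2 * ‖pp u z‖ * M)
          * (2 * ps σ u lam z) := by
      rw [norm_mul, norm_mul, norm_real, Real.norm_eq_abs, abs_mul, phaseG_G, abs_mul,
        abs_of_pos (inv_pos.2 (hσ.pos z hz))]
      gcongr
      exact (phaseG_pair _ _).trans (by gcongr)
    have n3 : ‖(phaseG_G σ u lam κ n z : ℂ)
        * (fderiv ℝ Θ z (pp u z) + k * lam * σ z * u z * Θ z)‖
        ≤ |phaseG_h κ n (ps σ u lam z)| * |phaseG_v σ u lam n z|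
          * (|a| * √(ps σ u lam z) * (‖gr (ps σ u lam) z‖ + ps σ u lam z)) := by
      rw [norm_mul, nG]
      gcongr
      exact (b1 z hzK).trans (by gcongr; exact le_abs_self a)
    have n4 : ∀ d p : ℂ, ‖d‖ ≤ c → ‖p‖ = ‖pp u z‖ →
        ‖d * (rC (phaseG_G σ u lam κ n) z * Θ z * p)‖ ≤ c * (|phaseG_h κ n (ps σ u lam z)|
          * |phaseG_v σ u lam n z| * (2 * ps σ u lam z) * ‖pp u z‖) := by
      intro d p hd hp
      rw [norm_mul, norm_mul, norm_mul, rC, nG, hp]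
      gcongr
    have n5 := n4 _ _ (hφ.b1 z) rfl
    have n6 := n4 _ _ (hφ.b2 z) (norm_conj (pp u z))
    rw [show ∀ f x y w : ℂ, f * (x + y) + w - f * x = f * y + w from fun _ _ _ _ => by ring,
      div_mul_eq_mul_div, le_div_iff₀' r0]
    refine le_trans ?_ (R.trans ?_)
    · gcongr
      refine (norm_add_le _ _).trans (add_le_add ?_ ?_)
      · rw [norm_mul]
        gcongr
        · exact hφ.b0 z
        · exact (norm_add_le _ _).trans (add_le_add ((norm_sub_le _ _).trans (add_le_add n1 n2)) n3)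
      · exact (norm_add_le _ _).trans (by linarith)
    · refine mul_le_mul_of_nonneg_left ?_ (by positivity)
      rw [← hD1, ← hD2]
      linarith [mul_le_mul_of_nonneg_left X d1]

end Pool.Agent.Lib.MP_a52643_an.CP
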