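import Pool.Agent.Lib.MP_a52643_an.CP.Defs

/-!
Translation estimate.
-/

open Complex MeasureTheory Set Filter Topology Metric
open scoped ComplexConjugate ContDiff ENNReal

noncomputable section

namespace Pool.Agent.Lib.MP_a52643_an.CP

variable {σ u : ℂ → ℝ} {lam : ℝ} {K K₀ : Set ℂ} {CE CM : Set ℂ → ℝ} {z : ℂ}

lemma Trans_mem {r : ℝ} {b : ℂ} (hz : z ∈ K) (hb : ‖b‖ ≤ r) : z + b ∈ cthickening r K :=
  mem_cthickening_of_dist_le _ z _ _ hz (by simpa [dist_eq_norm] using hb)

lemma Trans_smul {r t : ℝ} {a : ℂ} (ha : ‖a‖ ≤ r) (ht : t ∈ Icc (0 : ℝ) 1) : ‖t • a‖ ≤ r := by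
  rw [norm_smul, Real.norm_of_nonneg ht.1]
  nlinarith [norm_nonneg a, ht.1, ht.2]

lemma Trans_shift {g : ℂ → ℝ} {r : ℝ} (hK : IsCompact K) (hg : IntegrableOn g (cthickening r K))
    (h0 : ∀ z, 0 ≤ g z) {b : ℂ} (hb : ‖b‖ ≤ r) :
    ∫ z in K, g (z + b) ≤ ∫ z in cthickening r K, g z := by
  have m : MeasurableSet (cthickening r K) := isClosed_cthickening.measurableSet
  rw [← integral_indicator hK.measurableSet, ← integral_indicator m,
    ← integral_add_right_eq_self ((cthickening r K).indicator g) b]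
  refine integral_mono_of_nonneg (Eventually.of_forall fun z => indicator_nonneg (fun _ _ => h0 _) z)
    (((integrable_indicator_iff m).2 hg).comp_add_right b) (Eventually.of_forall fun z => ?_)
  by_cases hz : z ∈ K
  · simp only [indicator_of_mem hz, indicator_of_mem (Trans_mem hz hb), le_refl]
  · simp only [indicator_of_notMem hz]
    exact indicator_nonneg (fun _ _ => h0 _) _

lemma Trans_pt {W : ℂ → ℝ} (hW : ContDiffOn ℝ 1 W UH) {r : ℝ} {a : ℂ} (ha : ‖a‖ ≤ r)
    (hz : ∀ t ∈ Icc (0 : ℝ) 1, z + t • a ∈ UH) :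
    (W (z + a) - W z) ^ 2 ≤ 4 * r ^ 2 * ∫ t in Icc (0 : ℝ) 1, ‖gr W (z + t • a)‖ ^ 2 := by
  have cg : ContinuousOn (fun t : ℝ => gr W (z + t • a)) (Icc 0 1) :=
    (co_dzb (cd_rC hW)).comp (by fun_prop) hz
  have ch : ContinuousOn (fun t : ℝ => 2 * (conj a * gr W (z + t • a)).re) (Icc 0 1) :=
    continuousOn_const.mul (continuous_re.comp_continuousOn (continuousOn_const.mul cg))
  have hd : ∀ t ∈ uIcc (0 : ℝ) 1, HasDerivAt (fun t : ℝ => W (z + t • a))
      (2 * (conj a * gr W (z + t • a)).re) t := fun t ht => by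
    rw [uIcc_of_le zero_le_one] at ht
    have d := dAt1 hW (hz t ht)
    have e : HasDerivAt (fun t : ℝ => z + t • a) a t := by
      simpa using ((hasDerivAt_id t).smul_const a).const_add z
    rw [← fderiv_eq_gr d]
    exact d.hasFDerivAt.comp_hasDerivAt t e
  have e := intervalIntegral.integral_eq_sub_of_hasDerivAt hd
    (ch.intervalIntegrable_of_Icc zero_le_one)
  rw [intervalIntegral.integral_of_le zero_le_one, ← integral_Icc_eq_integral_Ioc, one_smul,
    zero_smul, add_zero] at e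
  set c := W (z + a) - W z
  have i1 := ch.integrableOn_compact (μ := volume) isCompact_Icc
  have i2 : IntegrableOn (fun t : ℝ => ‖gr W (z + t • a)‖ ^ 2) (Icc 0 1) :=
    (cg.norm.pow 2).integrableOn_compact isCompact_Icc
  have le : ∫ t in Icc (0 : ℝ) 1, 2 * c * (2 * (conj a * gr W (z + t • a)).re) ≤
      ∫ t in Icc (0 : ℝ) 1, (c ^ 2 + 4 * r ^ 2 * ‖gr W (z + t • a)‖ ^ 2) := by
    refine integral_mono (i1.const_mul _) ((integrable_const _).add (i2.const_mul _)) fun t => ?_
    have h1 : |(conj a * gr W (z + t • a)).re| ≤ r * ‖gr W (z + t • a)‖ := by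
      refine (abs_re_le_norm _).trans ?_
      rw [norm_mul, norm_conj]
      exact mul_le_mul_of_nonneg_right ha (norm_nonneg _)
    have h2 := sq_le_sq' (abs_le.1 h1).1 (abs_le.1 h1).2
    dsimp only
    nlinarith [sq_nonneg (c - 2 * (conj a * gr W (z + t • a)).re)]
  rw [integral_const_mul, e, integral_add (integrable_const _) (i2.const_mul _),
    integral_const_mul] at le
  simp only [integral_const, MeasurableSet.univ, measureReal_restrict_apply, univ_inter,
    Real.volume_real_Icc, sub_zero, zero_le_one, sup_of_le_left, smul_eq_mul, one_mul] at le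
  nlinarith

theorem trans {W : ℂ → ℝ} (hW : ContDiffOn ℝ 1 W UH) {r : ℝ} (hK : IsCompact K)
    (h : Cp (cthickening r K)) {a : ℂ} (ha : ‖a‖ ≤ r) :
    ∫ z in K, (W (z + a) - W z) ^ 2 ≤ 4 * r ^ 2 * ∫ z in cthickening r K, ‖gr W z‖ ^ 2 := by
  have cg : ContinuousOn (fun z => ‖gr W z‖ ^ 2) UH := (co_dzb (cd_rC hW)).norm.pow 2
  have hm : ∀ z ∈ K, ∀ t ∈ Icc (0 : ℝ) 1, z + t • a ∈ UH := fun z hz t ht =>
    h.2 (Trans_mem hz (Trans_smul ha ht))
  have hI : Integrable (Function.uncurry fun (z : ℂ) (t : ℝ) => ‖gr W (z + t • a)‖ ^ 2)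
      ((volume.restrict K).prod (volume.restrict (Icc 0 1))) := by
    rw [Measure.prod_restrict]
    refine ContinuousOn.integrableOn_compact (hK.prod isCompact_Icc) ?_
    exact cg.comp (f := fun p : ℂ × ℝ => p.1 + p.2 • a) (by fun_prop)
      fun p hp => hm _ hp.1 _ hp.2
  have hg : IntegrableOn (fun z => ‖gr W z‖ ^ 2) (cthickening r K) :=
    (cg.mono h.2).integrableOn_compact h.1
  calc ∫ z in K, (W (z + a) - W z) ^ 2
      ≤ ∫ z in K, 4 * r ^ 2 * ∫ t in Icc (0 : ℝ) 1, ‖gr W (z + t • a)‖ ^ 2 :=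
        integral_mono_of_nonneg (Eventually.of_forall fun z => sq_nonneg _)
          (hI.integral_prod_left.const_mul _)
          ((ae_restrict_mem hK.measurableSet).mono fun z hz => Trans_pt hW ha (hm z hz))
    _ = 4 * r ^ 2 * ∫ t in Icc (0 : ℝ) 1, ∫ z in K, ‖gr W (z + t • a)‖ ^ 2 := by
        rw [integral_const_mul, integral_integral_swap hI]
    _ ≤ 4 * r ^ 2 * ∫ t in Icc (0 : ℝ) 1, ∫ z in cthickening r K, ‖gr W z‖ ^ 2 := by
        refine mul_le_mul_of_nonneg_left ?_ (by positivity)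
        exact integral_mono_of_nonneg
          (Eventually.of_forall fun t => integral_nonneg fun z => sq_nonneg _) (integrable_const _)
          ((ae_restrict_mem measurableSet_Icc).mono fun t ht =>
            Trans_shift hK hg (fun _ => sq_nonneg _) (Trans_smul ha ht))
    _ = _ := by simp

end Pool.Agent.Lib.MP_a52643_an.CP
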