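import Pool.Agent.Lib.MP_a52643_an.CP.Strip
import Pool.Agent.Lib.MP_a52643_an.CP.Trans

/-!
The sublevel sets shrink.
-/

open Complex MeasureTheory Set Filter Topology Metric
open scoped ComplexConjugate ContDiff ENNReal

noncomputable section

namespace Pool.Agent.Lib.MP_a52643_an.CP

variable {σ u : ℂ → ℝ} {lam : ℝ} {K K₀ : Set ℂ} {CE CM : Set ℂ → ℝ} {z : ℂ}

lemma step_ball (x : ℂ) {r : ℝ} (hr : 0 < r) : volume.real (ball x r) = Real.pi * r ^ 2 := by
  rw [Measure.real, Complex.volume_ball]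
  simp [hr.le, mul_comm]

lemma step_avg {A B : Set ℂ} (hA : MeasurableSet A) (hB : MeasurableSet B) {r β : ℝ}
    (hr : 0 < r) (hβ : 0 ≤ β) (hAf : volume A ≠ ⊤)
    (h1 : ∀ x ∈ A, volume.real (ball x r ∩ B) ≤ 2 * r ^ 2)
    (h2 : ∀ h : ℂ, ‖h‖ < r → volume.real (A ∩ {x | x + h ∉ B}) ≤ β) :
    volume.real A ≤ 4 * β := by
  set S : Set (ℂ × ℂ) := {p | p.1 ∈ A ∧ p.2 ∈ ball (0 : ℂ) r ∧ p.1 + p.2 ∉ B} with hS
  have mS : MeasurableSet S :=
    (measurable_fst hA).inter ((measurable_snd measurableSet_ball).inter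
      ((measurable_fst.add measurable_snd) hB.compl))
  have e1 : ENNReal.ofReal (r ^ 2) * volume A ≤ (volume.prod volume) S := by
    rw [Measure.prod_apply mS, ← setLIntegral_const]
    refine le_trans (setLIntegral_mono' hA fun x hx => ?_) (setLIntegral_le_lintegral A _)
    have e : Prod.mk x ⁻¹' S = (fun h => x + h) ⁻¹' (ball x r \ B) := by
      ext h; simp [hS, hx]
    rw [e, measure_preimage_add]
    have f1 : volume (ball x r \ B) ≠ ⊤ :=
      ((measure_mono diff_subset).trans_lt measure_ball_lt_top).ne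
    rw [← ENNReal.ofReal_toReal f1]
    refine ENNReal.ofReal_le_ofReal ?_
    have f2 := measureReal_inter_add_diff (μ := volume) (s := ball x r) hB
      (measure_ball_lt_top.ne)
    rw [step_ball x hr] at f2
    have f3 := h1 x hx
    have f4 := Real.pi_gt_three
    have f5 : 0 < r ^ 2 := by positivity
    change r ^ 2 ≤ volume.real (ball x r \ B)
    nlinarith
  have e2 : (volume.prod volume) S ≤ ENNReal.ofReal β * volume (ball (0 : ℂ) r) := by
    rw [Measure.prod_apply_symm mS, ← setLIntegral_const, ← lintegral_indicator measurableSet_ball]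
    refine lintegral_mono fun h => ?_
    by_cases hh : h ∈ ball (0 : ℂ) r
    · rw [indicator_of_mem hh]
      have e : (fun x => (x, h)) ⁻¹' S = A ∩ {x | x + h ∉ B} := by
        ext x; simp only [hS, mem_preimage, mem_setOf_eq, mem_inter_iff, hh, true_and]
      have f1 : volume (A ∩ {x | x + h ∉ B}) ≠ ⊤ :=
        ((measure_mono inter_subset_left).trans_lt hAf.lt_top).ne
      rw [e, ← ENNReal.ofReal_toReal f1]
      exact ENNReal.ofReal_le_ofReal (h2 h (by simpa using hh))
    · have e : (fun x => (x, h)) ⁻¹' S = ∅ := by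
        ext x; simp only [hS, mem_preimage, mem_setOf_eq, hh, false_and, and_false,
          mem_empty_iff_false]
      rw [e]; simp
  have e3 := ENNReal.toReal_mono
    (ENNReal.mul_ne_top ENNReal.ofReal_ne_top measure_ball_lt_top.ne) (e1.trans e2)
  rw [ENNReal.toReal_mul, ENNReal.toReal_mul, ENNReal.toReal_ofReal (by positivity),
    ENNReal.toReal_ofReal hβ] at e3
  change r ^ 2 * volume.real A ≤ β * volume.real (ball (0 : ℂ) r) at e3
  rw [step_ball 0 hr] at e3
  have f5 : 0 < r ^ 2 := by positivity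
  have f6 : β * (Real.pi * r ^ 2) ≤ r ^ 2 * (4 * β) := by
    have := mul_le_mul_of_nonneg_left Real.pi_le_four (mul_nonneg hβ f5.le)
    nlinarith
  exact le_of_mul_le_mul_left (e3.trans f6) f5

lemma step_st : ∃ M : ℝ, ∀ t, |deriv Real.smoothTransition t| ≤ M ∧
    (deriv Real.smoothTransition t ≠ 0 → 0 ≤ t ∧ t ≤ 1) := by
  have hc : Continuous (deriv Real.smoothTransition) :=
    (Real.smoothTransition.contDiff (n := 1)).continuous_deriv le_rfl
  obtain ⟨M, hM⟩ := (isCompact_Icc (a := (0 : ℝ)) (b := 1)).exists_bound_of_continuousOn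
    hc.continuousOn
  have hz : ∀ t, deriv Real.smoothTransition t ≠ 0 → 0 ≤ t ∧ t ≤ 1 := by
    intro t ht
    by_contra hn
    apply ht
    rcases not_and_or.1 hn with h | h
    · have : Real.smoothTransition =ᶠ[𝓝 t] fun _ => 0 := by
        filter_upwards [Iio_mem_nhds (not_le.1 h)] with s hs
        exact Real.smoothTransition.zero_of_nonpos (le_of_lt hs)
      rw [this.deriv_eq]; simp
    · have : Real.smoothTransition =ᶠ[𝓝 t] fun _ => 1 := by
        filter_upwards [Ioi_mem_nhds (not_le.1 h)] with s hs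
        exact Real.smoothTransition.one_of_one_le (le_of_lt hs)
      rw [this.deriv_eq]; simp
  refine ⟨M, fun t => ⟨?_, hz t⟩⟩
  by_cases ht : deriv Real.smoothTransition t = 0
  · rw [ht, abs_zero]; exact (norm_nonneg _).trans (hM 0 (by simp))
  · exact hM t (hz t ht)

lemma step_gr (hσ : Met σ) (he : Eg σ u lam) {M η s : ℝ}
    (hM : ∀ t, |deriv Real.smoothTransition t| ≤ M ∧
      (deriv Real.smoothTransition t ≠ 0 → 0 ≤ t ∧ t ≤ 1))
    (hη : 0 < η) (hη' : η ≤ 1 / 8) (hs : 1 / 2 ≤ s) (hs' : s ≤ 1) (hz : z ∈ UH) :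
    ‖gr (fun w => Real.smoothTransition ((s - η - ps σ u lam w) / η)) z‖ ^ 2 ≤
      3 * M ^ 2 / η ^ 2 * en σ u lam 1 z := by
  have hd : HasDerivAt (fun t => Real.smoothTransition ((s - η - t) / η))
      (deriv Real.smoothTransition ((s - η - ps σ u lam z) / η) * (-1 / η)) (ps σ u lam z) := by
    have h1 : HasDerivAt (fun t : ℝ => (s - η - t) / η) (-1 / η) (ps σ u lam z) :=
      ((hasDerivAt_id _).const_sub (s - η)).div_const η
    exact (((Real.smoothTransition.contDiff (n := 1)).differentiable one_ne_zero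
      _).hasDerivAt).comp _ h1
  have e := gr_comp (f := ps σ u lam) hd (dAt (cd_ps hσ he.cd) hz)
  rw [e]
  have hen := en_nonneg (u := u) (lam := lam) hσ one_pos hz
  obtain ⟨m1, m2⟩ := hM ((s - η - ps σ u lam z) / η)
  set d := deriv Real.smoothTransition ((s - η - ps σ u lam z) / η)
  by_cases h0 : d = 0
  · rw [h0]; simp only [zero_mul, ofReal_zero, norm_zero]; norm_num; positivity
  obtain ⟨a1, a2⟩ := m2 h0
  rw [le_div_iff₀ hη] at a1
  rw [div_le_iff₀ hη] at a2
  have p1 : 1 / 4 ≤ ps σ u lam z := by linarith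
  have p2 : ps σ u lam z ≤ 1 := by linarith
  have s1 := SS_nonneg (u := u) hσ hz
  have s2 := SS_le (σ := σ) (u := u) (zero_le_one.trans he.one) z
  have g1 : normSq (gr (ps σ u lam) z) ≤ 3 * en σ u lam 1 z := by
    unfold en
    rw [F1_one p1, ← mul_div_assoc, le_div_iff₀ (by linarith)]
    have q1 : 1 ≤ 1 / ps σ u lam z ^ 2 := by
      rw [le_div_iff₀ (by positivity)]; nlinarith
    have q2 := normSq_nonneg (gr (ps σ u lam) z)
    nlinarith [mul_le_mul_of_nonneg_right q1 q2, mul_le_mul_of_nonneg_left (by linarith :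
      SS σ u z + 1 ≤ 3) q2]
  rw [norm_mul, mul_pow, ← normSq_eq_norm_sq (gr _ _), norm_real, Real.norm_eq_abs, sq_abs]
  have d2 : d ^ 2 ≤ M ^ 2 := by
    rw [← sq_abs d]; exact pow_le_pow_left₀ (abs_nonneg _) m1 2
  have q2 := normSq_nonneg (gr (ps σ u lam) z)
  calc (d * (-1 / η)) ^ 2 * normSq (gr (ps σ u lam) z)
      = d ^ 2 * normSq (gr (ps σ u lam) z) / η ^ 2 := by field_simp
    _ ≤ M ^ 2 * (3 * en σ u lam 1 z) / η ^ 2 := by gcongr
    _ = _ := by ring

theorem step (hσ : Met σ) (h0 : Cp K₀) (CE CM : Set ℂ → ℝ) :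
    ∃ C r₀ : ℝ, 0 < C ∧ 0 < r₀ ∧ ∀ η μ : ℝ, 0 < η → η ≤ 1 / 8 → 0 < μ → μ ≤ r₀ * η → ∃ L : ℝ,
      ∀ (u : ℂ → ℝ) (lam : ℝ), Sol σ K₀ CE CM u lam → L ≤ lam → ∀ s : ℝ, 1 / 2 ≤ s → s ≤ 1 →
        ms σ u lam K₀ s ≤ μ → ms σ u lam K₀ (s - 2 * η) ≤ C * μ ^ 2 / η ^ 4 := by
  obtain ⟨R, hR, hK1⟩ := h0.thick
  obtain ⟨C1, hC1, hst⟩ := strip hσ hK1 K₀ CE CM
  obtain ⟨M, hM⟩ := step_st
  set K1 := cthickening R K₀ with hK1def
  refine ⟨48 * M ^ 2 * |CE K1| * C1 ^ 2 + 1, min R 1 / C1, by positivity, by positivity,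
    fun η μ hη hη' hμ hμ' => ?_⟩
  set r := C1 * μ / η with hr
  have r0 : 0 < r := by positivity
  have r1 : r ≤ min R 1 := by
    rw [hr, div_le_iff₀ hη]
    calc C1 * μ ≤ C1 * (min R 1 / C1 * η) := by gcongr
      _ = _ := by field_simp
  have rR : r ≤ R := r1.trans (min_le_left _ _)
  obtain ⟨L, hL⟩ := hst η r r hη hη' r0 (r1.trans (min_le_right _ _)) r0
  refine ⟨L, fun u lam hS hl s hs hs' hm => ?_⟩
  have cps : ContinuousOn (ps σ u lam) UH := (cd_ps hσ hS.eg.cd).continuousOn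
  set W : ℂ → ℝ := fun w => Real.smoothTransition ((s - η - ps σ u lam w) / η) with hW
  have cW : ContDiffOn ℝ ∞ W UH :=
    Real.smoothTransition.contDiff.comp_contDiffOn
      ((contDiffOn_const.sub (cd_ps hσ hS.eg.cd)).div_const η)
  have sub : cthickening r K₀ ⊆ K1 := cthickening_mono rR K₀
  have hKr : Cp (cthickening r K₀) := ⟨h0.1.cthickening, sub.trans hK1.2⟩
  have mB : MeasurableSet (K1 ∩ {z | ps σ u lam z ≤ s - η}) :=
    ((cps.mono hK1.2).preimage_isClosed_of_isClosed hK1.1.isClosed isClosed_Iic).measurableSet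
  have mA : MeasurableSet (K₀ ∩ {z | ps σ u lam z < s - 2 * η}) := by
    have := h0.1.measurableSet.diff ((cps.mono h0.2).preimage_isClosed_of_isClosed h0.1.isClosed
      (isClosed_Ici (a := s - 2 * η))).measurableSet
    convert this using 1
    ext x; simp only [mem_inter_iff, mem_setOf_eq, mem_diff, mem_preimage, mem_Ici]
    constructor
    · exact fun h => ⟨h.1, fun h' => absurd h'.2 (not_le.2 h.2)⟩
    · exact fun h => ⟨h.1, not_le.1 fun h' => h.2 ⟨h.1, h'⟩⟩
  have ien : IntegrableOn (en σ u lam 1) K1 :=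
    ((co_en hσ hS.eg.cd one_pos).mono hK1.2).integrableOn_compact hK1.1
  have E1 : ∫ z in cthickening r K₀, ‖gr W z‖ ^ 2 ≤ 3 * M ^ 2 / η ^ 2 * |CE K1| := by
    calc ∫ z in cthickening r K₀, ‖gr W z‖ ^ 2
        ≤ ∫ z in cthickening r K₀, 3 * M ^ 2 / η ^ 2 * en σ u lam 1 z := by
          refine setIntegral_mono_on ?_ ((ien.mono_set sub).const_mul _) hKr.1.measurableSet
            fun z hz => step_gr hσ hS.eg hM hη hη' hs hs' (hKr.2 hz)
          exact ((((cd_gr cW).continuousOn.norm).pow 2).mono hKr.2).integrableOn_compact hKr.1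
      _ = 3 * M ^ 2 / η ^ 2 * ∫ z in cthickening r K₀, en σ u lam 1 z := integral_const_mul _ _
      _ ≤ 3 * M ^ 2 / η ^ 2 * |CE K1| := by
          refine mul_le_mul_of_nonneg_left ?_ (by positivity)
          refine le_trans (setIntegral_mono_set ien ?_ sub.eventuallyLE)
            ((hS.en K1 hK1 1 one_pos).trans (le_abs_self _))
          filter_upwards [ae_restrict_mem hK1.1.measurableSet] with z hz
          exact en_nonneg hσ one_pos (hK1.2 hz)
  have fA : volume (K₀ ∩ {z | ps σ u lam z < s - 2 * η}) ≠ ⊤ :=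
    ((measure_mono inter_subset_left).trans_lt h0.1.measure_lt_top).ne
  have main := step_avg mA mB r0 (β := 4 * r ^ 2 * (3 * M ^ 2 / η ^ 2 * |CE K1|))
    (by positivity) fA (fun x _ => ?_) (fun h hh => ?_)
  · unfold ms
    refine main.trans ?_
    have : 4 * (4 * r ^ 2 * (3 * M ^ 2 / η ^ 2 * |CE K1|)) =
        48 * M ^ 2 * |CE K1| * C1 ^ 2 * μ ^ 2 / η ^ 4 := by rw [hr]; field_simp; ring
    rw [this]; gcongr; linarith
  · have h1 := hL u lam hS hl s x.re hs hs'
    have h2 : ball x r ∩ (K1 ∩ {z | ps σ u lam z ≤ s - η}) ⊆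
        K1 ∩ {z | ps σ u lam z ≤ s - η} ∩ {z | |z.re - x.re| ≤ r} := by
      rintro y ⟨y1, y2⟩
      refine ⟨y2, ?_⟩
      have := abs_re_le_norm (y - x)
      rw [mem_ball, dist_eq_norm] at y1
      simp only [sub_re] at this
      exact this.trans y1.le
    refine (measureReal_mono h2 ((measure_mono (inter_subset_left.trans
      inter_subset_left)).trans_lt hK1.1.measure_lt_top).ne).trans (h1.trans ?_)
    have : C1 * ms σ u lam K₀ s / η ≤ r := by rw [hr]; gcongr
    nlinarith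
  · have t1 := trans (cd1 cW) h0.1 hKr hh.le
    have mem : ∀ x ∈ K₀, x + h ∈ cthickening r K₀ := fun x hx =>
      mem_cthickening_of_dist_le _ x r K₀ hx (by simpa [dist_eq_norm] using hh.le)
    have iW : IntegrableOn (fun z => (W (z + h) - W z) ^ 2) K₀ := by
      refine ContinuousOn.integrableOn_compact h0.1 (ContinuousOn.pow (ContinuousOn.sub ?_
        (cW.continuousOn.mono h0.2)) 2)
      exact cW.continuousOn.comp (continuous_add_right h).continuousOn
        fun x hx => hKr.2 (mem x hx)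
    set A' := K₀ ∩ {z | ps σ u lam z < s - 2 * η} ∩
      {x | x + h ∉ K1 ∩ {z | ps σ u lam z ≤ s - η}} with hA'
    have mA' : MeasurableSet A' := mA.inter ((measurable_add_const h) mB.compl)
    have sA' : A' ⊆ K₀ := inter_subset_left.trans inter_subset_left
    have one : ∀ x ∈ A', (W (x + h) - W x) ^ 2 = 1 := by
      rintro x ⟨⟨x1, x2⟩, x3⟩
      have x4 : s - η < ps σ u lam (x + h) := not_le.1 fun h' => x3 ⟨sub (mem x x1), h'⟩
      have x5 : ps σ u lam x < s - 2 * η := x2
      have w1 : W (x + h) = 0 :=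
        Real.smoothTransition.zero_of_nonpos (div_nonpos_of_nonpos_of_nonneg (by linarith) hη.le)
      have w2 : W x = 1 :=
        Real.smoothTransition.one_of_one_le (by rw [le_div_iff₀ hη]; linarith)
      rw [w1, w2]; norm_num
    calc volume.real A' = ∫ x in A', (W (x + h) - W x) ^ 2 := by
          rw [setIntegral_congr_fun mA' one]; simp
      _ ≤ ∫ x in K₀, (W (x + h) - W x) ^ 2 :=
          setIntegral_mono_set iW (Eventually.of_forall fun _ => sq_nonneg _) sA'.eventuallyLE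
      _ ≤ 4 * r ^ 2 * ∫ z in cthickening r K₀, ‖gr W z‖ ^ 2 := t1
      _ ≤ _ := by gcongr

end Pool.Agent.Lib.MP_a52643_an.CP
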