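import Pool.Agent.Lib.MP_a52643_an.CP.Tt2

/-!
Sublevel sets are thin in every vertical strip.
-/

open Complex MeasureTheory Set Filter Topology Metric
open scoped ComplexConjugate ContDiff ENNReal

noncomputable section

namespace Pool.Agent.Lib.MP_a52643_an.CP

variable {σ u : ℂ → ℝ} {lam : ℝ} {K K₀ : Set ℂ} {CE CM : Set ℂ → ℝ} {z : ℂ}

lemma strip_van {h : ℝ → ℝ} {c d : ℝ} (H : (∀ x < 0, h x = c) ∧ ∀ x, 1 < x → h x = d) :
    (∀ x < 0, deriv h x = 0) ∧ ∀ x, 1 < x → deriv h x = 0 := by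
  constructor
  · intro x hx
    have : h =ᶠ[𝓝 x] fun _ => c := by
      filter_upwards [Iio_mem_nhds hx] with y hy using H.1 y hy
    rw [this.deriv_eq, deriv_const]
  · intro x hx
    have : h =ᶠ[𝓝 x] fun _ => d := by
      filter_upwards [Ioi_mem_nhds hx] with y hy using H.2 y hy
    rw [this.deriv_eq, deriv_const]

lemma strip_bd {h : ℝ → ℝ} (hc : Continuous h) (H : (∀ x < 0, h x = 0) ∧ ∀ x, 1 < x → h x = 0) :
    ∃ B, ∀ x, |h x| ≤ B := by
  refine hc.bounded_above_of_compact_support (HasCompactSupport.intro (K := Icc 0 1)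
    isCompact_Icc fun x hx => ?_)
  rcases lt_or_ge x 0 with h0 | h0
  · exact H.1 x h0
  · exact H.2 x (not_le.1 fun h1 => hx ⟨h0, h1⟩)

/-- The window and its derivatives. -/
lemma strip_win : ∃ A : ℝ, 0 ≤ A ∧ ∀ η : ℝ, 0 < η → η ≤ 1 / 8 → ∃ Λ : ℝ, ∀ s : ℝ, 1 / 2 ≤ s →
    s ≤ 1 → ∃ P F F' : ℝ → ℝ, ContDiff ℝ ∞ P ∧ ContDiff ℝ ∞ F ∧ (∀ t, HasDerivAt P (-F t) t) ∧
      (∀ t, HasDerivAt F (F' t) t) ∧ (∀ t, 0 ≤ P t ∧ P t ≤ 1) ∧ (∀ t, 0 ≤ F t ∧ F t ≤ A / η) ∧
      (∀ t, s ≤ t → P t = 0 ∧ F t = 0) ∧ (∀ t ≤ s - η, P t = 1) ∧ F' 0 = 0 ∧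
      Adm (fun t => F' t * t ^ 2) Λ := by
  have c0 : ContDiff ℝ ∞ Real.smoothTransition := Real.smoothTransition.contDiff
  have c1 := (contDiff_infty_iff_deriv.1 c0).2
  have c2 := (contDiff_infty_iff_deriv.1 c1).2
  have c3 := (contDiff_infty_iff_deriv.1 c2).2
  have v1 := strip_van (h := Real.smoothTransition)
    ⟨fun x hx => Real.smoothTransition.zero_of_nonpos hx.le,
      fun x hx => Real.smoothTransition.one_of_one_le hx.le⟩
  have v2 := strip_van v1
  have v3 := strip_van v2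
  obtain ⟨A, hA⟩ := strip_bd c1.continuous v1
  obtain ⟨B2, hB2⟩ := strip_bd c2.continuous v2
  obtain ⟨B3, hB3⟩ := strip_bd c3.continuous v3
  set h1 := deriv Real.smoothTransition with e1
  set h2 := deriv h1 with e2
  set h3 := deriv h2 with e3
  have p2 : 0 ≤ B2 := (abs_nonneg _).trans (hB2 0)
  have p3 : 0 ≤ B3 := (abs_nonneg _).trans (hB3 0)
  refine ⟨A, (abs_nonneg _).trans (hA 0), fun η hη hη8 =>
    ⟨B3 / η ^ 3 + 2 * (B2 / η ^ 2), fun s hs hs1 => ?_⟩⟩
  have cl : ContDiff ℝ ∞ fun t : ℝ => (s - t) / η := (contDiff_const.sub contDiff_id).div_const _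
  have dl : ∀ t, HasDerivAt (fun t : ℝ => (s - t) / η) (-1 / η) t := fun t =>
    ((hasDerivAt_id t).const_sub s).div_const η
  have dc : ∀ {h : ℝ → ℝ}, ContDiff ℝ ∞ h → ∀ t,
      HasDerivAt (fun t => h ((s - t) / η)) (deriv h ((s - t) / η) * (-1 / η)) t := fun hh t =>
    (hh.differentiable (by simp) _).hasDerivAt.comp t (dl t)
  have neg : ∀ t, 1 < t → (s - t) / η < 0 := fun t ht => div_neg_of_neg_of_pos (by linarith) hη
  have big : ∀ t ≤ 1 / 4, 1 < (s - t) / η := fun t ht => by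
    rw [lt_div_iff₀ hη]; linarith
  have hk : ∀ t, HasDerivAt (fun t => -h2 ((s - t) / η) / η ^ 2 * t ^ 2)
      (h3 ((s - t) / η) / η ^ 3 * t ^ 2 + -h2 ((s - t) / η) / η ^ 2 * (2 * t)) t := fun t => by
    have := (((dc c2 t).neg.div_const (η ^ 2)).mul (hasDerivAt_pow 2 t))
    refine this.congr_deriv ?_
    simp only [Pi.neg_apply, ← e3]
    field_simp
    norm_num
    ring
  refine ⟨fun t => Real.smoothTransition ((s - t) / η), fun t => h1 ((s - t) / η) / η,
    fun t => -h2 ((s - t) / η) / η ^ 2, c0.comp cl, (c1.comp cl).div_const _, fun t => ?_,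
    fun t => ?_, fun t => ⟨Real.smoothTransition.nonneg _, Real.smoothTransition.le_one _⟩,
    fun t => ⟨div_nonneg Real.smoothTransition.monotone.deriv_nonneg hη.le,
      div_le_div_of_nonneg_right ((le_abs_self _).trans (hA _)) hη.le⟩, fun t ht => ?_,
    fun t ht => Real.smoothTransition.one_of_one_le ?_, ?_, ?_, fun t ht => ?_, fun t ht => ?_,
    fun t ht => ?_⟩
  · convert dc c0 t using 1; ring
  · refine ((dc c1 t).div_const η).congr_deriv ?_
    rw [← e2]; field_simp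
  · have h0 : (s - t) / η ≤ 0 := div_nonpos_of_nonpos_of_nonneg (by linarith) hη.le
    refine ⟨Real.smoothTransition.zero_of_nonpos h0, ?_⟩
    have : IsLocalMin Real.smoothTransition ((s - t) / η) := Eventually.of_forall fun y => by
      rw [Real.smoothTransition.zero_of_nonpos h0]; exact Real.smoothTransition.nonneg y
    simp only [e1, this.deriv_eq_zero, zero_div]
  · rw [le_div_iff₀ hη]; linarith
  · simp only [v2.2 _ (big 0 (by norm_num)), neg_zero, zero_div]
  · exact ((c2.comp cl).neg.div_const _).mul (contDiff_id.pow 2)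
  · simp only [v2.2 _ (big t ht), neg_zero, zero_div, zero_mul]
  · rcases lt_or_ge 1 t with h | h
    · simp only [v2.1 _ (neg t h), neg_zero, zero_div, zero_mul, abs_zero]; positivity
    · have t2 : t ^ 2 ≤ 1 := pow_le_one₀ ht.le h
      have : |-h2 ((s - t) / η) / η ^ 2 * t ^ 2| ≤ B2 / η ^ 2 := by
        rw [abs_mul, abs_div, abs_neg, abs_of_pos (pow_pos hη 2), abs_of_pos (pow_pos ht 2)]
        exact (mul_le_of_le_one_right (by positivity) t2).trans
          (div_le_div_of_nonneg_right (hB2 _) (by positivity))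
      refine this.trans (le_trans ?_ (le_div_self (by positivity) (by positivity) t2))
      have : 0 ≤ B3 / η ^ 3 := by positivity
      have : 0 ≤ B2 / η ^ 2 := by positivity
      linarith
  · rw [(hk t).deriv]
    rcases lt_or_ge 1 t with h | h
    · simp only [v2.1 _ (neg t h), v3.1 _ (neg t h), neg_zero, zero_div, zero_mul, add_zero,
        abs_zero]
      positivity
    · refine le_trans ?_ (le_div_self (by positivity) (by positivity) (pow_le_one₀ ht.le h))
      refine (abs_add_le _ _).trans (add_le_add ?_ ?_)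
      · rw [abs_mul, abs_div, abs_of_pos (pow_pos hη 3), abs_of_pos (pow_pos ht 2)]
        exact (mul_le_of_le_one_right (by positivity) (pow_le_one₀ ht.le h)).trans
          (div_le_div_of_nonneg_right (hB3 _) (by positivity))
      · rw [abs_mul, abs_div, abs_neg, abs_of_pos (pow_pos hη 2), abs_of_pos (mul_pos two_pos ht),
          mul_comm]
        exact mul_le_mul (by linarith) (div_le_div_of_nonneg_right (hB2 _) (by positivity))
          (by positivity) (by norm_num)

lemma strip_gr (a r : ℝ) (z : ℂ) : gr (fun w => Real.arctan ((w.re - a) / r)) z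
    = (1 / (1 + ((z.re - a) / r) ^ 2) / r / 2 : ℝ) := by
  have d : HasFDerivAt (fun w : ℂ => (w.re - a) / r) (r⁻¹ • reCLM) z := by
    simpa [div_eq_inv_mul] using ((reCLM.hasFDerivAt (x := z)).sub_const a).const_mul r⁻¹
  rw [gr_comp (Real.hasDerivAt_arctan _) d.differentiableAt, gr_eq d.differentiableAt, d.fderiv]
  simp
  ring

/-- The integral identity. -/
lemma strip_id (hσ : Met σ) (h : Eg σ u lam) {f : ℂ → ℝ} (hf : Ts (rC f)) {P F F' : ℝ → ℝ}
    (cP : ContDiff ℝ ∞ P) (cF : ContDiff ℝ ∞ F) (dP : ∀ t, HasDerivAt P (-F t) t)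
    (dF : ∀ t, HasDerivAt F (F' t) t) (h0 : F' 0 = 0) :
    Integrable (fun z => gr f z * (2 * P (ps σ u lam z) + F (ps σ u lam z) * SS σ u z)
      + conj (gr f z) * (F (ps σ u lam z) * ZZ σ u z)
      - f z * (F (ps σ u lam z) * (ZZ σ u z * conj (gr σ z) / σ z))) ∧
    ∫ z, (gr f z * (2 * P (ps σ u lam z) + F (ps σ u lam z) * SS σ u z)
      + conj (gr f z) * (F (ps σ u lam z) * ZZ σ u z)
      - f z * (F (ps σ u lam z) * (ZZ σ u z * conj (gr σ z) / σ z)))
      = -∫ z, rC f z * (F' (ps σ u lam z) * ps σ u lam z ^ 2 / ps σ u lam z ^ 2 : ℝ)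
        * TT σ u lam z := by
  have cψ := cd_ps (lam := lam) hσ h.cd
  have cFψ := cd_rC (cF.comp_contDiffOn cψ)
  have cPψ := cd_rC (cP.comp_contDiffOn cψ)
  have cZ := cd_ZZ hσ h.cd
  have cS := cd_rC (cd_SS hσ h.cd)
  have cA := cFψ.mul cZ
  have cB := (contDiffOn_const (c := (2 : ℂ)).mul cPψ).add (cFψ.mul cS)
  have cE : ContinuousOn (fun z => rC (F ∘ ps σ u lam) z * (ZZ σ u z * conj (gr σ z) / σ z)) UH :=
    cFψ.continuousOn.mul ((cZ.continuousOn.mul (cd_conj (cd_gr hσ.cd)).continuousOn).div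
      (cd_rC hσ.cd).continuousOn fun z hz => hσ.ne hz)
  have i1 := hf.int_dz cA.continuousOn
  have i2 := hf.int_dzb cB.continuousOn
  have i3 := hf.int cE
  have i4 := hf.int (co_eP (cd1 cA) (cd1 cB))
  have e := hf.ibp (cd1 cA) (cd1 cB)
  simp only [dz_rC] at i1 e
  refine ⟨(i2.add i1).sub i3, ?_⟩
  have key : ∀ z, rC f z * (F' (ps σ u lam z) * ps σ u lam z ^ 2 / ps σ u lam z ^ 2 : ℝ)
      * TT σ u lam z = rC f z * eP (fun z => rC (F ∘ ps σ u lam) z * ZZ σ u z)
        (fun z => 2 * rC (P ∘ ps σ u lam) z + rC (F ∘ ps σ u lam) z * rC (SS σ u) z) z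
      + rC f z * (rC (F ∘ ps σ u lam) z * (ZZ σ u z * conj (gr σ z) / σ z)) := fun z => by
    by_cases hz : z ∈ UH
    · have e0 : F' (ps σ u lam z) * ps σ u lam z ^ 2 / ps σ u lam z ^ 2 = F' (ps σ u lam z) := by
        by_cases hp : ps σ u lam z = 0
        · simp [hp, h0]
        · field_simp
      have g1 : gr (F ∘ ps σ u lam) z = _ := gr_comp (dF _) (dAt cψ hz)
      have g2 : gr (P ∘ ps σ u lam) z = _ := gr_comp (dP _) (dAt cψ hz)
      have i := I1 hσ h hz
      rw [e0, eP, dz_mul (dAt cFψ hz) (dAt cZ hz),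
        dzb_add ((dAt cPψ hz).const_mul _) ((dAt cFψ hz).fun_mul (dAt cS hz)),
        dzb_cmul _ (dAt cPψ hz), dzb_mul (dAt cFψ hz) (dAt cS hz), dz_rC]
      rw [eP] at i
      simp only [gr] at g1 g2 i ⊢
      rw [g1, g2]
      simp only [TT, gr, rC, Function.comp, map_mul, conj_ofReal, ofReal_neg] at i ⊢
      linear_combination (-(f z : ℂ) * F (ps σ u lam z)) * i
    · rw [image_eq_zero_of_notMem_tsupport fun h' => hz (hf.sub h')]
      simp
  simp only [key]
  rw [integral_add i4 i3, e]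
  have := integral_sub (i2.add i1) i3
  simp only [Pi.add_apply, add_comm (dzb (rC f) _ * _)] at this
  rw [neg_add, neg_neg, ← sub_eq_add_neg, ← this]
  refine integral_congr_ae (Eventually.of_forall fun z => ?_)
  simp only [gr, rC, Function.comp]
  ring

theorem strip (hσ : Met σ) (hK : Cp K) (K₀ : Set ℂ) (CE CM : Set ℂ → ℝ) :
    ∃ C : ℝ, 0 < C ∧ ∀ η r ε : ℝ, 0 < η → η ≤ 1 / 8 → 0 < r → r ≤ 1 → 0 < ε → ∃ L : ℝ,
      ∀ (u : ℂ → ℝ) (lam : ℝ), Sol σ K₀ CE CM u lam → L ≤ lam → ∀ s a : ℝ, 1 / 2 ≤ s → s ≤ 1 →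
        volume.real (K ∩ {z | ps σ u lam z ≤ s - η} ∩ {z | |z.re - a| ≤ r})
          ≤ r * (C * ms σ u lam K₀ s / η + ε) := by
  obtain ⟨χ, cχ, sχ, uχ, bχ, oχ⟩ := exists_cut hK.1 isOpen_UH hK.2
  have hK1 : Cp (tsupport χ) := ⟨sχ, uχ⟩
  obtain ⟨A, hA, hw⟩ := strip_win
  obtain ⟨B, hB⟩ := hK1.1.exists_bound_of_continuousOn
    ((cd_gr cχ.contDiffOn).continuousOn.mono uχ)
  obtain ⟨D, hD⟩ := hK1.1.exists_bound_of_continuousOn
    (((cd_conj (cd_gr hσ.cd)).continuousOn.div (cd_rC hσ.cd).continuousOn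
      fun z hz => hσ.ne hz).mono uχ)
  have g0 : ∀ z ∉ tsupport χ, gr χ z = 0 := fun z hz => by
    rw [gr_congr (notMem_tsupport_iff_eventuallyEq.1 hz)]
    exact dzb_const 0 z
  have hB' : ∀ z, ‖gr χ z‖ ≤ |B| := fun z => by
    by_cases hz : z ∈ tsupport χ
    · exact (hB z hz).trans (le_abs_self _)
    · simp [g0 z hz]
  set C1 := 4 * |B| + 8 * |B| * A + 4 * A * |D| with eC
  have hC1 : 0 ≤ C1 := by positivity
  refine ⟨2 * C1 * |CM (tsupport χ)| + 1, by positivity, fun η r ε hη hη8 hr hr1 hε => ?_⟩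
  obtain ⟨Λ, hΛ⟩ := hw η hη hη8
  obtain ⟨L, hL⟩ := tt hσ hK1 CE Λ (2 + 1 / r + 2 * |B|) (half_pos hε)
  refine ⟨L, fun u lam hu hl s a hs hs1 => ?_⟩
  obtain ⟨P, F, F', cP, cF, dP, dF, bP, bF, zP, oP, h0, adm⟩ := hΛ s hs hs1
  set g : ℂ → ℝ := fun w => Real.arctan ((w.re - a) / r) with eg
  set w : ℂ → ℝ := fun z => 1 / (1 + ((z.re - a) / r) ^ 2) / r / 2 with ew
  have cg : ContDiff ℝ ∞ g :=
    Real.contDiff_arctan.comp ((reCLM.contDiff.sub contDiff_const).div_const _)
  have bg : ∀ z, |g z| ≤ 2 := fun z => abs_le.2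
    ⟨by linarith [Real.neg_pi_div_two_lt_arctan ((z.re - a) / r), Real.pi_le_four],
      by linarith [Real.arctan_lt_pi_div_two ((z.re - a) / r), Real.pi_le_four]⟩
  have w0 : ∀ z, 0 ≤ w z := fun z => by simp only [ew]; positivity
  have w1 : ∀ z, w z ≤ 1 / r := fun z => by
    have : 1 / (1 + ((z.re - a) / r) ^ 2) ≤ 1 := div_le_one_of_le₀ (by nlinarith) (by positivity)
    have h2 := div_le_div_of_nonneg_right this hr.le
    have : 0 ≤ 1 / r := by positivity
    simp only [ew]; linarith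
  have gf : ∀ z, gr (fun z => g z * χ z) z = w z * χ z + g z * gr χ z := fun z => by
    rw [gr_mul (cg.differentiable (by simp) z) (cχ.differentiable (by simp) z), strip_gr]
  have sub : tsupport (rC fun z => g z * χ z) ⊆ tsupport χ :=
    closure_mono fun z hz h => hz (by simp [rC, h])
  have ngf : ∀ z, ‖gr (fun z => g z * χ z) z‖ ≤ 2 + 1 / r + 2 * |B| := fun z => by
    rw [gf]
    refine (norm_add_le _ _).trans (add_le_add ?_ ?_)
    · rw [norm_mul, norm_real, norm_real, Real.norm_of_nonneg (w0 z),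
        Real.norm_of_nonneg (bχ z).1]
      linarith [mul_le_of_le_one_right (w0 z) (bχ z).2, w1 z]
    · rw [norm_mul, norm_real]
      exact mul_le_mul (bg z) (hB' z) (norm_nonneg _) (by norm_num)
  have nf : ∀ z, |g z * χ z| ≤ 2 := fun z => by
    rw [abs_mul, abs_of_nonneg (bχ z).1]
    exact (mul_le_of_le_one_right (abs_nonneg _) (bχ z).2).trans (bg z)
  have cut : CutC (rC fun z => g z * χ z) (tsupport χ) (2 + 1 / r + 2 * |B|) :=
    ⟨ofRealCLM.contDiff.comp ((cg.mul cχ).of_le (by simp)), hK1.1, sub, fun z => by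
      rw [rC, norm_real]
      have : 0 ≤ 1 / r + 2 * |B| := by positivity
      linarith [nf z, Real.norm_eq_abs (g z * χ z)],
      fun z => by rw [dz_rC, norm_conj]; exact ngf z, ngf⟩
  have hT := hL u lam K₀ CM hu hl _ _ adm cut
  obtain ⟨iG, eG⟩ := strip_id hσ hu.eg (Ts.of_cut cut hK1) cP cF dP dF h0
  have hl0 : 0 ≤ lam := zero_le_one.trans hu.eg.one
  have cE : IsCompact (K ∩ {z | ps σ u lam z ≤ s - η} ∩ {z | |z.re - a| ≤ r}) :=
    (meas_le hσ hu.eg.cd hK _).inter_right (isClosed_le (by fun_prop) continuous_const)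
  have mM := meas_lt (lam := lam) hσ hu.eg.cd hK1 s
  have fM : volume (tsupport χ ∩ {z | ps σ u lam z < s}) ≠ ⊤ :=
    ((measure_mono inter_subset_left).trans_lt hK1.1.measure_lt_top).ne
  have i1 := (integrable_indicator_iff cE.measurableSet).2
    (integrableOn_const (μ := volume) (C := 1 / (2 * r)) cE.measure_lt_top.ne)
  have i2 := (integrable_indicator_iff mM).2 (integrableOn_const (C := C1 / η) fM)
  have main := integral_mono (i1.sub i2) iG.re fun z => ?_
  · have e1 := integral_sub i1 i2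
    simp only [Pi.sub_apply] at main
    rw [e1, integral_indicator_const _ cE.measurableSet, integral_indicator_const _ mM,
      integral_re iG, eG] at main
    have h1 := (re_le_norm _).trans ((norm_neg _).trans_le hT)
    have h2 := hu.cm _ hK1 s
    have h3 : 0 ≤ ms σ u lam K₀ s := measureReal_nonneg
    have h4 := mul_le_mul_of_nonneg_right (le_abs_self (CM (tsupport χ))) h3
    have h5 := mul_le_mul_of_nonneg_right (h2.trans h4) (div_nonneg hC1 hη.le)
    simp only [smul_eq_mul, RCLike.re_to_complex] at main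
    rw [mul_one_div, sub_le_iff_le_add, div_le_iff₀ (by positivity)] at main
    refine main.trans ?_
    have h6 : 0 ≤ ms σ u lam K₀ s / η := by positivity
    have h7 : (2 * C1 * |CM (tsupport χ)| + 1) * ms σ u lam K₀ s / η =
      2 * (|CM (tsupport χ)| * ms σ u lam K₀ s * (C1 / η)) + ms σ u lam K₀ s / η := by ring
    rw [h7]
    unfold ms at h5 h6 ⊢
    nlinarith
  · simp only [Pi.sub_apply, RCLike.re_to_complex, gf]
    by_cases hz : z ∈ tsupport χ
    swap
    · have : z ∉ K := fun h => hz (subset_tsupport _ (by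
        simp [(oχ z h).self_of_nhds]))
      rw [indicator_of_notMem (fun h => this h.1.1), indicator_of_notMem (fun h => hz h.1),
        g0 z hz, image_eq_zero_of_notMem_tsupport hz]
      simp
    by_cases hp : ps σ u lam z < s
    swap
    · rw [indicator_of_notMem (fun h => hp (by have : ps σ u lam z ≤ s - η := h.1.2; linarith)),
        indicator_of_notMem (fun h => hp h.2), (zP _ (not_lt.1 hp)).1, (zP _ (not_lt.1 hp)).2]
      simp
    rw [indicator_of_mem (show z ∈ tsupport χ ∩ {z | ps σ u lam z < s} from ⟨hz, hp⟩)]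
    have hU := uχ hz
    have S0 := SS_nonneg (u := u) hσ hU
    have S2 : SS σ u z ≤ 2 := (SS_le hl0 z).trans (by linarith)
    have nZ := norm_ZZ (u := u) hσ hU
    obtain ⟨F0', F1'⟩ := bF (ps σ u lam z)
    obtain ⟨P0, P1⟩ := bP (ps σ u lam z)
    have FS : F (ps σ u lam z) * SS σ u z ≤ A / η * 2 := mul_le_mul F1' S2 S0 (by positivity)
    have FS0 := mul_nonneg F0' S0
    have a1 : indicator (K ∩ {z | ps σ u lam z ≤ s - η} ∩ {z | |z.re - a| ≤ r})
        (fun _ => 1 / (2 * r)) z ≤ w z * χ z * (2 * P (ps σ u lam z)) := by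
      by_cases hE : z ∈ K ∩ {z | ps σ u lam z ≤ s - η} ∩ {z | |z.re - a| ≤ r}
      · rw [indicator_of_mem hE, oP _ hE.1.2, (oχ z hE.1.1).self_of_nhds]
        have q1 : ((z.re - a) / r) ^ 2 ≤ 1 := by
          rw [div_pow, div_le_one (by positivity)]
          exact sq_le_sq' (abs_le.1 hE.2).1 (abs_le.1 hE.2).2
        have q2 : 1 / 2 ≤ 1 / (1 + ((z.re - a) / r) ^ 2) :=
          one_div_le_one_div_of_le (by positivity) (by linarith)
        have q3 := div_le_div_of_nonneg_right q2 hr.le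
        rw [div_div] at q3
        simp only [ew, Pi.one_apply]
        linarith
      · rw [indicator_of_notMem hE]
        exact mul_nonneg (mul_nonneg (w0 z) (bχ z).1) (by linarith)
    have a2 : 0 ≤ w z * χ z * (F (ps σ u lam z) * (SS σ u z + (ZZ σ u z).re)) :=
      mul_nonneg (mul_nonneg (w0 z) (bχ z).1) (mul_nonneg F0' (by
        linarith [abs_le.1 (abs_re_le_norm (ZZ σ u z))]))
    have gB : ‖(g z : ℂ) * gr χ z‖ ≤ 2 * |B| := by
      rw [norm_mul, norm_real]
      exact mul_le_mul (bg z) (hB' z) (norm_nonneg _) (by norm_num)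
    have nFZ : ‖(F (ps σ u lam z) : ℂ) * ZZ σ u z‖ ≤ A / η * 2 := by
      rwa [norm_mul, norm_real, nZ, Real.norm_of_nonneg F0']
    have a3 : ‖(g z : ℂ) * gr χ z * (2 * P (ps σ u lam z) + F (ps σ u lam z) * SS σ u z)‖
        ≤ 2 * |B| * (2 + A / η * 2) := by
      rw [norm_mul]
      refine mul_le_mul gB ?_ (norm_nonneg _) (by positivity)
      rw [show (2 * P (ps σ u lam z) + F (ps σ u lam z) * SS σ u z : ℂ) =
        (2 * P (ps σ u lam z) + F (ps σ u lam z) * SS σ u z : ℝ) by push_cast; rfl, norm_real,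
        Real.norm_of_nonneg (by linarith)]
      linarith
    have a4 : ‖conj ((g z : ℂ) * gr χ z) * (F (ps σ u lam z) * ZZ σ u z)‖
        ≤ 2 * |B| * (A / η * 2) := by
      rw [norm_mul, norm_conj]
      exact mul_le_mul gB nFZ (norm_nonneg _) (by positivity)
    have a5 : ‖((g z * χ z : ℝ) : ℂ) * (F (ps σ u lam z) * (ZZ σ u z * conj (gr σ z) / σ z))‖
        ≤ 2 * (A / η * 2 * |D|) := by
      rw [norm_mul, norm_real, Real.norm_eq_abs, mul_div_assoc, ← mul_assoc (F _ : ℂ), norm_mul]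
      exact mul_le_mul (nf z) (mul_le_mul nFZ ((hD z hz).trans (le_abs_self _)) (norm_nonneg _)
        (by positivity)) (by positivity) (by norm_num)
    have e : ((w z * χ z + g z * gr χ z) * (2 * P (ps σ u lam z) + F (ps σ u lam z) * SS σ u z)
        + conj (w z * χ z + g z * gr χ z) * (F (ps σ u lam z) * ZZ σ u z)
        - (g z * χ z : ℝ) * (F (ps σ u lam z) * (ZZ σ u z * conj (gr σ z) / σ z)) : ℂ).re
        = w z * χ z * (2 * P (ps σ u lam z))
          + w z * χ z * (F (ps σ u lam z) * (SS σ u z + (ZZ σ u z).re))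
          + ((g z : ℂ) * gr χ z * (2 * P (ps σ u lam z) + F (ps σ u lam z) * SS σ u z)).re
          + (conj ((g z : ℂ) * gr χ z) * (F (ps σ u lam z) * ZZ σ u z)).re
          - (((g z * χ z : ℝ) : ℂ) * (F (ps σ u lam z) * (ZZ σ u z * conj (gr σ z) / σ z))).re := by
      rw [sub_re]
      congr 1
      simp
      ring
    rw [e]
    have b3 := (abs_le.1 ((abs_re_le_norm _).trans a3)).1
    have b4 := (abs_le.1 ((abs_re_le_norm _).trans a4)).1
    have b5 := (abs_le.1 ((abs_re_le_norm _).trans a5)).2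
    have b6 : 4 * |B| ≤ 4 * |B| / η := le_div_self (by positivity) hη (by linarith)
    have b7 : C1 / η = 4 * |B| / η + 8 * |B| * (A / η) + 4 * (A / η) * |D| := by rw [eC]; ring
    linarith

end Pool.Agent.Lib.MP_a52643_an.CP
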