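import Pool.Agent.Lib.MP_a52643_an.CP.Main
import Pool.Agent.Lib.MP_a52643_an.Grp

/-!
The statement on the upper half plane.
-/

open MeasureTheory Set Filter Topology UpperHalfPlane
open scoped MatrixGroups ContDiff Laplacian

noncomputable section

namespace Pool.Agent.Lib.MP_a52643_an.CP

lemma Top_coe {z : ℂ} (hz : z ∈ UH) : ((ofComplex z : ℍ) : ℂ) = z := by
  rw [ofComplex_apply_of_im_pos hz]

lemma Top_den (g : SL2) {z : ℂ} (hz : z ∈ UH) : (ec g * z + ed g : ℂ) ≠ 0 := fun h => by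
  have h1 := congrArg Complex.im h
  have h2 := congrArg Complex.re h
  have h3 : z.im ≠ 0 := ne_of_gt hz
  have h4 := det_eq g
  simp [h3] at h1
  simp [h1] at h2
  simp [h1, h2] at h4

lemma Top_mp : MeasurePreserving ofComplex hyp (volume : Measure ℍ) := by
  have h : Measurable (ofComplex : ℂ → ℍ) := by
    refine measurable_comap_iff.2 ?_
    have : UpperHalfPlane.coe ∘ ofComplex = fun w : ℂ =>
        if 0 < w.im then w else ((ofComplex 0 : ℍ) : ℂ) := by
      ext w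
      split_ifs with hw
      · exact Top_coe hw
      · exact congrArg UpperHalfPlane.coe
          (ofComplex_apply_eq_of_im_nonpos (w' := 0) (not_lt.1 hw) le_rfl)
    rw [this]
    exact Measurable.ite isOpen_UH.measurableSet measurable_id measurable_const
  refine ⟨h, ?_⟩
  rw [← measurePreserving_coe.map_eq, Measure.map_map h measurable_coe,
    show (ofComplex : ℂ → ℍ) ∘ UpperHalfPlane.coe = id from funext ofComplex_apply, Measure.map_id]

lemma Top_cpt {K : Set ℂ} (hK : Cp K) : IsCompact (UpperHalfPlane.coe ⁻¹' K) :=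
  (isOpenEmbedding_coe.isInducing.isCompact_preimage_iff
    fun z hz => ⟨ofComplex z, Top_coe (hK.2 hz)⟩).2 hK.1

theorem act_of {Γ : Type} [Group Γ] [MulAction Γ ℍ] [ProperlyDiscontinuousSMul Γ ℍ]
    (hΓ : ∀ γ : Γ, ∃ g : SL(2, ℝ), ∀ z : ℍ, γ • z = g • z) :
    Act fun (γ : Γ) (w : ℂ) => ((γ • ofComplex w : ℍ) : ℂ) := by
  refine ⟨fun γ z _ => (γ • ofComplex z).im_pos, fun z hz => ?_, fun γ δ z _ => ?_, fun γ => ?_,
    fun γ z hz => ?_, fun γ => ?_, fun K L hK hL => ?_⟩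
  · rw [one_smul, Top_coe hz]
  · rw [ofComplex_apply, mul_smul]
  · obtain ⟨g, hg⟩ := hΓ γ
    refine ContDiffOn.congr (f := fun w : ℂ => (ea g * w + eb g) * (ec g * w + ed g)⁻¹)
      (((contDiffOn_const.mul contDiffOn_id).add contDiffOn_const).mul
        (((contDiffOn_const.mul contDiffOn_id).add contDiffOn_const).inv
          fun w hw => Top_den g hw)) fun w hw => ?_
    rw [hg, coe_act, Top_coe hw, div_eq_mul_inv]
  · obtain ⟨g, hg⟩ := hΓ γ
    have hd := Top_den g hz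
    have h1 : (ea g * ed g - eb g * ec g : ℂ) = 1 := by exact_mod_cast det_eq g
    have h2 : HasDerivAt (fun w : ℂ => (ea g * w + eb g) / (ec g * w + ed g))
        (1 / (ec g * z + ed g) ^ 2) z := by
      have := (((hasDerivAt_id z).const_mul (ea g : ℂ)).add_const (eb g : ℂ)).div
        (((hasDerivAt_id z).const_mul (ec g : ℂ)).add_const (ed g : ℂ)) hd
      refine this.congr_deriv ?_
      simp only [id]
      congr 1
      linear_combination h1
    refine ⟨_, h2.congr_of_eventuallyEq ?_, ?_⟩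
    · filter_upwards [UH_nhds hz] with w hw
      rw [hg, coe_act, Top_coe hw]
    · rw [hg, coe_act, Top_coe hz, norm_div, norm_one, norm_pow, Complex.sq_norm, Complex.div_im,
        ← sub_div, one_div, inv_mul_eq_div]
      congr 1
      simp only [Complex.add_im, Complex.mul_im, Complex.ofReal_re, Complex.ofReal_im,
        Complex.add_re, Complex.mul_re]
      linear_combination z.im * det_eq g
  · obtain ⟨g, hg⟩ := hΓ γ
    simp only [hg]
    exact measurePreserving_coe.comp ((measurePreserving_smul g volume).comp Top_mp)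
  · refine (ProperlyDiscontinuousSMul.finite_disjoint_inter_image (Γ := Γ) (Top_cpt hK)
      (Top_cpt hL)).subset ?_
    rintro γ ⟨z, hz, h⟩
    exact ⟨γ • ofComplex z, ⟨ofComplex z, by rwa [mem_preimage, Top_coe (hK.2 hz)], rfl⟩, h⟩

theorem dz_pp {u : ℂ → ℝ} (hu : ContDiffOn ℝ ∞ u UH) {z : ℂ} (hz : z ∈ UH) :
    dz (pp u) z = (Δ u z / 2 : ℝ) := by
  have h : ContDiffAt ℝ 2 u z := (cdAt hu hz).of_le (by norm_cast)
  have hs := h.isSymmSndFDerivAt (by simp)
  have hd : DifferentiableAt ℝ (fderiv ℝ u) z :=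
    (h.fderiv_right (m := 1) (by norm_num)).differentiableAt one_ne_zero
  have e : ∀ v k, fderiv ℝ (fun w => fderiv ℝ u w v) z k = fderiv ℝ (fderiv ℝ u) z k v := by
    intro v k
    rw [fderiv_clm_apply hd (differentiableAt_const v)]
    simp
  have d : ∀ v, DifferentiableAt ℝ (fun w => fderiv ℝ u w v) z := fun v =>
    hd.clm_apply (differentiableAt_const v)
  have e1 : pp u =ᶠ[𝓝 z] fun w => rC (fun w => fderiv ℝ u w 1) w +
      Complex.I * rC (fun w => fderiv ℝ u w Complex.I) w := by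
    filter_upwards [UH_nhds hz] with w hw
    rw [pp, gr_eq (dAt hu hw), rC, rC]
    ring
  rw [dz_congr e1, dz_add (d_rC (d _)) ((d_rC (d _)).const_mul _), dz_cmul _ (d_rC (d _)), dz_rC,
    dz_rC, gr_eq (d _), gr_eq (d _), InnerProductSpace.laplacian_eq_iteratedFDeriv_complexPlane]
  simp only [e, iteratedFDeriv_two_apply, Matrix.cons_val_zero, Matrix.cons_val_one,
    hs.eq Complex.I 1, map_div₀, map_add, map_mul, Complex.conj_ofReal, Complex.conj_I, map_ofNat]
  push_cast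
  linear_combination (-(fderiv ℝ (fderiv ℝ u) z Complex.I Complex.I : ℝ) / 2 : ℂ) * Complex.I_mul_I

theorem top {Γ : Type} [Group Γ] [MulAction Γ ℍ] [ProperlyDiscontinuousSMul Γ ℍ]
    (hΓ : ∀ γ : Γ, ∃ g : SL(2, ℝ), ∀ z : ℍ, γ • z = g • z)
    (K : Set ℍ) (hK : IsCompact K) (hcov : ∀ z : ℍ, ∃ γ : Γ, γ • z ∈ K)
    (ρ : ℍ → ℝ) (hρ0 : ∀ z, 0 < ρ z) (hρi : ∀ (γ : Γ) (z : ℍ), ρ (γ • z) = ρ z)
    (hρs : ContDiffOn ℝ ∞ (fun w : ℂ => ρ (ofComplex w)) {w | 0 < w.im}) (N : ℕ) :
    ∃ L : ℝ, ∀ (φ : ℍ → ℝ) (lam : ℝ),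
      (∀ (γ : Γ) (z : ℍ), φ (γ • z) = φ z) →
      ContDiffOn ℝ ∞ (fun w : ℂ => φ (ofComplex w)) {w | 0 < w.im} →
      (∀ z : ℍ, z.im ^ 2 * Δ (fun w : ℂ => φ (ofComplex w)) z = -lam * ρ z * φ z) → L ≤ lam →
      ∃ z : Fin N → ℍ, (∀ i, fderiv ℝ (fun w : ℂ => φ (ofComplex w)) (z i) = 0) ∧
        ∀ i j (γ : Γ), γ • z i = z j → i = j := by
  obtain ⟨L, hL⟩ := main (act_of hΓ) (K₀ := UpperHalfPlane.coe '' K)
    ⟨hK.image continuous_coe, by rintro _ ⟨w, -, rfl⟩; exact w.im_pos⟩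
    (fun z _ => (hcov (ofComplex z)).imp fun γ h => mem_image_of_mem _ h)
    (ρ := fun w => ρ (ofComplex w)) ⟨hρs, fun z _ => hρ0 _⟩
    (fun γ z _ => by simp only [ofComplex_apply, hρi]) N
  refine ⟨max L 1, fun φ lam hi hc he hl => ?_⟩
  have h := hL (fun w => φ (ofComplex w)) lam ⟨hc, (le_max_right _ _).trans hl, fun z hz => ?_⟩
    (fun γ z _ => by simp only [ofComplex_apply, hi]) ((le_max_left _ _).trans hl)
  · obtain ⟨z, h1, h2⟩ := not_not.1 h
    refine ⟨fun i => ofComplex (z i), fun i => ?_, fun i j γ e => h2 i j γ ?_⟩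
    · have h3 : gr (fun w => φ (ofComplex w)) (z i) = 0 :=
        (mul_eq_zero.1 (h1 i).2).resolve_left two_ne_zero
      ext k
      rw [Top_coe (h1 i).1, fderiv_eq_gr (dAt hc (h1 i).1), h3]
      simp
    · exact (congrArg UpperHalfPlane.coe e).trans (Top_coe (h1 j).1)
  · have h1 := he (ofComplex z)
    have h2 : z.im ≠ 0 := ne_of_gt hz
    rw [← coe_im, Top_coe hz] at h1
    rw [dz_pp hc hz, ← Complex.ofReal_neg, Complex.ofReal_inj]
    field_simp
    linear_combination h1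

end Pool.Agent.Lib.MP_a52643_an.CP
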