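import Pool.Agent.Lib.MP_a52643_an.CP.Phase
import Pool.Agent.Lib.MP_a52643_an.CP.Dcu

/-!
The tangential term, oscillating part.
-/

open Complex MeasureTheory Set Filter Topology Metric
open scoped ComplexConjugate ContDiff ENNReal

noncomputable section

namespace Pool.Agent.Lib.MP_a52643_an.CP

variable {σ u : ℂ → ℝ} {lam : ℝ} {K K₀ : Set ℂ} {CE CM : Set ℂ → ℝ} {z : ℂ}

/-- The oscillating weight. -/
def tt1_m (σ u : ℂ → ℝ) (lam : ℝ) (κ : ℝ → ℝ) (n : ℕ) (z : ℂ) : ℝ :=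
  κ (ps σ u lam z) * (qq σ u lam z ^ n / pn n - 1)

lemma tt1_cd (hσ : Met σ) (hu : ContDiffOn ℝ ∞ u UH) {κ : ℝ → ℝ} {Λ : ℝ} (hκ : Adm κ Λ) (n : ℕ) :
    ContDiffOn ℝ ∞ (tt1_m σ u lam κ n) UH :=
  (((cd_wq hσ hu hκ.cd hκ.zero n).div_const (pn n)).sub
    (hκ.cd.comp_contDiffOn (cd_ps hσ hu))).congr fun z _ => by
      simp only [tt1_m, Function.comp]; ring

lemma tt1_M (hσ : Met σ) (hl : 0 ≤ lam) (hz : z ∈ UH) (n : ℕ) :
    |qq σ u lam z ^ n / pn n - 1| ≤ (pn n)⁻¹ + 1 := by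
  obtain ⟨q0, q1⟩ := qq_mem (u := u) hσ hl hz
  have p0 := pn_pos n
  have h1 : qq σ u lam z ^ n / pn n ≤ (pn n)⁻¹ := by
    rw [← one_div]; exact div_le_div_of_nonneg_right (pow_le_one₀ q0 q1) p0.le
  have h2 : 0 ≤ qq σ u lam z ^ n / pn n := by positivity
  have h3 : 0 < (pn n)⁻¹ := by positivity
  rw [abs_le]; constructor <;> linarith

lemma tt1_gr (hσ : Met σ) (hu : ContDiffOn ℝ ∞ u UH) {κ : ℝ → ℝ} {Λ : ℝ} (hκ : Adm κ Λ) (n : ℕ)
    (hz : z ∈ UH) (h : 0 < ps σ u lam z) :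
    ZZ σ u z * conj (gr (tt1_m σ u lam κ n) z) + SS σ u z * gr (tt1_m σ u lam κ n) z
      = (deriv κ (ps σ u lam z) * (qq σ u lam z ^ n / pn n - 1)
        - κ (ps σ u lam z) * (n * qq σ u lam z ^ n / pn n) / ps σ u lam z : ℝ)
          * TT σ u lam z := by
  have dp := dAt (cd_ps (lam := lam) hσ hu) hz
  have du := dAt hu hz
  have g1 : HasDerivAt (fun t : ℝ => lam * t ^ 2 / 2) (lam * u z) (u z) :=
    (((hasDerivAt_pow 2 (u z)).const_mul lam).div_const 2).congr_deriv (by norm_num; ring)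
  have g2 := hasDerivAt_inv h.ne'
  have eq : qq σ u lam = fun w => (lam * u w ^ 2 / 2) * (ps σ u lam w)⁻¹ := by
    ext w; simp only [qq]; ring
  have d1 := g1.differentiableAt.comp z du
  have d2 := g2.differentiableAt.comp z dp
  have dq : DifferentiableAt ℝ (qq σ u lam) z := by rw [eq]; exact d1.mul d2
  have eg : gr (qq σ u lam) z = _ := (congrArg (gr · z) eq).trans (gr_mul d1 d2)
  have e1 := gr_comp g1 du
  have e2 := gr_comp g2 dp
  have g3 : HasDerivAt (fun t : ℝ => t ^ n / pn n - 1) (n * qq σ u lam z ^ (n - 1) / pn n)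
      (qq σ u lam z) := ((hasDerivAt_pow n _).div_const _).sub_const 1
  have g4 := (hκ.cd.differentiable (by simp) (ps σ u lam z)).hasDerivAt
  have e3 := gr_comp g3 dq
  have e4 := gr_comp g4 dp
  have em : gr (tt1_m σ u lam κ n) z = _ :=
    gr_mul (g4.differentiableAt.comp z dp) (g3.differentiableAt.comp z dq)
  rw [e1, e2] at eg
  rw [e3, e4, eg] at em
  have en : (n : ℝ) * qq σ u lam z ^ n = n * qq σ u lam z ^ (n - 1)
      * (lam * u z ^ 2 / 2 * (ps σ u lam z)⁻¹) := by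
    rw [← congrFun eq z]
    cases n <;> simp [pow_succ, mul_assoc]
  have i2 := I2 σ u z
  rw [em, en, TT]
  simp only [map_add, map_mul, conj_ofReal]
  push_cast
  linear_combination (κ (ps σ u lam z) * (n * qq σ u lam z ^ (n - 1) / pn n) * (lam * u z)
    * (ps σ u lam z : ℂ)⁻¹) * i2

lemma tt1_eP (hσ : Met σ) (h : Eg σ u lam) {m : ℂ → ℝ} (hm : ContDiffOn ℝ ∞ m UH) (hz : z ∈ UH) :
    eP (fun w => m w * ZZ σ u w) (fun w => m w * SS σ u w) z
      = (ZZ σ u z * conj (gr m z) + SS σ u z * gr m z)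
        + m z * (2 * gr (ps σ u lam) z - ZZ σ u z * conj (gr σ z) / σ z) := by
  have d := dAt (cd_rC hm) hz
  have e1 := dz_mul d (dAt (cd_ZZ hσ h.cd) hz)
  have e2 := dzb_mul d (dAt (cd_rC (cd_SS hσ h.cd)) hz)
  rw [dz_rC] at e1
  rw [← I1 hσ h hz]
  simp only [rC] at e1 e2
  simp only [eP, e1, e2, gr]
  ring

lemma tt1_lam {κ : ℝ → ℝ} {Λ : ℝ} (hκ : Adm κ Λ) : 0 ≤ Λ := by
  simpa using (abs_nonneg _).trans (hκ.b0 1 one_pos)

lemma tt1_m_le (hσ : Met σ) (hl : 0 ≤ lam) {κ : ℝ → ℝ} {Λ : ℝ} (hκ : Adm κ Λ) (n : ℕ)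
    (hz : z ∈ UH) (h : 0 < ps σ u lam z) :
    |tt1_m σ u lam κ n z| ≤ Λ * ((pn n)⁻¹ + 1) / ps σ u lam z ^ 2 := by
  rw [tt1_m, abs_mul, mul_div_right_comm]
  exact mul_le_mul (hκ.b0 _ h) (tt1_M hσ hl hz n) (abs_nonneg _)
    (div_nonneg (tt1_lam hκ) (sq_nonneg _))

lemma tt1_U (hσ : Met σ) (hl : 0 ≤ lam) {κ : ℝ → ℝ} {Λ : ℝ} (hκ : Adm κ Λ) (n : ℕ)
    (hz : z ∈ UH) : |tt1_m σ u lam κ n z| * SS σ u z ≤ 8 * (Λ * ((pn n)⁻¹ + 1)) := by
  have p0 := pn_pos n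
  have l0 := tt1_lam hκ
  by_cases h : ps σ u lam z ≤ 1 / 4
  · rw [tt1_m, hκ.zero _ h, zero_mul, abs_zero, zero_mul]; positivity
  · have h0 : 0 < ps σ u lam z := by linarith
    refine (mul_le_mul (tt1_m_le hσ hl hκ n hz h0) (SS_le hl z) (SS_nonneg hσ hz)
      (by positivity)).trans ?_
    have : 0 ≤ Λ * ((pn n)⁻¹ + 1) := by positivity
    generalize Λ * ((pn n)⁻¹ + 1) = P at *
    rw [div_mul_eq_mul_div, div_le_iff₀ (by positivity)]
    nlinarith [mul_nonneg (mul_nonneg this h0.le) (by linarith : 0 ≤ 4 * ps σ u lam z - 1)]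

lemma tt1_E (hσ : Met σ) (h : Eg σ u lam) {κ : ℝ → ℝ} {Λ : ℝ} (hκ : Adm κ Λ) (n : ℕ)
    (hz : z ∈ UH) {s : ℝ} (hs : ‖gr σ z‖ / σ z ≤ s) :
    ‖eP (fun w => tt1_m σ u lam κ n w * ZZ σ u w) (fun w => tt1_m σ u lam κ n w * SS σ u w) z‖ ^ 2
      ≤ (48 * (6 * (Λ * ((pn n)⁻¹ + 1)) + 4 * (Λ * (n * (pn n)⁻¹))) ^ 2
        + 2 * (8 * (Λ * ((pn n)⁻¹ + 1)) * s) ^ 2) * (en σ u lam 1 z + 1) := by
  have hl : 0 ≤ lam := zero_le_one.trans h.one
  have e0 := en_nonneg (u := u) (lam := lam) hσ one_pos hz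
  rw [tt1_eP hσ h (tt1_cd hσ h.cd hκ n) hz]
  by_cases hp : ps σ u lam z < 1 / 4
  · have ev : tt1_m σ u lam κ n =ᶠ[𝓝 z] fun _ => 0 := by
      filter_upwards [(dAt (cd_ps (lam := lam) hσ h.cd) hz).continuousAt.eventually
        (gt_mem_nhds hp)] with w hw
      rw [tt1_m, hκ.zero _ hw.le, zero_mul]
    have : gr (fun _ => 0) z = 0 := by
      rw [gr, show rC (fun _ => 0) = fun _ => 0 from funext fun _ => ofReal_zero, dzb_const]
    rw [gr_congr ev, this, ev.self_of_nhds]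
    simp only [map_zero, mul_zero, add_zero, ofReal_zero, zero_mul, norm_zero,
      zero_pow two_ne_zero]
    positivity
  · have h4 := not_lt.1 hp
    have h0 : 0 < ps σ u lam z := by linarith
    have p0 := pn_pos n
    have l0 := tt1_lam hκ
    have s0 := hσ.pos z hz
    obtain ⟨q0, q1⟩ := qq_mem (u := u) hσ hl hz
    rw [tt1_gr hσ h.cd hκ n hz h0]
    have c1 : |deriv κ (ps σ u lam z) * (qq σ u lam z ^ n / pn n - 1)
        - κ (ps σ u lam z) * (n * qq σ u lam z ^ n / pn n) / ps σ u lam z|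
        ≤ (Λ * ((pn n)⁻¹ + 1) + Λ * (n * (pn n)⁻¹)) / ps σ u lam z ^ 3 := by
      refine (abs_sub _ _).trans ?_
      rw [abs_mul, abs_div, abs_mul, abs_of_pos h0,
        abs_of_nonneg (a := n * qq σ u lam z ^ n / pn n) (by positivity)]
      have a1 := mul_le_mul (hκ.b1 _ h0) (tt1_M (u := u) hσ hl hz n) (abs_nonneg _) (by positivity)
      have a2 : n * qq σ u lam z ^ n / pn n ≤ n * (pn n)⁻¹ := by
        rw [div_eq_mul_inv]
        gcongr
        exact mul_le_of_le_one_right (by positivity) (pow_le_one₀ q0 q1)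
      have a3 := div_le_div_of_nonneg_right
        (mul_le_mul (hκ.b0 _ h0) a2 (by positivity) (by positivity)) h0.le
      refine (add_le_add a1 a3).trans (le_of_eq ?_)
      field_simp
    have c2 : ‖TT σ u lam z‖ ≤ 4 * ps σ u lam z * ‖gr (ps σ u lam) z‖ :=
      (norm_TT hσ hz).trans (mul_le_mul_of_nonneg_right (by linarith [SS_le (σ := σ) (u := u) hl z])
        (norm_nonneg _))
    have c3 : ‖2 * gr (ps σ u lam) z - ZZ σ u z * conj (gr σ z) / σ z‖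
        ≤ 2 * ‖gr (ps σ u lam) z‖ + SS σ u z * s := by
      refine (norm_sub_le _ _).trans (add_le_add (by simp) ?_)
      rw [norm_div, norm_mul, norm_ZZ hσ hz, norm_conj, norm_real, Real.norm_of_nonneg s0.le,
        mul_div_assoc]
      exact mul_le_mul_of_nonneg_left hs (SS_nonneg hσ hz)
    have c4 := tt1_m_le (u := u) hσ hl hκ n hz h0
    have c5 := tt1_U (u := u) hσ hl hκ n hz
    have c6 := en_ge hσ hl hz h4
    have s1 : 0 ≤ s := le_trans (by positivity) hs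
    have P0 : 0 ≤ Λ * ((pn n)⁻¹ + 1) := by positivity
    have Q0 : 0 ≤ Λ * (n * (pn n)⁻¹) := by positivity
    generalize Λ * ((pn n)⁻¹ + 1) = P at *
    generalize Λ * (n * (pn n)⁻¹) = Q at *
    have g0 := norm_nonneg (gr (ps σ u lam) z)
    have c7 : (‖gr (ps σ u lam) z‖ / ps σ u lam z ^ 2) ^ 2 ≤ 24 * en σ u lam 1 z := by
      refine le_trans ?_ (show 4 * (‖gr (ps σ u lam) z‖ ^ 2 / ps σ u lam z ^ 3) ≤ _ by linarith)
      rw [div_pow, ← mul_div_assoc, div_le_div_iff₀ (by positivity) (by positivity)]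
      nlinarith [mul_nonneg (by positivity : 0 ≤ ‖gr (ps σ u lam) z‖ ^ 2 * ps σ u lam z ^ 3)
        (by linarith : 0 ≤ 4 * ps σ u lam z - 1)]
    refine (pow_le_pow_left₀ (norm_nonneg _) (b := (6 * P + 4 * Q)
      * (‖gr (ps σ u lam) z‖ / ps σ u lam z ^ 2) + 8 * P * s) ?_ 2).trans ?_
    · refine (norm_add_le _ _).trans ?_
      rw [norm_mul, norm_mul, norm_real, norm_real, Real.norm_eq_abs, Real.norm_eq_abs]
      have a1 := mul_le_mul c1 c2 (norm_nonneg _) (by positivity)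
      have a2 := mul_le_mul_of_nonneg_left c3 (abs_nonneg (tt1_m σ u lam κ n z))
      have a3 := mul_le_mul_of_nonneg_right c4 g0
      have a4 := mul_le_mul_of_nonneg_right c5 s1
      have a5 : (P + Q) / ps σ u lam z ^ 3 * (4 * ps σ u lam z * ‖gr (ps σ u lam) z‖)
          = (4 * P + 4 * Q) * (‖gr (ps σ u lam) z‖ / ps σ u lam z ^ 2) := by
        field_simp
      have a6 : P / ps σ u lam z ^ 2 * ‖gr (ps σ u lam) z‖
          = P * (‖gr (ps σ u lam) z‖ / ps σ u lam z ^ 2) := by ring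
      nlinarith
    · generalize ‖gr (ps σ u lam) z‖ / ps σ u lam z ^ 2 = x at *
      generalize 6 * P + 4 * Q = a
      generalize 8 * P * s = b
      nlinarith [sq_nonneg (a * x - b), mul_le_mul_of_nonneg_left c7 (sq_nonneg a),
        mul_nonneg (sq_nonneg b) e0, sq_nonneg a]

lemma tt1_W (hσ : Met σ) (hl : 0 ≤ lam) (hz : z ∈ UH) :
    ‖F1 (ps σ u lam z) * gr (ps σ u lam) z‖ ^ 2 ≤ 80 * (en σ u lam 1 z + 1) := by
  have S0 := SS_nonneg (u := u) hσ hz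
  have f0 := F1_nonneg (ps σ u lam z)
  have a : F1 (ps σ u lam z) * (SS σ u z + 1) ≤ 80 := by
    by_cases h : ps σ u lam z ≤ 1 / 8
    · rw [F1_zero h]; norm_num
    · have h0 : 0 < ps σ u lam z := by linarith
      have := SS_le (σ := σ) (u := u) hl z
      rw [F1, div_mul_eq_mul_div, div_le_iff₀ (by positivity)]
      nlinarith [th_le (ps σ u lam z), th_nonneg (ps σ u lam z)]
  have e : F1 (ps σ u lam z) * ‖gr (ps σ u lam) z‖ ^ 2 = en σ u lam 1 z * (SS σ u z + 1) := by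
    rw [en, normSq_eq_norm_sq, div_mul_cancel₀ _ (by positivity)]
  have e0 := en_nonneg (u := u) (lam := lam) hσ one_pos hz
  rw [norm_mul, norm_real, Real.norm_of_nonneg f0, mul_pow, sq (F1 _), mul_assoc, e]
  nlinarith [mul_le_mul_of_nonneg_left a e0]

lemma tt1_int (hσ : Met σ) (hK : Cp K) (h : Sol σ K₀ CE CM u lam) {F : ℂ → ℂ} {D D' : ℝ}
    (hD : 0 ≤ D) (hD' : D' ≤ D) (hF : ∀ z ∈ K, ‖F z‖ ^ 2 ≤ D' * (en σ u lam 1 z + 1)) :
    ∫ z in K, ‖F z‖ ^ 2 ≤ D * (CE K + volume.real K) := by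
  have i1 : IntegrableOn (en σ u lam 1) K :=
    ((co_en hσ h.eg.cd one_pos).mono hK.2).integrableOn_compact hK.1
  have i2 : IntegrableOn (fun _ : ℂ => (1 : ℝ)) K := continuousOn_const.integrableOn_compact hK.1
  calc _ ≤ ∫ z in K, D * (en σ u lam 1 z + 1) := by
        refine integral_mono_of_nonneg (Eventually.of_forall fun x => sq_nonneg _)
          ((i1.add i2).const_mul D) ?_
        filter_upwards [ae_restrict_mem hK.1.measurableSet] with z hz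
        exact (hF z hz).trans (mul_le_mul_of_nonneg_right hD'
          (add_nonneg (en_nonneg hσ one_pos (hK.2 hz)) zero_le_one))
    _ ≤ _ := by
        rw [integral_const_mul, integral_add i1 i2]
        have := h.en K hK 1 one_pos
        simp only [integral_const, measureReal_restrict_apply_univ, smul_eq_mul, mul_one]
        gcongr

lemma tt1_norm (hK : Cp K) {w F : ℂ → ℂ} {C B : ℝ} (hw : CutC w K C) (hF : ContinuousOn F UH)
    (hB : ∫ z in K, ‖F z‖ ^ 2 ≤ B) : ‖∫ z, w z * F z‖ ≤ C * (B + volume.real K) := by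
  have hC : 0 ≤ C := (norm_nonneg _).trans (hw.b0 0)
  have i1 : IntegrableOn (fun z => ‖F z‖ ^ 2) K :=
    ((hF.mono hK.2).norm.pow 2).integrableOn_compact hK.1
  have i2 : IntegrableOn (fun _ : ℂ => (1 : ℝ)) K := continuousOn_const.integrableOn_compact hK.1
  rw [← setIntegral_eq_integral_of_forall_compl_eq_zero (s := K) fun x hx => by
    rw [image_eq_zero_of_notMem_tsupport fun h' => hx (hw.sub h'), zero_mul]]
  calc _ ≤ ∫ z in K, C * (‖F z‖ ^ 2 + 1) := by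
        refine norm_integral_le_of_norm_le ((i1.add i2).const_mul _)
          (Eventually.of_forall fun x => ?_)
        rw [norm_mul]
        exact mul_le_mul (hw.b0 x) (by nlinarith [sq_nonneg (‖F x‖ - 1), norm_nonneg (F x)])
          (norm_nonneg _) hC
    _ ≤ _ := by
        rw [integral_const_mul, integral_add i1 i2]
        simp only [integral_const, measureReal_restrict_apply_univ, smul_eq_mul, mul_one]
        gcongr

lemma tt1_prod {φ f g : ℂ → ℂ} {c a b : ℝ} (hφ : CutC φ K c) (hf : ∀ x ∈ K, ‖f x‖ ≤ a)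
    (hg : ∀ x ∈ K, ‖g x‖ ≤ b) : ‖∫ x, φ x * f x * g x‖ ≤ c * a * b * volume.real K := by
  have hc : 0 ≤ c := (norm_nonneg _).trans (hφ.b0 0)
  rw [← setIntegral_eq_integral_of_forall_compl_eq_zero (s := K) fun x hx => by
    rw [image_eq_zero_of_notMem_tsupport fun h' => hx (hφ.sub h'), zero_mul, zero_mul]]
  refine norm_setIntegral_le_of_norm_le_const hφ.cpt.measure_lt_top fun x hx => ?_
  rw [norm_mul, norm_mul]
  exact mul_le_mul (mul_le_mul (hφ.b0 x) (hf x hx) (norm_nonneg _) hc) (hg x hx) (norm_nonneg _)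
    (mul_nonneg hc ((norm_nonneg _).trans (hf x hx)))

theorem tt1 (hσ : Met σ) (hK : Cp K) (CE : Set ℂ → ℝ) (n : ℕ) (Λ c : ℝ) {ε : ℝ} (hε : 0 < ε) :
    ∃ L : ℝ, ∀ (u : ℂ → ℝ) (lam : ℝ) (K₀ : Set ℂ) (CM : Set ℂ → ℝ), Sol σ K₀ CE CM u lam →
      L ≤ lam → ∀ (κ : ℝ → ℝ) (φ : ℂ → ℂ), Adm κ Λ → CutC φ K c →
        ‖∫ z, φ z * (κ (ps σ u lam z) / ps σ u lam z ^ 2 * (qq σ u lam z ^ n / pn n - 1) : ℝ)
          * TT σ u lam z‖ ≤ ε := by
  obtain ⟨e₀, C₁, K₁, e0, e1, -, hK₁, sub, hd⟩ := dcu hK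
  obtain ⟨Ck, -, hk⟩ := ker_cut
  obtain ⟨Cm, hm⟩ := phaseM hσ hK₁ CE n
  obtain ⟨s, hs⟩ : ∃ s, ∀ z ∈ K₁, ‖gr σ z‖ / σ z ≤ s := by
    obtain ⟨s, hs⟩ := hK₁.1.exists_bound_of_continuousOn
      (((cd_gr hσ.cd).continuousOn.norm.div hσ.cd.continuousOn
        fun z hz => (hσ.pos z hz).ne').mono hK₁.2)
    exact ⟨s, fun z hz => (le_abs_self _).trans (hs z hz)⟩
  obtain ⟨D, D0, D1, D2, D3⟩ : ∃ D : ℝ, 0 ≤ D ∧ 80 ≤ D ∧ (8 * (Λ * ((pn n)⁻¹ + 1))) ^ 2 ≤ D ∧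
      48 * (6 * (Λ * ((pn n)⁻¹ + 1)) + 4 * (Λ * (n * (pn n)⁻¹))) ^ 2
        + 2 * (8 * (Λ * ((pn n)⁻¹ + 1)) * s) ^ 2 ≤ D :=
    ⟨max 80 (max _ _), by positivity, le_max_left _ _, le_max_of_le_right (le_max_left _ _),
      le_max_of_le_right (le_max_right _ _)⟩
  obtain ⟨B, hB⟩ : ∃ B, B = D * (CE K₁ + volume.real K₁) := ⟨_, rfl⟩
  obtain ⟨e, ⟨h0, h1⟩, h2⟩ : ∃ e, e ∈ Ioc 0 e₀ ∧ C₁ * e * c * B < ε / 2 := by
    have t : Tendsto (fun e : ℝ => C₁ * e * c * B) (𝓝[>] 0) (𝓝 (C₁ * 0 * c * B)) :=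
      (Continuous.tendsto (by fun_prop) 0).mono_left nhdsWithin_le_nhds
    exact (Eventually.and (p := fun e => e ∈ Ioc 0 e₀) (Ioc_mem_nhdsGT e0)
      (t.eventually (gt_mem_nhds (by simpa using hε)))).exists
  obtain ⟨L, hL⟩ := eventually_atTop.1 ((Real.tendsto_sqrt_atTop.const_div_atTop
    (c * (Ck / e ^ 3 * (B + volume.real K₁)) * (Cm * Λ * (Ck / e ^ 3)) * volume.real K)).eventually
    (gt_mem_nhds (show 0 < ε / 4 by positivity)))
  refine ⟨L, fun u lam K₀ CM h hl κ φ hκ hφ => ?_⟩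
  have l0 : 0 ≤ lam := zero_le_one.trans h.eg.one
  have cp := cd_ps (lam := lam) hσ h.eg.cd
  have cf : ContDiffOn ℝ ∞ (fun w => F0 (ps σ u lam w)) UH := F0_cd.comp_contDiffOn cp
  have cm := cd_rC (tt1_cd (lam := lam) hσ h.eg.cd hκ n)
  have eW : ∀ z ∈ UH, gr (fun w => F0 (ps σ u lam w)) z = F1 (ps σ u lam z) * gr (ps σ u lam) z :=
    fun z hz => gr_comp (F0_deriv _) (dAt cp hz)
  have cW := cd1 (cd_gr cf)
  have cW' : ContDiffOn ℝ 1 (fun z => -1 * dz (rC fun w => F0 (ps σ u lam w)) z) UH :=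
    contDiffOn_const.mul (cd1 (cd_dz (cd_rC cf)))
  have bU : ∀ z ∈ K₁, (|tt1_m σ u lam κ n z| * SS σ u z) ^ 2
      ≤ (8 * (Λ * ((pn n)⁻¹ + 1))) ^ 2 * (en σ u lam 1 z + 1) := fun z hz =>
    (pow_le_pow_left₀ (mul_nonneg (abs_nonneg _) (SS_nonneg hσ (hK₁.2 hz)))
      (tt1_U hσ l0 hκ n (hK₁.2 hz)) 2).trans (le_mul_of_one_le_right (sq_nonneg _)
        (le_add_of_nonneg_left (en_nonneg hσ one_pos (hK₁.2 hz))))
  have bW : ∫ z in K₁, ‖gr (fun w => F0 (ps σ u lam w)) z‖ ^ 2 ≤ B :=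
    hB ▸ tt1_int hσ hK₁ h D0 D1 fun z hz => by
      rw [eW z (hK₁.2 hz)]; exact tt1_W hσ l0 (hK₁.2 hz)
  have bW' : ∫ z in K₁, ‖-1 * dz (rC fun w => F0 (ps σ u lam w)) z‖ ^ 2 ≤ B := by
    simpa only [dz_rC, norm_mul, norm_neg, norm_one, one_mul, norm_conj] using bW
  have key := hd φ (fun w => tt1_m σ u lam κ n w * ZZ σ u w)
    (fun w => tt1_m σ u lam κ n w * SS σ u w) _ _ c B e h0 h1 hφ
    (cd1 (cm.mul (cd_ZZ hσ h.eg.cd))) (cd1 (cm.mul (cd_rC (cd_SS hσ h.eg.cd)))) cW cW'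
    (hB ▸ tt1_int hσ hK₁ h D0 D2 fun z hz => by
      rw [norm_mul, norm_ZZ hσ (hK₁.2 hz), norm_real]; exact bU z hz)
    (hB ▸ tt1_int hσ hK₁ h D0 D2 fun z hz => by
      rw [norm_mul, norm_real, norm_real, Real.norm_of_nonneg (SS_nonneg hσ (hK₁.2 hz))]
      exact bU z hz)
    (hB ▸ tt1_int hσ hK₁ h D0 D3 fun z hz => tt1_E hσ h.eg hκ n (hK₁.2 hz) (hs z hz)) bW bW'
    (hB ▸ tt1_int hσ hK₁ h D0 le_rfl fun z hz => by
      rw [eP, dzb_cmul _ (dAt (cd_dz (cd_rC cf)) (hK₁.2 hz)),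
        ← dz_dzb ((cdAt (cd_rC cf) (hK₁.2 hz)).of_le (by norm_cast)), neg_one_mul,
        show gr (fun w => F0 (ps σ u lam w)) = dzb (rC _) from rfl, add_neg_cancel, norm_zero,
        zero_pow two_ne_zero]
      exact mul_nonneg D0 (add_nonneg (en_nonneg hσ one_pos (hK₁.2 hz)) zero_le_one))
  have kc : ∀ x ∈ K, CutC (ker e x) K₁ (Ck / e ^ 3) := fun x hx =>
    have a := hk e x h0 (h1.trans e1)
    ⟨a.cd, hK₁.1, a.sub.trans fun y hy =>
      sub (mem_cthickening_of_dist_le _ x _ _ hx ((mem_closedBall.1 hy).trans h1)), a.b0, a.b1, a.b2⟩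
  have n1 := tt1_prod hφ
    (fun x hx => (moll_eq h0 _ x).symm ▸ tt1_norm hK₁ (kc x hx) cW.continuousOn bW)
    (g := moll e fun w => tt1_m σ u lam κ n w * SS σ u w) fun x hx => by
      rw [moll_eq h0]
      simpa only [mul_assoc, tt1_m] using (hm u lam K₀ CM h κ Λ _ _ hκ (kc x hx)).2
  have n2 := tt1_prod hφ
    (fun x hx => (moll_eq h0 _ x).symm ▸ tt1_norm hK₁ (kc x hx) cW'.continuousOn bW')
    (g := moll e fun w => tt1_m σ u lam κ n w * ZZ σ u w) fun x hx => by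
      rw [moll_eq h0]
      simpa only [mul_assoc, tt1_m] using (hm u lam K₀ CM h κ Λ _ _ hκ (kc x hx)).1
  have T := Ts.of_cut hφ hK
  have e3 : ∫ z, φ z * (κ (ps σ u lam z) / ps σ u lam z ^ 2 * (qq σ u lam z ^ n / pn n - 1) : ℝ)
      * TT σ u lam z
      = (∫ x, φ x * gr (fun w => F0 (ps σ u lam w)) x * (tt1_m σ u lam κ n x * SS σ u x))
        - ∫ x, φ x * (-1 * dz (rC fun w => F0 (ps σ u lam w)) x)
          * (tt1_m σ u lam κ n x * ZZ σ u x) := by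
    simp only [mul_assoc (φ _)]
    rw [← integral_sub
      (by exact T.int (cW.continuousOn.mul (cm.mul (cd_rC (cd_SS hσ h.eg.cd))).continuousOn))
      (by exact T.int (cW'.continuousOn.mul (cm.mul (cd_ZZ hσ h.eg.cd)).continuousOn))]
    congr 1; ext z
    by_cases hz : z ∈ UH
    · have : κ (ps σ u lam z) / ps σ u lam z ^ 2 = κ (ps σ u lam z) * F1 (ps σ u lam z) := by
        by_cases hp : ps σ u lam z ≤ 1 / 4
        · simp [hκ.zero _ hp]
        · rw [F1_one (not_le.1 hp).le]; ring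
      simp only [dz_rC, eW z hz, this, tt1_m, TT, map_mul, conj_ofReal]
      push_cast
      ring
    · simp [image_eq_zero_of_notMem_tsupport fun h' => hz (T.sub h')]
  have h3 := hL lam hl
  have tri : ∀ a b d : ℂ, ‖d‖ ≤ ‖a - b - d‖ + (‖a‖ + ‖b‖) := fun a b d => by
    simpa [norm_sub_rev, add_comm] using
      (norm_sub_le (a - b) (a - b - d)).trans (add_le_add_left (norm_sub_le a b) _)
  rw [e3]
  refine (tri _ _ _).trans ((add_le_add key (add_le_add n1 n2)).trans ?_)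
  have e4 : c * (Ck / e ^ 3 * (B + volume.real K₁)) * (Cm * (Λ * (Ck / e ^ 3)) / √lam)
      * volume.real K = c * (Ck / e ^ 3 * (B + volume.real K₁)) * (Cm * Λ * (Ck / e ^ 3))
        * volume.real K / √lam := by ring
  rw [e4]
  linarith

end Pool.Agent.Lib.MP_a52643_an.CP
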